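import Pool.Agent.Lib_MP_c7e57a.Homog

/-!
# The affine equations of the special complete intersection
-/

namespace Pool.Agent.Lib_MP_c7e57a

open MvPolynomial

variable {n q i : ℕ}

/-- The first of the affine coordinates. -/
def z0 (hi : 1 ≤ i) (hiq : i ≤ q) : Fin q := ⟨0, by omega⟩

/-- The embedding of the first `i` indices. -/
def emq (hiq : i ≤ q) (s : Fin i) : Fin q := ⟨s.val, by omega⟩

/-- The equations of the special complete intersection in the chart where the last of the variables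
`z` is equal to `1`. -/
noncomputable def aff (hi : 1 ≤ i) (hiq : i ≤ q) (d : Fin (q + 1) → ℕ)
    (τ : Fin q → Polynomial ℂ) (V : Fin q → MvPolynomial (Fin i) ℂ)
    (χ : Fin (q + 1) → Fin (n + 1) → Polynomial ℂ) (c : Fin (q + 1)) :
    MvPolynomial (Fin (n + 1) ⊕ Fin q) ℂ :=
  Fin.lastCases (motive := fun _ => MvPolynomial (Fin (n + 1) ⊕ Fin q) ℂ)
    (X (Sum.inl 0) ^ d (Fin.last q))
    (fun c' => Polynomial.aeval (X (Sum.inr c')) (τ c') -
      rename (fun s => Sum.inr (emq hiq s)) (V c')) c +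
  ∑ b, X (Sum.inl b) * Polynomial.aeval (X (Sum.inr (z0 hi hiq))) (χ c b)

theorem aff_castSucc (hi : 1 ≤ i) (hiq : i ≤ q) (d : Fin (q + 1) → ℕ)
    (τ : Fin q → Polynomial ℂ) (V : Fin q → MvPolynomial (Fin i) ℂ)
    (χ : Fin (q + 1) → Fin (n + 1) → Polynomial ℂ) (c' : Fin q) :
    aff hi hiq d τ V χ (Fin.castSucc c') = Polynomial.aeval (X (Sum.inr c')) (τ c') -
      rename (fun s => Sum.inr (emq hiq s)) (V c') +
      ∑ b, X (Sum.inl b) *
        Polynomial.aeval (X (Sum.inr (z0 hi hiq))) (χ (Fin.castSucc c') b) := by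
  unfold aff
  rw [Fin.lastCases_castSucc]

theorem aff_last (hi : 1 ≤ i) (hiq : i ≤ q) (d : Fin (q + 1) → ℕ)
    (τ : Fin q → Polynomial ℂ) (V : Fin q → MvPolynomial (Fin i) ℂ)
    (χ : Fin (q + 1) → Fin (n + 1) → Polynomial ℂ) :
    aff hi hiq d τ V χ (Fin.last q) = X (Sum.inl 0) ^ d (Fin.last q) +
      ∑ b, X (Sum.inl b) *
        Polynomial.aeval (X (Sum.inr (z0 hi hiq))) (χ (Fin.last q) b) := by
  unfold aff
  rw [Fin.lastCases_last]

end Pool.Agent.Lib_MP_c7e57a
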