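import Mathlib

/-!
# Automorphisms of the complex numbers
-/

namespace Pool.Agent.Lib_MP_c7e57a

open Cardinal

theorem ringEquiv_of_bases {κ : Type*} {v w : κ → ℂ} (hv : IsTranscendenceBasis ℚ v)
    (hw : IsTranscendenceBasis ℚ w) : ∃ σ : ℂ ≃+* ℂ, ∀ i, σ (v i) = w i := by
  let _ := IsAlgClosed.isAlgClosure_of_transcendence_basis v hv
  let _ := IsAlgClosed.isAlgClosure_of_transcendence_basis w hw
  let e : Algebra.adjoin ℚ (Set.range v) ≃+* Algebra.adjoin ℚ (Set.range w) :=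
    (hv.1.aevalEquiv.symm.trans hw.1.aevalEquiv).toRingEquiv
  refine ⟨IsAlgClosure.equivOfEquiv ℂ ℂ e, fun i => ?_⟩
  have h1 : v i = algebraMap (Algebra.adjoin ℚ (Set.range v)) ℂ
      ⟨v i, Algebra.subset_adjoin ⟨i, rfl⟩⟩ := rfl
  conv_lhs => rw [h1]
  rw [IsAlgClosure.equivOfEquiv_algebraMap]
  have h2 : hv.1.aevalEquiv (MvPolynomial.X i) = ⟨v i, Algebra.subset_adjoin ⟨i, rfl⟩⟩ := by
    apply Subtype.ext
    simp
  have h3 : e ⟨v i, Algebra.subset_adjoin ⟨i, rfl⟩⟩ = hw.1.aevalEquiv (MvPolynomial.X i) := by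
    show hw.1.aevalEquiv (hv.1.aevalEquiv.symm ⟨v i, _⟩) = _
    rw [← h2, AlgEquiv.symm_apply_apply]
  rw [h3]
  simp

theorem exists_ringEquiv {ι : Type} [Finite ι] {x y : ι → ℂ} (hx : AlgebraicIndependent ℚ x)
    (hy : AlgebraicIndependent ℚ y) : ∃ σ : ℂ ≃+* ℂ, ∀ i, σ (x i) = y i := by
  obtain ⟨s, hs, hsb⟩ := exists_isTranscendenceBasis_superset
    (R := ℚ) (s := Set.range x) ((algebraicIndependent_subtype_range hx.injective).2 hx)
  obtain ⟨t, ht, htb⟩ := exists_isTranscendenceBasis_superset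
    (R := ℚ) (s := Set.range y) ((algebraicIndependent_subtype_range hy.injective).2 hy)
  have hs1 : #ℂ = #s := IsAlgClosed.cardinal_eq_cardinal_transcendence_basis_of_aleph0_lt' _ hsb
    (by simp) (by rw [Cardinal.mk_complex]; exact Cardinal.aleph0_lt_continuum)
  have ht1 : #ℂ = #t := IsAlgClosed.cardinal_eq_cardinal_transcendence_basis_of_aleph0_lt' _ htb
    (by simp) (by rw [Cardinal.mk_complex]; exact Cardinal.aleph0_lt_continuum)
  let s0 : Set s := Set.range fun i => (⟨x i, hs ⟨i, rfl⟩⟩ : s)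
  have hinj : Function.Injective fun i => (⟨x i, hs ⟨i, rfl⟩⟩ : s) := by
    intro i j h
    exact hx.injective (congrArg Subtype.val h)
  let e0 := Equiv.ofInjective _ hinj
  let f : s0 ↪ t := e0.symm.toEmbedding.trans
    ⟨fun i => ⟨y i, ht ⟨i, rfl⟩⟩, fun i j h => hy.injective (congrArg Subtype.val h)⟩
  have hlt : #s0 < #s := by
    have h1 : #s0 < ℵ₀ := by
      rw [Cardinal.lt_aleph0_iff_finite]
      exact Set.finite_range _
    refine h1.trans_le ?_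
    rw [← hs1, Cardinal.mk_complex]
    exact Cardinal.aleph0_le_continuum
  obtain ⟨g, hg⟩ := Cardinal.extend_function_of_lt f hlt
    (Cardinal.eq.1 (hs1.symm.trans ht1))
  have hwb : IsTranscendenceBasis ℚ (fun i : s => ((g i : t) : ℂ)) := by
    have h1 : AlgebraicIndependent ℚ (fun i : s => ((g i : t) : ℂ)) := htb.1.comp g g.injective
    rw [h1.isTranscendenceBasis_iff_isAlgebraic]
    have h2 : Set.range (fun i : s => ((g i : t) : ℂ)) = Set.range ((↑) : t → ℂ) := by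
      ext z
      constructor
      · rintro ⟨i, rfl⟩; exact ⟨g i, rfl⟩
      · rintro ⟨j, rfl⟩; exact ⟨g.symm j, by simp⟩
    rw [h2]
    exact htb.isAlgebraic
  obtain ⟨σ, hσ⟩ := ringEquiv_of_bases hsb hwb
  refine ⟨σ, fun i => ?_⟩
  have h1 := hσ ⟨x i, hs ⟨i, rfl⟩⟩
  have h2 := hg ⟨⟨x i, hs ⟨i, rfl⟩⟩, ⟨i, rfl⟩⟩
  simp only at h1
  rw [h1, h2]
  have h3 : e0.symm ⟨⟨x i, hs ⟨i, rfl⟩⟩, ⟨i, rfl⟩⟩ = i := Equiv.ofInjective_symm_apply hinj i
  show ((⟨y (e0.symm _), _⟩ : t) : ℂ) = y i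
  simp only
  rw [h3]

end Pool.Agent.Lib_MP_c7e57a
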