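import Mathlib

/-!
# Piece CI-B: choosing points block by block

Choose the points of the blocks one after the other (induction over a finset of blocks, or over
`Fin m` through an equivalence), each time enlarging the set `B` of forbidden coordinates by the
coordinates of the points already chosen. So all coordinates with the same index `s` are distinct.
-/

namespace Pool.Agent.Lib_MP_c7e57a

private theorem Blocks_aux {q : ℕ} {β : Type*} [DecidableEq β] {k : β → ℕ}
    (P : ∀ b, (Fin (k b) → Fin q → ℂ) → Prop)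
    (hP : ∀ b (B : Finset ℂ), ∃ p : Fin (k b) → Fin q → ℂ, (∀ a s, p a s ∉ B) ∧
      (∀ s, Function.Injective fun a => p a s) ∧ P b p) (B : Finset ℂ) (T : Finset β) :
    ∃ p : ∀ b, Fin (k b) → Fin q → ℂ, (∀ b ∈ T, (∀ a s, p b a s ∉ B) ∧
      (∀ s, Function.Injective fun a => p b a s) ∧ P b (p b)) ∧
      ∀ b ∈ T, ∀ b' ∈ T, b ≠ b' → ∀ a a' s, p b a s ≠ p b' a' s := by
  induction T using Finset.induction_on with
  | empty =>
    refine ⟨fun _ _ _ => 0, ?_, ?_⟩
    · intro b hb
      exact absurd hb (Finset.notMem_empty b)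
    · intro b hb
      exact absurd hb (Finset.notMem_empty b)
  | insert b T hbT ih =>
    obtain ⟨p, hp, hd⟩ := ih
    obtain ⟨p', h1, h2, h3⟩ := hP b (B ∪ T.biUnion fun b' => Finset.univ.biUnion fun a =>
      Finset.univ.image (p b' a))
    have hne : ∀ b' ∈ T, b' ≠ b := fun b' hb' h => hbT (h ▸ hb')
    have hup : ∀ b' ∈ T, Function.update p b p' b' = p b' := fun b' hb' =>
      Function.update_of_ne (hne b' hb') _ _
    have hub : Function.update p b p' b = p' := Function.update_self _ _ _
    have h4 : ∀ b' ∈ T, ∀ a a' s, p' a s ≠ p b' a' s := by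
      intro b' hb' a a' s h
      refine h1 a s (Finset.mem_union_right _ ?_)
      rw [Finset.mem_biUnion]
      refine ⟨b', hb', ?_⟩
      rw [Finset.mem_biUnion]
      exact ⟨a', Finset.mem_univ _, Finset.mem_image.2 ⟨s, Finset.mem_univ _, h.symm⟩⟩
    refine ⟨Function.update p b p', ?_, ?_⟩
    · intro c hc
      rcases Finset.mem_insert.1 hc with rfl | hc
      · rw [hub]
        exact ⟨fun a s h => h1 a s (Finset.mem_union_left _ h), h2, h3⟩
      · rw [hup c hc]
        exact hp c hc
    · intro c hc c' hc' hcc a a' s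
      rcases Finset.mem_insert.1 hc with h5 | h5
      · rcases Finset.mem_insert.1 hc' with h6 | h6
        · exact absurd (h5.trans h6.symm) hcc
        · subst h5
          rw [hub, hup c' h6]
          exact h4 c' h6 a a' s
      · rcases Finset.mem_insert.1 hc' with h6 | h6
        · subst h6
          rw [hub, hup c h5]
          exact (h4 c h5 a' a s).symm
        · rw [hup c h5, hup c' h6]
          exact hd c h5 c' h6 hcc a a' s

theorem exists_blocks {q : ℕ} {β : Type*} [Fintype β] [DecidableEq β] {k : β → ℕ}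
    (P : ∀ b, (Fin (k b) → Fin q → ℂ) → Prop)
    (hP : ∀ b (B : Finset ℂ), ∃ p : Fin (k b) → Fin q → ℂ, (∀ a s, p a s ∉ B) ∧
      (∀ s, Function.Injective fun a => p a s) ∧ P b p) (B : Finset ℂ) :
    ∃ p : (Σ b, Fin (k b)) → Fin q → ℂ, (∀ a s, p a s ∉ B) ∧
      (∀ s, Function.Injective fun a => p a s) ∧ ∀ b, P b fun x => p ⟨b, x⟩ := by
  obtain ⟨p, hp, hd⟩ := Blocks_aux P hP B Finset.univ
  refine ⟨fun x => p x.1 x.2, ?_, ?_, ?_⟩
  · rintro ⟨b, a⟩ s
    exact (hp b (Finset.mem_univ b)).1 a s
  · rintro s ⟨b, a⟩ ⟨b', a'⟩ h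
    by_cases hb : b = b'
    · subst hb
      exact congrArg (Sigma.mk b) ((hp b (Finset.mem_univ b)).2.1 s h)
    · exact absurd h (hd b (Finset.mem_univ b) b' (Finset.mem_univ b') hb a a' s)
  · intro b
    exact (hp b (Finset.mem_univ b)).2.2

end Pool.Agent.Lib_MP_c7e57a
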