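import Mathlib

/-!
# Points with algebraically independent coordinates
-/

namespace Pool.Agent.Lib_MP_c7e57a

open MvPolynomial Topology

theorem dense_ne_zero {ι : Type*} [Fintype ι] {P : MvPolynomial ι ℂ} (hP : P ≠ 0) :
    Dense {x : ι → ℂ | eval x P ≠ 0} := by
  rw [← Set.compl_ofPred, ← interior_eq_empty_iff_dense_compl]
  by_contra h
  obtain ⟨x, hx⟩ := Set.nonempty_iff_ne_empty.2 h
  rw [mem_interior_iff_mem_nhds] at hx
  obtain ⟨ε, hε, hball⟩ := Metric.mem_nhds_iff.1 hx
  apply hP
  apply MvPolynomial.funext_set (fun i => Metric.ball (x i) ε)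
  · intro i
    exact infinite_of_mem_nhds (x i) (Metric.ball_mem_nhds _ hε)
  · intro y hy
    rw [map_zero]
    apply hball
    rw [ball_pi _ hε]
    exact hy

theorem exists_algebraicIndependent {ι : Type*} [Fintype ι] {U : Set (ι → ℂ)} (hU : IsOpen U)
    (hne : U.Nonempty) : ∃ x ∈ U, AlgebraicIndependent ℚ x := by
  have hcount : Countable (MvPolynomial ι ℚ) := by
    rw [← Cardinal.mk_le_aleph0_iff]
    refine MvPolynomial.cardinalMk_le_max_lift.trans ?_
    simp
  have hd : Dense (⋂ P : {P : MvPolynomial ι ℚ // P ≠ 0},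
      {x : ι → ℂ | eval x (map (algebraMap ℚ ℂ) P.1) ≠ 0}) := by
    apply dense_iInter_of_isOpen
    · intro P
      apply isOpen_ne_fun
      · exact MvPolynomial.continuous_eval _
      · exact continuous_const
    · intro P
      apply dense_ne_zero
      intro h
      apply P.2
      exact map_injective _ (algebraMap ℚ ℂ).injective (by rw [h, map_zero])
  obtain ⟨x, hxU, hx⟩ := hd.inter_open_nonempty U hU hne
  refine ⟨x, hxU, ?_⟩
  rw [algebraicIndependent_iff]
  intro p hp
  by_contra hne
  have h1 := Set.mem_iInter.1 hx ⟨p, hne⟩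
  apply h1
  rw [eval_map, ← hp]
  rfl

end Pool.Agent.Lib_MP_c7e57a
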