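import Pool.Agent.Lib_MP_c7e57a.Near2

/-!
# Complete intersections near a special one, third part
-/

namespace Pool.Agent.Lib_MP_c7e57a

open Topology MvPolynomial

variable {n q : ℕ}

theorem eval_pderiv_deh_fib (l : Fin (n + 1) → Fin (q + 1) → ℂ) (z : Fin (q + 1) → ℂ)
    (s : Fin (q + 1)) (f : MvPolynomial (Vars n q) ℂ) :
    eval z (pderiv s (deh (fib l (tt0 n) f))) =
      ∑ b, l b s * eval (pt0 l z) (pderiv (Sum.inl b) f) +
        eval (pt0 l z) (pderiv (Sum.inr s) f) := by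
  classical
  induction f using MvPolynomial.induction_on with
  | C a =>
    have h1 : deh (fib l (tt0 n) (C a)) = C a := by
      unfold fib deh
      rw [aeval_C, MvPolynomial.algebraMap_eq, aeval_C, MvPolynomial.algebraMap_eq]
    rw [h1]
    simp
  | add p q hp hq =>
    simp only [map_add, hp, hq, mul_add, Finset.sum_add_distrib]
    ring
  | mul_X p s' hp =>
    have hX : eval z (pderiv s (deh (fib l (tt0 n) (X s')))) =
        ∑ b, l b s * eval (pt0 l z) (pderiv (Sum.inl b) (X s')) +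
        eval (pt0 l z) (pderiv (Sum.inr s) (X s')) := by
      rcases s' with b | s'
      · have h1 : deh (fib l (tt0 n) (X (Sum.inl b))) =
            C (tt0 n b) + ∑ s, C (l b s) * X s := by
          unfold fib
          rw [aeval_X, Sum.elim_inl, map_add, map_mul, deh_none, mul_one, map_sum]
          have hC : ∀ a : ℂ, deh (C a : MvPolynomial (Option (Fin (q + 1))) ℂ) = C a := by
            intro a
            unfold deh
            rw [aeval_C, MvPolynomial.algebraMap_eq]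
          rw [hC]
          congr 1
          refine Finset.sum_congr rfl fun s _ => ?_
          rw [map_mul, deh_some, hC]
        rw [h1, map_add, pderiv_C, zero_add, map_sum, map_sum]
        simp only [Derivation.leibniz, pderiv_X, pderiv_C, smul_eq_mul, mul_zero, add_zero,
          map_mul, eval_C]
        rw [Finset.sum_eq_single s, Finset.sum_eq_single b]
        · simp
        · intro b' _ hb'
          rw [Pi.single_eq_of_ne (by simpa using hb'.symm)]
          simp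
        · intro h; exact absurd (Finset.mem_univ _) h
        · intro s' _ hs'
          rw [Pi.single_eq_of_ne hs']
          simp
        · intro h; exact absurd (Finset.mem_univ _) h
      · have h1 : deh (fib l (tt0 n) (X (Sum.inr s'))) = X s' := by
          unfold fib
          rw [aeval_X, Sum.elim_inr, deh_some]
        rw [h1]
        simp only [pderiv_X]
        rw [Finset.sum_eq_zero]
        · by_cases h : s = s'
          · subst h; simp
          · rw [Pi.single_eq_of_ne (Ne.symm h),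
              Pi.single_eq_of_ne (by simpa using Ne.symm h)]
            simp
        · intro b _
          rw [Pi.single_eq_of_ne (by simp)]
          simp
    have h2 : ∀ P : MvPolynomial (Vars n q) ℂ, eval z (deh (fib l (tt0 n) P)) =
        eval (pt0 l z) P := fun P => eval_deh_fib l z P
    rw [map_mul, map_mul, Derivation.leibniz, map_add, smul_eq_mul, smul_eq_mul, map_mul, map_mul,
      hp, hX, h2, h2]
    simp only [Derivation.leibniz, smul_eq_mul, map_add, map_mul, mul_add, Finset.sum_add_distrib,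
      Finset.mul_sum]
    have h3 : ∀ b, l b s * (eval (pt0 l z) p * eval (pt0 l z) (pderiv (Sum.inl b) (X s'))) =
        eval (pt0 l z) p * (l b s * eval (pt0 l z) (pderiv (Sum.inl b) (X s'))) :=
      fun b => by ring
    have h4 : ∀ b, l b s * (eval (pt0 l z) (X s') * eval (pt0 l z) (pderiv (Sum.inl b) p)) =
        eval (pt0 l z) (X s') * (l b s * eval (pt0 l z) (pderiv (Sum.inl b) p)) :=
      fun b => by ring
    rw [Finset.sum_congr rfl fun b _ => h3 b, Finset.sum_congr rfl fun b _ => h4 b]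
    ring

/-- The parameters of the universal family. -/
abbrev Par (n q : ℕ) (d : Fin (q + 1) → ℕ) :=
  (Σ c, Mon (Vars n q) (d c)) ⊕ ((Fin (n + 1) × Fin (q + 1)) ⊕ Fin (q + 1))

section

variable {d : Fin (q + 1) → ℕ}

/-- The point of the parameter space. -/
def parPt (φ : (Σ c, Mon (Vars n q) (d c)) → ℂ) (l : Fin (n + 1) → Fin (q + 1) → ℂ)
    (z : Fin (q + 1) → ℂ) : Par n q d → ℂ :=
  Sum.elim φ (Sum.elim (fun x => l x.1 x.2) z)

/-- The universal restricted form. -/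
noncomputable def fibGen (n : ℕ) {q : ℕ} (d : Fin (q + 1) → ℕ) (c : Fin (q + 1)) :
    MvPolynomial (Option (Fin (q + 1))) (MvPolynomial (Par n q d) ℂ) :=
  fib (fun b s => X (Sum.inr (Sum.inl (b, s)))) (fun b => C (tt0 n b))
    (∑ α : Mon (Vars n q) (d c), monomial α.1 (X (Sum.inl ⟨c, α⟩)))

theorem map_fibGen (φ : (Σ c, Mon (Vars n q) (d c)) → ℂ) (l : Fin (n + 1) → Fin (q + 1) → ℂ)
    (z : Fin (q + 1) → ℂ) (c : Fin (q + 1)) :
    map (eval (parPt φ l z)) (fibGen n d c) = fib l (tt0 n) (poly d φ c) := by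
  have h1 : (fun (b : Fin (n + 1)) (s : Fin (q + 1)) =>
      (eval (parPt φ l z)) (X (Sum.inr (Sum.inl (b, s))))) = l := by
    funext b s
    rw [eval_X]
    rfl
  have h2 : (fun b : Fin (n + 1) => (eval (parPt φ l z)) (C (tt0 n b))) = tt0 n := by
    funext b
    rw [eval_C]
  have h3 : map (eval (parPt φ l z)) (∑ α : Mon (Vars n q) (d c),
      monomial α.1 (X (Sum.inl ⟨c, α⟩))) = poly d φ c := by
    unfold poly
    rw [map_sum]
    refine Finset.sum_congr rfl fun α _ => ?_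
    rw [map_monomial, eval_X]
    rfl
  unfold fibGen
  rw [fib_map, h1, h2, h3]

theorem det_eq (φ : (Σ c, Mon (Vars n q) (d c)) → ℂ) (l : Fin (n + 1) → Fin (q + 1) → ℂ)
    (z : Fin (q + 1) → ℂ) (m : ℕ) :
    (mat d (fun c => fib l (tt0 n) (poly d φ c)) m).det =
      eval (parPt φ l z) (mat d (fibGen n d) m).det := by
  rw [← det_map]
  congr 2
  funext c
  rw [map_fibGen]

theorem jac_eq (φ : (Σ c, Mon (Vars n q) (d c)) → ℂ) (l : Fin (n + 1) → Fin (q + 1) → ℂ)
    (z : Fin (q + 1) → ℂ) :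
    (Matrix.of fun c s => eval z (pderiv s (deh (fib l (tt0 n) (poly d φ c))))).det =
      eval (parPt φ l z) (Matrix.of fun c s =>
        eval (fun s => X (Sum.inr (Sum.inr s))) (pderiv s (deh (fibGen n d c)))).det := by
  rw [RingHom.map_det]
  congr 1
  ext c s
  simp only [Matrix.of_apply, RingHom.mapMatrix_apply, Matrix.map_apply]
  rw [← map_fibGen φ l z c, deh_map, pderiv_map, eval_map]
  rw [← eval₂_id (g := fun s => (X (Sum.inr (Sum.inr s)) : MvPolynomial (Par n q d) ℂ)),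
    eval₂_comp_left]
  congr 1
  funext s
  simp [parPt]

theorem continuous_parPt : Continuous fun p : ((Σ c, Mon (Vars n q) (d c)) → ℂ) ×
    ((Fin (n + 1) → Fin (q + 1) → ℂ) × (Fin (q + 1) → ℂ)) => parPt p.1 p.2.1 p.2.2 := by
  rw [continuous_pi_iff]
  rintro (i | ⟨b, s⟩ | s)
  · exact (continuous_apply i).comp continuous_fst
  · have h1 : Continuous fun l : Fin (n + 1) → Fin (q + 1) → ℂ => l b s := by fun_prop
    exact h1.comp (continuous_fst.comp continuous_snd)
  · have h1 : Continuous fun z : Fin (q + 1) → ℂ => z s := by fun_prop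
    exact h1.comp (continuous_snd.comp continuous_snd)

end

section

variable {A : Type*} [CommRing A] [Algebra ℂ A] [Module.Finite ℂ A]

theorem near_special {κ : Type*} [Fintype κ] (J1 : (κ → ℂ) →ₗ[ℂ] (Fin (q + 1) → A))
    (J2 : (Fin (q + 1) → A) →ₗ[ℂ] (Fin (q + 1) → A)) {d : Fin (q + 1) → ℕ}
    (φ₀ : (Σ c, Mon (Vars n q) (d c)) → ℂ) (Γ₀ : Fin (q + 1) → A) (z₀ : Fin (q + 1) → ℂ)
    (h0 : ∀ c, aeval (ptA (n := n) 0 Γ₀) (poly d φ₀ c) = 0)
    (hz : ∀ c, eval (pt0 (n := n) 0 z₀) (poly d φ₀ c) = 0)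
    (hJ : (Matrix.of fun c s => eval (pt0 (n := n) 0 z₀)
      (pderiv (Sum.inr s) (poly d φ₀ c))).det ≠ 0)
    (hs : ∀ h : Fin (q + 1) → A, ∃ (l : Fin (n + 1) → Fin (q + 1) → ℂ) (v1 : κ → ℂ)
      (v2 : Fin (q + 1) → A), ∀ c,
      ∑ i, aeval (ptA (n := n) 0 Γ₀) (pderiv i (poly d φ₀ c)) *
        dir Γ₀ l (J1 v1 + J2 v2) i = h c)
    {m : ℕ} (hdet : (mat d (fun c => fib 0 (tt0 n) (poly d φ₀ c)) m).det ≠ 0)
    {O : Set (κ → ℂ)} (hO : O ∈ 𝓝 0) :
    ∀ᶠ φ in 𝓝 φ₀, ∃ (l : Fin (n + 1) → Fin (q + 1) → ℂ) (v1 : κ → ℂ) (v2 : Fin (q + 1) → A)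
      (z : Fin (q + 1) → ℂ), v1 ∈ O ∧
      (∀ c, aeval (ptA l (Γ₀ + (J1 v1 + J2 v2))) (poly d φ c) = 0) ∧
      (∀ c, eval z (deh (fib l (tt0 n) (poly d φ c))) = 0) ∧
      (Matrix.of fun c s => eval z (pderiv s (deh (fib l (tt0 n) (poly d φ c))))).det ≠ 0 ∧
      (mat d (fun c => fib l (tt0 n) (poly d φ c)) m).det ≠ 0 := by
  let iN := normA A
  let iNA := normAlgA A
  have hfd : FiniteDimensional ℂ A := ‹Module.Finite ℂ A›
  let J : ((κ → ℂ) × (Fin (q + 1) → A)) →L[ℂ] (Fin (q + 1) → A) :=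
    LinearMap.toContinuousLinearMap (J1.comp (LinearMap.fst ℂ _ _) +
      J2.comp (LinearMap.snd ℂ _ _))
  have hJv : ∀ v, J v = J1 v.1 + J2 v.2 := fun v => rfl
  let O' : Set (((Σ c, Mon (Vars n q) (d c)) → ℂ) ×
      ((Fin (n + 1) → Fin (q + 1) → ℂ) × ((κ → ℂ) × (Fin (q + 1) → A)) × (Fin (q + 1) → ℂ))) :=
    {p | eval (parPt p.1 p.2.1 p.2.2.2) (mat d (fibGen n d) m).det ≠ 0 ∧
      eval (parPt p.1 p.2.1 p.2.2.2) (Matrix.of fun c s =>
        eval (fun s => X (Sum.inr (Sum.inr s))) (pderiv s (deh (fibGen n d c)))).det ≠ 0 ∧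
      p.2.2.1.1 ∈ O}
  have hcont : Continuous fun p : ((Σ c, Mon (Vars n q) (d c)) → ℂ) ×
      ((Fin (n + 1) → Fin (q + 1) → ℂ) × ((κ → ℂ) × (Fin (q + 1) → A)) × (Fin (q + 1) → ℂ)) =>
      parPt p.1 p.2.1 p.2.2.2 := by
    have h1 : Continuous fun p : ((Σ c, Mon (Vars n q) (d c)) → ℂ) ×
      ((Fin (n + 1) → Fin (q + 1) → ℂ) × ((κ → ℂ) × (Fin (q + 1) → A)) × (Fin (q + 1) → ℂ)) =>
      (p.1, (p.2.1, p.2.2.2)) := by fun_prop
    exact continuous_parPt.comp h1
  have hO' : O' ∈ 𝓝 (φ₀, ((0 : Fin (n + 1) → Fin (q + 1) → ℂ),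
      ((0 : (κ → ℂ) × (Fin (q + 1) → A))), z₀)) := by
    have e1 : ∀ᶠ p in 𝓝 (φ₀, ((0 : Fin (n + 1) → Fin (q + 1) → ℂ),
        ((0 : (κ → ℂ) × (Fin (q + 1) → A))), z₀)),
        eval (parPt p.1 p.2.1 p.2.2.2) (mat d (fibGen n d) m).det ≠ 0 := by
      apply ((MvPolynomial.continuous_eval _).comp hcont).continuousAt.eventually_ne
      show eval (parPt φ₀ 0 z₀) (mat d (fibGen n d) m).det ≠ 0
      rw [← det_eq]
      exact hdet
    have e2 : ∀ᶠ p in 𝓝 (φ₀, ((0 : Fin (n + 1) → Fin (q + 1) → ℂ),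
        ((0 : (κ → ℂ) × (Fin (q + 1) → A))), z₀)),
        eval (parPt p.1 p.2.1 p.2.2.2) (Matrix.of fun c s =>
        eval (fun s => X (Sum.inr (Sum.inr s))) (pderiv s (deh (fibGen n d c)))).det ≠ 0 := by
      apply ((MvPolynomial.continuous_eval _).comp hcont).continuousAt.eventually_ne
      show eval (parPt φ₀ 0 z₀) (Matrix.of fun c s =>
        eval (fun s => X (Sum.inr (Sum.inr s))) (pderiv s (deh (fibGen n d c)))).det ≠ 0
      rw [← jac_eq]
      have h1 : (Matrix.of fun c s => eval z₀ (pderiv s (deh (fib 0 (tt0 n) (poly d φ₀ c))))) =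
          Matrix.of fun c s => eval (pt0 (n := n) 0 z₀)
            (pderiv (Sum.inr s) (poly d φ₀ c)) := by
        ext c s
        simp only [Matrix.of_apply]
        rw [eval_pderiv_deh_fib]
        simp
      rw [h1]
      exact hJ
    have e3 : ∀ᶠ p in 𝓝 (φ₀, ((0 : Fin (n + 1) → Fin (q + 1) → ℂ),
        ((0 : (κ → ℂ) × (Fin (q + 1) → A))), z₀)), p.2.2.1.1 ∈ O := by
      have h1 : Continuous fun p : ((Σ c, Mon (Vars n q) (d c)) → ℂ) ×
        ((Fin (n + 1) → Fin (q + 1) → ℂ) × ((κ → ℂ) × (Fin (q + 1) → A)) × (Fin (q + 1) → ℂ)) =>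
        p.2.2.1.1 := by fun_prop
      exact h1.continuousAt.eventually_mem hO
    filter_upwards [e1, e2, e3] with p h1 h2 h3
    exact ⟨h1, h2, h3⟩
  have hmain := near_normed (n := n) J φ₀ Γ₀ z₀ h0 hz hJ (fun h => by
    obtain ⟨l, v1, v2, hv⟩ := hs h
    exact ⟨l, (v1, v2), hv⟩) hO'
  filter_upwards [hmain] with φ hφ
  obtain ⟨⟨l, ⟨v1, v2⟩, z⟩, ⟨hO1, hO2, hO3⟩, he, hz'⟩ := hφ
  refine ⟨l, v1, v2, z, hO3, fun c => he c, fun c => ?_, ?_, ?_⟩
  · rw [eval_deh_fib]
    exact hz' c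
  · rw [jac_eq]
    exact hO2
  · rw [det_eq φ l z]
    exact hO1

end

end Pool.Agent.Lib_MP_c7e57a
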