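import Pool.Agent.Lib_MP_c7e57a.Good
import Pool.Agent.Lib_MP_c7e57a.Near3

/-!
# Good projections near a special complete intersection
-/

namespace Pool.Agent.Lib_MP_c7e57a

open MvPolynomial Topology

variable {n q : ℕ}

/-- The truncated polynomials. -/
abbrev Jets {α : Type*} (i : ℕ) (j : α → ℕ) (a : α) :=
  MvPolynomial (Fin i) ℂ ⧸ (idealOfVars (Fin i) ℂ) ^ (j a)

section

variable {α : Type*} {i : ℕ} (j : α → ℕ)

theorem aeval_apply {ι : Type*} (x : ι → ∀ a, Jets i j a) (y : α → ι → MvPolynomial (Fin i) ℂ)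
    (h : ∀ s a, x s a = Ideal.Quotient.mk _ (y a s)) (P : MvPolynomial ι ℂ) (a : α) :
    (aeval x P : ∀ a, Jets i j a) a = Ideal.Quotient.mk _ (aeval (y a) P) := by
  induction P using MvPolynomial.induction_on with
  | C r =>
    rw [aeval_C, aeval_C]
    rfl
  | add p q hp hq =>
    rw [map_add, map_add, map_add, Pi.add_apply, hp, hq]
  | mul_X p s hp =>
    rw [map_mul, map_mul, map_mul, Pi.mul_apply, hp, aeval_X, aeval_X, h]

theorem ptA_apply (l : Fin (n + 1) → Fin (q + 1) → ℂ) (Γ : Fin (q + 1) → ∀ a, Jets i j a)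
    (γ : α → Fin (q + 1) → MvPolynomial (Fin i) ℂ)
    (h : ∀ s a, Γ s a = Ideal.Quotient.mk _ (γ a s)) (x : Vars n q) (a : α) :
    (ptA l Γ x) a = Ideal.Quotient.mk _ (ptA l (γ a) x) := by
  rcases x with b | s
  · simp only [ptA, Sum.elim_inl]
    rw [Finset.sum_apply, map_sum]
    refine Finset.sum_congr rfl fun s _ => ?_
    rw [Pi.smul_apply, h]
    rfl
  · exact h s a

theorem dir_apply (l : Fin (n + 1) → Fin (q + 1) → ℂ) (Γ Δ : Fin (q + 1) → ∀ a, Jets i j a)
    (γ δ : α → Fin (q + 1) → MvPolynomial (Fin i) ℂ)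
    (h : ∀ s a, Γ s a = Ideal.Quotient.mk _ (γ a s))
    (h' : ∀ s a, Δ s a = Ideal.Quotient.mk _ (δ a s)) (x : Vars n q) (a : α) :
    (dir Γ l Δ x) a = Ideal.Quotient.mk _ (dir (γ a) l (δ a) x) := by
  rcases x with b | s
  · simp only [dir, Sum.elim_inl]
    rw [Finset.sum_apply, map_sum]
    refine Finset.sum_congr rfl fun s _ => ?_
    rw [Pi.smul_apply, h]
    rfl
  · exact h' s a

end

/-- The direction of the family of the points `γ a`. -/
noncomputable def dlt {α : Type*} {i : ℕ} (v1 : Fin i → α → ℂ)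
    (v2 : Fin (q + 1) → α → MvPolynomial (Fin i) ℂ) (a : α) (s : Fin (q + 1)) :
    MvPolynomial (Fin i) ℂ :=
  if h : s.val < i then C (v1 ⟨s.val, h⟩ a) else if s = Fin.last q then 0 else v2 s a

theorem good_near {i : ℕ} (hi : 1 ≤ i) (hiq : i ≤ q) {α : Type} [Finite α] (j : α → ℕ)
    (γ₀ : α → Fin (q + 1) → MvPolynomial (Fin i) ℂ) (p₀ : α → Fin i → ℂ)
    (hlast : ∀ a, γ₀ a (Fin.last q) = 1) (hγ : ∀ a s, γ₀ a (emb hiq s) = C (p₀ a s) + X s)
    (hp : ∀ a a', p₀ a ⟨0, hi⟩ = p₀ a' ⟨0, hi⟩ → a = a') {d : Fin (q + 1) → ℕ}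
    {f : Fin (q + 1) → MvPolynomial (Vars n q) ℂ} (hf : ∀ c, (f c).IsHomogeneous (d c))
    (h0 : ∀ a c, aeval (ptA (n := n) 0 (γ₀ a)) (f c) ∈ (idealOfVars (Fin i) ℂ) ^ (j a))
    {z : Fin (q + 1) → ℂ} (hz : ∀ c, eval (pt0 (n := n) 0 z) (f c) = 0)
    (hJ : (Matrix.of fun c s => eval (pt0 (n := n) 0 z) (pderiv (Sum.inr s) (f c))).det ≠ 0)
    (hs : ∀ h : Fin (q + 1) → α → MvPolynomial (Fin i) ℂ,
      ∃ (l : Fin (n + 1) → Fin (q + 1) → ℂ) (v1 : Fin i → α → ℂ)
        (v2 : Fin (q + 1) → α → MvPolynomial (Fin i) ℂ), ∀ c a,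
        ∑ x, aeval (ptA (n := n) 0 (γ₀ a)) (pderiv x (f c)) *
          dir (γ₀ a) l (dlt v1 v2 a) x - h c a ∈ (idealOfVars (Fin i) ℂ) ^ (j a))
    {m : ℕ} (hdet : (mat d (fun c => fib 0 (tt0 n) (f c)) m).det ≠ 0) :
    ∀ᶠ φ in 𝓝 (fun x : Σ c, Mon (Vars n q) (d c) => coeff x.2.1 (f x.1)),
      Good hi hiq j m d (poly d φ) := by
  classical
  have := Fintype.ofFinite α
  have hpoly := poly_coeff hf
  set φ₀ : (Σ c, Mon (Vars n q) (d c)) → ℂ := fun x => coeff x.2.1 (f x.1) with hφ₀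
  have hfin : ∀ a, Module.Finite ℂ (Jets i j a) := fun a => finite_quot (S := j a) le_rfl
  have hfin' : Module.Finite ℂ (∀ a, Jets i j a) := Module.Finite.pi
  let J1 : ((Fin i × α) → ℂ) →ₗ[ℂ] (Fin (q + 1) → ∀ a, Jets i j a) :=
    { toFun := fun v s a => if h : s.val < i then algebraMap ℂ _ (v (⟨s.val, h⟩, a)) else 0
      map_add' := fun v v' => by
        funext s a
        simp only [Pi.add_apply]
        split_ifs with h
        · rw [map_add]
        · rw [add_zero]
      map_smul' := fun r v => by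
        funext s a
        simp only [Pi.smul_apply, RingHom.id_apply]
        split_ifs with h
        · rw [smul_eq_mul, map_mul]
          exact (Algebra.smul_def _ _).symm
        · rw [smul_zero] }
  let J2 : (Fin (q + 1) → ∀ a, Jets i j a) →ₗ[ℂ] (Fin (q + 1) → ∀ a, Jets i j a) :=
    { toFun := fun v s => if s.val < i ∨ s = Fin.last q then 0 else v s
      map_add' := fun v v' => by
        funext s
        simp only [Pi.add_apply]
        split_ifs with h
        · rw [add_zero]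
        · rfl
      map_smul' := fun r v => by
        funext s
        simp only [Pi.smul_apply, RingHom.id_apply]
        split_ifs with h
        · rw [smul_zero]
        · rfl }
  let Γ₀ : Fin (q + 1) → ∀ a, Jets i j a := fun s a => Ideal.Quotient.mk _ (γ₀ a s)
  let O : Set ((Fin i × α) → ℂ) := {v | ∀ a a', a ≠ a' →
    p₀ a ⟨0, hi⟩ + v (⟨0, hi⟩, a) - (p₀ a' ⟨0, hi⟩ + v (⟨0, hi⟩, a')) ≠ 0}
  have hO : O ∈ 𝓝 0 := by
    have h1 : ∀ x : α × α, ∀ᶠ v : (Fin i × α) → ℂ in 𝓝 0, x.1 ≠ x.2 →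
        p₀ x.1 ⟨0, hi⟩ + v (⟨0, hi⟩, x.1) - (p₀ x.2 ⟨0, hi⟩ + v (⟨0, hi⟩, x.2)) ≠ 0 := by
      intro x
      by_cases hx : x.1 = x.2
      · exact Filter.Eventually.of_forall fun v h => absurd hx h
      · have hc : Continuous fun v : (Fin i × α) → ℂ =>
            p₀ x.1 ⟨0, hi⟩ + v (⟨0, hi⟩, x.1) - (p₀ x.2 ⟨0, hi⟩ + v (⟨0, hi⟩, x.2)) := by
          fun_prop
        have h2 := hc.continuousAt.eventually_ne (x := 0) (y := 0) (by
          simp only [Pi.zero_apply, add_zero]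
          rw [sub_ne_zero]
          intro h
          exact hx (hp _ _ h))
        filter_upwards [h2] with v hv _
        exact hv
    filter_upwards [Filter.eventually_all.2 h1] with v hv a a' haa'
    exact hv (a, a') haa'
  have hmain := near_special (n := n) J1 J2 φ₀ Γ₀ z ?_ ?_ ?_ ?_ (m := m) ?_ hO
  · filter_upwards [hmain] with φ hφ
    obtain ⟨l, v1, v2, z', hv1, heq, hz', hJ', hdet'⟩ := hφ
    -- representatives
    choose rep hrep using fun s a => Ideal.Quotient.mk_surjective (v2 s a)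
    let γ : α → Fin (q + 1) → MvPolynomial (Fin i) ℂ := fun a s =>
      γ₀ a s + if h : s.val < i then C (v1 (⟨s.val, h⟩, a)) else
        if s = Fin.last q then 0 else rep s a
    have hγΓ : ∀ s a, (Γ₀ + (J1 v1 + J2 v2)) s a = Ideal.Quotient.mk _ (γ a s) := by
      intro s a
      show Ideal.Quotient.mk _ (γ₀ a s) +
        ((if h : s.val < i then algebraMap ℂ (Jets i j a) (v1 (⟨s.val, h⟩, a)) else 0) +
        (if s.val < i ∨ s = Fin.last q then (0 : ∀ a, Jets i j a) else v2 s) a) = _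
      simp only [γ]
      rw [map_add]
      congr 1
      by_cases h1 : s.val < i
      · rw [dif_pos h1, if_pos (Or.inl h1), dif_pos h1, Pi.zero_apply, add_zero]
        rfl
      · by_cases h2 : s = Fin.last q
        · rw [dif_neg h1, if_pos (Or.inr h2), dif_neg h1, if_pos h2, Pi.zero_apply, add_zero,
            map_zero]
        · rw [dif_neg h1, if_neg (not_or.2 ⟨h1, h2⟩), dif_neg h1, if_neg h2, zero_add, hrep]
    refine ⟨l, γ, fun a s => p₀ a s + v1 (s, a), z', ?_, ?_, ?_, ?_, hz', hJ', hdet'⟩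
    · intro a
      have h1 : ¬ (Fin.last q).val < i := by simp only [Fin.val_last]; omega
      show γ₀ a (Fin.last q) + (if h : (Fin.last q).val < i then C (v1 (⟨_, h⟩, a)) else
        if Fin.last q = Fin.last q then 0 else rep (Fin.last q) a) = 1
      rw [hlast, dif_neg h1, if_pos rfl, add_zero]
    · intro a s
      simp only [γ]
      rw [hγ, dif_pos (by simp [emb]), map_add]
      have h1 : (⟨(emb hiq s).val, by simp [emb]⟩ : Fin i) = s := rfl
      rw [h1]
      ring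
    · intro a a' h
      by_contra hne
      exact hv1 a a' hne (sub_eq_zero.2 h)
    · intro a c
      rw [← Ideal.Quotient.eq_zero_iff_mem]
      have h1 := aeval_apply j (ptA l (Γ₀ + (J1 v1 + J2 v2))) (fun a => ptA l (γ a))
        (fun x a => ptA_apply j l _ γ hγΓ x a) (poly d φ c) a
      rw [heq c] at h1
      exact h1.symm
  · intro c
    rw [hpoly]
    funext a
    rw [aeval_apply j (ptA 0 Γ₀) (fun a => ptA 0 (γ₀ a))
      (fun x a => ptA_apply j 0 _ γ₀ (fun s a => rfl) x a) (f c) a]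
    exact Ideal.Quotient.eq_zero_iff_mem.2 (h0 a c)
  · intro c
    rw [hpoly]
    exact hz c
  · rw [hpoly]
    exact hJ
  · intro h
    choose hr hhr using fun c a => Ideal.Quotient.mk_surjective (h c a)
    obtain ⟨l, v1, v2, hv⟩ := hs hr
    refine ⟨l, fun x => v1 x.1 x.2, fun s a => Ideal.Quotient.mk _ (v2 s a), fun c => ?_⟩
    rw [hpoly]
    funext a
    have hΔ : ∀ s a, (J1 (fun x => v1 x.1 x.2) + J2 fun s a => Ideal.Quotient.mk _ (v2 s a)) s a =
        Ideal.Quotient.mk _ (dlt v1 v2 a s) := by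
      intro s a
      show (if h : s.val < i then algebraMap ℂ (Jets i j a) (v1 ⟨s.val, h⟩ a) else 0) +
        (if s.val < i ∨ s = Fin.last q then (0 : ∀ a, Jets i j a) else
          fun a => Ideal.Quotient.mk _ (v2 s a)) a = _
      unfold dlt
      by_cases h1 : s.val < i
      · rw [dif_pos h1, if_pos (Or.inl h1), dif_pos h1, Pi.zero_apply, add_zero]
        rfl
      · by_cases h2 : s = Fin.last q
        · rw [dif_neg h1, if_pos (Or.inr h2), dif_neg h1, if_pos h2, Pi.zero_apply, add_zero,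
            map_zero]
        · rw [dif_neg h1, if_neg (not_or.2 ⟨h1, h2⟩), dif_neg h1, if_neg h2, zero_add]
    rw [← hhr c a, Finset.sum_apply]
    have h2 := hv c a
    rw [← Ideal.Quotient.eq_zero_iff_mem, map_sub, sub_eq_zero, map_sum] at h2
    rw [← h2]
    refine Finset.sum_congr rfl fun x _ => ?_
    rw [Pi.mul_apply, map_mul]
    rw [aeval_apply j (ptA 0 Γ₀) (fun a => ptA 0 (γ₀ a))
      (fun x a => ptA_apply j 0 _ γ₀ (fun s a => rfl) x a) _ a,
      dir_apply j l Γ₀ _ γ₀ (fun a => dlt v1 v2 a) (fun s a => rfl) hΔ x a]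
  · rw [hpoly]
    exact hdet

end Pool.Agent.Lib_MP_c7e57a
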