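import Pool.Agent.Lib_MP_c7e57a.Aut
import Pool.Agent.Lib_MP_c7e57a.Generic
import Pool.Agent.Lib_MP_c7e57a.GoodNear

/-!
# Complete intersections with algebraically independent coefficients
-/

namespace Pool.Agent.Lib_MP_c7e57a

open MvPolynomial Topology

variable {n q : ℕ}

theorem good_of_independent {i : ℕ} {hi : 1 ≤ i} {hiq : i ≤ q} {α : Type*} {j : α → ℕ} {m : ℕ}
    {d : Fin (q + 1) → ℕ} {φ₀ : (Σ c, Mon (Vars n q) (d c)) → ℂ}
    (h : ∀ᶠ φ in 𝓝 φ₀, Good hi hiq j m d (poly d φ))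
    {f : Fin (q + 1) → MvPolynomial (Vars n q) ℂ} (hf : ∀ c, (f c).IsHomogeneous (d c))
    (hind : AlgebraicIndependent ℚ
      (fun x : Σ c, Mon (Vars n q) (d c) => coeff x.2.1 (f x.1))) :
    Good hi hiq j m d f := by
  obtain ⟨U, hU, hUo, hφU⟩ := mem_nhds_iff.1 h
  obtain ⟨φ₁, hφ₁, hφ₁i⟩ := exists_algebraicIndependent hUo ⟨φ₀, hφU⟩
  obtain ⟨σ, hσ⟩ := exists_ringEquiv hφ₁i hind
  have h1 : Good hi hiq j m d (poly d φ₁) := hU hφ₁
  have h2 := good_map σ h1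
  have h3 : (fun c => map σ.toRingHom (poly d φ₁ c)) = f := by
    rw [← poly_coeff hf]
    funext c
    unfold poly
    rw [map_sum]
    refine Finset.sum_congr rfl fun α _ => ?_
    rw [map_monomial]
    congr 1
    exact hσ ⟨c, α⟩
  rwa [h3] at h2

end Pool.Agent.Lib_MP_c7e57a
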