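import Pool.Agent.Lib_MP_c7e57a.Special
import Pool.Agent.Lib_MP_c7e57a.Transport

/-!
# The choices for the special complete intersection
-/

namespace Pool.Agent.Lib_MP_c7e57a

open MvPolynomial Topology

variable {n q i G : ℕ}

open Classical in
/-- The forbidden coordinates. -/
noncomputable def bad {φ : Type} [Fintype φ] (t : φ → ℂ)
    (V : Fin (q + 1) → MvPolynomial (Fin i) ℂ) : Finset ℂ :=
  Finset.univ.image t ∪
    Finset.univ.image fun x : φ × Fin q => constantCoeff (tr i (t x.1) (V (Fin.castSucc x.2)))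

theorem ne_of_not_mem_bad {φ : Type} [Fintype φ] {t : φ → ℂ}
    {V : Fin (q + 1) → MvPolynomial (Fin i) ℂ} {z : ℂ} (hz : z ∉ bad t V) :
    (∀ a, z ≠ t a) ∧
      ∀ a (c : Fin q), z ≠ constantCoeff (tr i (t a) (V (Fin.castSucc c))) := by
  classical
  unfold bad at hz
  rw [Finset.mem_union, not_or] at hz
  constructor
  · intro a h
    exact hz.1 (Finset.mem_image.2 ⟨a, Finset.mem_univ _, h.symm⟩)
  · intro a c h
    exact hz.2 (Finset.mem_image.2 ⟨(a, c), Finset.mem_univ _, h.symm⟩)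

theorem exists_special_aux (hi : 1 ≤ i) (hiq : i ≤ q)
    {blk : Fin G × Fin (i + 1) → Fin (n + 1)}
    (hblk : Function.Injective blk) {φ : Type} [Fintype φ] (g : φ → Fin G)
    {j : φ → ℕ} (hj : ∀ a, 2 ≤ j a) {k : Fin (n + 1) → ℕ} {t : φ → ℂ}
    (ht : Function.Injective t) (V : Fin (q + 1) → MvPolynomial (Fin i) ℂ)
    (hV1 : V (Fin.last q) = 1) (hV2 : ∀ s : Fin i, V (emb hiq s) = X s)
    (p : (Σ b, Fin (k b)) → Fin q → ℂ)
    (hpB : ∀ x s, p x s ∉ bad t V) (hpinj : ∀ s, Function.Injective fun x => p x s)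
    (h1 : ∀ (x : Fin G × Fin (i + 1)) (h : φ → MvPolynomial (Fin i) ℂ)
        (h' : Fin (k (blk x)) → ℂ), ∃ (δ : Fin (q + 1) → ℂ) (η : φ → ℂ),
          (∀ a, g a = x.1 → ∑ s, C (δ s) * tr i (t a) (V s) +
            C (η a) * (if hx : x.2.val < i then X ⟨x.2.val, hx⟩ ^ (j a - 1) else 0) - h a ∈
              (idealOfVars (Fin i) ℂ) ^ (j a)) ∧
          ∀ y, ∑ s : Fin q, δ (Fin.castSucc s) * p ⟨blk x, y⟩ s + δ (Fin.last q) = h' y)
    (h2 : ∀ b, (∀ x, blk x ≠ b) → ∀ h' : Fin (k b) → ℂ, ∃ δ : Fin (q + 1) → ℂ,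
            ∀ y, ∑ s : Fin q, δ (Fin.castSucc s) * p ⟨b, y⟩ s + δ (Fin.last q) = h' y) :
    ∃ d₀ : ℕ, ∀ d : Fin (q + 1) → ℕ, (∀ c, d₀ ≤ d c) → ∀ m : ℕ,
      ∃ φ₀ : (Σ c, Mon (Vars n q) (d c)) → ℂ, ∀ᶠ φ' in 𝓝 φ₀,
        Good hi hiq (Sum.elim j (fun _ => 1) : φ ⊕ (Σ b, Fin (k b)) → ℕ) m d
          (poly d φ') := by
  classical
  -- one more simple point
  obtain ⟨w, hw⟩ := Infinite.exists_notMem_finset (bad t V ∪
    Finset.univ.image fun x : (Σ b, Fin (k b)) × Fin q => p x.1 x.2)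
  rw [Finset.mem_union, not_or] at hw
  obtain ⟨hw1, hw2⟩ := hw
  have hwp : ∀ x s, p x s ≠ w := by
    intro x s h
    exact hw2 (Finset.mem_image.2 ⟨(x, s), Finset.mem_univ _, h⟩)
  let pp : Option (Σ b, Fin (k b)) → Fin q → ℂ := fun o => o.elim (fun _ => w) p
  have hppB : ∀ o s, pp o s ∉ bad t V := by
    rintro (_ | x) s
    · exact hw1
    · exact hpB x s
  have hppinj : ∀ s, Function.Injective fun o => pp o s := by
    rintro s (_ | x) (_ | x') h
    · rfl
    · exact absurd h.symm (hwp x' s)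
    · exact absurd h (hwp x s)
    · exact congrArg some (hpinj s h)
  -- the polynomials `τ`
  let M : ℕ := ∑ a, j a + 1
  have hM : ∀ a, j a + 1 ≤ M := fun a =>
    Nat.add_le_add_right (Finset.single_le_sum (f := j) (fun _ _ => Nat.zero_le _)
      (Finset.mem_univ a)) 1
  have hτ : ∀ c' : Fin q, ∃ D : ℕ, ∀ d ≥ D, ∃ τ : Polynomial ℂ, τ.Monic ∧ τ.natDegree = d ∧
      (c'.val < i → (∀ a, (Polynomial.X - Polynomial.C (t a)) ^ (j a + 1) ∣
        τ - (Polynomial.X - Polynomial.C (t a)) ^ (j a)) ∧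
        ∀ o, (Polynomial.X - Polynomial.C (pp o c')) ^ 2 ∣
          τ - (Polynomial.X - Polynomial.C (pp o c'))) ∧
      (i ≤ c'.val → (∀ a,
        (Polynomial.X - Polynomial.C (constantCoeff (tr i (t a) (V (Fin.castSucc c'))))) ^ M ∣
        τ - Polynomial.X) ∧
        ∀ o, (Polynomial.X - Polynomial.C (pp o c')) ^ 2 ∣
          τ - (Polynomial.C (eval (fun s => pp o (emq hiq s)) (V (Fin.castSucc c'))) +
            (Polynomial.X - Polynomial.C (pp o c')))) := by
    intro c'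
    by_cases hc : c'.val < i
    · obtain ⟨D, hD⟩ := exists_tau_low ht j (p := fun o => pp o c')
        (fun o a => (ne_of_not_mem_bad (hppB o c')).1 a)
      refine ⟨D, fun d hd => ?_⟩
      obtain ⟨τ, h3, h4, h5, h6⟩ := hD d hd
      exact ⟨τ, h3, h4, fun _ => ⟨h5, h6⟩, fun h => absurd h (by omega)⟩
    · obtain ⟨D, hD⟩ := exists_tau_high
        (fun a => constantCoeff (tr i (t a) (V (Fin.castSucc c')))) M (hppinj c')
        (fun o a => (ne_of_not_mem_bad (hppB o c')).2 a c')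
        (fun o => eval (fun s => pp o (emq hiq s)) (V (Fin.castSucc c')))
      refine ⟨D, fun d hd => ?_⟩
      obtain ⟨τ, h3, h4, h5, h6⟩ := hD d hd
      exact ⟨τ, h3, h4, fun h => absurd h hc, fun _ => ⟨h5, h6⟩⟩
  choose D hD using hτ
  -- the polynomials `χ`
  let M' : ℕ := ∑ a, j a + 2
  have hM' : ∀ a, j a ≤ M' := fun a =>
    (Finset.single_le_sum (f := j) (fun _ _ => Nat.zero_le _) (Finset.mem_univ a)).trans
      (Nat.le_add_right _ _)
  have hχ : ∀ (c : Fin (q + 1)) (b : Fin (n + 1)), ∃ χ : Polynomial ℂ,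
      (∀ a, (Polynomial.X - Polynomial.C (t a)) ^ M' ∣
        χ - Polynomial.C (eps (k := k) hiq blk g c b (Sum.inl a))) ∧
      ∀ o, (Polynomial.X - Polynomial.C (pp o (z0 hi hiq))) ^ M' ∣
        χ - Polynomial.C ((fun o : Option (Σ b, Fin (k b)) => o.elim
          (if c = Fin.last q then (1 : ℂ) else 0)
          fun x => eps (k := k) hiq blk g c b (Sum.inr x)) o) := by
    intro c b
    exact exists_chi ht M' (hppinj (z0 hi hiq))
      (fun o a => (ne_of_not_mem_bad (hppB o (z0 hi hiq))).1 a) _ _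
  choose χ hχ1 hχ2 using hχ
  let V' : Fin q → MvPolynomial (Fin i) ℂ := fun c' =>
    if c'.val < i then 0 else V (Fin.castSucc c')
  have hV' : ∀ s, V' (emq hiq s) = 0 := fun s => if_pos s.2
  have hV'' : ∀ c' : Fin q, i ≤ c'.val → V' c' = V (Fin.castSucc c') := fun c' hc' =>
    if_neg (by omega)
  refine ⟨2 + ∑ c', (D c' + (V' c').totalDegree + 1) + ∑ c, ∑ b, ((χ c b).natDegree + 2),
    fun d hd m => ?_⟩
  have hsum1 : ∀ c', D c' + (V' c').totalDegree + 1 ≤
      ∑ c', (D c' + (V' c').totalDegree + 1) := fun c' =>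
    Finset.single_le_sum (f := fun c' => D c' + (V' c').totalDegree + 1)
      (fun _ _ => Nat.zero_le _) (Finset.mem_univ c')
  have hsum2 : ∀ c b, (χ c b).natDegree + 2 ≤ ∑ c, ∑ b, ((χ c b).natDegree + 2) := fun c b =>
    (Finset.single_le_sum (f := fun b => (χ c b).natDegree + 2)
      (fun _ _ => Nat.zero_le _) (Finset.mem_univ b)).trans
    (Finset.single_le_sum (f := fun c => ∑ b, ((χ c b).natDegree + 2))
      (fun _ _ => Nat.zero_le _) (Finset.mem_univ c))
  have hτ : ∀ c' : Fin q, ∃ τ : Polynomial ℂ, τ.Monic ∧ τ.natDegree = d (Fin.castSucc c') ∧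
      (c'.val < i → (∀ a, (Polynomial.X - Polynomial.C (t a)) ^ (j a + 1) ∣
        τ - (Polynomial.X - Polynomial.C (t a)) ^ (j a)) ∧
        ∀ o, (Polynomial.X - Polynomial.C (pp o c')) ^ 2 ∣
          τ - (Polynomial.X - Polynomial.C (pp o c'))) ∧
      (i ≤ c'.val → (∀ a,
        (Polynomial.X - Polynomial.C (constantCoeff (tr i (t a) (V (Fin.castSucc c'))))) ^ M ∣
        τ - Polynomial.X) ∧
        ∀ o, (Polynomial.X - Polynomial.C (pp o c')) ^ 2 ∣
          τ - (Polynomial.C (eval (fun s => pp o (emq hiq s)) (V (Fin.castSucc c'))) +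
            (Polynomial.X - Polynomial.C (pp o c')))) := by
    intro c'
    refine hD c' (d (Fin.castSucc c')) ?_
    have h3 := hsum1 c'
    have h4 := hd (Fin.castSucc c')
    omega
  choose τ hτm hτd hτl hτh using hτ
  obtain ⟨f, hf, hfa, hfG⟩ := exists_forms (n := n) hi hiq (d := d) (τ := τ) (V := V') (χ := χ)
    (fun c => by have := hd c; omega) (fun c' => ⟨hτm c', hτd c'⟩)
    (fun c' => by
      have h3 := hsum1 c'
      have h4 := hd (Fin.castSucc c')
      omega)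
    (fun c b => by
      have h3 := hsum2 c b
      have h4 := hd c
      omega)
  have hlow : ∀ s : Fin i, (emq hiq s).val < i := fun s => s.2
  refine ⟨_, special_good hi hiq hblk g hj ht V hV1 hV2 p w
    (fun x a => (ne_of_not_mem_bad (hpB x (z0 hi hiq))).1 a) (hpinj (z0 hi hiq)) h1 h2
    (τ := τ) (V' := V') (χ := χ) hV' hV''
    (fun s a => (hτl (emq hiq s) (hlow s)).1 a)
    (fun s x => (hτl (emq hiq s) (hlow s)).2 (some x))
    (fun s => (hτl (emq hiq s) (hlow s)).2 none)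
    (M := M) hM
    (fun c' hc' a => (hτh c' hc').1 a)
    (fun c' hc' x => (hτh c' hc').2 (some x))
    (fun c' hc' => (hτh c' hc').2 none)
    (M' := M') hM' (Nat.le_add_left _ _)
    (fun c b a => hχ1 c b a)
    (fun c b x => hχ2 c b (some x))
    (fun c' => ?_) ?_ (fun c => by have := hd c; omega) hf hfa hfG m⟩
  · have h3 := hχ2 (Fin.castSucc c') 0 none
    simp only [Option.elim, if_neg (Fin.castSucc_lt_last c').ne] at h3
    exact h3
  · have h3 := hχ2 (Fin.last q) 0 none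
    simp only [Option.elim, if_true] at h3
    exact h3

theorem exists_special (hi : 1 ≤ i) (hiq : i ≤ q) {blk : Fin G × Fin (i + 1) → Fin (n + 1)}
    (hblk : Function.Injective blk) {φ : Type} [Fintype φ] [DecidableEq φ] (g : φ → Fin G)
    {j : φ → ℕ} (hj : ∀ a, 2 ≤ j a)
    (hC : ∀ g₀, ∑ a with g a = g₀, (i + j a - 1).choose i ≤ q + 1) :
    ∃ d₀ : ℕ, ∀ d : Fin (q + 1) → ℕ, (∀ c, d₀ ≤ d c) → ∀ m : ℕ,
      ∃ φ₀ : (Σ c, Mon (Vars n q) (d c)) → ℂ, ∀ᶠ φ' in 𝓝 φ₀,
        Good hi hiq (Sum.elim j (fun _ => 1) :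
          φ ⊕ (Σ b, Fin (kk q blk g (fun a => (i + j a - 1).choose i) b)) → ℕ) m d
          (poly d φ') := by
  classical
  let t : φ → ℂ := fun a => ((Fintype.equivFin φ a : ℕ) : ℂ)
  have ht : Function.Injective t := by
    intro a b h
    have h1 : ((Fintype.equivFin φ a : ℕ) : ℂ) = ((Fintype.equivFin φ b : ℕ) : ℂ) := h
    have h2 : (Fintype.equivFin φ a : ℕ) = (Fintype.equivFin φ b : ℕ) := by exact_mod_cast h1
    exact (Fintype.equivFin φ).injective (Fin.ext h2)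
  obtain ⟨V, hV1, hV2, hV3⟩ := exists_lifts hi hiq g j hj hC ht
  obtain ⟨p, hpB, hpinj, h1, h2⟩ := exists_simple hblk g j hj hC t V hV3 (bad t V)
  exact exists_special_aux hi hiq hblk g hj ht V hV1 (fun s => hV2 (emb hiq s) s.2) p
    hpB hpinj h1 h2

end Pool.Agent.Lib_MP_c7e57a
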