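import Mathlib

/-!
# The algebra of the generic fibre
-/

namespace Pool.Agent.Lib_MP_c7e57a

open MvPolynomial

variable {K : Type*} [Field K] {τ : Type*} [Fintype τ]

section

variable {R : Type*} [CommRing R] {τ : Type*}

/-- Set the first variable equal to `1`. -/
noncomputable def deh : MvPolynomial (Option τ) R →ₐ[R] MvPolynomial τ R :=
  aeval (fun o => o.elim 1 X)

@[simp] theorem deh_none : deh (X none : MvPolynomial (Option τ) R) = 1 := by
  simp [deh]

@[simp] theorem deh_some (s : τ) : deh (X (some s) : MvPolynomial (Option τ) R) = X s := by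
  simp [deh]

theorem deh_rename (v : MvPolynomial τ R) : deh (rename some v) = v := by
  unfold deh
  rw [aeval_rename]
  have : ((fun o : Option τ => o.elim 1 X) ∘ some : τ → MvPolynomial τ R) = X := by
    funext s; rfl
  rw [this, aeval_X_left]
  rfl

theorem deh_map {R' : Type*} [CommRing R'] (φ : R →+* R') (v : MvPolynomial (Option τ) R) :
    deh (map φ v) = map φ (deh v) := by
  induction v using MvPolynomial.induction_on with
  | C a => simp [deh]
  | add p q hp hq => simp only [map_add, hp, hq]
  | mul_X p s hp =>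
    simp only [map_mul, hp, map_X]
    rcases s with _ | s <;> simp

end

omit [Fintype τ] in
theorem exists_homog {k : ℕ} {v : MvPolynomial τ K} (hv : v.totalDegree ≤ k) :
    ∃ u : MvPolynomial (Option τ) K, u.IsHomogeneous k ∧ deh u = v := by
  refine ⟨∑ s ∈ v.support, X none ^ (k - s.degree) * rename some (monomial s (coeff s v)),
    ?_, ?_⟩
  · apply IsHomogeneous.sum
    intro s hs
    have h0 : s.degree ≤ k := le_trans (le_totalDegree hs) hv
    have h1 : (X none ^ (k - s.degree) : MvPolynomial (Option τ) K).IsHomogeneous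
        (k - s.degree) := isHomogeneous_X_pow _ _
    have h2 : (rename some (monomial s (coeff s v)) : MvPolynomial (Option τ) K).IsHomogeneous
        s.degree := (isHomogeneous_monomial _ rfl).rename_isHomogeneous
    have h3 := h1.mul h2
    rwa [Nat.sub_add_cancel h0] at h3
  · rw [map_sum]
    conv_rhs => rw [v.as_sum]
    refine Finset.sum_congr rfl fun s _ => ?_
    rw [map_mul, map_pow, deh_none, one_pow, one_mul, deh_rename]

/-- The image of the polynomials of degree at most `k` in a quotient algebra. -/
noncomputable def W (I : Ideal (MvPolynomial τ K)) (k : ℕ) :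
    Submodule K (MvPolynomial τ K ⧸ I) :=
  (restrictTotalDegree τ K k).map (Ideal.Quotient.mkₐ K I).toLinearMap

omit [Fintype τ] in
theorem mem_W {I : Ideal (MvPolynomial τ K)} {k : ℕ} {a : MvPolynomial τ K ⧸ I} :
    a ∈ W I k ↔ ∃ v : MvPolynomial τ K, v.totalDegree ≤ k ∧ Ideal.Quotient.mk I v = a := by
  unfold W
  constructor
  · rintro ⟨v, hv, rfl⟩
    exact ⟨v, (mem_restrictTotalDegree _ _ _).1 hv, rfl⟩
  · rintro ⟨v, hv, rfl⟩
    exact ⟨v, (mem_restrictTotalDegree _ _ _).2 hv, rfl⟩

omit [Fintype τ] in
theorem W_mono (I : Ideal (MvPolynomial τ K)) {j k : ℕ} (h : j ≤ k) : W I j ≤ W I k := by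
  intro a ha
  obtain ⟨v, hv, rfl⟩ := mem_W.1 ha
  exact mem_W.2 ⟨v, hv.trans h, rfl⟩

instance W_finite (I : Ideal (MvPolynomial τ K)) (k : ℕ) : Module.Finite K (W I k) := by
  unfold W
  infer_instance

omit [Fintype τ] in
theorem W_eq_top {I : Ideal (MvPolynomial τ K)} {k : ℕ} (h : W I (k + 1) ≤ W I k) :
    W I k = ⊤ := by
  rw [eq_top_iff]
  intro a h0
  clear h0
  obtain ⟨p, rfl⟩ := Ideal.Quotient.mk_surjective a
  induction p using MvPolynomial.induction_on with
  | C a => exact mem_W.2 ⟨C a, by simp, rfl⟩
  | add p q hp hq => rw [map_add]; exact add_mem hp hq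
  | mul_X p s hp =>
    obtain ⟨v, hv, hvp⟩ := mem_W.1 hp
    apply h
    refine mem_W.2 ⟨v * X s, ?_, by rw [map_mul, map_mul, hvp]⟩
    refine (totalDegree_mul _ _).trans ?_
    have := totalDegree_X (R := K) s
    omega

theorem W_finrank {I : Ideal (MvPolynomial τ K)} (hI : I ≠ ⊤) (k : ℕ) :
    W I k = ⊤ ∨ k + 1 ≤ Module.finrank K (W I k) := by
  induction k with
  | zero =>
    right
    have : Nontrivial (MvPolynomial τ K ⧸ I) := Ideal.Quotient.nontrivial_iff.2 hI
    have h1 : (1 : MvPolynomial τ K ⧸ I) ∈ W I 0 := mem_W.2 ⟨1, by simp, map_one _⟩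
    rw [zero_add, Nat.one_le_iff_ne_zero]
    intro h
    have h2 := Submodule.finrank_eq_zero.1 h
    rw [h2, Submodule.mem_bot] at h1
    exact one_ne_zero h1
  | succ k ih =>
    rcases ih with h | h
    · left
      rw [eq_top_iff, ← h]
      exact W_mono I (Nat.le_succ k)
    · by_cases h1 : W I (k + 1) ≤ W I k
      · left
        rw [eq_top_iff, ← W_eq_top h1]
        exact W_mono I (Nat.le_succ k)
      · right
        have h2 : W I k < W I (k + 1) := lt_of_le_not_ge (W_mono I (Nat.le_succ k)) h1
        have h3 := Submodule.finrank_lt_finrank_of_lt h2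
        omega

/-- The main estimate: if the polynomials of degree `m` modulo the forms `F c` are spanned by `D`
elements, and `lam` is a surjective linear map that kills the multiples of the forms `F c` and the
multiples of `y₀ ^ e`, then the algebra of the fibre has dimension at most `D - dim Q`. -/
theorem core {ι : Type*} (F : ι → MvPolynomial (Option τ) K) {m e D : ℕ} (hm : D + e ≤ m)
    {β : Type*} [Fintype β] (hβ : Fintype.card β ≤ D) (b : β → MvPolynomial (Option τ) K)
    (H1 : ∀ u : MvPolynomial (Option τ) K, u.IsHomogeneous m →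
      ∃ v ∈ Ideal.span (Set.range F), ∃ w ∈ Submodule.span K (Set.range b), u = v + w)
    {Q : Type*} [AddCommGroup Q] [Module K Q] [Module.Finite K Q]
    (lam : MvPolynomial (Option τ) K →ₗ[K] Q)
    (hF : ∀ v ∈ Ideal.span (Set.range F), lam v = 0)
    (he : ∀ u : MvPolynomial (Option τ) K, u.IsHomogeneous (m - e) → lam (X none ^ e * u) = 0)
    (hs : ∀ q : Q, ∃ u : MvPolynomial (Option τ) K, u.IsHomogeneous m ∧ lam u = q)
    (hI : Ideal.span (Set.range fun c => deh (F c)) ≠ ⊤) :
    Module.Finite K (MvPolynomial τ K ⧸ Ideal.span (Set.range fun c => deh (F c))) ∧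
    Module.finrank K (MvPolynomial τ K ⧸ Ideal.span (Set.range fun c => deh (F c))) +
      Module.finrank K Q ≤ D := by
  set I := Ideal.span (Set.range fun c => deh (F c)) with hIdef
  have hdeh : ∀ v ∈ Ideal.span (Set.range F), deh v ∈ I := by
    intro v hv
    have h1 : Ideal.map (deh (R := K) (τ := τ)) (Ideal.span (Set.range F)) = I := by
      rw [Ideal.map_span, hIdef, ← Set.range_comp]
      rfl
    rw [← h1]
    exact Ideal.mem_map_of_mem _ hv
  let Θ : MvPolynomial (Option τ) K →ₗ[K] (MvPolynomial τ K ⧸ I) × Q :=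
    ((Ideal.Quotient.mkₐ K I).comp deh).toLinearMap.prod lam
  let T : Submodule K ((MvPolynomial τ K ⧸ I) × Q) := (homogeneousSubmodule (Option τ) K m).map Θ
  have hT : T ≤ Submodule.span K (Set.range fun i => Θ (b i)) := by
    rintro _ ⟨u, hu, rfl⟩
    obtain ⟨v, hv, w, hw, huvw⟩ := H1 u hu
    have h1 : Θ v = 0 := by
      refine Prod.ext ?_ (hF v hv)
      exact Ideal.Quotient.eq_zero_iff_mem.2 (hdeh v hv)
    rw [huvw, map_add, h1, zero_add]
    have h2 : Submodule.span K (Set.range fun i => Θ (b i)) =
        (Submodule.span K (Set.range b)).map Θ := by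
      rw [Submodule.map_span, ← Set.range_comp]
      rfl
    rw [h2]
    exact ⟨w, hw, rfl⟩
  have hTfin : Module.Finite K T := by
    have : Module.Finite K (Submodule.span K (Set.range fun i => Θ (b i))) :=
      Module.Finite.span_of_finite K (Set.finite_range _)
    exact Submodule.finiteDimensional_of_le hT
  have hTD : Module.finrank K T ≤ D := by
    have : Module.Finite K (Submodule.span K (Set.range fun i => Θ (b i))) :=
      Module.Finite.span_of_finite K (Set.finite_range _)
    refine (Submodule.finrank_mono hT).trans ?_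
    exact (finrank_range_le_card (R := K) (fun i => Θ (b i))).trans hβ
  -- the projection to `Q`
  let pr : T →ₗ[K] Q := (LinearMap.snd K _ _).comp T.subtype
  have hpr : LinearMap.range pr = ⊤ := by
    rw [LinearMap.range_eq_top]
    intro q
    obtain ⟨u, hu, huq⟩ := hs q
    exact ⟨⟨Θ u, ⟨u, hu, rfl⟩⟩, huq⟩
  have hker : Module.finrank K (W I (m - e)) ≤ Module.finrank K (LinearMap.ker pr) := by
    have hmem : ∀ a : W I (m - e), ((a : MvPolynomial τ K ⧸ I), (0 : Q)) ∈ T := by
      rintro ⟨a, ha⟩
      obtain ⟨v, hv, rfl⟩ := mem_W.1 ha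
      obtain ⟨u, hu, huv⟩ := exists_homog (K := K) hv
      refine ⟨X none ^ e * u, ?_, ?_⟩
      · have h1 := (isHomogeneous_X_pow (R := K) (none : Option τ) e).mul hu
        rwa [Nat.add_sub_cancel' (by omega)] at h1
      · refine Prod.ext ?_ (he u hu)
        show Ideal.Quotient.mk I (deh (X none ^ e * u)) = _
        rw [map_mul, map_pow, deh_none, one_pow, one_mul, huv]
    let g : W I (m - e) →ₗ[K] LinearMap.ker pr :=
      { toFun := fun a => ⟨⟨((a : MvPolynomial τ K ⧸ I), (0 : Q)), hmem a⟩, rfl⟩
        map_add' := fun a b => by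
          apply Subtype.ext; apply Subtype.ext
          exact Prod.ext rfl (add_zero 0).symm
        map_smul' := fun c a => by
          apply Subtype.ext; apply Subtype.ext
          exact Prod.ext rfl (smul_zero c).symm }
    refine LinearMap.finrank_le_finrank_of_injective (f := g) ?_
    intro a a' h
    apply Subtype.ext
    have h1 := congrArg (fun z => (z.1.1.1 : MvPolynomial τ K ⧸ I)) h
    exact h1
  have hrn := LinearMap.finrank_range_add_finrank_ker pr
  rw [hpr, finrank_top] at hrn
  have hW : Module.finrank K (W I (m - e)) + Module.finrank K Q ≤ D := by omega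
  have htop : W I (m - e) = ⊤ := by
    rcases W_finrank hI (m - e) with h | h
    · exact h
    · omega
  have h1 : Module.Finite K (⊤ : Submodule K (MvPolynomial τ K ⧸ I)) := by
    rw [← htop]; infer_instance
  refine ⟨Module.finite_def.2 (Module.Finite.iff_fg.1 h1), ?_⟩
  rw [htop, finrank_top] at hW
  exact hW

end Pool.Agent.Lib_MP_c7e57a
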