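import Pool.Agent.Lib_MP_c7e57a.Core

/-!
# The algebra of the generic fibre, second part
-/

namespace Pool.Agent.Lib_MP_c7e57a

open MvPolynomial

variable {K : Type*} [Field K] {τ : Type*} [Fintype τ]

omit [Fintype τ] in
theorem lam_homog {Q : Type*} [CommRing Q] [Algebra K Q]
    (lam : MvPolynomial (Option τ) K →ₐ[K] Q) {o : τ} (ho : lam (X (some o)) = 1) {m : ℕ}
    {v : MvPolynomial (Option τ) K} (hv : v.totalDegree ≤ m) :
    ∃ u : MvPolynomial (Option τ) K, u.IsHomogeneous m ∧ lam u = lam v := by
  refine ⟨∑ s ∈ v.support, X (some o) ^ (m - s.degree) * monomial s (coeff s v), ?_, ?_⟩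
  · apply IsHomogeneous.sum
    intro s hs
    have h0 : s.degree ≤ m := le_trans (le_totalDegree hs) hv
    have h1 : (X (some o) ^ (m - s.degree) : MvPolynomial (Option τ) K).IsHomogeneous
        (m - s.degree) := isHomogeneous_X_pow _ _
    have h2 : (monomial s (coeff s v) : MvPolynomial (Option τ) K).IsHomogeneous
        s.degree := isHomogeneous_monomial _ rfl
    have h3 := h1.mul h2
    rwa [Nat.sub_add_cancel h0] at h3
  · rw [map_sum]
    conv_rhs => rw [v.as_sum, map_sum]
    refine Finset.sum_congr rfl fun s _ => ?_
    rw [map_mul, map_pow, ho, one_pow, one_mul]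

/-- The main estimate for an algebra homomorphism `lam`. -/
theorem core_alg {ι : Type*} (F : ι → MvPolynomial (Option τ) K) {m e D : ℕ} (hm : D + e ≤ m)
    {β : Type*} [Fintype β] (hβ : Fintype.card β ≤ D) (b : β → MvPolynomial (Option τ) K)
    (H1 : ∀ u : MvPolynomial (Option τ) K, u.IsHomogeneous m →
      ∃ v ∈ Ideal.span (Set.range F), ∃ w ∈ Submodule.span K (Set.range b), u = v + w)
    {Q : Type*} [CommRing Q] [Algebra K Q] [Module.Finite K Q]
    (lam : MvPolynomial (Option τ) K →ₐ[K] Q) (hlam : Function.Surjective lam) {o : τ}
    (ho : lam (X (some o)) = 1) (hF : ∀ c, lam (F c) = 0) (he : lam (X none) ^ e = 0)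
    (hI : Ideal.span (Set.range fun c => deh (F c)) ≠ ⊤) :
    Module.Finite K (MvPolynomial τ K ⧸ Ideal.span (Set.range fun c => deh (F c))) ∧
    Module.finrank K (MvPolynomial τ K ⧸ Ideal.span (Set.range fun c => deh (F c))) +
      Module.finrank K Q ≤ D := by
  have hFs : ∀ v ∈ Ideal.span (Set.range F), lam v = 0 := by
    intro v hv
    have h1 : Ideal.span (Set.range F) ≤ RingHom.ker lam := by
      rw [Ideal.span_le]
      rintro _ ⟨c, rfl⟩
      exact hF c
    exact h1 hv
  refine core F hm hβ b H1 lam.toLinearMap (fun v hv => hFs v hv) ?_ ?_ hI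
  · intro u _
    show lam (X none ^ e * u) = 0
    rw [map_mul, map_pow, he, zero_mul]
  · -- forms of degree `m` are enough
    set I' : Ideal (MvPolynomial (Option τ) K) := RingHom.ker lam with hI'
    have key : W I' m = ⊤ := by
      by_cases htop : I' = ⊤
      · rw [eq_top_iff]
        rintro a -
        have h1 : a = 0 := by
          have : Subsingleton (MvPolynomial (Option τ) K ⧸ I') :=
            Ideal.Quotient.subsingleton_iff.2 htop
          exact Subsingleton.elim _ _
        rw [h1]
        exact zero_mem _
      · rcases W_finrank (K := K) htop m with h | h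
        · exact h
        · exfalso
          have hle : W I' m ≤ Submodule.span K (Set.range fun x => Ideal.Quotient.mk I' (b x)) := by
            intro a ha
            obtain ⟨v, hv, rfl⟩ := mem_W.1 ha
            obtain ⟨u, hu, huv⟩ := lam_homog lam ho hv
            obtain ⟨v', hv', w, hw, huw⟩ := H1 u hu
            have h1 : Ideal.Quotient.mk I' v = Ideal.Quotient.mk I' w := by
              rw [Ideal.Quotient.eq]
              show lam (v - w) = 0
              rw [map_sub, ← huv, huw, map_add, hFs v' hv', zero_add, sub_self]
            rw [h1]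
            have h2 : Submodule.span K (Set.range fun x => Ideal.Quotient.mk I' (b x)) =
                (Submodule.span K (Set.range b)).map (Ideal.Quotient.mkₐ K I').toLinearMap := by
              rw [Submodule.map_span, ← Set.range_comp]
              rfl
            rw [h2]
            exact ⟨w, hw, rfl⟩
          have hfin : Module.Finite K
              (Submodule.span K (Set.range fun x => Ideal.Quotient.mk I' (b x))) :=
            Module.Finite.span_of_finite K (Set.finite_range _)
          have h1 := Submodule.finrank_mono hle
          have h2 := finrank_range_le_card (R := K) (fun x => Ideal.Quotient.mk I' (b x))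
          have h3 : (Set.range fun x => Ideal.Quotient.mk I' (b x)).finrank K =
            Module.finrank K
              (Submodule.span K (Set.range fun x => Ideal.Quotient.mk I' (b x))) := rfl
          omega
    intro a
    obtain ⟨P, rfl⟩ := hlam a
    have h1 : Ideal.Quotient.mk I' P ∈ W I' m := by rw [key]; trivial
    obtain ⟨v, hv, hvP⟩ := mem_W.1 h1
    obtain ⟨u, hu, huv⟩ := lam_homog lam ho hv
    refine ⟨u, hu, ?_⟩
    rw [Ideal.Quotient.eq] at hvP
    have h2 : lam (v - P) = 0 := hvP
    rw [map_sub, sub_eq_zero] at h2
    show lam u = lam P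
    rw [huv, h2]

end Pool.Agent.Lib_MP_c7e57a
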