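import Mathlib

/-!
# Piece CI-S2: the number of simple points

The block `blk (g₀, c)` gets `q + 1 - ∑_{g a = g₀} C a` simple points, plus the number of `a` with
`g a = g₀` if `c < i`; the other blocks get `q + 1` simple points.

`sum_kk`: the blocks `blk (g₀, c)`, `c = 0, ..., i`, have together
`(i + 1) (q + 1 - ∑_{g a = g₀} C a) + i #{a | g a = g₀}` simple points; sum over `g₀` (using
`∑_{g₀} ∑_{g a = g₀} C a = ∑_a C a`) and add `(q + 1)` for each of the `n + 1 - G (i + 1)` other
blocks.
-/

namespace Pool.Agent.Lib_MP_c7e57a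

variable {n i G : ℕ} {φ : Type*} [Fintype φ]

open Classical in
/-- The number of simple points in the block `b`. -/
noncomputable def kk (q : ℕ) (blk : Fin G × Fin (i + 1) → Fin (n + 1)) (g : φ → Fin G)
    (C : φ → ℕ) (b : Fin (n + 1)) : ℕ :=
  if h : ∃ x, blk x = b then q + 1 - ∑ a with g a = h.choose.1, C a +
    (if h.choose.2.val < i then (Finset.univ.filter fun a => g a = h.choose.1).card else 0)
  else q + 1

open Classical in
theorem kk_blk (q : ℕ) {blk : Fin G × Fin (i + 1) → Fin (n + 1)} (hblk : Function.Injective blk)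
    (g : φ → Fin G) (C : φ → ℕ) (x : Fin G × Fin (i + 1)) :
    kk q blk g C (blk x) = q + 1 - ∑ a with g a = x.1, C a +
      (if x.2.val < i then (Finset.univ.filter fun a => g a = x.1).card else 0) := by
  have h : ∃ y, blk y = blk x := ⟨x, rfl⟩
  have hx : h.choose = x := hblk h.choose_spec
  unfold kk
  rw [dif_pos h, hx]

theorem kk_not (q : ℕ) {blk : Fin G × Fin (i + 1) → Fin (n + 1)} (g : φ → Fin G) (C : φ → ℕ)
    {b : Fin (n + 1)} (hb : ∀ x, blk x ≠ b) : kk q blk g C b = q + 1 := by
  unfold kk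
  rw [dif_neg]
  rintro ⟨x, hx⟩
  exact hb x hx

theorem Count_fin (i N : ℕ) [∀ c : Fin (i + 1), Decidable (c.val < i)] :
    ∑ c : Fin (i + 1), (if c.val < i then N else 0) = i * N := by
  rw [Fin.sum_univ_castSucc]
  simp

open Classical in
theorem Count_fiber (g : φ → Fin G) (C : φ → ℕ) :
    ∑ g₀, ∑ a with g a = g₀, C a = ∑ a, C a :=
  Finset.sum_fiberwise Finset.univ g C

open Classical in
theorem Count_card (g : φ → Fin G) :
    ∑ g₀, (Finset.univ.filter fun a => g a = g₀).card = Fintype.card φ := by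
  have h := Count_fiber g (fun _ => 1)
  simpa using h

open Classical in
theorem sum_kk (q : ℕ) {blk : Fin G × Fin (i + 1) → Fin (n + 1)} (hblk : Function.Injective blk)
    (g : φ → Fin G) (C : φ → ℕ) (hC : ∀ g₀, ∑ a with g a = g₀, C a ≤ q + 1) :
    ∑ b, kk q blk g C b + (i + 1) * ∑ a, C a = (q + 1) * (n + 1) + i * Fintype.card φ := by
  have h1 : ∑ b, kk q blk g C b =
      ∑ b ∈ Finset.univ.image blk, kk q blk g C b +
        ∑ b ∈ (Finset.univ.image blk)ᶜ, kk q blk g C b :=
    (Finset.sum_add_sum_compl _ _).symm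
  have h2 : ∑ b ∈ (Finset.univ.image blk)ᶜ, kk q blk g C b =
      (Finset.univ.image blk)ᶜ.card * (q + 1) := by
    rw [Finset.sum_congr rfl (g := fun _ => q + 1), Finset.sum_const, smul_eq_mul]
    intro b hb
    apply kk_not
    intro x hx
    rw [Finset.mem_compl] at hb
    exact hb (Finset.mem_image.mpr ⟨x, Finset.mem_univ x, hx⟩)
  have h3 : ∑ b ∈ Finset.univ.image blk, kk q blk g C b = ∑ x, kk q blk g C (blk x) :=
    Finset.sum_image (fun x _ y _ h => hblk h)
  have h4 : ∑ x, kk q blk g C (blk x) + (i + 1) * ∑ a, C a =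
      G * ((i + 1) * (q + 1)) + i * Fintype.card φ := by
    rw [← Count_fiber g C, ← Count_card g, Fintype.sum_prod_type, Finset.mul_sum, Finset.mul_sum,
      ← Finset.sum_add_distrib]
    have h5 : G * ((i + 1) * (q + 1)) = ∑ _g₀ : Fin G, ((i + 1) * (q + 1)) := by simp
    rw [h5, ← Finset.sum_add_distrib]
    apply Finset.sum_congr rfl
    intro g₀ _
    have h8 : ∀ c : Fin (i + 1), kk q blk g C (blk (g₀, c)) = q + 1 - ∑ a with g a = g₀, C a +
        (if c.val < i then (Finset.univ.filter fun a => g a = g₀).card else 0) :=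
      fun c => kk_blk q hblk g C (g₀, c)
    rw [Finset.sum_congr rfl (fun c _ => h8 c), Finset.sum_add_distrib, Count_fin]
    simp only [Finset.sum_const, Finset.card_univ, Fintype.card_fin, smul_eq_mul]
    have h6 := hC g₀
    have h7 : (i + 1) * (q + 1 - ∑ a with g a = g₀, C a) + (i + 1) * ∑ a with g a = g₀, C a =
        (i + 1) * (q + 1) := by
      rw [← Nat.mul_add, Nat.sub_add_cancel h6]
    omega
  have h8 : (Finset.univ.image blk).card = G * (i + 1) := by
    rw [Finset.card_image_of_injective _ hblk]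
    simp
  have h9 : (Finset.univ.image blk)ᶜ.card + G * (i + 1) = n + 1 := by
    rw [← h8, Finset.card_compl_add_card]
    simp
  rw [h1, h2, h3]
  have h10 : ((Finset.univ.image blk)ᶜ.card + G * (i + 1)) * (q + 1) = (n + 1) * (q + 1) := by
    rw [h9]
  have h11 : G * ((i + 1) * (q + 1)) = G * (i + 1) * (q + 1) := by ring
  have h12 : (q + 1) * (n + 1) = (n + 1) * (q + 1) := by ring
  rw [h11] at h4
  rw [Nat.add_mul] at h10
  omega

end Pool.Agent.Lib_MP_c7e57a
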