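import Pool.Agent.Lib_MP_c7e57a.CovBox

/-!
# Piece CI-K4: asymptotics of the coverings, `β` and `r` large

Let `v` be maximal with `v ^ i ≤ β`, so `v ^ i ≤ β < (v + 1) ^ i` (`Nat.nthRoot` or
`Nat.findGreatest`). For `β ≥ B` the number `v` is large, so
`v ^ i ≥ (v / (v + 1)) ^ i β ≥ (1 - δ) β`. Use `cov_box` with all `u s = v`, `∏ u = v ^ i`,
`∑ u = i v`; put `k = i + i v`. Let `j` be maximal with `(j + k) ^ i ≤ i ! v ^ i (r - (i + 1))`; then
`(j + 1 + k) ^ i > i ! v ^ i (r - (i + 1)) ≥ (1 - δ) ^ 2 i ! β r`, as `r ≥ R ≥ (i + 1) / δ`.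
For `K = K(i, δ)` the inequality holds for `j' = K (k + 1)`, because
`(K (k + 1) + k) ^ i ≤ ((K + 1) (3 i v)) ^ i = C v ^ i` with `C = ((K + 1) 3 i) ^ i` (as
`k + 1 = i + i v + 1 ≤ 3 i v`) and `r - (i + 1) ≥ C`. So `j ≥ K (k + 1)` and
`(j + 1 + k) ^ i ≤ (1 + 1 / K) ^ i j ^ i ≤ (1 - δ)⁻¹ j ^ i`. Altogether
`j ^ i ≥ (1 - δ) ^ 3 i ! β r ≥ (1 - ε) i ! β r` with `δ = ε / 3` (assume `ε ≤ 1`, otherwise the
inequality is trivial).
(Instead of the maximal `j` take `Nat.find` of the first `j` that violates the inequality,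
minus one; it exists because `(j + k) ^ i ≥ j`.)
-/

namespace Pool.Agent.Lib_MP_c7e57a

/-- Integer roots. -/
private theorem CovAsy2_root {i : ℕ} (hi : 1 ≤ i) (N : ℕ) : ∃ m : ℕ, m ^ i ≤ N ∧ N < (m + 1) ^ i := by
  have hex : ∃ n : ℕ, N < (n + 1) ^ i := ⟨N, lt_of_lt_of_le (Nat.lt_succ_self N)
    (Nat.le_self_pow (by omega) _)⟩
  refine ⟨Nat.find hex, ?_, Nat.find_spec hex⟩
  rcases Nat.eq_zero_or_pos (Nat.find hex) with h | h
  · rw [h, zero_pow (by omega)]
    exact Nat.zero_le _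
  · have h1 := Nat.find_min hex (m := Nat.find hex - 1) (by omega)
    rw [not_lt, Nat.sub_add_cancel h] at h1
    exact h1

/-- The constant. -/
private theorem CovAsy2_const (i : ℕ) {ε : ℝ} (hε : 0 < ε) :
    ∃ K : ℕ, 1 ≤ K ∧ (1 + 1 / (K : ℝ)) ^ (3 * i) ≤ 1 + ε := by
  have h1 : Filter.Tendsto (fun K : ℕ => (1 + 1 / (K : ℝ)) ^ (3 * i)) Filter.atTop
      (nhds ((1 + 0) ^ (3 * i))) :=
    (tendsto_one_div_atTop_nhds_zero_nat.const_add 1).pow _
  rw [add_zero, one_pow] at h1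
  have h2 := h1.eventually (gt_mem_nhds (show (1 : ℝ) < 1 + ε by linarith))
  obtain ⟨K, hK1, hK2⟩ := (h2.and (Filter.eventually_ge_atTop 1)).exists
  exact ⟨K, hK2, hK1.le⟩

theorem cov_asymptotic2 {i : ℕ} (hi : 1 ≤ i) {ε : ℝ} (hε : 0 < ε) :
    ∃ B R : ℕ, ∀ β r : ℕ, B ≤ β → i + 1 ≤ r → R ≤ r →
      ∃ j : ℕ, 1 ≤ j ∧ Cov i β r j ∧ (1 - ε) * (i.factorial * (β * r) : ℕ) ≤ (j : ℝ) ^ i := by
  obtain ⟨K, hK1, hK⟩ := CovAsy2_const i hε
  refine ⟨K ^ i, ((K + 1) * (3 * i)) ^ i + (i + 1) * (K + 1), ?_⟩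
  intro β r hβ hr hR
  obtain ⟨v, hv1, hv2⟩ := CovAsy2_root hi β
  have hKv : K ≤ v := by
    have h1 : K ^ i < (v + 1) ^ i := lt_of_le_of_lt hβ hv2
    have h2 : K < v + 1 := lt_of_pow_lt_pow_left₀ i (by omega) h1
    omega
  have hv0 : 1 ≤ v := hK1.trans hKv
  obtain ⟨r', hr'⟩ : ∃ r', r = r' + (i + 1) := ⟨r - (i + 1), by omega⟩
  have hr'1 : ((K + 1) * (3 * i)) ^ i ≤ r' := by
    have : (i + 1) * (K + 1) = (i + 1) * K + (i + 1) := by ring
    omega
  have hr'2 : (i + 1) * K ≤ r' := by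
    have : (i + 1) * (K + 1) = (i + 1) * K + (i + 1) := by ring
    omega
  obtain ⟨m, hm1, hm2⟩ := CovAsy2_root hi (i.factorial * (v ^ i * r'))
  -- `m` is large
  have hm3 : (K + 1) * (3 * i * v) ≤ m := by
    have h1 : ((K + 1) * (3 * i * v)) ^ i < (m + 1) ^ i := by
      refine lt_of_le_of_lt ?_ hm2
      calc ((K + 1) * (3 * i * v)) ^ i = v ^ i * ((K + 1) * (3 * i)) ^ i := by
            rw [← mul_pow]; congr 1; ring
        _ ≤ v ^ i * r' := Nat.mul_le_mul_left _ hr'1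
        _ = 1 * (v ^ i * r') := (one_mul _).symm
        _ ≤ i.factorial * (v ^ i * r') := Nat.mul_le_mul_right _ (Nat.factorial_pos i)
    have h2 : (K + 1) * (3 * i * v) < m + 1 := lt_of_pow_lt_pow_left₀ i (by omega) h1
    omega
  have hk : i + i * v + 1 ≤ 3 * i * v := by
    have h1 : i ≤ i * v := Nat.le_mul_of_pos_right _ hv0
    have h2 : 3 * i * v = i * v + i * v + i * v := by ring
    omega
  have hm4 : (K + 1) * (i + i * v + 1) ≤ m := (Nat.mul_le_mul_left _ hk).trans hm3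
  obtain ⟨j, hj⟩ : ∃ j, m = j + (i + i * v) := by
    refine ⟨m - (i + i * v), ?_⟩
    have : (K + 1) * (i + i * v + 1) = K * (i + i * v + 1) + (i + i * v + 1) := by ring
    omega
  have hj1 : K * (i + i * v + 1) + 1 ≤ j := by
    have : (K + 1) * (i + i * v + 1) = K * (i + i * v + 1) + (i + i * v + 1) := by ring
    omega
  refine ⟨j, by omega, ?_, ?_⟩
  · apply cov_box (fun _ => v) (fun _ => hv0)
    · simpa using hv1
    · exact hr
    · have h1 : r - (i + 1) = r' := by omega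
      simp only [Finset.prod_const, Finset.sum_const, Finset.card_univ, Fintype.card_fin,
        smul_eq_mul]
      rw [h1]
      have h2 : i + (j + i * v) = m := by omega
      rw [h2]
      exact hm1
  · rcases le_or_gt 1 ε with hε1 | hε1
    · have h1 : (1 - ε) * ((i.factorial * (β * r) : ℕ) : ℝ) ≤ 0 :=
        mul_nonpos_of_nonpos_of_nonneg (by linarith) (by positivity)
      exact h1.trans (by positivity)
    · have hK0 : (0 : ℝ) < K := by exact_mod_cast hK1
      set a : ℝ := 1 + 1 / (K : ℝ) with ha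
      have ha1 : 1 ≤ a := by
        rw [ha]
        have : 0 ≤ 1 / (K : ℝ) := by positivity
        linarith
      -- (a)
      have e1 : (β : ℝ) ≤ a ^ i * v ^ i := by
        have h1 : (β : ℝ) ≤ ((v : ℝ) + 1) ^ i := by exact_mod_cast hv2.le
        refine h1.trans ?_
        rw [← mul_pow]
        apply pow_le_pow_left₀ (by positivity)
        have h2 : (K : ℝ) ≤ v := by exact_mod_cast hKv
        have h3 : 1 ≤ 1 / (K : ℝ) * v := by
          rw [one_div, inv_mul_eq_div, le_div_iff₀ hK0]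
          linarith
        rw [ha, add_mul, one_mul]
        linarith
      -- (b)
      have e2 : (r : ℝ) ≤ a ^ i * r' := by
        have h1 : a * (r' : ℝ) ≤ a ^ i * r' := by
          gcongr
          exact le_self_pow₀ ha1 (by omega)
        refine le_trans ?_ h1
        have h2 : ((i : ℝ) + 1) * K ≤ r' := by exact_mod_cast hr'2
        have h3 : (i : ℝ) + 1 ≤ 1 / (K : ℝ) * r' := by
          rw [one_div, inv_mul_eq_div, le_div_iff₀ hK0]
          exact h2
        rw [ha, hr']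
        push_cast
        linarith
      -- (c)
      have e3 : ((i.factorial * (v ^ i * r') : ℕ) : ℝ) ≤ a ^ i * (j : ℝ) ^ i := by
        have h1 : ((i.factorial * (v ^ i * r') : ℕ) : ℝ) ≤ ((m : ℝ) + 1) ^ i := by
          exact_mod_cast hm2.le
        refine h1.trans ?_
        rw [← mul_pow]
        apply pow_le_pow_left₀ (by positivity)
        have h2 : (K : ℝ) * (i + i * v + 1) ≤ j := by
          have : K * (i + i * v + 1) ≤ j := by omega
          exact_mod_cast this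
        have h3 : (i : ℝ) + i * v + 1 ≤ 1 / (K : ℝ) * j := by
          rw [one_div, inv_mul_eq_div, le_div_iff₀ hK0]
          linarith
        rw [ha, hj, add_mul, one_mul]
        push_cast
        linarith
      have e4 : ((i.factorial * (β * r) : ℕ) : ℝ) ≤ (1 + ε) * (j : ℝ) ^ i := by
        push_cast at e3 ⊢
        calc (i.factorial : ℝ) * (β * r) ≤ i.factorial * ((a ^ i * v ^ i) * (a ^ i * r')) := by
              gcongr
          _ = a ^ i * a ^ i * (i.factorial * (v ^ i * r')) := by ring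
          _ ≤ a ^ i * a ^ i * (a ^ i * (j : ℝ) ^ i) := by gcongr
          _ = a ^ (3 * i) * (j : ℝ) ^ i := by ring
          _ ≤ (1 + ε) * (j : ℝ) ^ i := by gcongr
      have hj0 : (0 : ℝ) ≤ (j : ℝ) ^ i := by positivity
      calc (1 - ε) * ((i.factorial * (β * r) : ℕ) : ℝ) ≤ (1 - ε) * ((1 + ε) * (j : ℝ) ^ i) := by
            apply mul_le_mul_of_nonneg_left e4
            linarith
        _ = (j : ℝ) ^ i - ε ^ 2 * (j : ℝ) ^ i := by ring
        _ ≤ (j : ℝ) ^ i := by
            have : 0 ≤ ε ^ 2 * (j : ℝ) ^ i := by positivity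
            linarith

end Pool.Agent.Lib_MP_c7e57a
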