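import Pool.Agent.Lib_MP_c7e57a.CovLat

/-!
# Piece CI-K5: asymptotics of the coverings, bounded `r`

Let `r < R` and `β ≥ B` large (depending on `i, ε, R`). Let `j` be maximal with the inequality `h` of
`cov_lattice`, `F r j := (i + (j + r)) ^ i + i ! r (i r (i + j) ^ (i - 1)) ≤ i ! r β`. Then
`F r (j + 1) > i ! r β`, and `j ≥ J` for `β ≥ B`, if `F R J ≤ B` (the left hand side is monotone in `r`
and `j`). For `J = J(i, R, δ)` large and `j ≥ J`: `F r (j + 1) ≤ (1 + δ) j ^ i`, since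
`F r (j + 1) ≤ (j + i + 1 + R) ^ i + i ! i R ^ 2 (j + i + 1) ^ (i - 1)` and the quotient of the right
hand side by `j ^ i` tends to `1` as `j` tends to infinity. So `j ^ i ≥ (1 + δ)⁻¹ i ! β r`
`≥ (1 - ε) i ! β r` with `δ = ε`.
(Instead of the maximal `j` take `Nat.find` of the first `j` that violates the inequality,
minus one; it exists because `F r j ≥ j`.)
-/

namespace Pool.Agent.Lib_MP_c7e57a

/-- the left hand side of the inequality of `cov_lattice` -/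
private def CovAsy3_F (i r j : ℕ) : ℕ :=
  (i + (j + r)) ^ i + i.factorial * (r * (i * r * (i + j) ^ (i - 1)))

private lemma CovAsy3_mono {i r r' j : ℕ} (h : r ≤ r') : CovAsy3_F i r j ≤ CovAsy3_F i r' j := by
  unfold CovAsy3_F
  gcongr

private lemma CovAsy3_ge {i r j : ℕ} (hi : 1 ≤ i) : j ≤ CovAsy3_F i r j := by
  unfold CovAsy3_F
  have h1 : i + (j + r) ≤ (i + (j + r)) ^ i := Nat.le_self_pow (by omega) _
  omega

private lemma CovAsy3_lim (i R : ℕ) {ε : ℝ} (hε : 0 < ε) :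
    ∃ J : ℕ, 1 ≤ J ∧ ∀ j : ℕ, J ≤ j → ((j : ℝ) + (i + 1 + R)) ^ i +
      (i.factorial * i * R ^ 2 : ℝ) * ((j : ℝ) + (i + 1)) ^ (i - 1) ≤ (1 + ε) * (j : ℝ) ^ i := by
  have t1 : Filter.Tendsto (fun j : ℕ => 1 + ((i : ℝ) + 1 + R) / (j : ℝ)) Filter.atTop
      (nhds (1 + 0)) :=
    tendsto_const_nhds.add (tendsto_const_div_atTop_nhds_zero_nat _)
  have t2 : Filter.Tendsto (fun j : ℕ => 1 + ((i : ℝ) + 1) / (j : ℝ)) Filter.atTop
      (nhds (1 + 0)) :=
    tendsto_const_nhds.add (tendsto_const_div_atTop_nhds_zero_nat _)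
  have t3 : Filter.Tendsto (fun j : ℕ => (1 + ((i : ℝ) + 1 + R) / (j : ℝ)) ^ i +
      ((i.factorial * i * R ^ 2 : ℝ) * (1 + ((i : ℝ) + 1) / (j : ℝ)) ^ (i - 1)) *
        ((1 : ℝ) / (j : ℝ))) Filter.atTop
      (nhds ((1 + 0) ^ i + ((i.factorial * i * R ^ 2 : ℝ) * (1 + 0) ^ (i - 1)) * 0)) :=
    (t1.pow i).add ((tendsto_const_nhds.mul (t2.pow (i - 1))).mul
      (tendsto_const_div_atTop_nhds_zero_nat 1))
  have e : ((1 : ℝ) + 0) ^ i + ((i.factorial * i * R ^ 2 : ℝ) * (1 + 0) ^ (i - 1)) * 0 = 1 := by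
    simp
  rw [e] at t3
  have h1 := (t3.eventually (gt_mem_nhds (show (1 : ℝ) < 1 + ε by linarith))).and
    (Filter.eventually_ge_atTop 1)
  obtain ⟨J, hJ⟩ := Filter.eventually_atTop.1 h1
  refine ⟨max J 1, le_max_right _ _, ?_⟩
  intro j hj
  obtain ⟨h2, h3⟩ := hJ j ((le_max_left _ _).trans hj)
  have hj0 : (0 : ℝ) < j := by exact_mod_cast h3
  have h4 : ((j : ℝ) + (i + 1 + R)) ^ i = (1 + ((i : ℝ) + 1 + R) / (j : ℝ)) ^ i * (j : ℝ) ^ i := by
    rw [← mul_pow]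
    congr 1
    field_simp
  rcases Nat.eq_zero_or_pos i with hi | hi
  · subst hi
    simp
    linarith
  · have h5 : ((j : ℝ) + (i + 1)) ^ (i - 1) =
        (1 + ((i : ℝ) + 1) / (j : ℝ)) ^ (i - 1) * ((1 : ℝ) / (j : ℝ)) * (j : ℝ) ^ i := by
      obtain ⟨k, rfl⟩ : ∃ k, i = k + 1 := ⟨i - 1, by omega⟩
      simp only [Nat.add_sub_cancel]
      have h6 : ((1 : ℝ) / (j : ℝ)) * (j : ℝ) ^ (k + 1) = (j : ℝ) ^ k := by
        rw [pow_succ]
        field_simp
      rw [mul_assoc, h6, ← mul_pow]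
      congr 1
      field_simp
    rw [h4, h5]
    have h7 := mul_le_mul_of_nonneg_right h2.le (show (0 : ℝ) ≤ (j : ℝ) ^ i by positivity)
    refine le_trans (le_of_eq ?_) h7
    ring

theorem cov_asymptotic3 {i : ℕ} (hi : 1 ≤ i) {ε : ℝ} (hε : 0 < ε) (R : ℕ) :
    ∃ B : ℕ, ∀ β r : ℕ, i + 1 ≤ r → r < R → B ≤ β →
      ∃ j : ℕ, 1 ≤ j ∧ Cov i β r j ∧ (1 - ε) * (i.factorial * (β * r) : ℕ) ≤ (j : ℝ) ^ i := by
  classical
  obtain ⟨J, hJ1, hJ⟩ := CovAsy3_lim i R hε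
  refine ⟨CovAsy3_F i R J, ?_⟩
  intro β r hr hrR hβ
  have hfac : 1 ≤ i.factorial := Nat.one_le_iff_ne_zero.2 (Nat.factorial_ne_zero i)
  have hrβ : β ≤ i.factorial * (r * β) := by
    calc β = 1 * (1 * β) := by ring
      _ ≤ i.factorial * (r * β) := by
        apply Nat.mul_le_mul hfac
        exact Nat.mul_le_mul (by omega) (le_refl _)
  have hPJ : CovAsy3_F i r J ≤ i.factorial * (r * β) :=
    (CovAsy3_mono hrR.le).trans (hβ.trans hrβ)
  have hex : ∃ j, J ≤ j ∧ ¬ CovAsy3_F i r (j + 1) ≤ i.factorial * (r * β) := by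
    refine ⟨max J (i.factorial * (r * β)), le_max_left _ _, ?_⟩
    have h1 := CovAsy3_ge (r := r) (j := max J (i.factorial * (r * β)) + 1) hi
    have h2 := le_max_right J (i.factorial * (r * β))
    omega
  obtain ⟨hj1, hj2⟩ := Nat.find_spec hex
  have hj3 : CovAsy3_F i r (Nat.find hex) ≤ i.factorial * (r * β) := by
    rcases Nat.eq_or_lt_of_le hj1 with h1 | h1
    · rw [← h1]
      exact hPJ
    · by_contra h2
      have h3 : ¬ (J ≤ Nat.find hex - 1 ∧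
          ¬ CovAsy3_F i r (Nat.find hex - 1 + 1) ≤ i.factorial * (r * β)) :=
        Nat.find_min hex (by omega)
      apply h3
      rw [show Nat.find hex - 1 + 1 = Nat.find hex by omega]
      exact ⟨by omega, h2⟩
  generalize Nat.find hex = j₀ at hj1 hj2 hj3
  refine ⟨j₀, by omega, cov_lattice hi hr hj3, ?_⟩
  have h4 : (i.factorial * (r * β) : ℕ) ≤ CovAsy3_F i r (j₀ + 1) := by omega
  have h5 : (CovAsy3_F i r (j₀ + 1) : ℝ) ≤ (1 + ε) * (j₀ : ℝ) ^ i := by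
    refine le_trans ?_ (hJ _ hj1)
    have hrR' : (r : ℝ) ≤ R := by exact_mod_cast hrR.le
    unfold CovAsy3_F
    push_cast
    refine add_le_add ?_ ?_
    · refine pow_le_pow_left₀ (by positivity) ?_ i
      linarith
    · have h6 : ((i : ℝ) + ((j₀ : ℝ) + 1)) = (j₀ : ℝ) + (i + 1) := by
        ring
      rw [h6]
      have h7 : (r : ℝ) * r ≤ R ^ 2 := by
        rw [pow_two]
        exact mul_le_mul hrR' hrR' (by positivity) (by positivity)
      calc (i.factorial : ℝ) * ((r : ℝ) * (i * r * ((j₀ : ℝ) + (i + 1)) ^ (i - 1)))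
          = (i.factorial * i : ℝ) * ((r : ℝ) * r) * ((j₀ : ℝ) + (i + 1)) ^ (i - 1) := by
            ring
        _ ≤ (i.factorial * i : ℝ) * R ^ 2 * ((j₀ : ℝ) + (i + 1)) ^ (i - 1) := by
            gcongr
  have h8 : ((i.factorial * (β * r) : ℕ) : ℝ) ≤ (1 + ε) * (j₀ : ℝ) ^ i := by
    refine le_trans ?_ h5
    have : i.factorial * (β * r) = i.factorial * (r * β) := by ring
    rw [this]
    exact_mod_cast h4
  rcases le_or_gt (1 - ε) 0 with h9 | h9
  · have h10 : (1 - ε) * ((i.factorial * (β * r) : ℕ) : ℝ) ≤ 0 :=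
      mul_nonpos_of_nonpos_of_nonneg h9 (Nat.cast_nonneg _)
    exact h10.trans (by positivity)
  · have h10 := mul_le_mul_of_nonneg_left h8 h9.le
    have h11 : (0 : ℝ) ≤ (j₀ : ℝ) ^ i := by positivity
    refine h10.trans ?_
    nlinarith [mul_nonneg (sq_nonneg ε) h11]

end Pool.Agent.Lib_MP_c7e57a
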