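import Pool.Agent.Lib_MP_c7e57a.CovAsy1
import Pool.Agent.Lib_MP_c7e57a.CovAsy2
import Pool.Agent.Lib_MP_c7e57a.CovAsy3

/-!
# Asymptotics of the coverings
-/

namespace Pool.Agent.Lib_MP_c7e57a

theorem cov_asymptotic {i : ℕ} (hi : 1 ≤ i) {ε : ℝ} (hε : 0 < ε) :
    ∃ M : ℕ, ∀ β r : ℕ, 1 ≤ β → i + 1 ≤ r → M ≤ β * r →
      ∃ j : ℕ, 1 ≤ j ∧ Cov i β r j ∧ (1 - ε) * (i.factorial * (β * r) : ℕ) ≤ (j : ℝ) ^ i := by
  obtain ⟨B, R₂, h2⟩ := cov_asymptotic2 hi hε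
  obtain ⟨R₁, h1⟩ := cov_asymptotic1 hi hε B
  obtain ⟨B₃, h3⟩ := cov_asymptotic3 hi hε (max R₁ R₂)
  refine ⟨B₃ * max R₁ R₂, fun β r hβ hr hM => ?_⟩
  by_cases hrR : r < max R₁ R₂
  · refine h3 β r hr hrR ?_
    by_contra hcon
    push Not at hcon
    have h4 : β * r ≤ β * max R₁ R₂ := Nat.mul_le_mul_left _ hrR.le
    have h5 : β * max R₁ R₂ < B₃ * max R₁ R₂ :=
      Nat.mul_lt_mul_of_pos_right hcon (by omega)
    omega
  · push Not at hrR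
    by_cases hβB : β < B
    · exact h1 β r hβ hβB hr (le_trans (le_max_left _ _) hrR)
    · exact h2 β r (not_lt.1 hβB) hr (le_trans (le_max_right _ _) hrR)

end Pool.Agent.Lib_MP_c7e57a
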