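import Pool.Agent.Lib_MP_c7e57a.CovBox

/-!
# Piece CI-K3: asymptotics of the coverings, bounded `β`

Let `β < B` and `r ≥ R` large (depending on `i, ε, B`). Use `cov_box` with `u = (β, 1, ..., 1)`
(`i ≥ 1`; `Function.update (fun _ => 1) ⟨0, _⟩ β`), so `∏ u = β`, `∑ u = β + i - 1`; put
`k = i + ∑ u ≤ B + 2 i`. Let `j` be maximal with `(j + k) ^ i ≤ i ! β (r - (i + 1))`; then
`(j + 1 + k) ^ i > i ! β (r - (i + 1)) ≥ (1 - δ) i ! β r`, as `r ≥ R ≥ (i + 1) / δ`.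
For `K = K(i, δ)` the inequality holds for `j' = K (B + 2 i + 1)` if
`(j' + B + 2 i) ^ i + i + 1 ≤ R`, so `j ≥ K (k + 1)`, and then
`(j + 1 + k) ^ i ≤ (1 + 1 / K) ^ i j ^ i ≤ (1 - δ)⁻¹ j ^ i`. Altogether
`j ^ i ≥ (1 - δ) ^ 2 i ! β r ≥ (1 - ε) i ! β r` with `δ = ε / 2` (assume `ε ≤ 1`, otherwise the
inequality is trivial: the left hand side is `≤ 0`).
(Instead of the maximal `j` take `Nat.find` of the first `j` that violates the inequality,
minus one; it exists because `(j + k) ^ i ≥ j`.)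
-/

namespace Pool.Agent.Lib_MP_c7e57a

theorem cov_asymptotic1 {i : ℕ} (hi : 1 ≤ i) {ε : ℝ} (hε : 0 < ε) (B : ℕ) :
    ∃ R : ℕ, ∀ β r : ℕ, 1 ≤ β → β < B → i + 1 ≤ r → R ≤ r →
      ∃ j : ℕ, 1 ≤ j ∧ Cov i β r j ∧ (1 - ε) * (i.factorial * (β * r) : ℕ) ≤ (j : ℝ) ^ i := by
  classical
  obtain ⟨δ, hδ0, hδ1, hδε⟩ : ∃ δ : ℝ, 0 < δ ∧ δ ≤ 1 / 2 ∧ 2 * δ ≤ ε := by
    refine ⟨min ε 1 / 2, by positivity, ?_, ?_⟩
    · linarith [min_le_right ε 1]
    · linarith [min_le_left ε 1]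
  have hi0 : (0 : ℝ) < i := by exact_mod_cast hi
  have hi1 : (1 : ℝ) ≤ i := by exact_mod_cast hi
  obtain ⟨Y, hY⟩ := exists_nat_ge ((i : ℝ) * (B + 2 * i + 1) / δ)
  obtain ⟨R2, hR2⟩ := exists_nat_ge (((i : ℝ) + 1) / δ)
  refine ⟨Y ^ i + R2 + (i + 1), fun β r hβ1 hβB hir hr => ?_⟩
  obtain ⟨u, hu⟩ : ∃ u : Fin i → ℕ, u = Function.update (fun _ => 1) ⟨0, hi⟩ β := ⟨_, rfl⟩
  have hu1 : ∀ s, 1 ≤ u s := by
    intro s
    rw [hu]
    by_cases hs : s = ⟨0, hi⟩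
    · rw [hs, Function.update_self]
      exact hβ1
    · rw [Function.update_of_ne hs]
  have hprod : ∏ s, u s = β := by
    rw [hu, Finset.prod_update_of_mem (Finset.mem_univ _)]
    simp
  have hsum : ∑ s, u s ≤ β + i := by
    rw [hu, Finset.sum_update_of_mem (Finset.mem_univ _)]
    simp only [Finset.sum_const, smul_eq_mul, mul_one]
    have := Finset.card_le_card (Finset.sdiff_subset (s := (Finset.univ : Finset (Fin i)))
      (t := {⟨0, hi⟩}))
    simp only [Finset.card_univ, Fintype.card_fin] at this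
    omega
  obtain ⟨k, hk⟩ : ∃ k : ℕ, k = i + ∑ s, u s := ⟨_, rfl⟩
  obtain ⟨N, hN⟩ : ∃ N : ℕ, N = i.factorial * (β * (r - (i + 1))) := ⟨_, rfl⟩
  have hkB : k + 1 ≤ B + 2 * i + 1 := by omega
  -- `N` is large
  have hfac : 1 ≤ i.factorial := Nat.factorial_pos i
  have hNr : r - (i + 1) ≤ N := by
    rw [hN]
    calc r - (i + 1) = 1 * (1 * (r - (i + 1))) := by ring
      _ ≤ i.factorial * (β * (r - (i + 1))) :=
        Nat.mul_le_mul hfac (Nat.mul_le_mul hβ1 le_rfl)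
  have hNY : Y ^ i ≤ N := le_trans (by omega) hNr
  have hkY : (k : ℝ) + 1 ≤ Y := by
    refine le_trans ?_ hY
    rw [le_div_iff₀ hδ0]
    have h1 : ((k : ℝ) + 1) ≤ B + 2 * i + 1 := by exact_mod_cast hkB
    have h2 : (0 : ℝ) ≤ (k : ℝ) + 1 := by positivity
    nlinarith
  have hkY' : k + 1 ≤ Y := by exact_mod_cast hkY
  have hi' : i ≠ 0 := by omega
  -- the first `j` which violates the inequality
  have hex : ∃ j : ℕ, N < (j + k) ^ i := by
    refine ⟨N + 1, ?_⟩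
    calc N < N + 1 + k := by omega
      _ = (N + 1 + k) ^ 1 := (pow_one _).symm
      _ ≤ (N + 1 + k) ^ i := Nat.pow_le_pow_right (by omega) hi
  obtain ⟨J, hJ, hJmin⟩ : ∃ J : ℕ, N < (J + k) ^ i ∧ ∀ j < J, (j + k) ^ i ≤ N :=
    ⟨Nat.find hex, Nat.find_spec hex, fun j hj => not_lt.1 (Nat.find_min hex hj)⟩
  have hJY : Y < J + k := by
    by_contra h
    push Not at h
    have := Nat.pow_le_pow_left h i
    omega
  have hJ2 : 2 ≤ J := by
    omega
  refine ⟨J - 1, by omega, ?_, ?_⟩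
  · refine cov_box u hu1 hprod.le hir ?_
    rw [hprod, ← hN]
    have h1 := hJmin (J - 1) (by omega)
    have h2 : i + (J - 1 + ∑ s, u s) = J - 1 + k := by omega
    rw [h2]
    exact h1
  · have hj1 : ((J - 1 : ℕ) : ℝ) = J - 1 := by
      rw [Nat.cast_sub (by omega), Nat.cast_one]
    -- `j ≥ (1 - δ / i) (j + 1 + k)`
    have hX : (i : ℝ) * (k + 1) / δ ≤ (J : ℝ) + k := by
      have h1 : (i : ℝ) * (k + 1) / δ ≤ (i : ℝ) * (B + 2 * i + 1) / δ := by
        refine div_le_div_of_nonneg_right ?_ hδ0.le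
        refine mul_le_mul_of_nonneg_left ?_ hi0.le
        exact_mod_cast hkB
      have h2 : (Y : ℝ) ≤ (J : ℝ) + k := by exact_mod_cast hJY.le
      linarith
    have hge : (1 - δ / i) * ((J : ℝ) + k) ≤ ((J - 1 : ℕ) : ℝ) := by
      rw [hj1]
      rw [div_le_iff₀ hδ0] at hX
      have h3 : (k : ℝ) + 1 ≤ δ / i * ((J : ℝ) + k) := by
        rw [div_mul_eq_mul_div, le_div_iff₀ hi0]
        linarith
      linarith
    have hdi : δ / i ≤ 1 / 2 := by
      refine le_trans ?_ hδ1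
      exact div_le_self hδ0.le hi1
    have hpow : (1 - δ) * ((J : ℝ) + k) ^ i ≤ ((J - 1 : ℕ) : ℝ) ^ i := by
      have h1 : (1 - δ) ≤ (1 - δ / i) ^ i := by
        have h2 := one_add_mul_le_pow (a := -(δ / i)) (by linarith) i
        have h3 : 1 + (i : ℝ) * (-(δ / i)) = 1 - δ := by
          field_simp
          ring
        rw [h3] at h2
        rwa [← sub_eq_add_neg] at h2
      calc (1 - δ) * ((J : ℝ) + k) ^ i ≤ (1 - δ / i) ^ i * ((J : ℝ) + k) ^ i :=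
            mul_le_mul_of_nonneg_right h1 (by positivity)
        _ = ((1 - δ / i) * ((J : ℝ) + k)) ^ i := (mul_pow _ _ _).symm
        _ ≤ _ := pow_le_pow_left₀ (mul_nonneg (by linarith) (by positivity)) hge i
    have hNreal : (1 - δ) * ((i.factorial * (β * r) : ℕ) : ℝ) ≤ N := by
      rw [hN]
      push_cast [Nat.cast_sub hir]
      have h1 : ((i : ℝ) + 1) ≤ δ * r := by
        rw [div_le_iff₀ hδ0] at hR2
        have h2 : (R2 : ℝ) ≤ r := by exact_mod_cast (by omega : R2 ≤ r)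
        nlinarith
      have h3 : (0 : ℝ) ≤ (i.factorial : ℝ) * β := by positivity
      nlinarith [mul_le_mul_of_nonneg_left h1 h3]
    have hNJ : (N : ℝ) ≤ ((J : ℝ) + k) ^ i := by exact_mod_cast hJ.le
    have hZ : (0 : ℝ) ≤ ((i.factorial * (β * r) : ℕ) : ℝ) := Nat.cast_nonneg _
    calc (1 - ε) * ((i.factorial * (β * r) : ℕ) : ℝ)
        ≤ (1 - δ) * ((1 - δ) * ((i.factorial * (β * r) : ℕ) : ℝ)) := by
          rw [← mul_assoc (1 - δ) (1 - δ)]
          refine mul_le_mul_of_nonneg_right ?_ hZ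
          nlinarith [mul_pos hδ0 hδ0]
      _ ≤ (1 - δ) * ((J : ℝ) + k) ^ i :=
        mul_le_mul_of_nonneg_left (hNreal.trans hNJ) (by linarith)
      _ ≤ _ := hpow

end Pool.Agent.Lib_MP_c7e57a
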