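import Pool.Agent.Lib_MP_c7e57a.CovCount

/-!
# Piece CI-K1: coverings by boxes

`P` is the box of all exponents `p` with `p s < u s` for all `s`; `T₀` is the set of the exponents
`t` of degree `< j` with `u s ∣ t s` for all `s`; `T = T₀ ∪ {unit vectors}` (`0 ∈ T₀` as `j ≥ 1`; if
`j = 0`, add `0` to `T`). Covering: `w = (w mod u) + (w - w mod u)`, the second summand has degree
`≤ degree w`. Count: `#P = ∏ u s`. The map `P × T₀ → exponents`, `(p, t) ↦ p + t` is injective
(`p s = (p + t) s mod u s`), and the degrees of its values are less than `j + ∑ u s`, so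
`i ! * (#P * #T₀) ≤ (i + (j + ∑ u s)) ^ i` by `card_degree_lt_le`, hence by `h` and `#P = ∏ u s > 0`,
`#T₀ ≤ r - (i + 1)` and `#T ≤ r` (with `0` and the `i` unit vectors).
-/

namespace Pool.Agent.Lib_MP_c7e57a

theorem cov_box {i β r j : ℕ} (u : Fin i → ℕ) (hu : ∀ s, 1 ≤ u s) (hβ : ∏ s, u s ≤ β)
    (hr : i + 1 ≤ r)
    (h : (i + (j + ∑ s, u s)) ^ i ≤ i.factorial * ((∏ s, u s) * (r - (i + 1)))) :
    Cov i β r j := by
  classical
  obtain ⟨P, hP⟩ : ∃ P : Finset (Fin i →₀ ℕ), P = (Fintype.piFinset fun s => Finset.range (u s)).map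
      (Finsupp.equivFunOnFinite (α := Fin i) (M := ℕ)).symm.toEmbedding := ⟨_, rfl⟩
  have hPm : ∀ p, p ∈ P ↔ ∀ s, p s < u s := by
    intro p
    rw [hP, Finset.mem_map_equiv, Fintype.mem_piFinset]
    simp
  have hPc : P.card = ∏ s, u s := by
    rw [hP, Finset.card_map, Fintype.card_piFinset]
    simp
  have hu0 : 0 < ∏ s, u s := Finset.prod_pos fun s _ => hu s
  have hfin : {t : Fin i →₀ ℕ | t.degree < j ∧ ∀ s, u s ∣ t s}.Finite :=
    (finite_degree_lt i j).subset fun t ht => ht.1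
  obtain ⟨T₀, hT₀⟩ : ∃ T₀ : Finset (Fin i →₀ ℕ), T₀ = hfin.toFinset := ⟨_, rfl⟩
  have hTm : ∀ t, t ∈ T₀ ↔ t.degree < j ∧ ∀ s, u s ∣ t s := by
    intro t
    rw [hT₀, Set.Finite.mem_toFinset]
    rfl
  -- the number of elements of `T₀`
  have hinj : Set.InjOn (fun x : (Fin i →₀ ℕ) × (Fin i →₀ ℕ) => x.1 + x.2)
      ((P ×ˢ T₀ : Finset ((Fin i →₀ ℕ) × (Fin i →₀ ℕ))) : Set ((Fin i →₀ ℕ) × (Fin i →₀ ℕ))) := by
    rintro ⟨p, t⟩ hx ⟨p', t'⟩ hx' hxx
    rw [Finset.mem_coe, Finset.mem_product] at hx hx'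
    have hp := (hPm p).1 hx.1
    have hp' := (hPm p').1 hx'.1
    have ht := ((hTm t).1 hx.2).2
    have ht' := ((hTm t').1 hx'.2).2
    simp only at hxx
    have e1 : ∀ s, p s = p' s ∧ t s = t' s := by
      intro s
      have e2 : p s + t s = p' s + t' s := by
        have := DFunLike.congr_fun hxx s
        simpa using this
      have e3 : (p s + t s) % u s = p s := by
        obtain ⟨c, hc⟩ := ht s
        rw [hc, Nat.add_mul_mod_self_left, Nat.mod_eq_of_lt (hp s)]
      have e4 : (p' s + t' s) % u s = p' s := by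
        obtain ⟨c, hc⟩ := ht' s
        rw [hc, Nat.add_mul_mod_self_left, Nat.mod_eq_of_lt (hp' s)]
      have e5 : p s = p' s := by rw [← e3, e2, e4]
      exact ⟨e5, by omega⟩
    exact Prod.ext (Finsupp.ext fun s => (e1 s).1) (Finsupp.ext fun s => (e1 s).2)
  have hcard := card_degree_lt_le i (j + ∑ s, u s)
    ((P ×ˢ T₀).image fun x : (Fin i →₀ ℕ) × (Fin i →₀ ℕ) => x.1 + x.2) (by
      intro w hw
      rw [Finset.mem_image] at hw
      obtain ⟨⟨p, t⟩, hx, rfl⟩ := hw
      rw [Finset.mem_product] at hx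
      have h1 : p.degree ≤ ∑ s, u s := by
        rw [Finsupp.degree_eq_sum]
        exact Finset.sum_le_sum fun s _ => ((hPm p).1 hx.1 s).le
      have h2 := ((hTm t).1 hx.2).1
      simp only [map_add]
      omega)
  rw [Finset.card_image_of_injOn hinj, Finset.card_product, hPc] at hcard
  have hT₀c : T₀.card ≤ r - (i + 1) := by
    have h1 := Nat.le_of_mul_le_mul_left (hcard.trans h) (Nat.factorial_pos i)
    exact Nat.le_of_mul_le_mul_left h1 hu0
  refine ⟨P, insert 0 (T₀ ∪ Finset.univ.image fun s => Finsupp.single s 1), hPc.le.trans hβ,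
    ?_, Finset.mem_insert_self _ _, fun s => ?_, fun w hw => ?_⟩
  · refine (Finset.card_insert_le _ _).trans ?_
    have h1 := Finset.card_union_le T₀ (Finset.univ.image fun s : Fin i => Finsupp.single s 1)
    have h2 : (Finset.univ.image fun s : Fin i => (Finsupp.single s 1 : Fin i →₀ ℕ)).card ≤ i := by
      refine Finset.card_image_le.trans ?_
      simp
    omega
  · exact Finset.mem_insert_of_mem (Finset.mem_union_right _
      (Finset.mem_image_of_mem _ (Finset.mem_univ s)))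
  · refine ⟨Finsupp.equivFunOnFinite.symm fun s => w s % u s, ?_,
      Finsupp.equivFunOnFinite.symm fun s => w s - w s % u s, ?_, ?_⟩
    · rw [hPm]
      intro s
      exact Nat.mod_lt _ (hu s)
    · refine Finset.mem_insert_of_mem (Finset.mem_union_left _ ?_)
      rw [hTm]
      refine ⟨lt_of_le_of_lt ?_ hw, fun s => Nat.dvd_sub_mod (w s)⟩
      rw [Finsupp.degree_eq_sum, Finsupp.degree_eq_sum]
      exact Finset.sum_le_sum fun s _ => Nat.sub_le _ _
    · ext s
      have := Nat.mod_le (w s) (u s)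
      simp only [Finsupp.coe_add, Pi.add_apply, Finsupp.equivFunOnFinite_symm_apply_apply]
      omega

end Pool.Agent.Lib_MP_c7e57a
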