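import Pool.Agent.Lib_MP_c7e57a.Cover

/-!
# Piece CI-K0: the number of exponents of small degree

The exponents of degree less than `N` in `i` variables: `Finsupp` on `Fin i` with degree `< N`
correspond to exponents on `Fin (i + 1)` of degree exactly `N - 1` (`N ≥ 1`), there are
`(i + N - 1).choose i` of them (`Finset.finsuppAntidiag`, `Finset.card_finsuppAntidiag`... or
`Sym.card_sym_eq_choose`, or by induction on `i`), and `i ! * N'.choose i ≤ N' ^ i`
(`Nat.choose_mul_factorial_le_pow`-like lemmas: `Nat.descFactorial_le_pow` and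
`Nat.descFactorial_eq_factorial_mul_choose`).

`finite_degree_lt`: the set is finite (each entry is less than `N`).

`card_degree_lt_le`: `i ! * #{w | degree w < N} ≤ (i + N) ^ i` (only this bound is needed, a
direct induction on `i` is also possible).
-/

namespace Pool.Agent.Lib_MP_c7e57a

theorem finite_degree_lt (i N : ℕ) : {w : Fin i →₀ ℕ | w.degree < N}.Finite :=
  Finsupp.finite_of_degree_lt N

theorem card_degree_lt_le (i N : ℕ) (S : Finset (Fin i →₀ ℕ)) (hS : ∀ w ∈ S, w.degree < N) :
    i.factorial * S.card ≤ (i + N) ^ i := by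
  rcases Nat.eq_zero_or_pos N with rfl | hN
  · have h1 : S = ∅ := Finset.eq_empty_of_forall_notMem fun w hw => absurd (hS w hw) (Nat.not_lt_zero _)
    rw [h1, Finset.card_empty, mul_zero]
    exact Nat.zero_le _
  · have h1 : S.card ≤ (Finset.finsuppAntidiag (Finset.univ : Finset (Fin (i + 1))) (N - 1)).card := by
      refine Finset.card_le_card_of_injOn (fun w => Finsupp.cons (N - 1 - w.degree) w) ?_ ?_
      · intro w hw
        have h2 := hS w hw
        rw [Finset.mem_coe, Finset.mem_finsuppAntidiag]
        refine ⟨?_, Finset.subset_univ _⟩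
        rw [Fin.sum_univ_succ, Finsupp.cons_zero]
        simp only [Finsupp.cons_succ]
        rw [← Finsupp.degree_eq_sum]
        omega
      · intro w _ w' _ h
        have h3 := congrArg Finsupp.tail h
        simpa only [Finsupp.tail_cons] using h3
    rw [Finset.card_finsuppAntidiag_nat_eq_choose, Finset.card_univ, Fintype.card_fin] at h1
    have h2 : i + 1 + (N - 1) - 1 = i + (N - 1) := by omega
    have h3 : (i + (N - 1)).choose (N - 1) = (i + (N - 1)).choose i := by
      rw [Nat.choose_symm_add]
    rw [h2, h3] at h1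
    calc i.factorial * S.card ≤ i.factorial * (i + (N - 1)).choose i := Nat.mul_le_mul_left _ h1
      _ = (i + (N - 1)).descFactorial i := (Nat.descFactorial_eq_factorial_mul_choose _ _).symm
      _ ≤ (i + (N - 1)) ^ i := Nat.descFactorial_le_pow _ _
      _ ≤ (i + N) ^ i := Nat.pow_le_pow_left (by omega) _

/-- the exponents of degree less than `N` with a given entry -/
theorem CovCount_fibre (i N : ℕ) (S : Finset (Fin i →₀ ℕ)) (hS : ∀ w ∈ S, w.degree < N) (s : Fin i) (v : ℕ) :
    (S.filter (fun w => w s = v)).card ≤ N ^ (i - 1) := by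
  classical
  have h1 : (S.filter (fun w => w s = v)).card ≤
      (Fintype.piFinset (fun j : Fin i => if j = s then {v} else Finset.range N)).card := by
    refine Finset.card_le_card_of_injOn (fun w => (w : Fin i → ℕ)) ?_ ?_
    · intro w hw
      rw [Finset.mem_coe, Finset.mem_filter] at hw
      rw [Finset.mem_coe, Fintype.mem_piFinset]
      intro j
      by_cases hj : j = s
      · rw [if_pos hj, Finset.mem_singleton, hj]
        exact hw.2
      · rw [if_neg hj, Finset.mem_range]
        exact lt_of_le_of_lt (Finsupp.le_degree j w) (hS w hw.1)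
    · intro w _ w' _ h
      exact DFunLike.coe_injective h
  refine h1.trans (le_of_eq ?_)
  rw [Fintype.card_piFinset, ← Finset.prod_erase_mul _ _ (Finset.mem_univ s), if_pos rfl, Finset.card_singleton, mul_one]
  rw [Finset.prod_congr rfl (g := fun _ => N) fun j hj => by
    rw [if_neg (Finset.ne_of_mem_erase hj), Finset.card_range]]
  rw [Finset.prod_const, Finset.card_erase_of_mem (Finset.mem_univ s), Finset.card_univ, Fintype.card_fin]

/-- The exponents of degree less than `N` with one entry less than `m`. -/
theorem card_small_entry_le (i N m : ℕ) (hi : 1 ≤ i) (S : Finset (Fin i →₀ ℕ))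
    (hS : ∀ w ∈ S, w.degree < N ∧ ∃ s, w s < m) :
    S.card ≤ i * m * (i + N) ^ (i - 1) := by
  classical
  have h1 : S ⊆ (Finset.univ ×ˢ Finset.range m).biUnion (fun q : Fin i × ℕ => S.filter (fun w => w q.1 = q.2)) := by
    intro w hw
    obtain ⟨_, s, hs⟩ := hS w hw
    rw [Finset.mem_biUnion]
    refine ⟨(s, w s), ?_, ?_⟩
    · rw [Finset.mem_product, Finset.mem_range]
      exact ⟨Finset.mem_univ _, hs⟩
    · rw [Finset.mem_filter]
      exact ⟨hw, rfl⟩
  refine (Finset.card_le_card h1).trans (Finset.card_biUnion_le.trans ?_)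
  refine (Finset.sum_le_sum (g := fun _ => (i + N) ^ (i - 1)) fun q _ => ?_).trans ?_
  · exact (CovCount_fibre i N S (fun w hw => (hS w hw).1) q.1 q.2).trans (Nat.pow_le_pow_left (by omega) _)
  · rw [Finset.sum_const, smul_eq_mul, Finset.card_product, Finset.card_univ, Fintype.card_fin, Finset.card_range]

end Pool.Agent.Lib_MP_c7e57a
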