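import Pool.Agent.Lib_MP_c7e57a.Near

/-!
# The weights of the equations of the generic fibre at a fat point
-/

namespace Pool.Agent.Lib_MP_c7e57a

open MvPolynomial

variable {n q : ℕ}

section gK

variable (l : Fin (n + 1) → Fin (q + 1) → ℂ)

theorem gK_C (a : ℂ) : gK l (C a) = C (algebraMap ℂ (KK n) a) := by
  unfold gK gR fib
  rw [map_C, aeval_C, MvPolynomial.algebraMap_eq, map_C]
  rfl

theorem gK_add (f g : MvPolynomial (Vars n q) ℂ) : gK l (f + g) = gK l f + gK l g := by
  unfold gK gR
  rw [map_add, map_add, map_add]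

theorem gK_mul (f g : MvPolynomial (Vars n q) ℂ) : gK l (f * g) = gK l f * gK l g := by
  unfold gK gR
  rw [map_mul, map_mul, map_mul]

theorem gK_inr (s : Fin (q + 1)) : gK l (X (Sum.inr s)) = X (some s) := by
  unfold gK gR fib
  rw [map_X, aeval_X, Sum.elim_inr, map_X]

theorem gK_inl (b : Fin (n + 1)) : gK l (X (Sum.inl b)) =
    C (algebraMap (MvPolynomial (Fin n) ℂ) (KK n) (ttR n b)) * X none +
      ∑ s, C (algebraMap ℂ (KK n) (l b s)) * X (some s) := by
  unfold gK gR fib
  rw [map_X, aeval_X, Sum.elim_inl, map_add, map_mul, map_C, map_X, map_sum]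
  congr 1
  refine Finset.sum_congr rfl fun s _ => ?_
  rw [map_mul, map_C, map_X]
  rfl

end gK

theorem aeval_gK (l : Fin (n + 1) → Fin (q + 1) → ℂ) {i : ℕ}
    (γ : Fin (q + 1) → MvPolynomial (Fin i) ℂ) (f : MvPolynomial (Vars n q) ℂ) :
    aeval (fun o : Option (Fin (q + 1)) => o.elim (0 : MvPolynomial (Fin i) (KK n))
      fun s => map (algebraMap ℂ (KK n)) (γ s)) (gK l f) =
    map (algebraMap ℂ (KK n)) (aeval (ptA l γ) f) := by
  induction f using MvPolynomial.induction_on with
  | C a =>
    rw [gK_C, aeval_C, aeval_C, MvPolynomial.algebraMap_eq, MvPolynomial.algebraMap_eq, map_C]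
  | add p q hp hq => rw [gK_add, map_add, hp, hq, map_add, map_add]
  | mul_X p s hp =>
    rw [gK_mul, map_mul, hp, map_mul, map_mul]
    refine congrArg₂ (· * ·) rfl ?_
    rcases s with b | s
    · rw [gK_inl, map_add, map_mul, aeval_X, aeval_X, map_sum]
      simp only [Option.elim, mul_zero, zero_add, ptA, Sum.elim_inl]
      rw [map_sum]
      refine Finset.sum_congr rfl fun s _ => ?_
      rw [map_mul, aeval_C, aeval_X, smul_eq_C_mul, map_mul, map_C]
      rfl
    · rw [gK_inr, aeval_X, aeval_X]
      rfl

section weights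

variable {K : Type*} [Field K] {i : ℕ}

/-- The embedding of the first `i` indices. -/
def emb (hiq : i ≤ q) (s : Fin i) : Fin (q + 1) := ⟨s.val, by omega⟩

theorem emb_injective (hiq : i ≤ q) : Function.Injective (emb hiq) := by
  intro a b h
  apply Fin.ext
  exact congrArg (fun x : Fin (q + 1) => x.val) h

/-- The restriction to the first `i` variables. -/
noncomputable def res (K : Type*) [Field K] (q i : ℕ) :
    MvPolynomial (Fin (q + 1)) K →ₐ[K] MvPolynomial (Fin i) K :=
  aeval (fun s => if h : s.val < i then X ⟨s.val, h⟩ else 0)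

theorem res_rename (hiq : i ≤ q) (P : MvPolynomial (Fin i) K) :
    res K q i (rename (emb hiq) P) = P := by
  unfold res
  rw [aeval_rename]
  have h1 : ((fun s : Fin (q + 1) => if h : s.val < i then (X ⟨s.val, h⟩ : MvPolynomial (Fin i) K)
      else 0) ∘ emb hiq) = X := by
    funext s
    simp [emb]
  rw [h1, aeval_X_left]
  rfl

theorem coeff_res (hiq : i ≤ q) (P : MvPolynomial (Fin (q + 1)) K) (w : Fin i →₀ ℕ) :
    coeff w (res K q i P) = coeff (w.mapDomain (emb hiq)) P := by
  induction P using MvPolynomial.induction_on' with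
  | monomial u a =>
    by_cases hu : ∃ x, u x ≠ 0 ∧ ¬ x.val < i
    · obtain ⟨x, hx, hxi⟩ := hu
      have h1 : res K q i (monomial u a) = 0 := by
        unfold res
        rw [aeval_monomial, Finsupp.prod]
        have h2 : (∏ s ∈ u.support, (if h : s.val < i then (X ⟨s.val, h⟩ : MvPolynomial (Fin i) K)
            else 0) ^ u s) = 0 := by
          apply Finset.prod_eq_zero (Finsupp.mem_support_iff.2 hx)
          rw [dif_neg hxi, zero_pow hx]
        rw [h2, mul_zero]
      rw [h1, coeff_zero, coeff_monomial, if_neg]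
      intro h
      apply hx
      rw [h]
      apply Finsupp.mapDomain_of_notMem_range
      rintro ⟨s, rfl⟩
      exact hxi s.2
    · push Not at hu
      have h1 : u = (u.comapDomain (emb hiq) (emb_injective hiq).injOn).mapDomain (emb hiq) := by
        rw [Finsupp.mapDomain_comapDomain _ (emb_injective hiq)]
        intro x hx
        have h2 := hu x (Finsupp.mem_support_iff.1 hx)
        exact ⟨⟨x.val, h2⟩, rfl⟩
      set u' := u.comapDomain (emb hiq) (emb_injective hiq).injOn with hu'
      have h2 : (monomial u a : MvPolynomial (Fin (q + 1)) K) =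
          rename (emb hiq) (monomial u' a) := by
        rw [rename_monomial, ← h1]
      rw [h2, res_rename, coeff_rename_mapDomain _ (emb_injective hiq)]
  | add p q hp hq => rw [map_add, coeff_add, coeff_add, hp, hq]

theorem weight_of_res (hiq : i ≤ q) {j : ℕ} {P : MvPolynomial (Fin (q + 1)) K}
    (hP : res K q i P ∈ (idealOfVars (Fin i) K) ^ j) (w : Fin (q + 1) →₀ ℕ)
    (hw : w ∈ P.support) :
    j ≤ ∑ x, w x * (if x ∈ (Finset.univ.filter fun x : Fin (q + 1) => x.val < i) then 1
      else j) := by
  by_cases hu : ∃ x, w x ≠ 0 ∧ ¬ x.val < i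
  · obtain ⟨x, hx, hxi⟩ := hu
    refine le_trans ?_ (Finset.single_le_sum (fun y _ => Nat.zero_le _) (Finset.mem_univ x))
    rw [if_neg (by simpa using hxi)]
    exact Nat.le_mul_of_pos_left _ (Nat.pos_of_ne_zero hx)
  · push Not at hu
    have h1 : w = (w.comapDomain (emb hiq) (emb_injective hiq).injOn).mapDomain (emb hiq) := by
      rw [Finsupp.mapDomain_comapDomain _ (emb_injective hiq)]
      intro x hx
      have h2 := hu x (Finsupp.mem_support_iff.1 hx)
      exact ⟨⟨x.val, h2⟩, rfl⟩
    set w' := w.comapDomain (emb hiq) (emb_injective hiq).injOn with hw'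
    have h2 : coeff w' (res K q i P) ≠ 0 := by
      rw [coeff_res hiq, ← h1]
      exact mem_support_iff.1 hw
    have h3 : j ≤ w'.degree := by
      by_contra hcon
      push Not at hcon
      exact h2 ((mem_pow_idealOfVars_iff' _ _).1 hP _ hcon)
    refine h3.trans ?_
    rw [Finsupp.degree_eq_sum]
    have h4 : ∑ s, w' s = ∑ x ∈ Finset.univ.image (emb hiq), w x := by
      rw [Finset.sum_image (fun a _ b _ h => emb_injective hiq h)]
      rfl
    rw [h4]
    refine le_trans (Finset.sum_le_sum fun x hx => ?_)
      (Finset.sum_le_sum_of_subset (Finset.subset_univ _))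
    obtain ⟨s, -, rfl⟩ := Finset.mem_image.1 hx
    rw [if_pos (by simp [emb]), mul_one]

theorem card_low (hiq : i ≤ q) :
    (Finset.univ.filter fun x : Fin (q + 1) => x.val < i).card = i := by
  have h1 : (Finset.univ.filter fun x : Fin (q + 1) => x.val < i) =
      Finset.univ.image (emb hiq) := by
    ext x
    simp only [Finset.mem_filter, Finset.mem_univ, true_and, Finset.mem_image]
    constructor
    · intro h; exact ⟨⟨x.val, h⟩, rfl⟩
    · rintro ⟨s, rfl⟩; exact s.2
  rw [h1, Finset.card_image_of_injective _ (emb_injective hiq), Finset.card_univ,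
    Fintype.card_fin]

end weights

end Pool.Agent.Lib_MP_c7e57a
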