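import Pool.Agent.Lib_MP_c7e57a.Cover
import Pool.Agent.Lib_MP_c7e57a.Fat1

/-!
# Coverings by translates, indexed form
-/

namespace Pool.Agent.Lib_MP_c7e57a

theorem exists_enum {α : Type*} [Nonempty α] (S : Finset α) {k : ℕ} (h : S.card ≤ k) :
    ∃ e : ℕ → α, ∀ x ∈ S, ∃ m < k, e m = x := by
  classical
  refine ⟨fun m => S.toList.getD m (Classical.arbitrary α), fun x hx => ?_⟩
  obtain ⟨m, hm, hmx⟩ := List.getElem_of_mem (Finset.mem_toList.2 hx)
  have h1 : S.toList.length = S.card := Finset.length_toList S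
  refine ⟨m, by omega, ?_⟩
  show S.toList.getD m (Classical.arbitrary α) = x
  rw [List.getD_eq_getElem _ _ hm, hmx]

theorem Cov.functions {i β q j : ℕ} (hiq : i ≤ q) (h : Cov i β (q + 1) j) :
    ∃ (P : Fin β → (Fin i →₀ ℕ)) (T : Fin (q + 1) → (Fin i →₀ ℕ)), T (Fin.last q) = 0 ∧
      (∀ s, T (emb hiq s) = Finsupp.single s 1) ∧
      ∀ w : Fin i →₀ ℕ, w.degree < j → ∃ b s, w = P b + T s := by
  classical
  obtain ⟨P, T, hP, hT, h0, h1, hcov⟩ := h
  obtain ⟨eP, heP⟩ := exists_enum P hP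
  -- the other elements of the tile
  let U : Finset (Fin i →₀ ℕ) := insert 0 (Finset.univ.image fun s : Fin i =>
    Finsupp.single s 1)
  have hU : U.card = i + 1 := by
    rw [Finset.card_insert_of_notMem, Finset.card_image_of_injective, Finset.card_univ,
      Fintype.card_fin]
    · intro s s' hss
      exact Finsupp.single_left_injective one_ne_zero hss
    · intro hmem
      obtain ⟨s, -, hs⟩ := Finset.mem_image.1 hmem
      exact one_ne_zero (Finsupp.single_eq_zero.1 hs)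
  have hUT : U ⊆ T := by
    intro x hx
    rcases Finset.mem_insert.1 hx with rfl | hx
    · exact h0
    · obtain ⟨s, -, rfl⟩ := Finset.mem_image.1 hx
      exact h1 s
  have hcard : (T \ U).card ≤ q - i := by
    rw [Finset.card_sdiff_of_subset hUT, hU]
    omega
  obtain ⟨eT, heT⟩ := exists_enum (T \ U) hcard
  let F : Fin (q + 1) → (Fin i →₀ ℕ) := fun s =>
    if hs : s.val < i then Finsupp.single ⟨s.val, hs⟩ 1 else
      if s = Fin.last q then 0 else eT (s.val - i)
  have hF1 : ∀ s, F (emb hiq s) = Finsupp.single s 1 := fun s => dif_pos s.2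
  have hF2 : F (Fin.last q) = 0 := by
    have h2 : ¬ (Fin.last q).val < i := by
      rw [Fin.val_last]
      omega
    exact (dif_neg h2).trans (if_pos rfl)
  have hF3 : ∀ m (hm : m < q - i), F ⟨i + m, by omega⟩ = eT m := by
    intro m hm
    have h2 : ¬ (⟨i + m, by omega⟩ : Fin (q + 1)).val < i := by
      show ¬ i + m < i
      omega
    have h3 : (⟨i + m, by omega⟩ : Fin (q + 1)) ≠ Fin.last q := by
      intro h
      have h4 : i + m = q := congrArg Fin.val h
      omega
    have h5 : F ⟨i + m, by omega⟩ = eT (i + m - i) := (dif_neg h2).trans (if_neg h3)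
    rw [h5, Nat.add_sub_cancel_left]
  refine ⟨fun b => eP b, F, hF2, hF1, ?_⟩
  intro w hw
  obtain ⟨p, hp, t, ht, rfl⟩ := hcov w hw
  obtain ⟨m, hm, rfl⟩ := heP p hp
  by_cases htU : t ∈ U
  · rcases Finset.mem_insert.1 htU with rfl | htU
    · exact ⟨⟨m, hm⟩, Fin.last q, by rw [hF2]⟩
    · obtain ⟨s, -, rfl⟩ := Finset.mem_image.1 htU
      exact ⟨⟨m, hm⟩, emb hiq s, by rw [hF1]⟩
  · obtain ⟨m', hm', rfl⟩ := heT t (Finset.mem_sdiff.2 ⟨ht, htU⟩)
    exact ⟨⟨m, hm⟩, ⟨i + m', by omega⟩, by rw [hF3 m' hm']⟩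

end Pool.Agent.Lib_MP_c7e57a
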