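import Pool.Agent.Lib_MP_c7e57a.CovCount

/-!
# Piece CI-K2: coverings by translates of one tile with `r` elements

The class of an exponent `w` is `cl w = ∑ s, (s + 1) * w s` modulo `r` (`s : Fin i`). The tile `T`
consists of `0` (class 0), the unit vectors `single s 1` (class `s + 1`, `s < i`) and the vectors
`single 0 m` for `m = i + 1, ..., r - 1` (class `m`; `i ≥ 1`); so `T` has one element
`t_m` of every class `m < r`, `#T = r`, and all elements have degree `< r`.
`P = P₀ ∪ P₁`, `P₀` = exponents of degree `< j` and class `0`, `P₁` = exponents of degree `< j`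
with an entry less than `r`. Covering: let `w` have degree `< j`; if all entries are `≥ r`, let
`t` be the element of `T` with the class of `w`; its entries are `< r`, so `p = w - t` is an
exponent of class `0` and degree `< j`, `w = p + t`. Otherwise `w ∈ P₁`, `w = w + 0`.
Count: the map `P₀ × T → exponents`, `(p, t) ↦ p + t`, is injective (the class of `p + t` determines
`t`) and its values have degree `< j + r`, so `i ! * (#P₀ * r) ≤ (i + (j + r)) ^ i`; and
`#P₁ ≤ i * r * (i + j) ^ (i - 1)` (`card_small_entry_le`). So by `h`, `i ! * (r * #P) ≤ i ! * (r * β)`.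
-/

namespace Pool.Agent.Lib_MP_c7e57a

/-- the class of an exponent, before reduction modulo `r` -/
def CovLat_wt {i : ℕ} (w : Fin i →₀ ℕ) : ℕ := ∑ s : Fin i, ((s : ℕ) + 1) * w s

theorem CovLat_wt_add {i : ℕ} (w v : Fin i →₀ ℕ) : CovLat_wt (w + v) = CovLat_wt w + CovLat_wt v := by
  unfold CovLat_wt
  rw [← Finset.sum_add_distrib]
  exact Finset.sum_congr rfl fun s _ => by rw [Finsupp.add_apply, mul_add]

theorem CovLat_wt_single {i : ℕ} (s : Fin i) (m : ℕ) :
    CovLat_wt (Finsupp.single s m) = ((s : ℕ) + 1) * m := by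
  classical
  unfold CovLat_wt
  rw [Finset.sum_eq_single s]
  · rw [Finsupp.single_eq_same]
  · intro t _ hts
    rw [Finsupp.single_eq_of_ne hts, mul_zero]
  · intro hs
    exact absurd (Finset.mem_univ s) hs

/-- the element of class `m` of the tile -/
noncomputable def CovLat_tile {i : ℕ} (hi : 1 ≤ i) (m : ℕ) : Fin i →₀ ℕ :=
  if h : 1 ≤ m ∧ m ≤ i then Finsupp.single (⟨m - 1, by omega⟩ : Fin i) 1
  else Finsupp.single (⟨0, by omega⟩ : Fin i) m

theorem CovLat_wt_tile {i : ℕ} (hi : 1 ≤ i) (m : ℕ) : CovLat_wt (CovLat_tile hi m) = m := by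
  unfold CovLat_tile
  split_ifs with h
  · rw [CovLat_wt_single]
    simp only
    omega
  · rw [CovLat_wt_single]
    simp only
    omega

theorem CovLat_tile_apply {i : ℕ} (hi : 1 ≤ i) (m : ℕ) (s : Fin i) : CovLat_tile hi m s ≤ m := by
  classical
  unfold CovLat_tile
  split_ifs with h
  · rw [Finsupp.single_apply]
    split_ifs
    · exact h.1
    · exact Nat.zero_le _
  · rw [Finsupp.single_apply]
    split_ifs
    · exact le_rfl
    · exact Nat.zero_le _

theorem CovLat_tile_degree {i : ℕ} (hi : 1 ≤ i) (m : ℕ) : (CovLat_tile hi m).degree ≤ m := by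
  unfold CovLat_tile
  split_ifs with h
  · rw [Finsupp.degree_single]
    exact h.1
  · rw [Finsupp.degree_single]

theorem cov_lattice {i β r j : ℕ} (hi : 1 ≤ i) (hr : i + 1 ≤ r)
    (h : (i + (j + r)) ^ i + i.factorial * (r * (i * r * (i + j) ^ (i - 1))) ≤
      i.factorial * (r * β)) : Cov i β r j := by
  classical
  have hr0 : 0 < r := by omega
  set D : Finset (Fin i →₀ ℕ) := (finite_degree_lt i j).toFinset with hD
  have hmD : ∀ w : Fin i →₀ ℕ, w ∈ D ↔ w.degree < j := by
    intro w
    rw [hD, Set.Finite.mem_toFinset]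
    exact Iff.rfl
  set P₀ : Finset (Fin i →₀ ℕ) := D.filter (fun w => CovLat_wt w % r = 0) with hP₀
  set P₁ : Finset (Fin i →₀ ℕ) := D.filter (fun w => ∃ s, w s < r) with hP₁
  refine ⟨P₀ ∪ P₁, (Finset.range r).image (CovLat_tile hi), ?_, ?_, ?_, ?_, ?_⟩
  · -- the count
    have hS : i.factorial * (P₀.card * r) ≤ (i + (j + r)) ^ i := by
      have h1 : ((P₀ ×ˢ Finset.range r).image (fun q => q.1 + CovLat_tile hi q.2)).card =
          P₀.card * r := by
        rw [Finset.card_image_of_injOn, Finset.card_product, Finset.card_range]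
        rintro ⟨a, m⟩ ha ⟨b, n⟩ hb hab
        rw [Finset.mem_coe, Finset.mem_product, hP₀, Finset.mem_filter, Finset.mem_range] at ha hb
        simp only at ha hb hab
        have h2 := congrArg CovLat_wt hab
        rw [CovLat_wt_add, CovLat_wt_add, CovLat_wt_tile, CovLat_wt_tile] at h2
        have h3 : m = n := by
          have h4 : (CovLat_wt a + m) % r = (CovLat_wt b + n) % r := by rw [h2]
          rw [Nat.add_mod, ha.1.2, Nat.add_mod (CovLat_wt b), hb.1.2, zero_add, zero_add,
            Nat.mod_mod, Nat.mod_mod, Nat.mod_eq_of_lt ha.2, Nat.mod_eq_of_lt hb.2] at h4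
          exact h4
        subst h3
        have h5 : a = b := add_right_cancel hab
        rw [h5]
      rw [← h1]
      refine card_degree_lt_le i (j + r) _ ?_
      intro w hw
      rw [Finset.mem_image] at hw
      obtain ⟨⟨a, m⟩, ha, rfl⟩ := hw
      rw [Finset.mem_product, hP₀, Finset.mem_filter, Finset.mem_range, hmD] at ha
      simp only at ha ⊢
      rw [map_add]
      have h6 := CovLat_tile_degree hi m
      omega
    have hP1 : P₁.card ≤ i * r * (i + j) ^ (i - 1) := by
      refine card_small_entry_le i j r hi P₁ ?_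
      intro w hw
      rw [hP₁, Finset.mem_filter, hmD] at hw
      exact hw
    have h7 : i.factorial * (r * (P₀ ∪ P₁).card) ≤ i.factorial * (r * β) := by
      refine le_trans ?_ h
      calc i.factorial * (r * (P₀ ∪ P₁).card)
          ≤ i.factorial * (r * (P₀.card + P₁.card)) :=
            Nat.mul_le_mul_left _ (Nat.mul_le_mul_left _ (Finset.card_union_le _ _))
        _ = i.factorial * (P₀.card * r) + i.factorial * (r * P₁.card) := by ring
        _ ≤ _ := Nat.add_le_add hS (Nat.mul_le_mul_left _ (Nat.mul_le_mul_left _ hP1))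
    have h8 := Nat.le_of_mul_le_mul_left h7 (Nat.factorial_pos i)
    exact Nat.le_of_mul_le_mul_left h8 hr0
  · exact Finset.card_image_le.trans (le_of_eq (Finset.card_range r))
  · rw [Finset.mem_image]
    refine ⟨0, Finset.mem_range.2 hr0, ?_⟩
    unfold CovLat_tile
    rw [dif_neg (by omega), Finsupp.single_zero]
  · intro s
    rw [Finset.mem_image]
    have hs := s.2
    refine ⟨(s : ℕ) + 1, Finset.mem_range.2 (by omega), ?_⟩
    unfold CovLat_tile
    rw [dif_pos ⟨by omega, by omega⟩]
    rfl
  · intro w hw
    by_cases hs : ∃ s, w s < r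
    · refine ⟨w, ?_, 0, ?_, (add_zero w).symm⟩
      · rw [Finset.mem_union]
        right
        rw [hP₁, Finset.mem_filter, hmD]
        exact ⟨hw, hs⟩
      · rw [Finset.mem_image]
        refine ⟨0, Finset.mem_range.2 hr0, ?_⟩
        unfold CovLat_tile
        rw [dif_neg (by omega), Finsupp.single_zero]
    · push Not at hs
      have hm : CovLat_wt w % r < r := Nat.mod_lt _ hr0
      have hle : CovLat_tile hi (CovLat_wt w % r) ≤ w := by
        intro s
        exact (CovLat_tile_apply hi _ s).trans (hm.le.trans (hs s))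
      have heq : w - CovLat_tile hi (CovLat_wt w % r) + CovLat_tile hi (CovLat_wt w % r) = w :=
        tsub_add_cancel_of_le hle
      refine ⟨w - CovLat_tile hi (CovLat_wt w % r), ?_, CovLat_tile hi (CovLat_wt w % r), ?_,
        heq.symm⟩
      · rw [Finset.mem_union]
        left
        rw [hP₀, Finset.mem_filter, hmD]
        have h9 := congrArg CovLat_wt heq
        rw [CovLat_wt_add, CovLat_wt_tile] at h9
        have h10 := congrArg Finsupp.degree heq
        rw [map_add] at h10
        refine ⟨by omega, ?_⟩
        have h11 : CovLat_wt (w - CovLat_tile hi (CovLat_wt w % r)) = r * (CovLat_wt w / r) := by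
          have h12 := Nat.div_add_mod (CovLat_wt w) r
          omega
        rw [h11]
        exact Nat.mul_mod_right _ _
      · rw [Finset.mem_image]
        exact ⟨_, Finset.mem_range.2 hm, rfl⟩

end Pool.Agent.Lib_MP_c7e57a
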