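import Mathlib

/-!
# Covering the exponents of small degree by translates
-/

namespace Pool.Agent.Lib_MP_c7e57a

/-- The exponents in `i` variables of degree less than `j` are covered by the sum of a set of at
most `β` exponents and a set of at most `r` exponents that contains `0` and all unit vectors. -/
def Cov (i β r j : ℕ) : Prop :=
  ∃ P T : Finset (Fin i →₀ ℕ), P.card ≤ β ∧ T.card ≤ r ∧ 0 ∈ T ∧
    (∀ s, Finsupp.single s 1 ∈ T) ∧
    ∀ w : Fin i →₀ ℕ, w.degree < j → ∃ p ∈ P, ∃ t ∈ T, w = p + t

end Pool.Agent.Lib_MP_c7e57a
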