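import Mathlib

/-!
# Piece CI-C: polynomials in one variable with prescribed jets

For a finite set `B` of nodes and any polynomials `T β` there is a polynomial `P` with
`P ≡ T β` modulo `(X - β) ^ M` for all `β ∈ B` (Chinese remainder theorem). Reduce modulo
`∏ (X - β) ^ M` to get degree `< #B M`, and add a multiple of this product to get a monic
polynomial of any prescribed degree `d ≥ #B M`.
-/

namespace Pool.Agent.Lib_MP_c7e57a

open Polynomial

theorem Crt_aux (M : ℕ) (T : ℂ → ℂ[X]) (B : Finset ℂ) :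
    ∃ P : ℂ[X], ∀ β ∈ B, (X - C β) ^ M ∣ P - T β := by
  classical
  induction B using Finset.induction_on with
  | empty => exact ⟨0, by simp⟩
  | insert β0 B hβ ih =>
    obtain ⟨P, hP⟩ := ih
    have hco : IsCoprime (∏ β ∈ B, (X - C β) ^ M) ((X - C β0) ^ M : ℂ[X]) := by
      refine IsCoprime.prod_left fun β hb => IsCoprime.pow ?_
      refine isCoprime_X_sub_C_of_isUnit_sub (IsUnit.mk0 _ (sub_ne_zero.2 ?_))
      rintro rfl
      exact hβ hb
    obtain ⟨u, v, huv⟩ := hco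
    refine ⟨P + u * (∏ β ∈ B, (X - C β) ^ M) * (T β0 - P), fun β hb => ?_⟩
    rw [Finset.mem_insert] at hb
    rcases hb with rfl | hb
    · refine ⟨v * (P - T β), ?_⟩
      linear_combination (T β - P) * huv
    · have h1 : (X - C β) ^ M ∣ ∏ β ∈ B, (X - C β) ^ M := Finset.dvd_prod_of_mem _ hb
      have h2 : P + u * (∏ β ∈ B, (X - C β) ^ M) * (T β0 - P) - T β
          = (P - T β) + (∏ β ∈ B, (X - C β) ^ M) * (u * (T β0 - P)) := by ring
      rw [h2]
      exact dvd_add (hP β hb) (h1.mul_right _)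

theorem Crt_monic (B : Finset ℂ) (M : ℕ) : (∏ β ∈ B, (X - C β) ^ M : ℂ[X]).Monic :=
  monic_prod_of_monic _ _ fun β _ => (monic_X_sub_C β).pow M

theorem Crt_deg (B : Finset ℂ) (M : ℕ) :
    (∏ β ∈ B, (X - C β) ^ M : ℂ[X]).natDegree = B.card * M := by
  rw [natDegree_prod_of_monic _ _ fun β _ => (monic_X_sub_C β).pow M]
  simp

theorem exists_jets (B : Finset ℂ) (M : ℕ) (T : ℂ → ℂ[X]) :
    ∃ P : ℂ[X], P.natDegree ≤ B.card * M ∧ ∀ β ∈ B, (X - C β) ^ M ∣ P - T β := by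
  obtain ⟨P, hP⟩ := Crt_aux M T B
  refine ⟨P %ₘ (∏ β ∈ B, (X - C β) ^ M), ?_, fun β hb => ?_⟩
  · rw [← Crt_deg B M]
    exact natDegree_modByMonic_le P (Crt_monic B M)
  · have h1 : (X - C β) ^ M ∣ ∏ β ∈ B, (X - C β) ^ M := Finset.dvd_prod_of_mem _ hb
    have h2 := modByMonic_add_div P (∏ β ∈ B, (X - C β) ^ M)
    have h3 : P %ₘ (∏ β ∈ B, (X - C β) ^ M) - T β
        = (P - T β) - (∏ β ∈ B, (X - C β) ^ M) * (P /ₘ (∏ β ∈ B, (X - C β) ^ M)) := by
      linear_combination h2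
    rw [h3]
    exact dvd_sub (hP β hb) (h1.mul_right _)

theorem exists_monic_jets (B : Finset ℂ) (M : ℕ) (T : ℂ → ℂ[X]) {d : ℕ}
    (hd : B.card * M < d) :
    ∃ P : ℂ[X], P.Monic ∧ P.natDegree = d ∧ ∀ β ∈ B, (X - C β) ^ M ∣ P - T β := by
  obtain ⟨P, hP1, hP2⟩ := exists_jets B M T
  have hm : ((∏ β ∈ B, (X - C β) ^ M) * X ^ (d - B.card * M) : ℂ[X]).Monic :=
    (Crt_monic B M).mul (monic_X_pow _)
  have hdeg : ((∏ β ∈ B, (X - C β) ^ M) * X ^ (d - B.card * M) : ℂ[X]).natDegree = d := by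
    rw [(Crt_monic B M).natDegree_mul (monic_X_pow _), Crt_deg, natDegree_X_pow]
    omega
  have hlt : P.degree < ((∏ β ∈ B, (X - C β) ^ M) * X ^ (d - B.card * M) : ℂ[X]).degree := by
    rw [degree_eq_natDegree hm.ne_zero, hdeg]
    exact (degree_le_natDegree).trans_lt (by exact_mod_cast hP1.trans_lt hd)
  refine ⟨(∏ β ∈ B, (X - C β) ^ M) * X ^ (d - B.card * M) + P, hm.add_of_left hlt, ?_,
    fun β hb => ?_⟩
  · rw [natDegree_add_eq_left_of_degree_lt hlt, hdeg]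
  · have h1 : (X - C β) ^ M ∣ ∏ β ∈ B, (X - C β) ^ M := Finset.dvd_prod_of_mem _ hb
    rw [add_sub_assoc]
    exact dvd_add (h1.mul_right _) (hP2 β hb)

end Pool.Agent.Lib_MP_c7e57a
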