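import Mathlib

/-!
# The function field and the degree of irrationality of a projective variety
-/

namespace Pool.Agent.Lib_MP_c7e57a

open MvPolynomial

/-- The forms `f c` have the degrees `d c`, and their coefficients (all monomials of degree `d c`
for all `c` together) are algebraically independent over `ℚ`. -/
def IndependentForms {r N : ℕ} (d : Fin r → ℕ) (f : Fin r → MvPolynomial (Fin N) ℂ) : Prop :=
  (∀ c, (f c).IsHomogeneous (d c)) ∧
    AlgebraicIndependent ℚ (fun x : Σ c, {w : Fin N →₀ ℕ // w.degree = d c} =>
      coeff x.2.1 (f x.1))

/-- The subfield generated over `ℂ` by the quotients of the elements `x i`. -/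
noncomputable def quotientsField {σ K : Type} [Field K] [Algebra ℂ K] (x : σ → K) :
    IntermediateField ℂ K :=
  IntermediateField.adjoin ℂ {y | ∃ i j, y = x i / x j}

/-- The degree of irrationality of a function field `K` of transcendence degree `n` over `ℂ`: the
least degree of `K` over a subfield generated over `ℂ` by `n` algebraically independent elements
`t 0, ..., t (n - 1)`. -/
noncomputable def irrField (n : ℕ) (K : Type) [Field K] [Algebra ℂ K] : ℕ :=
  sInf {δ | 0 < δ ∧ ∃ t : Fin n → K, AlgebraicIndependent ℂ t ∧
    Module.finrank (IntermediateField.adjoin ℂ (Set.range t)) K = δ}

variable {σ : Type}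

/-- The image of the variable `X i` in the field of fractions of the homogeneous coordinate ring
of the projective variety defined by the prime ideal `I`. -/
noncomputable def coordinate (I : Ideal (MvPolynomial σ ℂ)) [I.IsPrime] (i : σ) :
    FractionRing (MvPolynomial σ ℂ ⧸ I) :=
  algebraMap (MvPolynomial σ ℂ ⧸ I) (FractionRing (MvPolynomial σ ℂ ⧸ I))
    (Ideal.Quotient.mk I (X i))

/-- The function field of the projective variety defined by the homogeneous prime ideal `I`: it is
generated over `ℂ` by the quotients of the coordinates. -/
noncomputable def functionField (I : Ideal (MvPolynomial σ ℂ)) [I.IsPrime] :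
    IntermediateField ℂ (FractionRing (MvPolynomial σ ℂ ⧸ I)) :=
  quotientsField (coordinate I)

/-- The degree of irrationality of the `n`-dimensional projective variety `X` defined by the
homogeneous prime ideal `I`: the least degree of a dominant rational map from `X` to the projective
space of dimension `n`, that is the least degree of the function field of `X` over a subfield
generated by `n` algebraically independent elements. -/
noncomputable def irr (n : ℕ) (I : Ideal (MvPolynomial σ ℂ)) [I.IsPrime] : ℕ :=
  irrField n (functionField I)

end Pool.Agent.Lib_MP_c7e57a
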