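import Pool.Agent.Lib_MP_c7e57a.Aff2
import Pool.Agent.Lib_MP_c7e57a.DerAff

/-!
# Piece CI-Y2: values and derivatives of the second special equations

Same proofs as in DerAff.lean (copy the private lemmas with new names `DerAff2_...`, since private
lemmas are not visible here); the only change is the tail: the coefficient of `X (Sum.inl b)` is
`rename (fun s => Sum.inr (emq hiq s)) (χ c b)`, whose value at `y = 0`, `z = Γ` is
`aeval (fun x => Γ (Fin.castSucc (emq hiq x))) (χ c b)` (`aeval_rename`).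
-/

namespace Pool.Agent.Lib_MP_c7e57a

open MvPolynomial

variable {n q i : ℕ} {A : Type*} [CommRing A] [Algebra ℂ A]

/-! ### The derivative at a point in a direction -/

private noncomputable def DerAff2_D {σ : Type*} [Fintype σ] (w e : σ → A)
    (u : MvPolynomial σ ℂ) : A := ∑ x, aeval w (pderiv x u) * e x

private theorem DerAff2_add {σ : Type*} [Fintype σ] (w e : σ → A) (u v : MvPolynomial σ ℂ) :
    DerAff2_D w e (u + v) = DerAff2_D w e u + DerAff2_D w e v := by
  unfold DerAff2_D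
  rw [← Finset.sum_add_distrib]
  refine Finset.sum_congr rfl fun x _ => ?_
  rw [map_add, map_add, add_mul]

private theorem DerAff2_sub {σ : Type*} [Fintype σ] (w e : σ → A) (u v : MvPolynomial σ ℂ) :
    DerAff2_D w e (u - v) = DerAff2_D w e u - DerAff2_D w e v := by
  unfold DerAff2_D
  rw [← Finset.sum_sub_distrib]
  refine Finset.sum_congr rfl fun x _ => ?_
  rw [map_sub, map_sub, sub_mul]

private theorem DerAff2_sum {σ ι : Type*} [Fintype σ] (w e : σ → A) (s : Finset ι)
    (u : ι → MvPolynomial σ ℂ) :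
    DerAff2_D w e (∑ b ∈ s, u b) = ∑ b ∈ s, DerAff2_D w e (u b) := by
  unfold DerAff2_D
  rw [Finset.sum_comm]
  refine Finset.sum_congr rfl fun x _ => ?_
  rw [map_sum, map_sum, Finset.sum_mul]

private theorem DerAff2_mul {σ : Type*} [Fintype σ] (w e : σ → A) (u v : MvPolynomial σ ℂ) :
    DerAff2_D w e (u * v) = DerAff2_D w e u * aeval w v + aeval w u * DerAff2_D w e v := by
  unfold DerAff2_D
  rw [Finset.sum_mul, Finset.mul_sum, ← Finset.sum_add_distrib]
  refine Finset.sum_congr rfl fun x _ => ?_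
  rw [pderiv_mul, map_add, map_mul, map_mul]
  ring

private theorem DerAff2_X {σ : Type*} [Fintype σ] (w e : σ → A) (y : σ) :
    DerAff2_D w e (X y) = e y := by
  classical
  unfold DerAff2_D
  rw [Finset.sum_eq_single y]
  · rw [pderiv_X_self, map_one, one_mul]
  · intro x _ hx
    rw [pderiv_X_of_ne hx.symm, map_zero, zero_mul]
  · intro h
    exact absurd (Finset.mem_univ _) h

private theorem DerAff2_C {σ : Type*} [Fintype σ] (w e : σ → A) (a : ℂ) :
    DerAff2_D w e (C a) = 0 := by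
  unfold DerAff2_D
  refine Finset.sum_eq_zero fun x _ => ?_
  rw [pderiv_C, map_zero, zero_mul]

private theorem DerAff2_pow {σ : Type*} [Fintype σ] (w e : σ → A) (y : σ) (hy : w y = 0) {d : ℕ}
    (hd : 2 ≤ d) : DerAff2_D w e (X y ^ d) = 0 := by
  obtain ⟨d, rfl⟩ := Nat.exists_eq_add_of_le hd
  have h1 : (X y ^ (2 + d) : MvPolynomial σ ℂ) = X y * (X y * X y ^ d) := by ring
  rw [h1, DerAff2_mul, map_mul, aeval_X, hy, zero_mul, mul_zero, zero_mul, add_zero]

private theorem DerAff2_poly {σ : Type*} [Fintype σ] (w e : σ → A) (y : σ) (P : Polynomial ℂ) :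
    DerAff2_D w e (Polynomial.aeval (X y) P) =
      Polynomial.aeval (w y) (Polynomial.derivative P) * e y := by
  have h1 : ∀ Q : Polynomial ℂ, aeval w (Polynomial.aeval (X y : MvPolynomial σ ℂ) Q) =
      Polynomial.aeval (w y) Q := by
    intro Q
    rw [← Polynomial.aeval_algHom_apply, aeval_X]
  unfold DerAff2_D
  conv_rhs => rw [← DerAff2_X w e y]
  unfold DerAff2_D
  rw [Finset.mul_sum]
  refine Finset.sum_congr rfl fun x _ => ?_
  rw [Derivation.map_aeval, smul_eq_mul, map_mul, h1, mul_assoc]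

private theorem DerAff2_rename {σ τ : Type*} [Fintype σ] [Fintype τ] (w e : σ → A) (g : τ → σ)
    (V : MvPolynomial τ ℂ) : DerAff2_D w e (rename g V) =
      ∑ t, aeval (fun x => w (g x)) (pderiv t V) * e (g t) := by
  change _ = DerAff2_D (fun x => w (g x)) (fun x => e (g x)) V
  induction V using MvPolynomial.induction_on with
  | C a => rw [rename_C, DerAff2_C, DerAff2_C]
  | add p q hp hq => rw [map_add, DerAff2_add, DerAff2_add, hp, hq]
  | mul_X p s hp =>
    rw [map_mul, DerAff2_mul, DerAff2_mul, hp, rename_X, DerAff2_X, DerAff2_X, aeval_X, aeval_X,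
      aeval_rename]
    rfl

/-! ### The equations -/

/-- the affine point `y = 0`, `z = Γ` -/
private def DerAff2_w (Γ : Fin (q + 1) → A) : Fin (n + 1) ⊕ Fin q → A :=
  Sum.elim (fun _ => 0) (fun s => Γ (Fin.castSucc s))

private theorem DerAff2_pt (Γ : Fin (q + 1) → A) :
    (fun x => ptA (n := n) 0 Γ (Sum.map id Fin.castSucc x)) = DerAff2_w Γ := by
  funext x
  rcases x with b | s
  · simp [ptA, DerAff2_w]
  · simp [ptA, DerAff2_w]

private theorem DerAff2_eval {Γ : Fin (q + 1) → A} (hΓ : Γ (Fin.last q) = 1)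
    (f : MvPolynomial (Vars n q) ℂ) :
    aeval (ptA (n := n) 0 Γ) f = aeval (DerAff2_w Γ) (dehz f) := by
  rw [aeval_dehz (ptA (n := n) 0 Γ) hΓ f, DerAff2_pt]

private theorem DerAff2_poly_eval (Γ : Fin (q + 1) → A) (y : Fin q) (P : Polynomial ℂ) :
    aeval (DerAff2_w (n := n) Γ)
      (Polynomial.aeval (X (Sum.inr y) : MvPolynomial (Fin (n + 1) ⊕ Fin q) ℂ) P) =
      Polynomial.aeval (Γ (Fin.castSucc y)) P := by
  rw [← Polynomial.aeval_algHom_apply, aeval_X]
  rfl

private theorem DerAff2_tail (hiq : i ≤ q)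
    (χ : Fin (q + 1) → Fin (n + 1) → MvPolynomial (Fin i) ℂ) (c : Fin (q + 1))
    (Γ : Fin (q + 1) → A) :
    aeval (DerAff2_w Γ) (∑ b, X (Sum.inl b) *
      (rename (fun s => Sum.inr (emq hiq s)) (χ c b) :
        MvPolynomial (Fin (n + 1) ⊕ Fin q) ℂ)) = 0 := by
  rw [map_sum]
  refine Finset.sum_eq_zero fun b _ => ?_
  rw [map_mul, aeval_X]
  exact zero_mul _

private theorem DerAff2_tail_D (hiq : i ≤ q)
    (χ : Fin (q + 1) → Fin (n + 1) → MvPolynomial (Fin i) ℂ) (c : Fin (q + 1))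
    (Γ : Fin (q + 1) → A) (e : Fin (n + 1) ⊕ Fin q → A) :
    DerAff2_D (DerAff2_w Γ) e (∑ b, X (Sum.inl b) *
      (rename (fun s => Sum.inr (emq hiq s)) (χ c b) :
        MvPolynomial (Fin (n + 1) ⊕ Fin q) ℂ)) =
      ∑ b, aeval (fun x => Γ (Fin.castSucc (emq hiq x))) (χ c b) * e (Sum.inl b) := by
  rw [DerAff2_sum]
  refine Finset.sum_congr rfl fun b _ => ?_
  rw [DerAff2_mul, DerAff2_X, aeval_X, aeval_rename]
  have h1 : DerAff2_w (n := n) Γ (Sum.inl b) = 0 := rfl
  rw [h1, zero_mul, add_zero, mul_comm]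
  rfl

theorem value_aff2 {hiq : i ≤ q} {d : Fin (q + 1) → ℕ} (hd : 2 ≤ d (Fin.last q))
    {τ : Fin q → Polynomial ℂ} {V : Fin q → MvPolynomial (Fin i) ℂ}
    {χ : Fin (q + 1) → Fin (n + 1) → MvPolynomial (Fin i) ℂ} {c : Fin (q + 1)}
    {f : MvPolynomial (Vars n q) ℂ} (hf : dehz f = aff2 hiq d τ V χ c)
    {Γ : Fin (q + 1) → A} (hΓ : Γ (Fin.last q) = 1) :
    aeval (ptA (n := n) 0 Γ) f = Fin.lastCases (motive := fun _ => A) 0
      (fun c' => Polynomial.aeval (Γ (Fin.castSucc c')) (τ c') -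
        aeval (fun x => Γ (Fin.castSucc (emq hiq x))) (V c')) c := by
  rw [DerAff2_eval hΓ, hf]
  induction c using Fin.lastCases with
  | last =>
    rw [aff2_last, Fin.lastCases_last, map_add, DerAff2_tail, map_pow, aeval_X, add_zero]
    exact zero_pow (by omega)
  | cast c' =>
    rw [aff2_castSucc, Fin.lastCases_castSucc, map_add, DerAff2_tail, map_sub, add_zero,
      DerAff2_poly_eval, aeval_rename]
    rfl

theorem deriv_aff2 {hiq : i ≤ q} {d : Fin (q + 1) → ℕ} (hd : 2 ≤ d (Fin.last q))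
    {τ : Fin q → Polynomial ℂ} {V : Fin q → MvPolynomial (Fin i) ℂ}
    {χ : Fin (q + 1) → Fin (n + 1) → MvPolynomial (Fin i) ℂ} {c : Fin (q + 1)}
    {f : MvPolynomial (Vars n q) ℂ} (hf : dehz f = aff2 hiq d τ V χ c)
    {Γ : Fin (q + 1) → A} (hΓ : Γ (Fin.last q) = 1) (l : Fin (n + 1) → Fin (q + 1) → ℂ)
    {δ : Fin (q + 1) → A} (hδ : δ (Fin.last q) = 0) :
    ∑ x, aeval (ptA (n := n) 0 Γ) (pderiv x f) * dir Γ l δ x =
      ∑ b, aeval (fun x => Γ (Fin.castSucc (emq hiq x))) (χ c b) * (∑ s, l b s • Γ s) +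
      Fin.lastCases (motive := fun _ => A) 0
        (fun c' => Polynomial.aeval (Γ (Fin.castSucc c')) (Polynomial.derivative (τ c')) *
          δ (Fin.castSucc c') -
          ∑ s : Fin i, aeval (fun x => Γ (Fin.castSucc (emq hiq x))) (pderiv s (V c')) *
            δ (Fin.castSucc (emq hiq s))) c := by
  set e : Fin (n + 1) ⊕ Fin q → A := fun x => dir Γ l δ (Sum.map id Fin.castSucc x) with he
  have h1 : ∑ x, aeval (ptA (n := n) 0 Γ) (pderiv x f) * dir Γ l δ x =
      DerAff2_D (DerAff2_w Γ) e (dehz f) := by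
    unfold DerAff2_D
    rw [Fintype.sum_sum_type, Fintype.sum_sum_type, Fin.sum_univ_castSucc
      (fun s : Fin (q + 1) => aeval (ptA (n := n) 0 Γ) (pderiv (Sum.inr s) f) *
        dir Γ l δ (Sum.inr s))]
    have h2 : dir Γ l δ (Sum.inr (Fin.last q) : Vars n q) = 0 := hδ
    rw [h2, mul_zero, add_zero]
    congr 1
    · refine Finset.sum_congr rfl fun b _ => ?_
      rw [DerAff2_eval hΓ, ← pderiv_dehz]
      rfl
    · refine Finset.sum_congr rfl fun s _ => ?_
      rw [DerAff2_eval hΓ, ← pderiv_dehz]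
      rfl
  rw [h1, hf]
  induction c using Fin.lastCases with
  | last =>
    rw [aff2_last, Fin.lastCases_last, DerAff2_add, DerAff2_tail_D,
      DerAff2_pow (DerAff2_w Γ) e (Sum.inl 0) rfl hd, zero_add, add_zero]
    rfl
  | cast c' =>
    rw [aff2_castSucc, Fin.lastCases_castSucc, DerAff2_add, DerAff2_tail_D, DerAff2_sub, DerAff2_poly,
      DerAff2_rename, add_comm]
    rfl

end Pool.Agent.Lib_MP_c7e57a
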