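import Pool.Agent.Lib_MP_c7e57a.Hilb

/-!
# Primality of an ideal over the fraction field from primality over the residue field
-/

namespace Pool.Agent.Lib_MP_c7e57a

open MvPolynomial IsLocalRing

/-- A nonzero polynomial over `K` can be scaled to a primitive polynomial over a valuation ring. -/
theorem exists_scale {K : Type*} [Field K] (B : ValuationSubring K) {σ : Type*}
    {w : MvPolynomial σ K} (hw : w ≠ 0) :
    ∃ (l : K) (W : MvPolynomial σ B), l ≠ 0 ∧ map (algebraMap B K) W = C l * w ∧
      W.support = w.support ∧ map (residue B) W ≠ 0 := by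
  classical
  obtain ⟨e₀, he₀, hmax⟩ := Finset.exists_max_image w.support
    (fun e => B.valuation (coeff e w)) (support_nonempty.2 hw)
  have h0 : coeff e₀ w ≠ 0 := mem_support_iff.1 he₀
  have hin : ∀ e, (coeff e₀ w)⁻¹ * coeff e w ∈ B := by
    intro e
    by_cases he : e ∈ w.support
    · rw [← ValuationSubring.valuation_le_one_iff, map_mul, map_inv₀]
      have h1 := hmax e he
      have h2 : B.valuation (coeff e₀ w) ≠ 0 := (Valuation.ne_zero_iff _).2 h0
      rw [mul_comm]
      rw [← div_eq_mul_inv]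
      exact div_le_one_of_le₀ h1 zero_le
    · rw [notMem_support_iff.1 he, mul_zero]
      exact B.zero_mem
  let W : MvPolynomial σ B := ∑ e ∈ w.support, monomial e ⟨(coeff e₀ w)⁻¹ * coeff e w, hin e⟩
  have hW : ∀ e, ((coeff e W : B) : K) = (coeff e₀ w)⁻¹ * coeff e w := by
    intro e
    show ((coeff e (∑ e ∈ w.support, monomial e _) : B) : K) = _
    rw [coeff_sum]
    simp only [coeff_monomial]
    rw [Finset.sum_ite_eq' w.support e]
    split_ifs with he
    · rfl
    · rw [notMem_support_iff.1 he, mul_zero]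
      rfl
  refine ⟨(coeff e₀ w)⁻¹, W, inv_ne_zero h0, ?_, ?_, ?_⟩
  · ext e
    rw [coeff_map, coeff_C_mul]
    exact hW e
  · ext e
    rw [mem_support_iff, mem_support_iff, not_iff_not]
    constructor
    · intro h
      have h1 := hW e
      rw [h] at h1
      have h2 : (coeff e₀ w)⁻¹ * coeff e w = 0 := h1.symm
      rcases mul_eq_zero.1 h2 with h3 | h3
      · exact absurd h3 (inv_ne_zero h0)
      · exact h3
    · intro h
      have h1 := hW e
      rw [h, mul_zero] at h1
      exact Subtype.ext h1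
  · intro h
    have h1 : coeff e₀ W = 1 := by
      apply Subtype.ext
      rw [hW e₀, inv_mul_cancel₀ h0]
      rfl
    have h2 : coeff e₀ (map (residue B) W) = 1 := by
      rw [coeff_map, h1, map_one]
    rw [h, coeff_zero] at h2
    exact zero_ne_one h2

section

variable {K : Type*} [Field K] {B : ValuationSubring K} {σ : Type*} [Finite σ] {r : ℕ}
  {lead : Fin r → σ} {d : Fin r → ℕ} {o : σ} {F : Fin r → MvPolynomial σ B}
  {G : Fin r → MvPolynomial σ (ResidueField B)}

theorem descent_span (ho : ∀ c, lead c ≠ o) (hF : ∀ c, (F c).IsHomogeneous (d c))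
    (hG : ∀ c, map (residue B) (F c) = X (lead c) ^ d c + X o * G c)
    {A : Type*} [CommRing A] (φ : B →+* A) (p m : ℕ) (u : MvPolynomial σ A)
    (hu : u.IsHomogeneous m) :
    ∃ v ∈ Ideal.span ((fun c => map φ (F c)) '' {c | c.val < p}),
      ∃ w : MvPolynomial σ A, u = v + w ∧ w.IsHomogeneous m ∧
        ∀ e ∈ w.support, ∀ c : Fin r, c.val < p → e (lead c) < d c := by
  classical
  let κ := {c : Fin r // c.val < p}
  have hdet0 : (mat2 (fun c : κ => lead c.1) (fun c : κ => d c.1)
      (fun c : κ => map (residue B) (F c.1)) m).det ≠ 0 :=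
    det_ne_zero2 (o := o) (fun c => ho c.1) (fun c => hG c.1)
  rw [det_map2] at hdet0
  have hunit : IsUnit (mat2 (fun c : κ => lead c.1) (fun c : κ => d c.1)
      (fun c : κ => F c.1) m).det := (residue_ne_zero_iff_isUnit _).1 hdet0
  have hunit2 : IsUnit (mat2 (fun c : κ => lead c.1) (fun c : κ => d c.1)
      (fun c : κ => map φ (F c.1)) m).det := by
    rw [det_map2]
    exact hunit.map φ
  obtain ⟨v, hv, w, h1, h2, h3⟩ := span_of_unit_det (fun c : κ => (hF c.1).map φ) hunit2 hu
  refine ⟨v, ?_, w, h1, h2, fun e he c hc => h3 e he ⟨c, hc⟩⟩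
  convert hv using 2
  ext x
  constructor
  · rintro ⟨c, hc, rfl⟩
    exact ⟨⟨c, hc⟩, rfl⟩
  · rintro ⟨c, rfl⟩
    exact ⟨c.1, c.2, rfl⟩

theorem descent_span' (ho : ∀ c, lead c ≠ o) (hF : ∀ c, (F c).IsHomogeneous (d c))
    (hG : ∀ c, map (residue B) (F c) = X (lead c) ^ d c + X o * G c)
    {A : Type*} [CommRing A] (φ : B →+* A) (m : ℕ) (u : MvPolynomial σ A)
    (hu : u.IsHomogeneous m) :
    ∃ v ∈ Ideal.span (Set.range (fun c => map φ (F c))),
      ∃ w : MvPolynomial σ A, u = v + w ∧ w.IsHomogeneous m ∧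
        ∀ e ∈ w.support, ∀ c : Fin r, e (lead c) < d c := by
  obtain ⟨v, hv, w, h1, h2, h3⟩ := descent_span ho hF hG φ r m u hu
  refine ⟨v, ?_, w, h1, h2, fun e he c => h3 e he c c.2⟩
  exact Ideal.span_mono (Set.image_subset_range _ _) hv

theorem descent_prime (hlead : Function.Injective lead) (hd : ∀ c, 1 ≤ d c)
    (ho : ∀ c, lead c ≠ o) (hF : ∀ c, (F c).IsHomogeneous (d c))
    (hG : ∀ c, map (residue B) (F c) = X (lead c) ^ d c + X o * G c)
    (hP : (Ideal.span (Set.range (fun c => map (residue B) (F c)))).IsPrime) :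
    (Ideal.span (Set.range (fun c => map (algebraMap B K) (F c)))).IsPrime := by
  classical
  have hindK : ∀ {m : ℕ} {w : MvPolynomial σ K}, w.IsHomogeneous m →
      (∀ e ∈ w.support, ∀ c, e (lead c) < d c) →
      w ∈ Ideal.span (Set.range (fun c => map (algebraMap B K) (F c))) → w = 0 :=
    fun hw h1 h2 => indep_of_span hlead (fun c => (hF c).map _)
      (fun p m u hu => descent_span ho hF hG (algebraMap B K) p m u hu) hw h1 h2
  have hindk : ∀ {m : ℕ} {w : MvPolynomial σ (ResidueField B)}, w.IsHomogeneous m →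
      (∀ e ∈ w.support, ∀ c, e (lead c) < d c) →
      w ∈ Ideal.span (Set.range (fun c => map (residue B) (F c))) → w = 0 :=
    fun hw h1 h2 => indep_of_span hlead (fun c => (hF c).map _)
      (fun p m u hu => descent_span ho hF hG (residue B) p m u hu) hw h1 h2
  set I := Ideal.span (Set.range (fun c => map (algebraMap B K) (F c))) with hI
  let _ : GradedAlgebra (homogeneousSubmodule σ K) := gradedAlgebra
  have hhom : I.IsHomogeneous (homogeneousSubmodule σ K) := by
    apply Ideal.homogeneous_span
    rintro _ ⟨c, rfl⟩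
    exact ⟨d c, (hF c).map _⟩
  have htop : I ≠ ⊤ := by
    intro h
    have h1 : (1 : MvPolynomial σ K) = 0 := by
      refine hindK (isHomogeneous_one σ K) ?_ (by rw [h]; trivial)
      intro e he c
      have h2 : e = 0 := by
        have h3 : e ∈ (C (1 : K) : MvPolynomial σ K).support := by rwa [C_1]
        have h4 := support_monomial_subset h3
        exact Finset.mem_singleton.1 h4
      rw [h2]
      exact hd c
    exact one_ne_zero h1
  refine hhom.isPrime_of_homogeneous_mem_or_mem htop ?_
  rintro a b ⟨s, ha⟩ ⟨t, hb⟩ hab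
  obtain ⟨va, hva, wa, ha1, ha2, ha3⟩ := descent_span' ho hF hG (algebraMap B K) s a ha
  obtain ⟨vb, hvb, wb, hb1, hb2, hb3⟩ := descent_span' ho hF hG (algebraMap B K) t b hb
  by_cases hwa : wa = 0
  · left
    rw [ha1, hwa, add_zero]
    exact hva
  by_cases hwb : wb = 0
  · right
    rw [hb1, hwb, add_zero]
    exact hvb
  exfalso
  have hww : wa * wb ∈ I := by
    have h1 : wa * wb = a * b - (va * b + wa * vb) := by
      rw [ha1, hb1]; ring
    rw [h1]
    exact I.sub_mem hab (I.add_mem (I.mul_mem_right _ hva) (I.mul_mem_left _ hvb))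
  obtain ⟨l, Wa, hl, hWa1, hWa2, hWa3⟩ := exists_scale B hwa
  obtain ⟨l', Wb, hl', hWb1, hWb2, hWb3⟩ := exists_scale B hwb
  have hWah : Wa.IsHomogeneous s := by
    intro e he
    exact ha2 (mem_support_iff.1 (hWa2 ▸ mem_support_iff.2 he))
  have hWbh : Wb.IsHomogeneous t := by
    intro e he
    exact hb2 (mem_support_iff.1 (hWb2 ▸ mem_support_iff.2 he))
  have hWar : ∀ e ∈ Wa.support, ∀ c, e (lead c) < d c := by
    rw [hWa2]; exact ha3
  have hWbr : ∀ e ∈ Wb.support, ∀ c, e (lead c) < d c := by
    rw [hWb2]; exact hb3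
  have hprod := hWah.mul hWbh
  obtain ⟨V, hV, W, h1, h2, h3⟩ := descent_span' ho hF hG (RingHom.id B) (s + t) (Wa * Wb) hprod
  have hV' : V ∈ Ideal.span (Set.range F) := by
    convert hV using 3
    funext c
    rw [map_id]
  have hWK : map (algebraMap B K) W = 0 := by
    have h4 : map (algebraMap B K) W = C l * C l' * (wa * wb) - map (algebraMap B K) V := by
      have h5 := congrArg (map (algebraMap B K)) h1
      rw [map_mul, map_add, hWa1, hWb1] at h5
      rw [eq_sub_iff_add_eq, add_comm, ← h5]
      ring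
    refine hindK (h2.map _) (fun e he c => h3 e (support_map_subset _ _ he) c) ?_
    rw [h4]
    refine I.sub_mem (I.mul_mem_left _ hww) ?_
    have h5 := Ideal.mem_map_of_mem (map (algebraMap B K)) hV'
    rw [Ideal.map_span, ← Set.range_comp] at h5
    exact h5
  have hW0 : W = 0 := by
    apply map_injective (algebraMap B K) (FaithfulSMul.algebraMap_injective B K)
    rw [hWK, map_zero]
  rw [hW0, add_zero] at h1
  have hres : map (residue B) Wa * map (residue B) Wb ∈
      Ideal.span (Set.range (fun c => map (residue B) (F c))) := by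
    rw [← map_mul, h1]
    have h5 := Ideal.mem_map_of_mem (map (residue B)) hV'
    rw [Ideal.map_span, ← Set.range_comp] at h5
    exact h5
  rcases hP.mem_or_mem hres with h | h
  · exact hWa3 (hindk (hWah.map _) (fun e he c => hWar e (support_map_subset _ _ he) c) h)
  · exact hWb3 (hindk (hWbh.map _) (fun e he c => hWbr e (support_map_subset _ _ he) c) h)

end

end Pool.Agent.Lib_MP_c7e57a
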