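import Pool.Agent.Lib_MP_c7e57a.GenPoint

/-!
# A bound for the degree of a field extension
-/

namespace Pool.Agent.Lib_MP_c7e57a

open MvPolynomial IntermediateField

theorem field_bound {n : ℕ} {τ : Type*} [Finite τ] {L : Type*} [Field L] [Algebra ℂ L]
    {t : Fin n → L} (ht : AlgebraicIndependent ℂ t) {ζ : τ → L}
    (hgen : adjoin ℂ (Set.range t ∪ Set.range ζ) = ⊤)
    {ι : Type*} {g : ι → MvPolynomial τ (MvPolynomial (Fin n) ℂ)}
    (hg : ∀ c, eval₂ (aeval t : MvPolynomial (Fin n) ℂ →ₐ[ℂ] L).toRingHom ζ (g c) = 0)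
    {J : Ideal (MvPolynomial τ (KK n))}
    (hJ : J = Ideal.span (Set.range fun c =>
      map (algebraMap (MvPolynomial (Fin n) ℂ) (KK n)) (g c)))
    [hfin : Module.Finite (KK n) (MvPolynomial τ (KK n) ⧸ J)] :
    Module.Finite (adjoin ℂ (Set.range t)) L ∧
      Module.finrank (adjoin ℂ (Set.range t)) L ≤
        Module.finrank (KK n) (MvPolynomial τ (KK n) ⧸ J) := by
  -- the embedding of the field of rational functions
  have hinj : Function.Injective (aeval t : MvPolynomial (Fin n) ℂ →ₐ[ℂ] L).toRingHom := ht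
  let κ : KK n →+* L := IsFractionRing.lift hinj
  have hκ : ∀ a, κ (algebraMap (MvPolynomial (Fin n) ℂ) (KK n) a) = aeval t a :=
    fun a => IsFractionRing.lift_algebraMap hinj a
  have hκC : ∀ a : ℂ, κ (algebraMap ℂ (KK n) a) = algebraMap ℂ L a := by
    intro a
    rw [IsScalarTower.algebraMap_apply ℂ (MvPolynomial (Fin n) ℂ) (KK n), hκ]
    exact (aeval t).commutes a
  have hκE : ∀ a, κ a ∈ adjoin ℂ (Set.range t) := by
    intro a
    obtain ⟨x, y, hy, rfl⟩ := IsFractionRing.div_surjective (A := MvPolynomial (Fin n) ℂ) a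
    rw [map_div₀, hκ, hκ]
    have h1 : ∀ z : MvPolynomial (Fin n) ℂ, aeval t z ∈ adjoin ℂ (Set.range t) := by
      intro z
      have h2 : aeval t z ∈ Algebra.adjoin ℂ (Set.range t) := by
        rw [Algebra.adjoin_range_eq_range_aeval]
        exact ⟨z, rfl⟩
      exact algebra_adjoin_le_adjoin ℂ _ h2
    exact div_mem (h1 x) (h1 y)
  let _ : Algebra (KK n) L := κ.toAlgebra
  have halg : ∀ a, algebraMap (KK n) L a = κ a := fun a => rfl
  let Θ : MvPolynomial τ (KK n) →ₐ[KK n] L := aeval ζ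
  have hΘJ : ∀ a ∈ J, Θ a = 0 := by
    intro a ha
    have h1 : J ≤ RingHom.ker Θ := by
      rw [hJ, Ideal.span_le]
      rintro _ ⟨c, rfl⟩
      have h2 : κ.comp (algebraMap (MvPolynomial (Fin n) ℂ) (KK n)) =
          (aeval t : MvPolynomial (Fin n) ℂ →ₐ[ℂ] L).toRingHom := by
        ext a
        · exact hκ _
        · exact hκ _
      have h3 : Θ (map (algebraMap (MvPolynomial (Fin n) ℂ) (KK n)) (g c)) =
          eval₂ κ ζ (map (algebraMap (MvPolynomial (Fin n) ℂ) (KK n)) (g c)) := rfl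
      show Θ (map (algebraMap (MvPolynomial (Fin n) ℂ) (KK n)) (g c)) = 0
      rw [h3, eval₂_map, h2, hg c]
    exact h1 ha
  let Θ' : (MvPolynomial τ (KK n) ⧸ J) →ₐ[KK n] L := Ideal.Quotient.liftₐ J Θ hΘJ
  have hΘ' : ∀ a, Θ' (Ideal.Quotient.mk J a) = Θ a := fun a => rfl
  have hfinM : Module.Finite (KK n) Θ'.range := by
    have := Module.Finite.range Θ'.toLinearMap
    exact this
  let M : IntermediateField (KK n) L := Θ'.range.toIntermediateField (by
    intro x hx
    have h1 : IsAlgebraic (KK n) (⟨x, hx⟩ : Θ'.range) := Algebra.IsAlgebraic.isAlgebraic _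
    have h2 : IsAlgebraic (KK n) (((⟨x, hx⟩ : Θ'.range) : L)) :=
      h1.algebraMap
    exact Subalgebra.inv_mem_of_algebraic _ h2)
  have hMtop : ∀ x : L, x ∈ Θ'.range := by
    let M' : IntermediateField ℂ L :=
      { M.toSubfield with
        algebraMap_mem' := fun a => by
          show algebraMap ℂ L a ∈ M
          rw [← hκC]
          exact M.algebraMap_mem _ }
    have h1 : (⊤ : IntermediateField ℂ L) ≤ M' := by
      rw [← hgen, adjoin_le_iff]
      rintro _ (⟨b, rfl⟩ | ⟨s, rfl⟩)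
      · show t b ∈ M
        have h2 : t b = algebraMap (KK n) L
            (algebraMap (MvPolynomial (Fin n) ℂ) (KK n) (X b)) := by
          rw [halg, hκ, aeval_X]
        rw [h2]
        exact M.algebraMap_mem _
      · show ζ s ∈ Θ'.range
        refine ⟨Ideal.Quotient.mk J (X s), ?_⟩
        show Θ' _ = _
        rw [hΘ']
        exact aeval_X _ _
    intro x
    exact h1 (show x ∈ (⊤ : IntermediateField ℂ L) from trivial)
  let b := Module.finBasis (KK n) (MvPolynomial τ (KK n) ⧸ J)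
  have hspan : Submodule.span (adjoin ℂ (Set.range t)) (Set.range fun i => Θ' (b i)) = ⊤ := by
    rw [eq_top_iff]
    rintro x -
    obtain ⟨a, rfl⟩ := hMtop x
    have h1 := b.sum_repr a
    rw [← h1]
    show Θ' _ ∈ _
    rw [map_sum]
    refine Submodule.sum_mem _ fun i _ => ?_
    rw [map_smul]
    have h2 : (b.repr a i) • Θ' (b i) = (⟨κ (b.repr a i), hκE _⟩ : adjoin ℂ (Set.range t)) •
        Θ' (b i) := by
      rw [Algebra.smul_def, halg]
      rfl
    rw [h2]
    exact Submodule.smul_mem _ _ (Submodule.subset_span ⟨i, rfl⟩)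
  classical
  refine ⟨Module.finite_def.2 ⟨Finset.univ.image fun i => Θ' (b i), ?_⟩, ?_⟩
  · rw [Finset.coe_image, Finset.coe_univ, Set.image_univ]
    exact hspan
  · refine (finrank_le_of_span_eq_top hspan).trans ?_
    simp

end Pool.Agent.Lib_MP_c7e57a
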