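import Pool.Agent.Lib_MP_c7e57a.Open
import Pool.Agent.Lib_MP_c7e57a.Generic

/-!
# The generic fibre is not empty
-/

namespace Pool.Agent.Lib_MP_c7e57a

open Topology MvPolynomial

/-- Evaluation of a polynomial in `z` whose coefficients are polynomials in `t`. -/
noncomputable def ev {n : ℕ} {τ : Type*} (t : Fin n → ℂ) (z : τ → ℂ) :
    MvPolynomial τ (MvPolynomial (Fin n) ℂ) →+* ℂ :=
  eval₂Hom (eval t) z

theorem ev_eq {n : ℕ} {τ : Type*} (t : Fin n → ℂ) (z : τ → ℂ)
    (g : MvPolynomial τ (MvPolynomial (Fin n) ℂ)) : ev t z g = eval z (map (eval t) g) := by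
  unfold ev
  rw [eval_map]
  rfl

theorem contDiff_eval {ι : Type*} [Fintype ι] (P : MvPolynomial ι ℂ) :
    ContDiff ℂ 1 (fun x => eval x P) := by
  induction P using MvPolynomial.induction_on with
  | C a => simpa using contDiff_const
  | add p q hp hq => simpa using hp.add hq
  | mul_X p s hp =>
    have h1 : ContDiff ℂ 1 (fun x : ι → ℂ => x s) := contDiff_apply ℂ ℂ s
    simpa using hp.mul h1

theorem contDiff_ev {n : ℕ} {τ : Type*} [Fintype τ]
    (g : MvPolynomial τ (MvPolynomial (Fin n) ℂ)) :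
    ContDiff ℂ 1 (fun x : (Fin n → ℂ) × (τ → ℂ) => ev x.1 x.2 g) := by
  induction g using MvPolynomial.induction_on with
  | C a =>
    have h1 := (contDiff_eval a).comp (contDiff_fst (𝕜 := ℂ) (E := Fin n → ℂ) (F := τ → ℂ))
    have h2 : (fun x : (Fin n → ℂ) × (τ → ℂ) => ev x.1 x.2 (C a)) =
        (fun x => eval x a) ∘ Prod.fst := by
      funext x
      simp [ev]
    rw [h2]
    exact h1
  | add p q hp hq =>
    simp only [map_add]
    exact hp.add hq
  | mul_X p s hp =>
    have h1 : ContDiff ℂ 1 (fun x : (Fin n → ℂ) × (τ → ℂ) => x.2 s) :=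
      (contDiff_apply ℂ ℂ s).comp contDiff_snd
    have h2 : (fun x : (Fin n → ℂ) × (τ → ℂ) => ev x.1 x.2 (p * X s)) =
        fun x => ev x.1 x.2 p * x.2 s := by
      funext x
      rw [map_mul]
      congr 1
      simp [ev]
    rw [h2]
    exact hp.mul h1

theorem genPoint {n : ℕ} {τ : Type*} [Fintype τ] [DecidableEq τ]
    {g : τ → MvPolynomial τ (MvPolynomial (Fin n) ℂ)}
    {t₀ : Fin n → ℂ} {z₀ : τ → ℂ} (h0 : ∀ c, ev t₀ z₀ (g c) = 0)
    (hJ : (Matrix.of fun c s => ev t₀ z₀ (pderiv s (g c))).det ≠ 0)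
    {h : MvPolynomial (Fin n) ℂ} (hh : C h ∈ Ideal.span (Set.range g)) : h = 0 := by
  by_contra hne
  set J : Matrix τ τ ℂ := Matrix.of fun c s => ev t₀ z₀ (pderiv s (g c)) with hJdef
  let Ψ : (Fin n → ℂ) × (τ → ℂ) → (τ → ℂ) := fun x c => ev x.1 x.2 (g c)
  have hΨ : ContDiff ℂ 1 Ψ := contDiff_pi.2 fun c => contDiff_ev (g c)
  let A : (τ → ℂ) →L[ℂ] (τ → ℂ) :=
    ContinuousLinearMap.pi fun c => dEval (map (eval t₀) (g c)) z₀
  have hA : HasFDerivAt (fun z => Ψ (t₀, z)) A z₀ := by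
    rw [hasFDerivAt_pi']
    intro c
    have h1 : (fun z => Ψ (t₀, z) c) = fun z => eval z (map (eval t₀) (g c)) := by
      funext z
      exact ev_eq t₀ z (g c)
    rw [h1]
    exact hasFDerivAt_eval _ _
  have hAJ : ∀ y, A y = J.mulVec y := by
    intro y
    funext c
    show dEval _ _ y = _
    rw [dEval_apply]
    simp only [Matrix.mulVec, dotProduct, J, Matrix.of_apply]
    refine Finset.sum_congr rfl fun s _ => ?_
    rw [ev_eq, pderiv_map]
  have hsurj : Function.Surjective A := by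
    intro γ
    refine ⟨J⁻¹.mulVec γ, ?_⟩
    rw [hAJ, Matrix.mulVec_mulVec, Matrix.mul_nonsing_inv J (isUnit_iff_ne_zero.2 hJ),
      Matrix.one_mulVec]
  have hnear := exists_near hΨ (funext h0) hA hsurj Filter.univ_mem
  have h1 : ∀ᶠ t in 𝓝 t₀, eval t h = 0 := by
    filter_upwards [hnear] with t ht
    obtain ⟨z, -, hz⟩ := ht
    have h2 : ∀ v ∈ Ideal.span (Set.range g), ev t z v = 0 := by
      intro v hv
      have h3 : Ideal.span (Set.range g) ≤ RingHom.ker (ev t z) := by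
        rw [Ideal.span_le]
        rintro _ ⟨c, rfl⟩
        exact congrFun hz c
      exact h3 hv
    have h3 := h2 _ hh
    simpa [ev] using h3
  obtain ⟨U, hU, hUo, hU0⟩ := mem_nhds_iff.1 h1
  obtain ⟨x, hxU, hx⟩ := (dense_ne_zero hne).inter_open_nonempty U hUo ⟨t₀, hU0⟩
  exact hx (hU hxU)

/-- The field of rational functions in `n` variables. -/
abbrev KK (n : ℕ) := FractionRing (MvPolynomial (Fin n) ℂ)

attribute [local instance] MvPolynomial.algebraMvPolynomial in
theorem span_ne_top {n : ℕ} {τ : Type*} [Fintype τ] [DecidableEq τ]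
    {g : τ → MvPolynomial τ (MvPolynomial (Fin n) ℂ)}
    {t₀ : Fin n → ℂ} {z₀ : τ → ℂ} (h0 : ∀ c, ev t₀ z₀ (g c) = 0)
    (hJ : (Matrix.of fun c s => ev t₀ z₀ (pderiv s (g c))).det ≠ 0) :
    Ideal.span (Set.range fun c => map (algebraMap (MvPolynomial (Fin n) ℂ) (KK n)) (g c)) ≠ ⊤ := by
  intro htop
  have h1 : Ideal.map (algebraMap (MvPolynomial τ (MvPolynomial (Fin n) ℂ))
      (MvPolynomial τ (KK n))) (Ideal.span (Set.range g)) =
      Ideal.span (Set.range fun c =>
        map (algebraMap (MvPolynomial (Fin n) ℂ) (KK n)) (g c)) := by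
    rw [Ideal.map_span, ← Set.range_comp]
    rfl
  have h2 : (1 : MvPolynomial τ (KK n)) ∈ Ideal.map (algebraMap
      (MvPolynomial τ (MvPolynomial (Fin n) ℂ)) (MvPolynomial τ (KK n)))
      (Ideal.span (Set.range g)) := by
    rw [h1, htop]; trivial
  rw [IsLocalization.mem_map_algebraMap_iff
    ((nonZeroDivisors (MvPolynomial (Fin n) ℂ)).map (C (σ := τ)))] at h2
  obtain ⟨⟨⟨a, ha⟩, ⟨_, ⟨h, hh, rfl⟩⟩⟩, he⟩ := h2
  simp only [one_mul] at he
  have h3 : C h = a := by
    have hinj : Function.Injective (algebraMap (MvPolynomial τ (MvPolynomial (Fin n) ℂ))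
        (MvPolynomial τ (KK n))) :=
      map_injective _ (IsFractionRing.injective _ _)
    exact hinj he
  have h4 : h = 0 := genPoint h0 hJ (by rw [h3]; exact ha)
  exact nonZeroDivisors.ne_zero hh h4

end Pool.Agent.Lib_MP_c7e57a
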