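import Mathlib

/-!
# Spanning the forms of degree `m` modulo given forms
-/

namespace Pool.Agent.Lib_MP_c7e57a

open MvPolynomial

variable {q : ℕ}

/-- The variable belonging to the index `c`: the first variable `y₀` for the last index. -/
def var (c : Fin (q + 1)) : Option (Fin (q + 1)) := if c = Fin.last q then none else some c

theorem var_last : var (Fin.last q) = none := by simp [var]

theorem var_castSucc (c : Fin q) : var (Fin.castSucc c) = some (Fin.castSucc c) := by
  unfold var
  rw [if_neg (Fin.castSucc_lt_last c).ne]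

theorem var_injective : Function.Injective (var (q := q)) := by
  intro a b h
  unfold var at h
  split_ifs at h with h1 h2 h2
  · rw [h1, h2]
  · exact Option.some.inj h

theorem var_ne (c : Fin (q + 1)) : var c ≠ some (Fin.last q) := by
  unfold var
  split_ifs with h
  · simp
  · simpa using h

/-- The exponents of degree `m`. -/
abbrev Mon (σ : Type*) (m : ℕ) := {w : σ →₀ ℕ // w.degree = m}

noncomputable instance (σ : Type*) [Finite σ] (m : ℕ) : Fintype (Mon σ m) := by
  have : Finite (Mon σ m) := Finsupp.finite_of_degree_eq m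
  exact Fintype.ofFinite _

section

variable {R : Type*} [CommRing R] (d : Fin (q + 1) → ℕ)
  (F : Fin (q + 1) → MvPolynomial (Option (Fin (q + 1))) R) (m : ℕ)

open Classical in
/-- The multiple of a form (or the monomial) assigned to an exponent. -/
noncomputable def col (w : Option (Fin (q + 1)) →₀ ℕ) : MvPolynomial (Option (Fin (q + 1))) R :=
  if h : ∃ c, d c ≤ w (var c) then
    monomial (w - Finsupp.single (var h.choose) (d h.choose)) 1 * F h.choose
  else monomial w 1

/-- The matrix of the map that sends the monomial with exponent `w` to `col w`. -/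
noncomputable def mat : Matrix (Mon (Option (Fin (q + 1))) m) (Mon (Option (Fin (q + 1))) m) R :=
  fun w' w => coeff w'.1 (col d F w.1)

theorem mat_map {R' : Type*} [CommRing R'] (φ : R →+* R') :
    mat d (fun c => map φ (F c)) m = (mat d F m).map φ := by
  ext w' w
  simp only [mat, Matrix.map_apply]
  rw [← coeff_map]
  congr 1
  unfold col
  split_ifs with h
  · rw [map_mul, map_monomial, φ.map_one]
  · rw [map_monomial, φ.map_one]

theorem det_map {R' : Type*} [CommRing R'] (φ : R →+* R') :
    (mat d (fun c => map φ (F c)) m).det = φ (mat d F m).det := by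
  rw [mat_map]
  exact (RingHom.map_det φ _).symm

variable {d F m}

theorem col_isHomogeneous (hF : ∀ c, (F c).IsHomogeneous (d c))
    {w : Option (Fin (q + 1)) →₀ ℕ} (hw : w.degree = m) : (col d F w).IsHomogeneous m := by
  unfold col
  split_ifs with h
  · set c := h.choose with hc
    have h1 : d c ≤ w (var c) := h.choose_spec
    have h2 : w - Finsupp.single (var c) (d c) + Finsupp.single (var c) (d c) = w := by
      ext o
      simp only [Finsupp.coe_add, Finsupp.coe_tsub, Pi.add_apply, Pi.sub_apply]
      by_cases ho : o = var c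
      · subst ho; simp only [Finsupp.single_eq_same]; omega
      · simp [Ne.symm ho]
    have h3 : (monomial (w - Finsupp.single (var c) (d c)) (1 : R)).IsHomogeneous
        (w - Finsupp.single (var c) (d c)).degree := isHomogeneous_monomial _ rfl
    have h4 := h3.mul (hF c)
    have h5 : (w - Finsupp.single (var c) (d c)).degree + d c = m := by
      rw [← hw]
      conv_rhs => rw [← h2]
      rw [map_add, Finsupp.degree_single]
    rwa [h5] at h4
  · exact isHomogeneous_monomial _ hw

/-- The reduced exponents. -/
noncomputable def expo (d : Fin (q + 1) → ℕ) (m : ℕ) (x : ∀ c, Fin (d c)) :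
    Option (Fin (q + 1)) →₀ ℕ :=
  ∑ c, Finsupp.single (var c) (x c : ℕ) +
    Finsupp.single (some (Fin.last q)) (m - ∑ c, (x c : ℕ))

theorem expo_var (x : ∀ c, Fin (d c)) (c : Fin (q + 1)) : expo d m x (var c) = x c := by
  unfold expo
  rw [Finsupp.add_apply, Finsupp.finsetSum_apply]
  rw [Finsupp.single_apply, if_neg (var_ne c).symm, add_zero]
  rw [Finset.sum_eq_single c]
  · simp
  · intro b _ hb
    rw [Finsupp.single_apply, if_neg (fun h => hb (var_injective h))]
  · intro h; exact absurd (Finset.mem_univ c) h

theorem expo_last (x : ∀ c, Fin (d c)) :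
    expo d m x (some (Fin.last q)) = m - ∑ c, (x c : ℕ) := by
  unfold expo
  rw [Finsupp.add_apply, Finsupp.finsetSum_apply, Finsupp.single_eq_same]
  rw [Finset.sum_eq_zero, zero_add]
  intro c _
  rw [Finsupp.single_apply, if_neg (var_ne c)]

theorem option_cases (o : Option (Fin (q + 1))) : o = some (Fin.last q) ∨ ∃ c, o = var c := by
  rcases o with _ | c
  · right; exact ⟨Fin.last q, var_last.symm⟩
  · rcases Fin.eq_castSucc_or_eq_last c with ⟨c', rfl⟩ | rfl
    · right; exact ⟨_, (var_castSucc c').symm⟩
    · left; rfl

theorem degree_eq (w : Option (Fin (q + 1)) →₀ ℕ) :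
    w.degree = w (some (Fin.last q)) + ∑ c, w (var c) := by
  rw [Finsupp.degree_eq_sum, Fintype.sum_option, Fin.sum_univ_castSucc,
    Fin.sum_univ_castSucc (fun c => w (var c)), var_last]
  simp only [var_castSucc]
  ring

theorem eq_expo {w : Option (Fin (q + 1)) →₀ ℕ} (hw : w.degree = m)
    (h : ∀ c, w (var c) < d c) : w = expo d m (fun c => ⟨w (var c), h c⟩) := by
  ext o
  rcases option_cases o with rfl | ⟨c, rfl⟩
  · rw [expo_last]
    have := degree_eq w
    simp only
    omega
  · rw [expo_var]

end

theorem span_of_det {K : Type*} [Field K] {d : Fin (q + 1) → ℕ}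
    {F : Fin (q + 1) → MvPolynomial (Option (Fin (q + 1))) K} {m : ℕ}
    (hF : ∀ c, (F c).IsHomogeneous (d c)) (hdet : (mat d F m).det ≠ 0)
    {u : MvPolynomial (Option (Fin (q + 1))) K} (hu : u.IsHomogeneous m) :
    ∃ v ∈ Ideal.span (Set.range F),
      ∃ w ∈ Submodule.span K (Set.range fun x : ∀ c, Fin (d c) => monomial (expo d m x) (1 : K)),
        u = v + w := by
  set b := fun x : ∀ c, Fin (d c) => monomial (expo d m x) (1 : K)
  set T : Submodule K (MvPolynomial (Option (Fin (q + 1))) K) :=
    (Ideal.span (Set.range F)).restrictScalars K ⊔ Submodule.span K (Set.range b) with hT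
  suffices h : u ∈ T by
    obtain ⟨v, hv, w, hw, h1⟩ := Submodule.mem_sup.1 h
    exact ⟨v, hv, w, hw, h1.symm⟩
  set N := mat d F m with hN
  have hunit : IsUnit N.det := isUnit_iff_ne_zero.2 hdet
  let uv : Mon (Option (Fin (q + 1))) m → K := fun w => coeff w.1 u
  let v := N⁻¹.mulVec uv
  have hv : N.mulVec v = uv := by
    simp only [v, Matrix.mulVec_mulVec, Matrix.mul_nonsing_inv N hunit, Matrix.one_mulVec]
  have hsum : u = ∑ w, v w • col d F w.1 := by
    have h1 : (∑ w : Mon (Option (Fin (q + 1))) m, v w • col d F w.1).IsHomogeneous m := by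
      apply IsHomogeneous.sum
      intro w _
      rw [smul_eq_C_mul]
      exact (col_isHomogeneous hF w.2).C_mul _
    ext w
    by_cases hw : w.degree = m
    · have h2 := congrFun hv ⟨w, hw⟩
      simp only [Matrix.mulVec, dotProduct, uv] at h2
      rw [← h2, coeff_sum]
      refine Finset.sum_congr rfl fun w' _ => ?_
      rw [coeff_smul, smul_eq_mul, mul_comm]
      rfl
    · rw [hu.coeff_eq_zero hw, h1.coeff_eq_zero hw]
  rw [hsum]
  refine Submodule.sum_mem _ fun w _ => Submodule.smul_mem _ _ ?_
  unfold col
  split_ifs with h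
  · refine Submodule.mem_sup_left ?_
    exact Ideal.mul_mem_left _ _ (Ideal.subset_span ⟨_, rfl⟩)
  · push Not at h
    refine Submodule.mem_sup_right (Submodule.subset_span ?_)
    refine ⟨fun c => ⟨w.1 (var c), h c⟩, ?_⟩
    simp only [b]
    rw [← eq_expo w.2 h]

theorem det_ne_zero {K : Type*} [Field K] {d : Fin (q + 1) → ℕ}
    {F G : Fin (q + 1) → MvPolynomial (Option (Fin (q + 1))) K} {m : ℕ}
    (hF : ∀ c, F c = X (var c) ^ d c + X (some (Fin.last q)) * G c) :
    (mat d F m).det ≠ 0 := by
  intro hdet
  obtain ⟨v, hv0, hv⟩ := Matrix.exists_mulVec_eq_zero_iff.2 hdet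
  -- an exponent with minimal last entry
  have hex : ∃ w, v w ≠ 0 := by
    by_contra h
    push Not at h
    exact hv0 (funext h)
  obtain ⟨w, hw, hmin⟩ : ∃ w, v w ≠ 0 ∧
      ∀ w', v w' ≠ 0 → w.1 (some (Fin.last q)) ≤ w'.1 (some (Fin.last q)) := by
    obtain ⟨w, hw, hmin⟩ := Set.exists_min_image {w | v w ≠ 0}
      (fun w => w.1 (some (Fin.last q))) (Set.toFinite _) hex
    exact ⟨w, hw, hmin⟩
  have h1 := congrFun hv w
  simp only [Matrix.mulVec, dotProduct, Pi.zero_apply] at h1
  have key : ∀ w', v w' ≠ 0 → mat d F m w w' = if w = w' then 1 else 0 := by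
    intro w' hw'
    have hle := hmin w' hw'
    unfold mat col
    split_ifs with h h2 h2
    · set c := h.choose with hc
      have hc1 : d c ≤ w'.1 (var c) := h.choose_spec
      rw [hF c, mul_add, coeff_add, X_pow_eq_monomial, monomial_mul, one_mul]
      have h3 : w'.1 - Finsupp.single (var c) (d c) + Finsupp.single (var c) (d c) = w'.1 := by
        ext o
        simp only [Finsupp.coe_add, Finsupp.coe_tsub, Pi.add_apply, Pi.sub_apply]
        by_cases ho : o = var c
        · subst ho; simp only [Finsupp.single_eq_same]; omega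
        · simp [Ne.symm ho]
      rw [h3, coeff_monomial, if_pos (by rw [h2])]
      rw [← mul_assoc, X, monomial_mul, coeff_monomial_mul', if_neg, add_zero]
      intro hle2
      have h4 := hle2 (some (Fin.last q))
      rw [Finsupp.add_apply, Finsupp.single_eq_same, Finsupp.tsub_apply,
        Finsupp.single_apply, if_neg (var_ne c)] at h4
      omega
    · set c := h.choose with hc
      have hc1 : d c ≤ w'.1 (var c) := h.choose_spec
      rw [hF c, mul_add, coeff_add, X_pow_eq_monomial, monomial_mul, one_mul]
      have h3 : w'.1 - Finsupp.single (var c) (d c) + Finsupp.single (var c) (d c) = w'.1 := by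
        ext o
        simp only [Finsupp.coe_add, Finsupp.coe_tsub, Pi.add_apply, Pi.sub_apply]
        by_cases ho : o = var c
        · subst ho; simp only [Finsupp.single_eq_same]; omega
        · simp [Ne.symm ho]
      rw [h3, coeff_monomial, if_neg (fun h => h2 (Subtype.ext h.symm))]
      rw [← mul_assoc, X, monomial_mul, coeff_monomial_mul', if_neg, add_zero]
      intro hle2
      have h4 := hle2 (some (Fin.last q))
      rw [Finsupp.add_apply, Finsupp.single_eq_same, Finsupp.tsub_apply,
        Finsupp.single_apply, if_neg (var_ne c)] at h4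
      omega
    · rw [coeff_monomial, if_pos (by rw [h2])]
    · rw [coeff_monomial, if_neg (fun h => h2 (Subtype.ext h.symm))]
  rw [Finset.sum_eq_single w] at h1
  · rw [key w hw, if_pos rfl, one_mul] at h1
    exact hw h1
  · intro w' _ hne
    by_cases h2 : v w' = 0
    · rw [h2, mul_zero]
    · rw [key w' h2, if_neg hne.symm, zero_mul]
  · intro h; exact absurd (Finset.mem_univ w) h

end Pool.Agent.Lib_MP_c7e57a
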