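import Pool.Agent.Lib_MP_c7e57a.Core
import Pool.Agent.Lib_MP_c7e57a.Rank
import Pool.Agent.Lib_MP_c7e57a.GenPoint

/-!
# The family of the fibres of a linear projection
-/

namespace Pool.Agent.Lib_MP_c7e57a

open MvPolynomial

variable {n q : ℕ}

section

variable {R : Type*} [CommRing R]

/-- The restriction of a form to the subspace spanned by the point `tt` and the subspace
`y = l z`. -/
noncomputable def fib (l : Fin (n + 1) → Fin (q + 1) → R) (tt : Fin (n + 1) → R) :
    MvPolynomial (Fin (n + 1) ⊕ Fin (q + 1)) R →ₐ[R] MvPolynomial (Option (Fin (q + 1))) R :=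
  aeval (Sum.elim (fun b => C (tt b) * X none + ∑ s, C (l b s) * X (some s))
    (fun s => X (some s)))

theorem fib_map {R' : Type*} [CommRing R'] (φ : R →+* R') (l : Fin (n + 1) → Fin (q + 1) → R)
    (tt : Fin (n + 1) → R) (f : MvPolynomial (Fin (n + 1) ⊕ Fin (q + 1)) R) :
    map φ (fib l tt f) = fib (fun b s => φ (l b s)) (fun b => φ (tt b)) (map φ f) := by
  unfold fib
  induction f using MvPolynomial.induction_on with
  | C a => simp
  | add p q hp hq => simp only [map_add, hp, hq]
  | mul_X p s hp =>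
    simp only [map_mul, hp, map_X, aeval_X]
    rcases s with b | s
    · simp [map_sum]
    · simp

theorem fib_isHomogeneous {l : Fin (n + 1) → Fin (q + 1) → R} {tt : Fin (n + 1) → R}
    {f : MvPolynomial (Fin (n + 1) ⊕ Fin (q + 1)) R} {d : ℕ} (hf : f.IsHomogeneous d) :
    (fib l tt f).IsHomogeneous d := by
  unfold fib
  have h := hf.aeval (Sum.elim (fun b => C (tt b) * X none + ∑ s, C (l b s) * X (some s))
    (fun s => X (some s)) : _ → MvPolynomial (Option (Fin (q + 1))) R) (n := 1) (by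
      rintro (b | s)
      · refine IsHomogeneous.add (isHomogeneous_C_mul_X _ _) ?_
        exact IsHomogeneous.sum _ _ _ fun s _ => isHomogeneous_C_mul_X _ _
      · exact isHomogeneous_X _ _)
  rwa [one_mul] at h

theorem eval_fib (l : Fin (n + 1) → Fin (q + 1) → R) (tt : Fin (n + 1) → R)
    (f : MvPolynomial (Fin (n + 1) ⊕ Fin (q + 1)) R) (x : Option (Fin (q + 1)) → R) :
    eval x (fib l tt f) = eval (Sum.elim (fun b => tt b * x none + ∑ s, l b s * x (some s))
      (fun s => x (some s))) f := by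
  unfold fib
  induction f using MvPolynomial.induction_on with
  | C a => simp
  | add p q hp hq => simp only [map_add, hp, hq]
  | mul_X p s hp =>
    simp only [map_mul, hp, eval_X, aeval_X]
    rcases s with b | s
    · simp [map_sum]
    · simp

end

/-- The generic point. -/
noncomputable def ttR (n : ℕ) : Fin (n + 1) → MvPolynomial (Fin n) ℂ := Fin.cons 1 X

/-- The origin of the affine chart of the base. -/
noncomputable def tt0 (n : ℕ) : Fin (n + 1) → ℂ := Fin.cons 1 0

theorem eval_ttR (b : Fin (n + 1)) : eval 0 (ttR n b) = tt0 n b := by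
  refine Fin.cases ?_ (fun i => ?_) b
  · simp [ttR, tt0]
  · simp [ttR, tt0]

/-- The generic fibre over the polynomial ring. -/
noncomputable def gR (l : Fin (n + 1) → Fin (q + 1) → ℂ)
    (f : MvPolynomial (Fin (n + 1) ⊕ Fin (q + 1)) ℂ) :
    MvPolynomial (Option (Fin (q + 1))) (MvPolynomial (Fin n) ℂ) :=
  fib (fun b s => C (l b s)) (ttR n) (map C f)

/-- The generic fibre over the field of rational functions. -/
noncomputable def gK (l : Fin (n + 1) → Fin (q + 1) → ℂ)
    (f : MvPolynomial (Fin (n + 1) ⊕ Fin (q + 1)) ℂ) :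
    MvPolynomial (Option (Fin (q + 1))) (KK n) :=
  map (algebraMap (MvPolynomial (Fin n) ℂ) (KK n)) (gR l f)

theorem map_gR (l : Fin (n + 1) → Fin (q + 1) → ℂ)
    (f : MvPolynomial (Fin (n + 1) ⊕ Fin (q + 1)) ℂ) :
    map (eval 0) (gR l f) = fib l (tt0 n) f := by
  unfold gR
  rw [fib_map, map_map]
  have h1 : (eval (0 : Fin n → ℂ)).comp C = RingHom.id ℂ := by
    ext x
    simp
  rw [h1, map_id]
  congr 2
  · funext b s; simp
  · funext b; exact eval_ttR b

theorem gK_isHomogeneous {l : Fin (n + 1) → Fin (q + 1) → ℂ}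
    {f : MvPolynomial (Fin (n + 1) ⊕ Fin (q + 1)) ℂ} {d : ℕ} (hf : f.IsHomogeneous d) :
    (gK l f).IsHomogeneous d :=
  (fib_isHomogeneous (hf.map _)).map _

theorem det_gK {d : Fin (q + 1) → ℕ} {m : ℕ} {l : Fin (n + 1) → Fin (q + 1) → ℂ}
    {f : Fin (q + 1) → MvPolynomial (Fin (n + 1) ⊕ Fin (q + 1)) ℂ}
    (h : (mat d (fun c => fib l (tt0 n) (f c)) m).det ≠ 0) :
    (mat d (fun c => gK l (f c)) m).det ≠ 0 := by
  intro h1
  apply h
  unfold gK at h1
  rw [det_map] at h1
  have h2 : (mat d (fun c => gR l (f c)) m).det = 0 := by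
    apply IsFractionRing.injective (MvPolynomial (Fin n) ℂ) (KK n)
    rw [h1, map_zero]
  have h3 : (fun c => fib l (tt0 n) (f c)) = fun c => map (eval 0) (gR l (f c)) := by
    funext c; rw [map_gR]
  rw [h3, det_map, h2, map_zero]

/-- The point of the projective space over the point `z` of the subspace `y = l z`. -/
noncomputable def pt (l : Fin (n + 1) → Fin (q + 1) → ℂ) (z : Fin (q + 1) → ℂ) :
    Fin (n + 1) ⊕ Fin (q + 1) → ℂ :=
  Sum.elim (fun b => ∑ s, l b s * z s) z

theorem eval_gK (l : Fin (n + 1) → Fin (q + 1) → ℂ)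
    (f : MvPolynomial (Fin (n + 1) ⊕ Fin (q + 1)) ℂ) (z : Fin (q + 1) → ℂ) :
    eval (fun o => o.elim 0 fun s => algebraMap ℂ (KK n) (z s)) (gK l f) =
      algebraMap ℂ (KK n) (eval (pt l z) f) := by
  unfold gK gR
  rw [fib_map, eval_fib, map_map]
  have h1 : ((algebraMap (MvPolynomial (Fin n) ℂ) (KK n)).comp C) = algebraMap ℂ (KK n) := by
    rw [← MvPolynomial.algebraMap_eq, ← IsScalarTower.algebraMap_eq]
  rw [h1, eval_map]
  have h2 : algebraMap ℂ (KK n) (eval (pt l z) f) =
      eval₂ (algebraMap ℂ (KK n)) (fun i => algebraMap ℂ (KK n) (pt l z i)) f := by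
    rw [← eval₂_id, eval₂_comp_left]
    rfl
  rw [h2]
  congr 1
  funext i
  rcases i with b | s
  · simp only [Sum.elim_inl, Option.elim, mul_zero, zero_add, pt]
    rw [map_sum]
    refine Finset.sum_congr rfl fun s _ => ?_
    rw [map_mul]
    congr 1
  · simp [pt]

end Pool.Agent.Lib_MP_c7e57a
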