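import Pool.Agent.Lib_MP_c7e57a.Fam

/-!
# The degree of the generic fibre
-/

namespace Pool.Agent.Lib_MP_c7e57a

open MvPolynomial

variable {n q : ℕ}

/-- The equations of the generic fibre in the affine chart `y₀ = 1`. -/
noncomputable def fibreIdeal (l : Fin (n + 1) → Fin (q + 1) → ℂ)
    (f : Fin (q + 1) → MvPolynomial (Fin (n + 1) ⊕ Fin (q + 1)) ℂ) :
    Ideal (MvPolynomial (Fin (q + 1)) (KK n)) :=
  Ideal.span (Set.range fun c => deh (gK l (f c)))

theorem fibreIdeal_ne_top {l : Fin (n + 1) → Fin (q + 1) → ℂ}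
    {f : Fin (q + 1) → MvPolynomial (Fin (n + 1) ⊕ Fin (q + 1)) ℂ}
    {zq : Fin (q + 1) → ℂ} (h0 : ∀ c, eval zq (deh (fib l (tt0 n) (f c))) = 0)
    (hJ : (Matrix.of fun c s => eval zq (pderiv s (deh (fib l (tt0 n) (f c))))).det ≠ 0) :
    fibreIdeal l f ≠ ⊤ := by
  have h1 : fibreIdeal l f = Ideal.span (Set.range fun c =>
      map (algebraMap (MvPolynomial (Fin n) ℂ) (KK n)) (deh (gR l (f c)))) := by
    unfold fibreIdeal gK
    congr 2
    funext c
    rw [deh_map]
  rw [h1]
  apply span_ne_top (t₀ := 0) (z₀ := zq)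
  · intro c
    rw [ev_eq, ← deh_map, map_gR]
    exact h0 c
  · have h2 : (fun c s => ev 0 zq (pderiv s (deh (gR l (f c))))) =
        fun c s => eval zq (pderiv s (deh (fib l (tt0 n) (f c)))) := by
      funext c s
      rw [ev_eq, ← pderiv_map, ← deh_map, map_gR]
    rw [h2]
    exact hJ

theorem fibre_points {d : Fin (q + 1) → ℕ}
    {f : Fin (q + 1) → MvPolynomial (Fin (n + 1) ⊕ Fin (q + 1)) ℂ}
    (hf : ∀ c, (f c).IsHomogeneous (d c)) {l : Fin (n + 1) → Fin (q + 1) → ℂ} {m : ℕ}
    (hm : ∏ c, d c + 1 ≤ m) (hdet : (mat d (fun c => fib l (tt0 n) (f c)) m).det ≠ 0)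
    (hI : fibreIdeal l f ≠ ⊤) {k : ℕ} (hk : k ≤ m) (z : Fin k → Fin (q + 1) → ℂ)
    (hz1 : ∀ a, z a (Fin.last q) = 1) (hz0 : ∀ a a', z a 0 = z a' 0 → a = a')
    (hz : ∀ a c, eval (pt l (z a)) (f c) = 0) :
    Module.Finite (KK n) (MvPolynomial (Fin (q + 1)) (KK n) ⧸ fibreIdeal l f) ∧
    Module.finrank (KK n) (MvPolynomial (Fin (q + 1)) (KK n) ⧸ fibreIdeal l f) + k ≤
      ∏ c, d c := by
  let x : Fin k → Option (Fin (q + 1)) → KK n :=
    fun a o => o.elim 0 fun s => algebraMap ℂ (KK n) (z a s)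
  let lam : MvPolynomial (Option (Fin (q + 1))) (KK n) →ₗ[KK n] (Fin k → KK n) :=
    LinearMap.pi fun a => (aeval (x a)).toLinearMap
  have hlam : ∀ u a, lam u a = eval (x a) u := by
    intro u a
    show aeval (x a) u = _
    rw [aeval_eq_eval]
  have hinj : Function.Injective (algebraMap ℂ (KK n)) := (algebraMap ℂ (KK n)).injective
  have hmain := core (K := KK n) (fun c => gK l (f c)) (m := m) (e := 1) (D := ∏ c, d c) hm
    (β := ∀ c, Fin (d c)) (by rw [Fintype.card_pi]; simp)
    (fun x : ∀ c, Fin (d c) => monomial (expo d m x) (1 : KK n))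
    (fun u hu => span_of_det (fun c => gK_isHomogeneous (hf c)) (det_gK hdet) hu)
    lam ?_ ?_ ?_ hI
  · rw [Module.finrank_fin_fun] at hmain
    exact hmain
  · -- the multiples of the forms
    intro v hv
    funext a
    rw [hlam, Pi.zero_apply]
    have h1 : Ideal.span (Set.range fun c => gK l (f c)) ≤ RingHom.ker (eval (x a)) := by
      rw [Ideal.span_le]
      rintro _ ⟨c, rfl⟩
      show eval (x a) (gK l (f c)) = 0
      rw [eval_gK, hz a c, map_zero]
    exact h1 hv
  · intro u _
    funext a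
    rw [hlam, map_mul, map_pow, eval_X]
    simp [x]
  · intro w
    let P : Fin k → MvPolynomial (Option (Fin (q + 1))) (KK n) := fun a =>
      (∏ a' ∈ Finset.univ.erase a, (X (some 0) - C (algebraMap ℂ (KK n) (z a' 0)) *
        X (some (Fin.last q)))) * X (some (Fin.last q)) ^ (m - (k - 1))
    have hP : ∀ a, (P a).IsHomogeneous m := by
      intro a
      have h1 : (∏ a' ∈ Finset.univ.erase a, (X (some 0) - C (algebraMap ℂ (KK n) (z a' 0)) *
          X (some (Fin.last q))) : MvPolynomial (Option (Fin (q + 1))) (KK n)).IsHomogeneous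
          (∑ a' ∈ Finset.univ.erase a, 1) := by
        apply IsHomogeneous.prod
        intro a' _
        exact (isHomogeneous_X _ _).sub (isHomogeneous_C_mul_X _ _)
      have h2 := h1.mul (isHomogeneous_X_pow (R := KK n) (some (Fin.last q)) (m - (k - 1)))
      have h3 : (∑ a' ∈ Finset.univ.erase a, 1) + (m - (k - 1)) = m := by
        rw [Finset.sum_const, Finset.card_erase_of_mem (Finset.mem_univ a)]
        simp only [Finset.card_univ, Fintype.card_fin, smul_eq_mul, mul_one]
        omega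
      rw [h3] at h2
      exact h2
    have hPe : ∀ a a', eval (x a') (P a) = if a' = a then
        ∏ a'' ∈ Finset.univ.erase a, (algebraMap ℂ (KK n) (z a 0) -
          algebraMap ℂ (KK n) (z a'' 0)) else 0 := by
      intro a a'
      simp only [P, map_mul, map_prod, map_sub, eval_X, eval_C, map_pow]
      have h1 : x a' (some (Fin.last q)) = 1 := by
        simp only [x, Option.elim, hz1, map_one]
      have h2 : ∀ b, x b (some 0) = algebraMap ℂ (KK n) (z b 0) := fun b => rfl
      rw [h1, one_pow, mul_one, h2]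
      split_ifs with h
      · subst h
        refine Finset.prod_congr rfl fun a'' _ => ?_
        rw [mul_one]
      · apply Finset.prod_eq_zero (i := a')
        · simp [h]
        · rw [mul_one, sub_self]
    have hne : ∀ a, ∏ a'' ∈ Finset.univ.erase a, (algebraMap ℂ (KK n) (z a 0) -
          algebraMap ℂ (KK n) (z a'' 0)) ≠ 0 := by
      intro a
      apply Finset.prod_ne_zero_iff.2
      intro a'' ha''
      rw [sub_ne_zero]
      intro h
      exact (Finset.ne_of_mem_erase ha'') (hz0 _ _ (hinj h)).symm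
    refine ⟨∑ a, C (w a / ∏ a'' ∈ Finset.univ.erase a, (algebraMap ℂ (KK n) (z a 0) -
          algebraMap ℂ (KK n) (z a'' 0))) * P a, ?_, ?_⟩
    · exact IsHomogeneous.sum _ _ _ fun a _ => (hP a).C_mul _
    · funext a
      rw [hlam, map_sum, Finset.sum_eq_single a]
      · rw [map_mul, eval_C, hPe, if_pos rfl, div_mul_cancel₀ _ (hne a)]
      · intro a' _ ha'
        rw [map_mul, hPe, if_neg (Ne.symm ha'), mul_zero]
      · intro h; exact absurd (Finset.mem_univ a) h

end Pool.Agent.Lib_MP_c7e57a
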