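import Mathlib

/-!
# Piece CI-J: the dimension of the algebra of jets

`K[X_1, ..., X_i] / m^j` is spanned by the monomials of degree less than `j`, of which there are
`(i + j - 1).choose i` (zero if `j = 0`, `i ≥ 1`; in all cases at most this number).
-/

namespace Pool.Agent.Lib_MP_c7e57a

open MvPolynomial

private theorem JetDim_span {K : Type*} [Field K] {ρ : Type*} {I : Ideal (MvPolynomial ρ K)}
    {k : ℕ} (h : (idealOfVars ρ K) ^ (k + 1) ≤ I) :
    Submodule.span K (Set.range (fun s : Sym (Option ρ) k => Ideal.Quotient.mk I
      ((s.1.map (fun o : Option ρ => o.elim (1 : MvPolynomial ρ K) X)).prod))) = ⊤ := by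
  classical
  rw [eq_top_iff]
  rintro q -
  obtain ⟨p, rfl⟩ := Ideal.Quotient.mk_surjective q
  rw [p.as_sum, map_sum]
  refine Submodule.sum_mem _ fun x _ => ?_
  by_cases hx : x.degree ≤ k
  · have e1 : Ideal.Quotient.mk I (monomial x (coeff x p)) =
        (coeff x p) • Ideal.Quotient.mk I (monomial x (1 : K)) := by
      rw [← mul_one (coeff x p), ← smul_eq_mul, ← smul_monomial]
      simp only [smul_eq_mul, mul_one]
      rfl
    rw [e1]
    refine Submodule.smul_mem _ _ (Submodule.subset_span ?_)
    have hc : (Multiset.map some (Finsupp.toMultiset x) +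
        Multiset.replicate (k - x.degree) (none : Option ρ)).card = k := by
      rw [Multiset.card_add, Multiset.card_map, Multiset.card_replicate, Finsupp.card_toMultiset]
      have : (x.sum fun _ => id) = x.degree := rfl
      rw [this]
      omega
    refine ⟨⟨_, hc⟩, ?_⟩
    simp only [Multiset.map_add, Multiset.map_map, Multiset.map_replicate, Multiset.prod_add,
      Multiset.prod_replicate, Option.elim_none, one_pow, mul_one]
    congr 1
    have e2 : ((fun o : Option ρ => o.elim (1 : MvPolynomial ρ K) X) ∘ some) = X := by
      funext r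
      rfl
    rw [e2, Finsupp.toMultiset_map, Finsupp.prod_toMultiset]
    rw [Finsupp.prod_mapDomain_index (fun _ => pow_zero _) (fun _ _ _ => pow_add _ _ _),
      monomial_eq, map_one, one_mul]
  · have : Ideal.Quotient.mk I (monomial x (coeff x p)) = 0 := by
      rw [Ideal.Quotient.eq_zero_iff_mem]
      apply h
      rw [mem_pow_idealOfVars_iff']
      intro y hy
      rw [coeff_monomial, if_neg]
      rintro rfl
      omega
    rw [this]
    exact Submodule.zero_mem _

/-- A quotient of the polynomial ring by an ideal that contains a power of the ideal of the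
variables is finite-dimensional. -/
theorem finite_quot {K : Type*} [Field K] {ρ : Type*} [Finite ρ] {I : Ideal (MvPolynomial ρ K)}
    {S : ℕ} (h : (idealOfVars ρ K) ^ S ≤ I) : Module.Finite K (MvPolynomial ρ K ⧸ I) := by
  classical
  have h1 : (idealOfVars ρ K) ^ (S + 1) ≤ I := (Ideal.pow_le_pow_right (Nat.le_succ S)).trans h
  have := Fintype.ofFinite ρ
  refine ⟨⟨(Set.range (fun s : Sym (Option ρ) S => Ideal.Quotient.mk I
      ((s.1.map (fun o : Option ρ => o.elim (1 : MvPolynomial ρ K) X)).prod))).toFinset, ?_⟩⟩
  rw [Set.coe_toFinset]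
  exact JetDim_span h1

theorem finrank_jet {K : Type*} [Field K] (i j : ℕ) :
    Module.finrank K (MvPolynomial (Fin i) K ⧸ (idealOfVars (Fin i) K) ^ j) ≤
      (i + j - 1).choose i := by
  classical
  rcases j with _ | k
  · have : Subsingleton (MvPolynomial (Fin i) K ⧸ (idealOfVars (Fin i) K) ^ 0) := by
      rw [pow_zero, Ideal.one_eq_top]
      infer_instance
    rw [Module.finrank_zero_of_subsingleton]
    exact Nat.zero_le _
  · refine (finrank_le_of_span_eq_top (JetDim_span (le_refl _))).trans ?_
    rw [Sym.card_sym_eq_choose]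
    simp only [Fintype.card_option, Fintype.card_fin]
    have e : i + 1 + k - 1 = i + k := by omega
    have e' : i + (k + 1) - 1 = i + k := by omega
    rw [e, e', ← Nat.choose_symm (Nat.le_add_left k i), Nat.add_sub_cancel]

end Pool.Agent.Lib_MP_c7e57a
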