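import Mathlib

/-!
# Piece CI-MB: expansions in powers of the given polynomials

The weight of an exponent `w` is `wt w = ∑ x, w x * v x`, with weights `v x ≤ j` of the variables,
`v x ≥ 1`. All monomials of the `G c` have weight at least `j`.

Claim(N): every `f` is `∑_k P_k(G) b_k + o` with `deg P_k ≤ N` where all monomials of `o` have
weight at least `j (N + 1)`. Induction on `N`. By hypothesis `hb` with `M = j (N + 2)`,
`f = ∑ a_k b_k + ∑_c G_c h_c + o'`, and the monomials of `o'` have degree, hence weight, at least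
`j (N + 2)`. For `N = 0` take `P_k = a_k`: the monomials of `G_c h_c` have weight at least `j`.
For `N + 1` write `h_c = ∑_k P_{c,k}(G) b_k + o_c` by Claim(N) and take
`P_k = a_k + ∑_c T_c P_{c,k}`; the monomials of `G_c o_c` have weight at least
`j + j (N + 1) = j (N + 2)`. (The sets `{p | all monomials have weight ≥ k}` are additive
subgroups, and the product of elements of weights `≥ k` and `≥ l` has weight `≥ k + l`.)
-/

namespace Pool.Agent.Lib_MP_c7e57a

open MvPolynomial

/-- Sums of polynomials all of whose monomials have weight at least `k`. -/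
theorem MultB_add {K : Type*} [Field K] {ρ : Type*} [Fintype ρ] (v : ρ → ℕ) {k : ℕ}
    {p q : MvPolynomial ρ K} (hp : ∀ w ∈ p.support, k ≤ ∑ x, w x * v x)
    (hq : ∀ w ∈ q.support, k ≤ ∑ x, w x * v x) :
    ∀ w ∈ (p + q).support, k ≤ ∑ x, w x * v x := by
  classical
  intro w hw
  rcases Finset.mem_union.1 (support_add hw) with h | h
  · exact hp w h
  · exact hq w h

/-- Finite sums of polynomials all of whose monomials have weight at least `k`. -/
theorem MultB_sum {K : Type*} [Field K] {ρ : Type*} [Fintype ρ] (v : ρ → ℕ) {k : ℕ}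
    {ι : Type*} (s : Finset ι) (p : ι → MvPolynomial ρ K)
    (hp : ∀ c ∈ s, ∀ w ∈ (p c).support, k ≤ ∑ x, w x * v x) :
    ∀ w ∈ (∑ c ∈ s, p c).support, k ≤ ∑ x, w x * v x := by
  classical
  intro w hw
  obtain ⟨c, hc, hwc⟩ := Finset.mem_biUnion.1 (support_sum hw)
  exact hp c hc w hwc

/-- Products: the weights add. -/
theorem MultB_mul {K : Type*} [Field K] {ρ : Type*} [Fintype ρ] (v : ρ → ℕ) {k l : ℕ}
    {p q : MvPolynomial ρ K} (hp : ∀ w ∈ p.support, k ≤ ∑ x, w x * v x)
    (hq : ∀ w ∈ q.support, l ≤ ∑ x, w x * v x) :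
    ∀ w ∈ (p * q).support, k + l ≤ ∑ x, w x * v x := by
  classical
  intro w hw
  obtain ⟨a, ha, b, hb, rfl⟩ := Finset.mem_add.1 (support_mul p q hw)
  have h : ∑ x, (a + b) x * v x = ∑ x, a x * v x + ∑ x, b x * v x := by
    rw [← Finset.sum_add_distrib]
    refine Finset.sum_congr rfl fun x _ => ?_
    rw [Finsupp.add_apply, add_mul]
  rw [h]
  exact add_le_add (hp a ha) (hq b hb)

/-- The elements of the `M`-th power of the ideal of the variables have weight at least `M`. -/
theorem MultB_ideal {K : Type*} [Field K] {ρ : Type*} [Fintype ρ] (v : ρ → ℕ)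
    (hv : ∀ x, 1 ≤ v x) {M : ℕ} {p : MvPolynomial ρ K} (hp : p ∈ (idealOfVars ρ K) ^ M) :
    ∀ w ∈ p.support, M ≤ ∑ x, w x * v x := by
  intro w hw
  rw [mem_pow_idealOfVars_iff] at hp
  have h1 : M ≤ w.degree := hp w hw
  refine h1.trans ?_
  rw [Finsupp.degree_eq_sum]
  exact Finset.sum_le_sum fun x _ => Nat.le_mul_of_pos_right _ (hv x)

theorem expansion {K : Type*} [Field K] {ρ : Type*} [Fintype ρ] {ι : Type*} [Fintype ι]
    (v : ρ → ℕ) (hv : ∀ x, 1 ≤ v x) {j : ℕ} (G : ι → MvPolynomial ρ K)
    (hG : ∀ c, ∀ w ∈ (G c).support, j ≤ ∑ x, w x * v x) {δ : ℕ} (b : Fin δ → MvPolynomial ρ K)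
    (hb : ∀ (M : ℕ) (f : MvPolynomial ρ K), ∃ (a : Fin δ → K) (h : ι → MvPolynomial ρ K),
        f - ∑ k, C (a k) * b k - ∑ c, G c * h c ∈ (idealOfVars ρ K) ^ M)
    (N : ℕ) (f : MvPolynomial ρ K) :
    ∃ P : Fin δ → MvPolynomial ι K, (∀ k, (P k).totalDegree ≤ N) ∧
      ∀ w ∈ (f - ∑ k, aeval G (P k) * b k).support, j * (N + 1) ≤ ∑ x, w x * v x := by
  induction N generalizing f with
  | zero =>
    obtain ⟨a, h, hah⟩ := hb (j * (0 + 1)) f
    refine ⟨fun k => C (a k), fun k => by rw [totalDegree_C], ?_⟩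
    have h1 : f - ∑ k, aeval G (C (a k) : MvPolynomial ι K) * b k
        = (f - ∑ k, C (a k) * b k - ∑ c, G c * h c) + ∑ c, G c * h c := by
      rw [sub_add_cancel]
      congr 1
      refine Finset.sum_congr rfl fun k _ => ?_
      rw [aeval_C]
      rfl
    rw [h1]
    refine MultB_add v (MultB_ideal v hv hah) (MultB_sum v _ _ fun c _ => ?_)
    have h4 : j * (0 + 1) = j + 0 := by ring
    rw [h4]
    exact MultB_mul v (hG c) (l := 0) (fun w _ => Nat.zero_le _)
  | succ N ih =>
    obtain ⟨a, h, hah⟩ := hb (j * (N + 1 + 1)) f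
    choose Q hQ hQw using fun c => ih (h c)
    refine ⟨fun k => C (a k) + ∑ c, X c * Q c k, fun k => ?_, ?_⟩
    · refine (totalDegree_add _ _).trans (max_le ?_ ?_)
      · rw [totalDegree_C]
        exact Nat.zero_le _
      · refine totalDegree_finsetSum_le fun c _ => ?_
        refine (totalDegree_mul _ _).trans ?_
        rw [totalDegree_X]
        have := hQ c k
        omega
    · have h1 : f - ∑ k, aeval G (C (a k) + ∑ c, X c * Q c k : MvPolynomial ι K) * b k
          = (f - ∑ k, C (a k) * b k - ∑ c, G c * h c)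
            + ∑ c, G c * (h c - ∑ k, aeval G (Q c k) * b k) := by
        have h2 : ∀ k, aeval G (C (a k) + ∑ c, X c * Q c k : MvPolynomial ι K) * b k
            = C (a k) * b k + ∑ c, G c * (aeval G (Q c k) * b k) := by
          intro k
          rw [map_add, map_sum, aeval_C, add_mul, Finset.sum_mul]
          congr 1
          refine Finset.sum_congr rfl fun c _ => ?_
          rw [map_mul, aeval_X, mul_assoc]
        rw [Finset.sum_congr rfl fun k _ => h2 k, Finset.sum_add_distrib]
        have h3 : ∑ c, G c * (h c - ∑ k, aeval G (Q c k) * b k)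
            = ∑ c, G c * h c - ∑ k, ∑ c, G c * (aeval G (Q c k) * b k) := by
          rw [Finset.sum_comm, ← Finset.sum_sub_distrib]
          refine Finset.sum_congr rfl fun c _ => ?_
          rw [mul_sub, Finset.mul_sum]
        rw [h3]
        ring
      rw [h1]
      refine MultB_add v (MultB_ideal v hv hah) (MultB_sum v _ _ fun c _ => ?_)
      have h4 : j * (N + 1 + 1) = j + j * (N + 1) := by ring
      rw [h4]
      exact MultB_mul v (hG c) (hQw c)

end Pool.Agent.Lib_MP_c7e57a
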