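import Pool.Agent.Lib_MP_c7e57a.MultC

/-!
# Piece CI-MD: counting monomials

`weight_count`: the variables in `s` have weight `1`, the others weight `j`. The number of
exponents of weight `< j (N + #s + 1)` is at least `j^#s hc(N)`: the map that sends
`(r, α)`, `r : s → Fin j`, `degree α ≤ N`, to the exponent with entries `j α_x + r_x` (`x ∈ s`) and
`α_x` (`x ∉ s`) is injective, and the weight of the image is at most
`j N + #s (j - 1) < j (N + #s + 1)`. So a linear surjection from a space of dimension `D` to the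
space of functions on the set of these exponents shows `j^#s hc(N) ≤ D`. (Only finitely many
exponents have weight less than a given number, since all weights are positive.)

`finrank_restrict_le`: the polynomials in the variables `ι` of degree at most `N` form a space of
dimension at most `hc ρ N` if `#ι ≤ #ρ`.
-/

namespace Pool.Agent.Lib_MP_c7e57a

open MvPolynomial

private theorem MultD_finite (ρ : Type*) [Fintype ρ] (N : ℕ) :
    Finite {α : ρ → ℕ // ∑ x, α x ≤ N} := by
  have hle : ∀ (α : {α : ρ → ℕ // ∑ x, α x ≤ N}) (x : ρ), α.1 x < N + 1 := fun α x =>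
    Nat.lt_succ_of_le ((Finset.single_le_sum (fun y _ => Nat.zero_le (α.1 y))
      (Finset.mem_univ x)).trans α.2)
  refine Finite.of_injective
    (fun (α : {α : ρ → ℕ // ∑ x, α x ≤ N}) (x : ρ) => (⟨α.1 x, hle α x⟩ : Fin (N + 1))) ?_
  intro α β h
  apply Subtype.ext
  funext x
  have h1 := congrArg Fin.val (congrFun h x)
  exact h1

/-- the exponent with entries `j α_x + r_x` (`x ∈ s`) and `α_x` (`x ∉ s`) -/
private noncomputable def MultD_phi {ρ : Type*} [Fintype ρ] [DecidableEq ρ] (s : Finset ρ) (j N : ℕ)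
    (a : (s → Fin j) × {α : ρ → ℕ // ∑ x, α x ≤ N}) : ρ →₀ ℕ :=
  Finsupp.equivFunOnFinite.symm fun x =>
    if h : x ∈ s then j * a.2.1 x + (a.1 ⟨x, h⟩ : ℕ) else a.2.1 x

private theorem MultD_phi_inj {ρ : Type*} [Fintype ρ] [DecidableEq ρ] (s : Finset ρ) (j N : ℕ) :
    Function.Injective (MultD_phi s j N) := by
  rintro ⟨r, α⟩ ⟨r', α'⟩ h
  have h1 : ∀ x, (if h : x ∈ s then j * α.1 x + (r ⟨x, h⟩ : ℕ) else α.1 x) =
      if h : x ∈ s then j * α'.1 x + (r' ⟨x, h⟩ : ℕ) else α'.1 x := fun x =>
    DFunLike.congr_fun h x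
  have h2 : ∀ x (hx : x ∈ s), α.1 x = α'.1 x ∧ r ⟨x, hx⟩ = r' ⟨x, hx⟩ := by
    intro x hx
    have h3 := h1 x
    rw [dif_pos hx, dif_pos hx] at h3
    have hr := (r ⟨x, hx⟩).2
    have hr' := (r' ⟨x, hx⟩).2
    have hj : 0 < j := lt_of_le_of_lt (Nat.zero_le _) hr
    have e1 : (j * α.1 x + (r ⟨x, hx⟩ : ℕ)) / j = α.1 x := by
      rw [Nat.mul_add_div hj, Nat.div_eq_of_lt hr, add_zero]
    have e2 : (j * α'.1 x + (r' ⟨x, hx⟩ : ℕ)) / j = α'.1 x := by
      rw [Nat.mul_add_div hj, Nat.div_eq_of_lt hr', add_zero]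
    have e3 : α.1 x = α'.1 x := by
      rw [← e1, ← e2, h3]
    refine ⟨e3, Fin.ext ?_⟩
    rw [e3] at h3
    exact Nat.add_left_cancel h3
  refine Prod.ext ?_ ?_
  · funext x
    exact (h2 x.1 x.2).2
  · apply Subtype.ext
    funext x
    by_cases hx : x ∈ s
    · exact (h2 x hx).1
    · have h3 := h1 x
      rw [dif_neg hx, dif_neg hx] at h3
      exact h3

private theorem MultD_phi_weight {ρ : Type*} [Fintype ρ] [DecidableEq ρ] (s : Finset ρ) {j : ℕ}
    (hj : 1 ≤ j) (N : ℕ) (a : (s → Fin j) × {α : ρ → ℕ // ∑ x, α x ≤ N}) :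
    ∑ x, MultD_phi s j N a x * (if x ∈ s then 1 else j) < j * (N + s.card + 1) := by
  obtain ⟨r, α, hα⟩ := a
  have h1 : ∀ x, MultD_phi s j N (r, ⟨α, hα⟩) x * (if x ∈ s then 1 else j) ≤
      j * α x + (if x ∈ s then j else 0) := by
    intro x
    have e : MultD_phi s j N (r, ⟨α, hα⟩) x =
      if h : x ∈ s then j * α x + (r ⟨x, h⟩ : ℕ) else α x := rfl
    rw [e]
    by_cases hx : x ∈ s
    · rw [dif_pos hx, if_pos hx, if_pos hx, mul_one]
      have := (r ⟨x, hx⟩).2
      omega
    · rw [dif_neg hx, if_neg hx, if_neg hx, add_zero, mul_comm]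
  refine lt_of_le_of_lt (Finset.sum_le_sum fun x _ => h1 x) ?_
  rw [Finset.sum_add_distrib, ← Finset.mul_sum, ← Finset.sum_filter, Finset.sum_const,
    Finset.filter_mem_eq_inter, Finset.univ_inter, smul_eq_mul]
  have h2 : j * ∑ x, α x ≤ j * N := Nat.mul_le_mul_left _ hα
  have h3 : j * (N + s.card + 1) = j * N + s.card * j + j := by ring
  omega

theorem weight_count {K : Type*} [Field K] {ρ : Type*} [Fintype ρ] [DecidableEq ρ] (s : Finset ρ)
    {j : ℕ} (hj : 1 ≤ j) (N : ℕ) {V : Type*} [AddCommGroup V] [Module K V] [Module.Finite K V]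
    (L : V →ₗ[K] ((ρ →₀ ℕ) → K))
    (hL : ∀ f : (ρ →₀ ℕ) → K, ∃ v, ∀ w : ρ →₀ ℕ,
      ∑ x, w x * (if x ∈ s then 1 else j) < j * (N + s.card + 1) → L v w = f w) :
    j ^ s.card * hc ρ N ≤ Module.finrank K V := by
  classical
  have hfin := MultD_finite ρ N
  have hft : Fintype {α : ρ → ℕ // ∑ x, α x ≤ N} := Fintype.ofFinite _
  let R : V →ₗ[K] (((s → Fin j) × {α : ρ → ℕ // ∑ x, α x ≤ N}) → K) :=
    { toFun := fun v a => L v (MultD_phi s j N a)
      map_add' := fun v v' => by
        funext a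
        simp only [map_add, Pi.add_apply]
      map_smul' := fun c v => by
        funext a
        simp only [map_smul, Pi.smul_apply, RingHom.id_apply] }
  have hR : Function.Surjective R := by
    intro f
    obtain ⟨v, hv⟩ := hL (Function.extend (MultD_phi s j N) f 0)
    refine ⟨v, ?_⟩
    funext a
    have h1 := hv _ (MultD_phi_weight s hj N a)
    rw [(MultD_phi_inj s j N).extend_apply] at h1
    exact h1
  have h2 := LinearMap.finrank_le_finrank_of_surjective hR
  rw [Module.finrank_fintype_fun_eq_card, Fintype.card_prod, Fintype.card_fun, Fintype.card_fin,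
    Fintype.card_coe] at h2
  have h3 : hc ρ N = Fintype.card {α : ρ → ℕ // ∑ x, α x ≤ N} := by
    unfold hc
    rw [Nat.card_eq_fintype_card]
  rw [h3]
  exact h2

theorem finrank_restrict_le {K : Type*} [Field K] {ρ ι : Type*} [Fintype ρ] [Fintype ι]
    (h : Fintype.card ι ≤ Fintype.card ρ) (N : ℕ) :
    Module.Finite K (restrictTotalDegree ι K N) ∧
      Module.finrank K (restrictTotalDegree ι K N) ≤ hc ρ N := by
  classical
  obtain ⟨e⟩ : Nonempty (ι ↪ ρ) := Function.Embedding.nonempty_of_card_le h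
  set S : Set (ι →₀ ℕ) := {n | (n.sum fun _ e => e) ≤ N} with hS
  have hfin := MultD_finite ρ N
  have hsum : ∀ w : ι →₀ ℕ, ∑ y, Function.extend e w 0 y = w.sum fun _ e => e := by
    intro w
    rw [Finsupp.sum_fintype _ _ (fun _ => rfl)]
    have h1 : ∑ y, Function.extend e w 0 y = ∑ y ∈ Finset.univ.map e, Function.extend e w 0 y := by
      refine (Finset.sum_subset (Finset.subset_univ _) ?_).symm
      intro y _ hy
      rw [Function.extend_apply']
      · rfl
      · rintro ⟨x, hx⟩
        exact hy (Finset.mem_map.2 ⟨x, Finset.mem_univ x, hx⟩)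
    rw [h1, Finset.sum_map]
    exact Finset.sum_congr rfl fun x _ => e.injective.extend_apply _ _ _
  let F : S → {α : ρ → ℕ // ∑ x, α x ≤ N} := fun w =>
    ⟨Function.extend e w.1 0, by
      rw [hsum]
      exact w.2⟩
  have hF : Function.Injective F := by
    intro w w' hw
    apply Subtype.ext
    ext x
    have h1 := congrFun (congrArg Subtype.val hw) (e x)
    have h2 : Function.extend e w.1 0 (e x) = w.1 x := e.injective.extend_apply _ _ _
    have h3 : Function.extend e w'.1 0 (e x) = w'.1 x := e.injective.extend_apply _ _ _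
    rw [← h2, ← h3]
    exact h1
  have hSf : Finite S := Finite.of_injective F hF
  have b : Module.Basis S K (restrictTotalDegree ι K N) := basisRestrictSupport K S
  refine ⟨Module.Finite.of_basis b, ?_⟩
  rw [Module.finrank_eq_nat_card_basis b]
  exact Nat.card_le_card_of_injective F hF

end Pool.Agent.Lib_MP_c7e57a
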