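import Pool.Agent.Lib_MP_c7e57a.MultA
import Pool.Agent.Lib_MP_c7e57a.MultB
import Pool.Agent.Lib_MP_c7e57a.MultD

/-!
# A lower bound for intersection multiplicities

Give the variables of `s` weight `1` and the other variables weight `j`. If all monomials of the
polynomials `G c` have weight at least `j` (and there are at most as many `G c` as variables), then
the local algebra has dimension at least `j ^ #s`.
-/

namespace Pool.Agent.Lib_MP_c7e57a

open MvPolynomial

theorem mult_bound {K : Type*} [Field K] {ρ : Type*} [Fintype ρ] [DecidableEq ρ]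
    {ι : Type*} [Fintype ι] (hcard : Fintype.card ι ≤ Fintype.card ρ) (s : Finset ρ) {j : ℕ}
    (hj : 1 ≤ j) (G : ι → MvPolynomial ρ K)
    (hG : ∀ c, ∀ w ∈ (G c).support, j ≤ ∑ x, w x * (if x ∈ s then 1 else j)) {S : ℕ}
    (hS : j ^ s.card ≤ S) :
    j ^ s.card ≤ Module.finrank K
      (MvPolynomial ρ K ⧸ (Ideal.span (Set.range G) ⊔ (idealOfVars ρ K) ^ S)) := by
  by_contra hcon
  push Not at hcon
  set δ := Module.finrank K
      (MvPolynomial ρ K ⧸ (Ideal.span (Set.range G) ⊔ (idealOfVars ρ K) ^ S)) with hδ
  obtain ⟨b, hb⟩ := exists_generators G (S := S) hδ.symm (hcon.trans_le hS)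
  have hexp := expansion (fun x => if x ∈ s then 1 else j)
    (fun x => by show 1 ≤ if x ∈ s then 1 else j; split_ifs <;> omega) G hG b hb
  have hfin : ∀ N, Module.Finite K (restrictTotalDegree ι K N) := fun N =>
    (finrank_restrict_le (K := K) hcard N).1
  apply absurd (hc_growth ρ (μ := j ^ s.card) (δ := δ) (i := s.card) ?_) (not_le.2 hcon)
  intro N
  have hfin' := hfin (N + s.card)
  let L : (Fin δ → restrictTotalDegree ι K (N + s.card)) →ₗ[K] ((ρ →₀ ℕ) → K) :=
    { toFun := fun P w => coeff w (∑ k, aeval G (P k : MvPolynomial ι K) * b k)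
      map_add' := fun P P' => by
        funext w
        simp only [Pi.add_apply, Submodule.coe_add, map_add, add_mul, Finset.sum_add_distrib,
          coeff_add]
      map_smul' := fun r P => by
        funext w
        simp only [Pi.smul_apply, Submodule.coe_smul, map_smul, smul_mul_assoc,
          ← Finset.smul_sum, coeff_smul, RingHom.id_apply] }
  have h1 := weight_count (K := K) s hj N L ?_
  · refine h1.trans ?_
    rw [Module.finrank_pi_fintype, Finset.sum_const, Finset.card_univ, Fintype.card_fin,
      smul_eq_mul]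
    exact Nat.mul_le_mul_left _ (finrank_restrict_le (K := K) hcard _).2
  · intro f
    have hfw : {w : ρ →₀ ℕ | ∑ x, w x * (if x ∈ s then 1 else j) < j * (N + s.card + 1)}.Finite := by
      apply (Finsupp.finite_of_degree_le (j * (N + s.card + 1))).subset
      intro w hw
      have hw' : ∑ x, w x * (if x ∈ s then 1 else j) < j * (N + s.card + 1) := hw
      show w.degree ≤ _
      rw [Finsupp.degree_eq_sum]
      refine le_trans (Finset.sum_le_sum fun x _ => ?_) hw'.le
      apply Nat.le_mul_of_pos_right
      split_ifs <;> omega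
    let F : MvPolynomial ρ K := ∑ w ∈ hfw.toFinset, monomial w (f w)
    obtain ⟨P, hP, hPw⟩ := hexp (N + s.card) F
    refine ⟨fun k => ⟨P k, (mem_restrictTotalDegree _ _ _).2 (hP k)⟩, fun w hw => ?_⟩
    have h2 : coeff w (F - ∑ k, aeval G (P k) * b k) = 0 := by
      by_contra hne
      have := hPw w (mem_support_iff.2 hne)
      omega
    rw [coeff_sub, sub_eq_zero] at h2
    show coeff w (∑ k, aeval G (P k) * b k) = f w
    rw [← h2]
    simp only [F, coeff_sum, coeff_monomial]
    rw [Finset.sum_eq_single w]
    · simp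
    · intro w' _ hne
      rw [if_neg hne]
    · intro hnot
      exact absurd (hfw.mem_toFinset.2 hw) hnot

end Pool.Agent.Lib_MP_c7e57a
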