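import Pool.Agent.Lib_MP_c7e57a.Core2
import Pool.Agent.Lib_MP_c7e57a.Fat1
import Pool.Agent.Lib_MP_c7e57a.Fibre
import Pool.Agent.Lib_MP_c7e57a.JetDim
import Pool.Agent.Lib_MP_c7e57a.Mult

/-!
# The degree of the generic fibre in the presence of fat points
-/

namespace Pool.Agent.Lib_MP_c7e57a

open MvPolynomial

variable {n q : ℕ}

variable {K : Type*} [Field K]

/-- The local coordinates at a fat point. -/
noncomputable def locHom {q i : ℕ} (hiq : i ≤ q)
    (γ : Fin (q + 1) → MvPolynomial (Fin i) K) :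
    MvPolynomial (Option (Fin (q + 1))) K →ₐ[K] MvPolynomial (Fin (q + 1)) K :=
  aeval (fun o => o.elim (X (Fin.last q)) fun s =>
    rename (emb hiq) (γ s) + if i ≤ s.val ∧ s ≠ Fin.last q then X s else 0)

section

variable {i : ℕ} (hiq : i ≤ q) (γ : Fin (q + 1) → MvPolynomial (Fin i) K)

theorem locHom_none : locHom hiq γ (X none) = X (Fin.last q) := by
  unfold locHom
  rw [aeval_X]
  rfl

theorem locHom_some (s : Fin (q + 1)) : locHom hiq γ (X (some s)) =
    rename (emb hiq) (γ s) + if i ≤ s.val ∧ s ≠ Fin.last q then X s else 0 := by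
  unfold locHom
  rw [aeval_X]
  rfl

theorem res_locHom (P : MvPolynomial (Option (Fin (q + 1))) K) :
    res K q i (locHom hiq γ P) =
      aeval (fun o : Option (Fin (q + 1)) => o.elim (0 : MvPolynomial (Fin i) K) γ) P := by
  have hres : ∀ s : Fin (q + 1), res K q i (X s) =
      if h : s.val < i then X ⟨s.val, h⟩ else 0 := by
    intro s
    unfold res
    rw [aeval_X]
  induction P using MvPolynomial.induction_on with
  | C a => rw [algHom_C, AlgHom.commutes, algHom_C]
  | add p q hp hq => rw [map_add, map_add, map_add, hp, hq]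
  | mul_X p s hp =>
    rw [map_mul, map_mul, map_mul, hp, aeval_X]
    refine congrArg₂ (· * ·) rfl ?_
    rcases s with _ | s
    · rw [locHom_none, hres, dif_neg]
      · rfl
      · simp only [Fin.val_last]; omega
    · rw [locHom_some, map_add, res_rename hiq]
      simp only [Option.elim]
      split_ifs with h
      · rw [hres, dif_neg (by omega), add_zero]
      · rw [map_zero, add_zero]

end

theorem locHom_surjective {i : ℕ} (hiq : i ≤ q) {γ : Fin (q + 1) → MvPolynomial (Fin i) K}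
    {p : Fin i → K} (hγ : ∀ s, γ (emb hiq s) = C (p s) + X s) :
    Function.Surjective (locHom hiq γ) := by
  have h1 : (⊤ : Subalgebra K (MvPolynomial (Fin (q + 1)) K)) ≤
      (locHom hiq γ).range := by
    rw [← adjoin_range_X, Algebra.adjoin_le_iff]
    have hlow : ∀ s : Fin i, (X (emb hiq s) : MvPolynomial (Fin (q + 1)) K) ∈
        (locHom hiq γ).range := by
      intro s
      refine ⟨X (some (emb hiq s)) - C (p s), ?_⟩
      show locHom hiq γ (X (some (emb hiq s)) - C (p s)) = X (emb hiq s)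
      rw [map_sub, locHom_some, algHom_C, if_neg (by simp [emb]), add_zero, hγ,
        map_add, rename_C, rename_X, MvPolynomial.algebraMap_eq]
      ring
    rintro _ ⟨s, rfl⟩
    by_cases h1 : s.val < i
    · exact hlow ⟨s.val, h1⟩
    · by_cases h2 : s = Fin.last q
      · subst h2
        exact ⟨X none, locHom_none hiq γ⟩
      · have h3 : rename (emb hiq) (γ s) ∈ (locHom hiq γ).range := by
          have h4 : ∀ P : MvPolynomial (Fin i) K, rename (emb hiq) P ∈
              (locHom hiq γ).range := by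
            intro P
            induction P using MvPolynomial.induction_on with
            | C a =>
              rw [rename_C]
              exact ⟨C a, algHom_C _ _⟩
            | add p q hp hq => rw [map_add]; exact add_mem hp hq
            | mul_X p s hp =>
              rw [map_mul, rename_X]
              exact mul_mem hp (hlow s)
          exact h4 _
        have h4 : (X s : MvPolynomial (Fin (q + 1)) K) = locHom hiq γ (X (some s)) -
            rename (emb hiq) (γ s) := by
          rw [locHom_some, if_pos ⟨by omega, h2⟩]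
          ring
        rw [h4]
        exact sub_mem ⟨_, rfl⟩ h3
  intro P
  exact h1 (show P ∈ (⊤ : Subalgebra K _) from trivial)

theorem surj_pi {P : Type*} [CommRing P] {α : Type*} [Finite α] {Q : α → Type*}
    [∀ a, CommRing (Q a)] (lam : ∀ a, P →+* Q a) (hs : ∀ a, Function.Surjective (lam a))
    (h : ∀ a a', a ≠ a' → IsCoprime (RingHom.ker (lam a)) (RingHom.ker (lam a'))) :
    Function.Surjective (fun x a => lam a x) := by
  intro y
  choose z hz using fun a => hs a (y a)
  obtain ⟨x, hx⟩ := Ideal.exists_forall_sub_mem_ideal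
    (I := fun a => RingHom.ker (lam a)) (fun a a' haa' => h a a' haa') z
  refine ⟨x, funext fun a => ?_⟩
  have h1 : lam a (x - z a) = 0 := hx a
  rw [map_sub, sub_eq_zero] at h1
  show lam a x = y a
  rw [h1, hz]

theorem coprime_ker {P : Type*} [CommRing P] {Q Q' : Type*} [CommRing Q] [CommRing Q']
    {lam : P →+* Q} {lam' : P →+* Q'} {x x' : P} {S : ℕ} (hx : lam x ^ S = 0)
    (hx' : lam' x' ^ S = 0) (hu : IsUnit (x - x')) :
    IsCoprime (RingHom.ker lam) (RingHom.ker lam') := by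
  have h1 : IsCoprime x x' := by
    obtain ⟨u, hu⟩ := hu
    refine ⟨↑u⁻¹, -↑u⁻¹, ?_⟩
    have h2 : (↑u⁻¹ : P) * x + -↑u⁻¹ * x' = ↑u⁻¹ * (x - x') := by ring
    rw [h2, ← hu, Units.inv_mul]
  obtain ⟨a, b, hab⟩ := h1.pow (m := S) (n := S)
  rw [Ideal.isCoprime_iff_exists]
  refine ⟨a * x ^ S, ?_, b * x' ^ S, ?_, hab⟩
  · rw [RingHom.mem_ker, map_mul, map_pow, hx, mul_zero]
  · rw [RingHom.mem_ker, map_mul, map_pow, hx', mul_zero]

theorem fat_core {d : Fin (q + 1) → ℕ} {F : Fin (q + 1) → MvPolynomial (Option (Fin (q + 1))) K}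
    (hF : ∀ c, (F c).IsHomogeneous (d c)) {m S : ℕ}
    (hm : ∏ c, d c + S ≤ m) (hdet : (mat d F m).det ≠ 0)
    (hI : Ideal.span (Set.range fun c => deh (F c)) ≠ ⊤) {i : ℕ} (hi : 1 ≤ i) (hiq : i ≤ q)
    {α : Type*} [Fintype α] (j : α → ℕ) (hj : ∀ a, 1 ≤ j a) (hjS : ∀ a, j a ^ i ≤ S)
    (γ : α → Fin (q + 1) → MvPolynomial (Fin i) K) (p : α → Fin i → K)
    (hlast : ∀ a, γ a (Fin.last q) = 1) (hγ : ∀ a s, γ a (emb hiq s) = C (p a s) + X s)
    (hp : ∀ a a', p a ⟨0, hi⟩ = p a' ⟨0, hi⟩ → a = a')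
    (hz : ∀ a c, aeval (fun o : Option (Fin (q + 1)) => o.elim (0 : MvPolynomial (Fin i) K) (γ a))
      (F c) ∈ (idealOfVars (Fin i) K) ^ (j a)) :
    Module.Finite K (MvPolynomial (Fin (q + 1)) K ⧸
      Ideal.span (Set.range fun c => deh (F c))) ∧
    Module.finrank K (MvPolynomial (Fin (q + 1)) K ⧸
      Ideal.span (Set.range fun c => deh (F c))) + ∑ a, j a ^ i ≤ ∏ c, d c := by
  classical
  let J : α → Ideal (MvPolynomial (Fin (q + 1)) K) := fun a =>
    Ideal.span (Set.range fun c => locHom hiq (γ a) (F c)) ⊔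
      (idealOfVars (Fin (q + 1)) K) ^ S
  have hfin : ∀ a, Module.Finite K (MvPolynomial (Fin (q + 1)) K ⧸ J a) := fun a =>
    finite_quot (S := S) le_sup_right
  have hge : ∀ a, j a ^ i ≤ Module.finrank K (MvPolynomial (Fin (q + 1)) K ⧸ J a) := by
    intro a
    have h1 := mult_bound (K := K) (ρ := Fin (q + 1)) (ι := Fin (q + 1)) le_rfl
      (Finset.univ.filter fun x : Fin (q + 1) => x.val < i) (hj a)
      (fun c => locHom hiq (γ a) (F c)) (fun c w hw => by
        refine weight_of_res hiq ?_ w hw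
        rw [res_locHom]
        exact hz a c) (S := S) (by rw [card_low hiq]; exact hjS a)
    rwa [card_low hiq] at h1
  let lamr : ∀ a, MvPolynomial (Option (Fin (q + 1))) K →ₐ[K]
      (MvPolynomial (Fin (q + 1)) K ⧸ J a) := fun a =>
    (Ideal.Quotient.mkₐ K (J a)).comp (locHom hiq (γ a))
  have hlamr : ∀ a x, lamr a x = Ideal.Quotient.mk (J a) (locHom hiq (γ a) x) :=
    fun a x => rfl
  let lam : MvPolynomial (Option (Fin (q + 1))) K →ₐ[K]
      (∀ a, MvPolynomial (Fin (q + 1)) K ⧸ J a) := AlgHom.pi lamr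
  have hlam : ∀ x a, lam x a = lamr a x := fun x a => rfl
  have hnil : ∀ a, ∀ s : Fin (q + 1), (Ideal.Quotient.mk (J a) (X s)) ^ S = 0 := by
    intro a s
    rw [← map_pow, Ideal.Quotient.eq_zero_iff_mem]
    exact (le_sup_right : (idealOfVars (Fin (q + 1)) K) ^ S ≤ J a)
      (Ideal.pow_mem_pow (Ideal.subset_span (Set.mem_range_self s)) S)
  have hsurj : Function.Surjective lam := by
    refine surj_pi (Q := fun a => MvPolynomial (Fin (q + 1)) K ⧸ J a)
      (fun a => (lamr a).toRingHom) ?_ ?_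
    · intro a y
      obtain ⟨P, rfl⟩ := Ideal.Quotient.mk_surjective y
      obtain ⟨P', hP'⟩ := locHom_surjective hiq (hγ a) P
      exact ⟨P', by rw [← hP']; rfl⟩
    · intro a a' haa'
      have hval : ∀ a, lamr a (X (some (emb hiq ⟨0, hi⟩)) - C (p a ⟨0, hi⟩)) =
          Ideal.Quotient.mk (J a) (X (emb hiq ⟨0, hi⟩)) := by
        intro a
        rw [hlamr, map_sub, locHom_some, algHom_C, if_neg (by simp only [emb]; omega), add_zero, hγ,
          map_add, rename_C, rename_X, MvPolynomial.algebraMap_eq]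
        congr 1
        ring
      apply coprime_ker (x := X (some (emb hiq ⟨0, hi⟩)) - C (p a ⟨0, hi⟩))
        (x' := X (some (emb hiq ⟨0, hi⟩)) - C (p a' ⟨0, hi⟩)) (S := S)
      · have h1 := hval a
        show lamr a _ ^ S = 0
        rw [h1, hnil]
      · have h1 := hval a'
        show lamr a' _ ^ S = 0
        rw [h1, hnil]
      · have h1 : (X (some (emb hiq ⟨0, hi⟩)) - C (p a ⟨0, hi⟩)) -
            (X (some (emb hiq ⟨0, hi⟩)) - C (p a' ⟨0, hi⟩)) =
            (C (p a' ⟨0, hi⟩ - p a ⟨0, hi⟩) : MvPolynomial (Option (Fin (q + 1))) K) := by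
          rw [map_sub]
          ring
        rw [h1]
        refine IsUnit.map C (isUnit_iff_ne_zero.2 ?_)
        intro h3
        exact haa' (hp a a' (sub_eq_zero.1 h3).symm)
  have hmain := core_alg (K := K) F (m := m) (e := S) (D := ∏ c, d c) hm
    (β := ∀ c, Fin (d c)) (by rw [Fintype.card_pi]; simp)
    (fun x : ∀ c, Fin (d c) => monomial (expo d m x) (1 : K))
    (fun u hu => span_of_det hF hdet hu)
    (Q := ∀ a, MvPolynomial (Fin (q + 1)) K ⧸ J a)
    lam hsurj (o := Fin.last q) ?_ ?_ ?_ hI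
  · refine ⟨hmain.1, ?_⟩
    have h1 := hmain.2
    have h2 : Module.finrank K (∀ a, MvPolynomial (Fin (q + 1)) K ⧸ J a) =
        ∑ a, Module.finrank K (MvPolynomial (Fin (q + 1)) K ⧸ J a) :=
      Module.finrank_pi_fintype K
    rw [h2] at h1
    exact le_trans (Nat.add_le_add_left (Finset.sum_le_sum fun a _ => hge a) _) h1
  · funext a
    rw [hlam, hlamr, locHom_some, hlast, if_neg (by simp), add_zero, map_one, map_one]
    rfl
  · intro c
    funext a
    rw [hlam, hlamr]
    apply Ideal.Quotient.eq_zero_iff_mem.2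
    exact (le_sup_left : _ ≤ J a) (Ideal.subset_span ⟨c, rfl⟩)
  · funext a
    rw [Pi.pow_apply, hlam, hlamr, locHom_none, hnil]
    rfl

theorem fibre_fat {d : Fin (q + 1) → ℕ}
    {f : Fin (q + 1) → MvPolynomial (Vars n q) ℂ}
    (hf : ∀ c, (f c).IsHomogeneous (d c)) {l : Fin (n + 1) → Fin (q + 1) → ℂ} {m S : ℕ}
    (hm : ∏ c, d c + S ≤ m) (hdet : (mat d (fun c => fib l (tt0 n) (f c)) m).det ≠ 0)
    (hI : fibreIdeal l f ≠ ⊤) {i : ℕ} (hi : 1 ≤ i) (hiq : i ≤ q) {α : Type*} [Fintype α]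
    (j : α → ℕ) (hj : ∀ a, 1 ≤ j a) (hjS : ∀ a, j a ^ i ≤ S)
    (γ : α → Fin (q + 1) → MvPolynomial (Fin i) ℂ) (p : α → Fin i → ℂ)
    (hlast : ∀ a, γ a (Fin.last q) = 1) (hγ : ∀ a s, γ a (emb hiq s) = C (p a s) + X s)
    (hp : ∀ a a', p a ⟨0, hi⟩ = p a' ⟨0, hi⟩ → a = a')
    (hz : ∀ a c, aeval (ptA l (γ a)) (f c) ∈ (idealOfVars (Fin i) ℂ) ^ (j a)) :
    Module.Finite (KK n) (MvPolynomial (Fin (q + 1)) (KK n) ⧸ fibreIdeal l f) ∧
    Module.finrank (KK n) (MvPolynomial (Fin (q + 1)) (KK n) ⧸ fibreIdeal l f) +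
      ∑ a, j a ^ i ≤ ∏ c, d c := by
  refine fat_core (K := KK n) (F := fun c => gK l (f c)) (fun c => gK_isHomogeneous (hf c)) hm
    (det_gK hdet) hI hi hiq j hj hjS (fun a s => map (algebraMap ℂ (KK n)) (γ a s))
    (fun a s => algebraMap ℂ (KK n) (p a s)) ?_ ?_ ?_ ?_
  · intro a
    rw [hlast, map_one]
  · intro a s
    rw [hγ, map_add, map_C, map_X]
  · intro a a' h
    exact hp a a' ((algebraMap ℂ (KK n)).injective h)
  · intro a c
    have h1 := aeval_gK l (γ a) (f c)
    have h2 : ∀ P ∈ (idealOfVars (Fin i) ℂ) ^ (j a),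
        map (algebraMap ℂ (KK n)) P ∈ (idealOfVars (Fin i) (KK n)) ^ (j a) := by
      intro P hP
      rw [mem_pow_idealOfVars_iff'] at hP ⊢
      intro x hx
      rw [coeff_map, hP x hx, map_zero]
    have h3 := h2 _ (hz a c)
    rw [← h1] at h3
    exact h3

end Pool.Agent.Lib_MP_c7e57a
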