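import Pool.Agent.Lib_MP_c7e57a.Prime
import Pool.Agent.Lib_MP_c7e57a.Transport

/-!
# From a special complete intersection to all complete intersections with independent coefficients
-/

namespace Pool.Agent.Lib_MP_c7e57a

open MvPolynomial Topology

theorem bound_of_special {n q i : ℕ} {hi : 1 ≤ i} {hiq : i ≤ q} {α : Type} [Fintype α]
    {j : α → ℕ} (hj : ∀ a, 1 ≤ j a) {d₀ : ℕ}
    (h : ∀ d : Fin (q + 1) → ℕ, (∀ c, d₀ ≤ d c) → ∀ m : ℕ,
      ∃ φ₀ : (Σ c, Mon (Vars (n + 1) q) (d c)) → ℂ, ∀ᶠ φ' in 𝓝 φ₀,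
        Good hi hiq j m d (poly d φ'))
    {d : Fin (q + 1) → ℕ} (hd : ∀ c, max d₀ 2 ≤ d c)
    {f : Fin (q + 1) → MvPolynomial (Fin (n + 1 + (q + 1) + 1)) ℂ}
    (hf : IndependentForms d f) :
    ∃ _ : (Ideal.span (Set.range f)).IsPrime,
      0 < irr (n + 1) (Ideal.span (Set.range f)) ∧
      irr (n + 1) (Ideal.span (Set.range f)) + ∑ a, j a ^ i ≤ ∏ c, d c := by
  classical
  obtain ⟨hf, hind⟩ := hf
  let e : Vars (n + 1) q ≃ Fin (n + 1 + (q + 1) + 1) := finSumFinEquiv.trans (finCongr (by omega))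
  let f' : Fin (q + 1) → MvPolynomial (Vars (n + 1) q) ℂ := fun c => rename e.symm (f c)
  have hf' : ∀ c, (f' c).IsHomogeneous (d c) := fun c => (hf c).rename_isHomogeneous
  have hind' : AlgebraicIndependent ℚ
      (fun x : Σ c, Mon (Vars (n + 1) q) (d c) => coeff x.2.1 (f' x.1)) := by
    let ψ : (Σ c, Mon (Vars (n + 1) q) (d c)) →
        Σ c, {w : Fin (n + 1 + (q + 1) + 1) →₀ ℕ // w.degree = d c} := fun x =>
      ⟨x.1, ⟨x.2.1.mapDomain e, by rw [Finsupp.degree_mapDomain]; exact x.2.2⟩⟩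
    have hψ : Function.Injective ψ := by
      rintro ⟨c, ⟨w, hw⟩⟩ ⟨c', ⟨w', hw'⟩⟩ h
      obtain rfl : c = c' := congrArg Sigma.fst h
      have h1 : w.mapDomain e = w'.mapDomain e := by
        have h2 := eq_of_heq (Sigma.mk.inj h).2
        exact congrArg Subtype.val h2
      have h2 : w = w' := Finsupp.mapDomain_injective e.injective h1
      subst h2
      rfl
    have h1 := hind.comp ψ hψ
    have h2 : (fun x : Σ c, {w : Fin (n + 1 + (q + 1) + 1) →₀ ℕ // w.degree = d c} =>
        coeff x.2.1 (f x.1)) ∘ ψ = fun x => coeff x.2.1 (f' x.1) := by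
      funext x
      show coeff (x.2.1.mapDomain e) (f x.1) = coeff x.2.1 (rename e.symm (f x.1))
      have h3 : (x.2.1.mapDomain e).mapDomain e.symm = x.2.1 := by
        rw [← Finsupp.mapDomain_comp, e.symm_comp_self, Finsupp.mapDomain_id]
      conv_rhs => rw [← h3]
      rw [coeff_rename_mapDomain _ e.symm.injective]
    rwa [h2] at h1
  obtain ⟨φ₀, hφ₀⟩ := h d (fun c => le_trans (le_max_left _ _) (hd c))
    (∏ c, d c + ∑ a, j a ^ i)
  have hgood : Good hi hiq j (∏ c, d c + ∑ a, j a ^ i) d f' :=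
    good_of_independent hφ₀ hf' hind'
  have hfe : (fun c => rename e (f' c)) = f := by
    funext c
    show rename e (rename e.symm (f c)) = f c
    rw [rename_rename, e.self_comp_symm, rename_id_apply]
  have hI : (Ideal.span (Set.range f)).IsPrime := by
    have h1 : (Ideal.span (Set.range f')).IsPrime :=
      prime_of_independent (fun c => le_trans (le_max_right _ _) (hd c)) hf' hind'
    have h2 := Ideal.map_isPrime_of_equiv (renameEquiv ℂ e) (I := Ideal.span (Set.range f'))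
    rw [Ideal.map_span, ← Set.range_comp] at h2
    have h3 : ⇑(renameEquiv ℂ e) ∘ f' = f := hfe
    rwa [h3] at h2
  exact ⟨hI, good_bound hj le_rfl hf' hgood e (Ideal.span (Set.range f)) (by rw [hfe])⟩

end Pool.Agent.Lib_MP_c7e57a
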