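import Pool.Agent.Lib_MP_c7e57a.Aff

/-!
# Piece CI-X1: the forms of the special complete intersection

Let `lead c` be the variable `z_c` (that is `X (Sum.inr (Fin.castSucc c'))`) for
`c = Fin.castSucc c'` and `y_0` (that is `X (Sum.inl 0)`) for the last `c`, and
`v c = aff c - (dehz (lead c)) ^ d c`. Then `v c` has total degree at most `d c - 1`: for
`c = castSucc c'` it is `(τ c' - X ^ d c)(z_c') - V c' + ∑_b y_b χ_{c,b}(z_0)` and
`τ c' - X ^ d c` has degree less than `d c` (monic of degree `d c`), the degree of `V c'` is less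
than `d c` and `y_b χ_{c,b}(z_0)` has degree at most `1 + natDegree (χ c b) ≤ d c - 1`. (Lemma: the
total degree of `Polynomial.aeval (X x) P` is at most `P.natDegree`.) By `exists_homogz` there is a
homogeneous `u c` of degree `d c - 1` with `dehz (u c) = v c`; take
`f c = lead c ^ d c + X (Sum.inr (Fin.last q)) * u c`. Finally `fib 0 (tt0 n)` sends `lead c` to
`X (var c)` and `X (Sum.inr (Fin.last q))` to `X (some (Fin.last q))` (see `fib`, `tt0` in
Fam.lean, `var_last`, `var_castSucc` in Rank.lean).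
-/

namespace Pool.Agent.Lib_MP_c7e57a

open MvPolynomial

variable {n q i : ℕ}

/-- The degree of an evaluation of a polynomial in one variable at a variable. -/
theorem Forms_totalDegree_aeval {σ : Type*} (x : σ) (P : Polynomial ℂ) :
    (Polynomial.aeval (X x : MvPolynomial σ ℂ) P).totalDegree ≤ P.natDegree := by
  rw [Polynomial.aeval_eq_sum_range]
  refine (totalDegree_finsetSum_le ?_)
  intro k hk
  refine (totalDegree_smul_le _ _).trans ?_
  rw [totalDegree_X_pow]
  have := Finset.mem_range.1 hk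
  omega

theorem Forms_natDegree_sub {P : Polynomial ℂ} {k : ℕ} (hk : 2 ≤ k) (h1 : P.Monic)
    (h2 : P.natDegree = k) : (P - Polynomial.X ^ k).natDegree ≤ k - 1 := by
  by_cases h0 : P - Polynomial.X ^ k = 0
  · rw [h0, Polynomial.natDegree_zero]
    omega
  · have h3 : (P - Polynomial.X ^ k).degree < P.degree := by
      apply Polynomial.degree_sub_lt_left
      · rw [Polynomial.degree_X_pow, Polynomial.degree_eq_natDegree h1.ne_zero, h2]
      · exact h1.ne_zero
      · rw [h1.leadingCoeff, (Polynomial.monic_X_pow k).leadingCoeff]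
    have h4 := Polynomial.natDegree_lt_natDegree h0 h3
    omega

theorem Forms_sum {k : ℕ} (x : Fin (n + 1) ⊕ Fin q) {χ : Fin (n + 1) → Polynomial ℂ}
    (hχ : ∀ b, (χ b).natDegree + 1 < k) :
    (∑ b, X (Sum.inl b) * Polynomial.aeval (X x : MvPolynomial (Fin (n + 1) ⊕ Fin q) ℂ)
      (χ b)).totalDegree ≤ k - 1 := by
  refine (totalDegree_finsetSum_le ?_)
  intro b _
  refine (totalDegree_mul _ _).trans ?_
  have h1 := Forms_totalDegree_aeval x (χ b)
  have h2 := hχ b
  rw [totalDegree_X]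
  omega

theorem Forms_one {k : ℕ} (hk : 2 ≤ k) (s : Vars n q) (t : Fin (n + 1) ⊕ Fin q)
    (o : Option (Fin (q + 1))) {A : MvPolynomial (Fin (n + 1) ⊕ Fin q) ℂ}
    (hs : dehz (X s) = X t) (ho : fib 0 (tt0 n) (X s) = X o)
    (hA : (A - X t ^ k).totalDegree ≤ k - 1) :
    ∃ f : MvPolynomial (Vars n q) ℂ, f.IsHomogeneous k ∧ dehz f = A ∧
      ∃ G, fib 0 (tt0 n) f = X o ^ k + X (some (Fin.last q)) * G := by
  obtain ⟨u, hu, hu2⟩ := exists_homogz hA
  refine ⟨X s ^ k + X (Sum.inr (Fin.last q)) * u, ?_, ?_, fib 0 (tt0 n) u, ?_⟩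
  · refine IsHomogeneous.add (isHomogeneous_X_pow _ _) ?_
    have h := (isHomogeneous_X ℂ (Sum.inr (Fin.last q) : Vars n q)).mul hu
    have h1 : 1 + (k - 1) = k := by omega
    rwa [h1] at h
  · have h1 : dehz (X (Sum.inr (Fin.last q)) : MvPolynomial (Vars n q) ℂ) = 1 := by
      unfold dehz
      rw [aeval_X, Sum.elim_inr, Fin.lastCases_last]
    rw [map_add, map_pow, map_mul, hs, hu2, h1, one_mul]
    ring
  · have h1 : fib 0 (tt0 n) (X (Sum.inr (Fin.last q)) : MvPolynomial (Vars n q) ℂ) =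
        X (some (Fin.last q)) := by
      unfold fib
      rw [aeval_X, Sum.elim_inr]
    rw [map_add, map_pow, map_mul, ho, h1]

theorem Forms_at (hi : 1 ≤ i) (hiq : i ≤ q) {d : Fin (q + 1) → ℕ} (hd : ∀ c, 2 ≤ d c)
    {τ : Fin q → Polynomial ℂ} {V : Fin q → MvPolynomial (Fin i) ℂ}
    {χ : Fin (q + 1) → Fin (n + 1) → Polynomial ℂ}
    (hτ : ∀ c', (τ c').Monic ∧ (τ c').natDegree = d (Fin.castSucc c'))
    (hV : ∀ c', (V c').totalDegree < d (Fin.castSucc c'))
    (hχ : ∀ c b, (χ c b).natDegree + 1 < d c) (c : Fin (q + 1)) :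
    ∃ f : MvPolynomial (Vars n q) ℂ, f.IsHomogeneous (d c) ∧
      dehz f = aff hi hiq d τ V χ c ∧
      ∃ G, fib 0 (tt0 n) f = X (var c) ^ d c + X (some (Fin.last q)) * G := by
  induction c using Fin.lastCases with
  | last =>
    refine Forms_one (hd _) (Sum.inl 0) (Sum.inl 0) (var (Fin.last q)) ?_ ?_ ?_
    · unfold dehz
      rw [aeval_X, Sum.elim_inl]
    · unfold fib
      rw [aeval_X, Sum.elim_inl, var_last]
      simp [tt0]
    · rw [aff_last, add_sub_cancel_left]
      exact Forms_sum _ (hχ _)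
  | cast c' =>
    refine Forms_one (hd _) (Sum.inr (Fin.castSucc c')) (Sum.inr c') (var (Fin.castSucc c'))
      ?_ ?_ ?_
    · unfold dehz
      rw [aeval_X, Sum.elim_inr, Fin.lastCases_castSucc]
    · unfold fib
      rw [aeval_X, Sum.elim_inr, var_castSucc]
    · have h1 : aff hi hiq d τ V χ (Fin.castSucc c') - X (Sum.inr c') ^ d (Fin.castSucc c') =
          Polynomial.aeval (X (Sum.inr c')) (τ c' - Polynomial.X ^ d (Fin.castSucc c')) -
            rename (fun s => Sum.inr (emq hiq s)) (V c') +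
            ∑ b, X (Sum.inl b) *
              Polynomial.aeval (X (Sum.inr (z0 hi hiq))) (χ (Fin.castSucc c') b) := by
        rw [aff_castSucc, map_sub, map_pow, Polynomial.aeval_X]
        ring
      rw [h1]
      refine (totalDegree_add _ _).trans (max_le ?_ (Forms_sum _ (hχ _)))
      refine (totalDegree_sub _ _).trans (max_le ?_ ?_)
      · exact (Forms_totalDegree_aeval _ _).trans
          (Forms_natDegree_sub (hd _) (hτ c').1 (hτ c').2)
      · have h2 := hV c'
        have h3 := totalDegree_rename_le (fun s => (Sum.inr (emq hiq s) : Fin (n + 1) ⊕ Fin q))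
          (V c')
        omega

theorem exists_forms (hi : 1 ≤ i) (hiq : i ≤ q) {d : Fin (q + 1) → ℕ} (hd : ∀ c, 2 ≤ d c)
    {τ : Fin q → Polynomial ℂ} {V : Fin q → MvPolynomial (Fin i) ℂ}
    {χ : Fin (q + 1) → Fin (n + 1) → Polynomial ℂ}
    (hτ : ∀ c', (τ c').Monic ∧ (τ c').natDegree = d (Fin.castSucc c'))
    (hV : ∀ c', (V c').totalDegree < d (Fin.castSucc c'))
    (hχ : ∀ c b, (χ c b).natDegree + 1 < d c) :
    ∃ f : Fin (q + 1) → MvPolynomial (Vars n q) ℂ, (∀ c, (f c).IsHomogeneous (d c)) ∧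
      (∀ c, dehz (f c) = aff hi hiq d τ V χ c) ∧
      ∀ c, ∃ G, fib 0 (tt0 n) (f c) = X (var c) ^ d c + X (some (Fin.last q)) * G := by
  choose f h1 h2 h3 using fun c => Forms_at hi hiq hd hτ hV hχ c
  exact ⟨f, h1, h2, h3⟩

end Pool.Agent.Lib_MP_c7e57a
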