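import Pool.Agent.Lib_MP_c7e57a.Aff2
import Pool.Agent.Lib_MP_c7e57a.Forms

/-!
# Piece CI-Y1: the forms of the second special complete intersection

Same proof as `exists_forms` (Forms.lean), with `aff2` instead of `aff`: the only change is that the
coefficient of `X (Sum.inl b)` is `rename (fun s => Sum.inr (emq hiq s)) (χ c b)`, of total degree
at most `(χ c b).totalDegree` (`totalDegree_rename_le`). The lemmas `Forms_one`,
`Forms_totalDegree_aeval`, `Forms_natDegree_sub` of Forms.lean can be used as they are.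
-/

namespace Pool.Agent.Lib_MP_c7e57a

open MvPolynomial

variable {n q i : ℕ}

theorem Forms2_sum {k : ℕ} (hiq : i ≤ q) {χ : Fin (n + 1) → MvPolynomial (Fin i) ℂ}
    (hχ : ∀ b, (χ b).totalDegree + 1 < k) :
    (∑ b, X (Sum.inl b) * rename (fun s => (Sum.inr (emq hiq s) : Fin (n + 1) ⊕ Fin q))
      (χ b)).totalDegree ≤ k - 1 := by
  refine (totalDegree_finsetSum_le ?_)
  intro b _
  refine (totalDegree_mul _ _).trans ?_
  have h1 := totalDegree_rename_le (fun s => (Sum.inr (emq hiq s) : Fin (n + 1) ⊕ Fin q)) (χ b)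
  have h2 := hχ b
  rw [totalDegree_X]
  omega

theorem Forms2_at (hiq : i ≤ q) {d : Fin (q + 1) → ℕ} (hd : ∀ c, 2 ≤ d c)
    {τ : Fin q → Polynomial ℂ} {V : Fin q → MvPolynomial (Fin i) ℂ}
    {χ : Fin (q + 1) → Fin (n + 1) → MvPolynomial (Fin i) ℂ}
    (hτ : ∀ c', (τ c').Monic ∧ (τ c').natDegree = d (Fin.castSucc c'))
    (hV : ∀ c', (V c').totalDegree < d (Fin.castSucc c'))
    (hχ : ∀ c b, (χ c b).totalDegree + 1 < d c) (c : Fin (q + 1)) :
    ∃ f : MvPolynomial (Vars n q) ℂ, f.IsHomogeneous (d c) ∧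
      dehz f = aff2 hiq d τ V χ c ∧
      ∃ G, fib 0 (tt0 n) f = X (var c) ^ d c + X (some (Fin.last q)) * G := by
  induction c using Fin.lastCases with
  | last =>
    refine Forms_one (hd _) (Sum.inl 0) (Sum.inl 0) (var (Fin.last q)) ?_ ?_ ?_
    · unfold dehz
      rw [aeval_X, Sum.elim_inl]
    · unfold fib
      rw [aeval_X, Sum.elim_inl, var_last]
      simp [tt0]
    · rw [aff2_last, add_sub_cancel_left]
      exact Forms2_sum hiq (hχ _)
  | cast c' =>
    refine Forms_one (hd _) (Sum.inr (Fin.castSucc c')) (Sum.inr c') (var (Fin.castSucc c'))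
      ?_ ?_ ?_
    · unfold dehz
      rw [aeval_X, Sum.elim_inr, Fin.lastCases_castSucc]
    · unfold fib
      rw [aeval_X, Sum.elim_inr, var_castSucc]
    · have h1 : aff2 hiq d τ V χ (Fin.castSucc c') - X (Sum.inr c') ^ d (Fin.castSucc c') =
          Polynomial.aeval (X (Sum.inr c')) (τ c' - Polynomial.X ^ d (Fin.castSucc c')) -
            rename (fun s => Sum.inr (emq hiq s)) (V c') +
            ∑ b, X (Sum.inl b) *
              rename (fun s => Sum.inr (emq hiq s)) (χ (Fin.castSucc c') b) := by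
        rw [aff2_castSucc, map_sub, map_pow, Polynomial.aeval_X]
        ring
      rw [h1]
      refine (totalDegree_add _ _).trans (max_le ?_ (Forms2_sum hiq (hχ _)))
      refine (totalDegree_sub _ _).trans (max_le ?_ ?_)
      · exact (Forms_totalDegree_aeval _ _).trans
          (Forms_natDegree_sub (hd _) (hτ c').1 (hτ c').2)
      · have h2 := hV c'
        have h3 := totalDegree_rename_le (fun s => (Sum.inr (emq hiq s) : Fin (n + 1) ⊕ Fin q))
          (V c')
        omega

theorem exists_forms2 (hiq : i ≤ q) {d : Fin (q + 1) → ℕ} (hd : ∀ c, 2 ≤ d c)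
    {τ : Fin q → Polynomial ℂ} {V : Fin q → MvPolynomial (Fin i) ℂ}
    {χ : Fin (q + 1) → Fin (n + 1) → MvPolynomial (Fin i) ℂ}
    (hτ : ∀ c', (τ c').Monic ∧ (τ c').natDegree = d (Fin.castSucc c'))
    (hV : ∀ c', (V c').totalDegree < d (Fin.castSucc c'))
    (hχ : ∀ c b, (χ c b).totalDegree + 1 < d c) :
    ∃ f : Fin (q + 1) → MvPolynomial (Vars n q) ℂ, (∀ c, (f c).IsHomogeneous (d c)) ∧
      (∀ c, dehz (f c) = aff2 hiq d τ V χ c) ∧
      ∀ c, ∃ G, fib 0 (tt0 n) (f c) = X (var c) ^ d c + X (some (Fin.last q)) * G := by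
  choose f h1 h2 h3 using fun c => Forms2_at hiq hd hτ hV hχ c
  exact ⟨f, h1, h2, h3⟩

end Pool.Agent.Lib_MP_c7e57a
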