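import Pool.Agent.Lib_MP_c7e57a.Defs
import Pool.Agent.Lib_MP_c7e57a.FF
import Pool.Agent.Lib_MP_c7e57a.Fibre

/-!
# The degree of a linear projection
-/

namespace Pool.Agent.Lib_MP_c7e57a

open MvPolynomial IntermediateField

variable {n q : ℕ}

/-- Homogenisation of polynomials in the affine chart of the base. -/
theorem exists_homog_base {g : MvPolynomial (Fin n) ℂ} :
    ∃ (k : ℕ) (G : MvPolynomial (Fin (n + 1)) ℂ), G.IsHomogeneous k ∧
      aeval (ttR n) G = g := by
  refine ⟨g.totalDegree, ∑ s ∈ g.support, X 0 ^ (g.totalDegree - s.degree) *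
    rename Fin.succ (monomial s (coeff s g)), ?_, ?_⟩
  · apply IsHomogeneous.sum
    intro s hs
    have h0 : s.degree ≤ g.totalDegree := le_totalDegree hs
    have h1 : (X 0 ^ (g.totalDegree - s.degree) : MvPolynomial (Fin (n + 1)) ℂ).IsHomogeneous
        (g.totalDegree - s.degree) := isHomogeneous_X_pow _ _
    have h2 : (rename Fin.succ (monomial s (coeff s g)) :
        MvPolynomial (Fin (n + 1)) ℂ).IsHomogeneous s.degree :=
      (isHomogeneous_monomial _ rfl).rename_isHomogeneous
    have h3 := h1.mul h2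
    rwa [Nat.sub_add_cancel h0] at h3
  · rw [map_sum]
    conv_rhs => rw [g.as_sum]
    refine Finset.sum_congr rfl fun s _ => ?_
    rw [map_mul, map_pow, aeval_X, aeval_rename]
    have h1 : ttR n 0 = 1 := rfl
    have h2 : (ttR n) ∘ Fin.succ = X := by
      funext i
      simp [ttR]
    rw [h1, h2, one_pow, one_mul, aeval_X_left]
    rfl

/-- The substitution `y ↦ y - l z`. -/
noncomputable def shear (l : Fin (n + 1) → Fin (q + 1) → ℂ) (b : Fin (n + 1)) :
    MvPolynomial (Fin (n + 1) ⊕ Fin (q + 1)) ℂ :=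
  X (Sum.inl b) - ∑ s, C (l b s) * X (Sum.inr s)

/-- The ring homomorphism to the coordinate ring of the generic fibre. -/
noncomputable def gHom (l : Fin (n + 1) → Fin (q + 1) → ℂ) :
    MvPolynomial (Fin (n + 1) ⊕ Fin (q + 1)) ℂ →+*
      MvPolynomial (Fin (q + 1)) (MvPolynomial (Fin n) ℂ) :=
  eval₂Hom (C.comp C) (Sum.elim (fun b => C (ttR n b) + ∑ s, C (C (l b s)) * X s)
    (fun s => X s))

theorem gHom_C (l : Fin (n + 1) → Fin (q + 1) → ℂ) (a : ℂ) : gHom l (C a) = C (C a) := by
  unfold gHom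
  rw [eval₂Hom_C, RingHom.comp_apply]

theorem gHom_inr (l : Fin (n + 1) → Fin (q + 1) → ℂ) (s : Fin (q + 1)) :
    gHom l (X (Sum.inr s)) = X s := by
  unfold gHom
  rw [eval₂Hom_X', Sum.elim_inr]

theorem gHom_inl (l : Fin (n + 1) → Fin (q + 1) → ℂ) (b : Fin (n + 1)) :
    gHom l (X (Sum.inl b)) = C (ttR n b) + ∑ s, C (C (l b s)) * X s := by
  unfold gHom
  rw [eval₂Hom_X', Sum.elim_inl]

theorem gR_C (l : Fin (n + 1) → Fin (q + 1) → ℂ) (a : ℂ) : gR l (C a) = C (C a) := by
  unfold gR fib
  rw [map_C, aeval_C, MvPolynomial.algebraMap_eq]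

theorem gR_inr (l : Fin (n + 1) → Fin (q + 1) → ℂ) (s : Fin (q + 1)) :
    gR l (X (Sum.inr s)) = X (some s) := by
  unfold gR fib
  rw [map_X, aeval_X, Sum.elim_inr]

theorem gR_inl (l : Fin (n + 1) → Fin (q + 1) → ℂ) (b : Fin (n + 1)) :
    gR l (X (Sum.inl b)) = C (ttR n b) * X none + ∑ s, C (C (l b s)) * X (some s) := by
  unfold gR fib
  rw [map_X, aeval_X, Sum.elim_inl]

theorem gR_add (l : Fin (n + 1) → Fin (q + 1) → ℂ)
    (f g : MvPolynomial (Fin (n + 1) ⊕ Fin (q + 1)) ℂ) :
    gR l (f + g) = gR l f + gR l g := by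
  unfold gR
  rw [map_add, map_add]

theorem gR_mul (l : Fin (n + 1) → Fin (q + 1) → ℂ)
    (f g : MvPolynomial (Fin (n + 1) ⊕ Fin (q + 1)) ℂ) :
    gR l (f * g) = gR l f * gR l g := by
  unfold gR
  rw [map_mul, map_mul]

theorem gHom_eq (l : Fin (n + 1) → Fin (q + 1) → ℂ)
    (f : MvPolynomial (Fin (n + 1) ⊕ Fin (q + 1)) ℂ) : gHom l f = deh (gR l f) := by
  have hC : ∀ a : MvPolynomial (Fin n) ℂ,
      deh (C a : MvPolynomial (Option (Fin (q + 1))) (MvPolynomial (Fin n) ℂ)) = C a := by
    intro a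
    unfold deh
    rw [aeval_C, MvPolynomial.algebraMap_eq]
  induction f using MvPolynomial.induction_on with
  | C a => rw [gHom_C, gR_C, hC]
  | add p q hp hq => rw [map_add, hp, hq, gR_add, map_add]
  | mul_X p s hp =>
    rw [map_mul, hp, gR_mul, map_mul]
    congr 1
    rcases s with b | s
    · rw [gHom_inl, gR_inl, map_add, map_mul, deh_none, mul_one, hC, map_sum]
      congr 1
      refine Finset.sum_congr rfl fun s _ => ?_
      rw [map_mul, deh_some, hC]
    · rw [gHom_inr, gR_inr, deh_some]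

theorem gHom_shear (l : Fin (n + 1) → Fin (q + 1) → ℂ) (b : Fin (n + 1)) :
    gHom l (shear l b) = C (ttR n b) := by
  unfold shear
  rw [map_sub, gHom_inl, map_sum]
  have h1 : ∀ s, gHom l (C (l b s) * X (Sum.inr s)) = C (C (l b s)) * X s := by
    intro s
    rw [map_mul, gHom_C, gHom_inr]
  rw [Finset.sum_congr rfl fun s _ => h1 s, add_sub_cancel_right]

theorem gHom_aeval (l : Fin (n + 1) → Fin (q + 1) → ℂ) (G : MvPolynomial (Fin (n + 1)) ℂ) :
    gHom l (aeval (shear l) G) = C (aeval (ttR n) G) := by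
  induction G using MvPolynomial.induction_on with
  | C a => rw [aeval_C, MvPolynomial.algebraMap_eq, gHom_C, aeval_C, MvPolynomial.algebraMap_eq]
  | add p q hp hq => rw [map_add, map_add, hp, hq, map_add, map_add]
  | mul_X p b hp => rw [map_mul, map_mul, hp, map_mul, aeval_X, aeval_X, gHom_shear, map_mul]

theorem mem_span_imp {l : Fin (n + 1) → Fin (q + 1) → ℂ}
    {f : Fin (q + 1) → MvPolynomial (Fin (n + 1) ⊕ Fin (q + 1)) ℂ}
    (hI : fibreIdeal l f ≠ ⊤) {G : MvPolynomial (Fin (n + 1)) ℂ}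
    (hG : aeval (shear l) G ∈ Ideal.span (Set.range f)) : aeval (ttR n) G = 0 := by
  by_contra hne
  apply hI
  have h1 : C (algebraMap (MvPolynomial (Fin n) ℂ) (KK n) (aeval (ttR n) G)) ∈
      fibreIdeal l f := by
    have h2 : Ideal.span (Set.range f) ≤ (fibreIdeal l f).comap
        ((map (algebraMap (MvPolynomial (Fin n) ℂ) (KK n))).comp (gHom l)) := by
      rw [Ideal.span_le]
      rintro _ ⟨c, rfl⟩
      refine Ideal.subset_span ⟨c, ?_⟩
      rw [RingHom.comp_apply, gHom_eq, ← deh_map]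
      rfl
    have h3 := h2 hG
    have h4 : map (algebraMap (MvPolynomial (Fin n) ℂ) (KK n))
        (gHom l (aeval (shear l) G)) ∈ fibreIdeal l f := h3
    rw [gHom_aeval, map_C] at h4
    exact h4
  apply Ideal.eq_top_of_isUnit_mem _ h1
  have h2 : algebraMap (MvPolynomial (Fin n) ℂ) (KK n) (aeval (ttR n) G) ≠ 0 := by
    intro h
    exact hne (IsFractionRing.injective (MvPolynomial (Fin n) ℂ) (KK n) (by rw [h, map_zero]))
  exact (isUnit_iff_ne_zero.2 h2).map C

variable {σ : Type}

section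

variable (e : Fin (n + 1) ⊕ Fin (q + 1) ≃ σ) (l : Fin (n + 1) → Fin (q + 1) → ℂ)
  (I : Ideal (MvPolynomial σ ℂ)) [I.IsPrime]

/-- The homomorphism of the polynomial ring to the field of fractions. -/
noncomputable def pi : MvPolynomial (Fin (n + 1) ⊕ Fin (q + 1)) ℂ →ₐ[ℂ]
    FractionRing (MvPolynomial σ ℂ ⧸ I) :=
  aeval (fun i => coordinate I (e i))

theorem pi_eq (P : MvPolynomial (Fin (n + 1) ⊕ Fin (q + 1)) ℂ) :
    pi e I P = algebraMap (MvPolynomial σ ℂ ⧸ I) (FractionRing (MvPolynomial σ ℂ ⧸ I))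
      (Ideal.Quotient.mk I (rename e P)) := by
  unfold pi
  induction P using MvPolynomial.induction_on with
  | C a =>
    rw [aeval_C, rename_C]
    rfl
  | add p q hp hq => simp only [map_add, hp, hq]
  | mul_X p s hp =>
    rw [map_mul, hp, aeval_X, map_mul, rename_X, map_mul, map_mul]
    rfl

theorem pi_eq_zero {P : MvPolynomial (Fin (n + 1) ⊕ Fin (q + 1)) ℂ} :
    pi e I P = 0 ↔ rename e P ∈ I := by
  rw [pi_eq, ← Ideal.Quotient.eq_zero_iff_mem]
  constructor
  · intro h
    exact IsFractionRing.injective (MvPolynomial σ ℂ ⧸ I) _ (by rw [h, map_zero])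
  · intro h
    rw [h, map_zero]

/-- The image of the sheared variable. -/
noncomputable def yb (b : Fin (n + 1)) : FractionRing (MvPolynomial σ ℂ ⧸ I) :=
  pi e I (shear l b)

theorem yb_eq (b : Fin (n + 1)) : yb e l I b =
    coordinate I (e (Sum.inl b)) -
      ∑ s, algebraMap ℂ _ (l b s) * coordinate I (e (Sum.inr s)) := by
  unfold yb shear pi
  rw [map_sub, aeval_X, map_sum]
  congr 1
  refine Finset.sum_congr rfl fun s _ => ?_
  rw [map_mul, aeval_C, aeval_X]

end

theorem mem_span_of_rename {e : Fin (n + 1) ⊕ Fin (q + 1) ≃ σ}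
    {f : Fin (q + 1) → MvPolynomial (Fin (n + 1) ⊕ Fin (q + 1)) ℂ}
    {I : Ideal (MvPolynomial σ ℂ)} (hI : I = Ideal.span (Set.range fun c => rename e (f c)))
    {P : MvPolynomial (Fin (n + 1) ⊕ Fin (q + 1)) ℂ} (hP : rename e P ∈ I) :
    P ∈ Ideal.span (Set.range f) := by
  have h1 : I ≤ (Ideal.span (Set.range f)).comap (rename e.symm).toRingHom := by
    rw [hI, Ideal.span_le]
    rintro _ ⟨c, rfl⟩
    show rename e.symm (rename e (f c)) ∈ Ideal.span (Set.range f)
    rw [rename_rename, e.symm_comp_self, rename_id_apply]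
    exact Ideal.subset_span ⟨c, rfl⟩
  have h2 : rename e.symm (rename e P) ∈ Ideal.span (Set.range f) := h1 hP
  rwa [rename_rename, e.symm_comp_self, rename_id_apply] at h2

theorem aeval_div {ι : Type*} {F : Type*} [Field F] [Algebra ℂ F] {P : MvPolynomial ι ℂ} {k : ℕ}
    (hP : P.IsHomogeneous k) (x : ι → F) {y : F} (hy : y ≠ 0) :
    y ^ k * aeval (fun i => x i / y) P = aeval x P := by
  rw [P.as_sum, map_sum, map_sum, Finset.mul_sum]
  refine Finset.sum_congr rfl fun s hs => ?_
  rw [aeval_monomial, aeval_monomial, Finsupp.prod, Finsupp.prod]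
  have h1 : s.degree = k := by
    by_contra h
    exact (mem_support_iff.1 hs) (hP.coeff_eq_zero h)
  have h2 : y ^ k = ∏ i ∈ s.support, y ^ s i := by
    rw [Finset.prod_pow_eq_pow_sum, ← h1]
    rfl
  rw [h2, mul_left_comm, ← Finset.prod_mul_distrib]
  congr 1
  refine Finset.prod_congr rfl fun i _ => ?_
  rw [← mul_pow, mul_div_cancel₀ _ hy]

theorem eval₂_gHom {L : Type*} [Field L] [Algebra ℂ L] (t : Fin n → L) (ζ : Fin (q + 1) → L)
    (l : Fin (n + 1) → Fin (q + 1) → ℂ) (P : MvPolynomial (Fin (n + 1) ⊕ Fin (q + 1)) ℂ) :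
    eval₂ (aeval t : MvPolynomial (Fin n) ℂ →ₐ[ℂ] L).toRingHom ζ (gHom l P) =
      aeval (Sum.elim (fun b => aeval t (ttR n b) + ∑ s, algebraMap ℂ L (l b s) * ζ s) ζ) P := by
  have hC : ∀ a : ℂ, (aeval t : MvPolynomial (Fin n) ℂ →ₐ[ℂ] L).toRingHom (C a) =
      algebraMap ℂ L a := fun a => aeval_C t a
  induction P using MvPolynomial.induction_on with
  | C a => rw [gHom_C, eval₂_C, aeval_C, hC]
  | add p q hp hq => rw [map_add, eval₂_add, hp, hq, map_add]
  | mul_X p s hp =>
    rw [map_mul, eval₂_mul, hp, map_mul, aeval_X]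
    refine congrArg₂ (· * ·) rfl ?_
    rcases s with b | s
    · rw [gHom_inl, eval₂_add, eval₂_C, eval₂_sum, Sum.elim_inl]
      refine congrArg₂ (· + ·) rfl ?_
      refine Finset.sum_congr rfl fun s _ => ?_
      rw [eval₂_mul, eval₂_C, eval₂_X, hC]
    · rw [gHom_inr, eval₂_X, Sum.elim_inr]

theorem coe_aeval {F : Type*} [Field F] [Algebra ℂ F] (L : IntermediateField ℂ F) {ι : Type*}
    (w : ι → L) (P : MvPolynomial ι ℂ) :
    ((aeval w P : L) : F) = aeval (fun i => (w i : F)) P := by
  have h1 : L.val (aeval w P) = aeval (fun i => L.val (w i)) P := by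
    rw [← AlgHom.comp_apply, comp_aeval]
  exact h1

theorem exists_extension (e : Fin (n + 1) ⊕ Fin (q + 1) ≃ σ)
    {f : Fin (q + 1) → MvPolynomial (Fin (n + 1) ⊕ Fin (q + 1)) ℂ} {d : Fin (q + 1) → ℕ}
    (hf : ∀ c, (f c).IsHomogeneous (d c)) {l : Fin (n + 1) → Fin (q + 1) → ℂ}
    (I : Ideal (MvPolynomial σ ℂ)) [I.IsPrime]
    (hI : I = Ideal.span (Set.range fun c => rename e (f c)))
    (hne : fibreIdeal l f ≠ ⊤)
    (hfin : Module.Finite (KK n) (MvPolynomial (Fin (q + 1)) (KK n) ⧸ fibreIdeal l f)) :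
    ∃ t : Fin n → functionField I, AlgebraicIndependent ℂ t ∧
      Module.Finite (adjoin ℂ (Set.range t)) (functionField I) ∧
      Module.finrank (adjoin ℂ (Set.range t)) (functionField I) ≤
        Module.finrank (KK n) (MvPolynomial (Fin (q + 1)) (KK n) ⧸ fibreIdeal l f) := by
  set y : Fin (n + 1) → FractionRing (MvPolynomial σ ℂ ⧸ I) := yb e l I with hy
  have hy0 : y 0 ≠ 0 := by
    intro h
    have h1 := mem_span_of_rename hI ((pi_eq_zero e I).1 h)
    have h2 : aeval (shear l) (X 0 : MvPolynomial (Fin (n + 1)) ℂ) ∈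
        Ideal.span (Set.range f) := by
      rwa [aeval_X]
    have h3 := mem_span_imp hne h2
    rw [aeval_X] at h3
    exact one_ne_zero h3
  -- the quotients belong to the function field
  have hmem1 : ∀ i j : σ, coordinate I i / coordinate I j ∈ functionField I := fun i j =>
    subset_adjoin _ _ ⟨i, j, rfl⟩
  have hmem : ∀ i : σ, coordinate I i / y 0 ∈ functionField I := by
    obtain ⟨j, hj⟩ : ∃ j, coordinate I j ≠ 0 := by
      by_contra hcon
      push Not at hcon
      apply hy0
      rw [hy, yb_eq]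
      simp [hcon]
    intro i
    have h1 : y 0 / coordinate I j ∈ functionField I := by
      rw [hy, yb_eq, sub_div, Finset.sum_div]
      refine sub_mem (hmem1 _ _) (sum_mem fun s _ => ?_)
      rw [mul_div_assoc]
      exact mul_mem ((functionField I).algebraMap_mem _) (hmem1 _ _)
    have h2 : coordinate I i / y 0 = (coordinate I i / coordinate I j) /
        (y 0 / coordinate I j) := by
      field_simp
    rw [h2]
    exact div_mem (hmem1 _ _) h1
  let u : Fin (n + 1) ⊕ Fin (q + 1) → functionField I := fun i =>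
    ⟨coordinate I (e i) / y 0, hmem _⟩
  let v : Fin (n + 1) → functionField I := fun b =>
    u (Sum.inl b) - ∑ s, algebraMap ℂ (functionField I) (l b s) * u (Sum.inr s)
  have hv : ∀ b, ((v b : functionField I) : FractionRing (MvPolynomial σ ℂ ⧸ I)) =
      y b / y 0 := by
    intro b
    rw [hy, yb_eq, sub_div, Finset.sum_div]
    show (functionField I).val (v b) = _
    simp only [v]
    rw [map_sub, map_sum]
    congr 1
    refine Finset.sum_congr rfl fun s _ => ?_
    rw [mul_div_assoc, map_mul]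
    rfl
  have hv0 : v 0 = 1 := by
    apply Subtype.ext
    rw [hv, div_self hy0]
    rfl
  let t : Fin n → functionField I := fun b => v b.succ
  let ζ : Fin (q + 1) → functionField I := fun s => u (Sum.inr s)
  have httR : ∀ b, aeval t (ttR n b) = v b := by
    intro b
    refine Fin.cases ?_ (fun i => ?_) b
    · rw [hv0]
      show aeval t (1 : MvPolynomial (Fin n) ℂ) = 1
      rw [map_one]
    · show aeval t (X i) = _
      rw [aeval_X]
  -- independence
  have ht : AlgebraicIndependent ℂ t := by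
    rw [algebraicIndependent_iff]
    intro g hg
    obtain ⟨k, G, hG, hGg⟩ := exists_homog_base (g := g)
    have h1 : aeval v G = 0 := by
      rw [← hg, ← hGg]
      have h2 : (fun b => aeval t (ttR n b)) = v := funext httR
      rw [← h2, ← MvPolynomial.comp_aeval]
      rfl
    have h3 : aeval y G = 0 := by
      rw [← aeval_div hG y hy0]
      have h4 := congrArg (fun x : functionField I =>
        (x : FractionRing (MvPolynomial σ ℂ ⧸ I))) h1
      simp only [coe_aeval, hv] at h4
      rw [h4]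
      exact mul_zero _
    have h5 : aeval (shear l) G ∈ Ideal.span (Set.range f) := by
      apply mem_span_of_rename hI
      rw [← pi_eq_zero e I]
      rw [← h3, hy, ← AlgHom.comp_apply, MvPolynomial.comp_aeval]
      rfl
    rw [← hGg]
    exact mem_span_imp hne h5
  have hu : ∀ b, u (Sum.inl b) = v b +
      ∑ s, algebraMap ℂ (functionField I) (l b s) * ζ s := by
    intro b
    simp only [v, ζ, sub_add_cancel]
  have hgen : adjoin ℂ (Set.range t ∪ Set.range ζ) = ⊤ := by
    set M := adjoin ℂ (Set.range t ∪ Set.range ζ) with hM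
    have hζM : ∀ s, ζ s ∈ M := fun s => subset_adjoin _ _ (Or.inr ⟨s, rfl⟩)
    have hvM : ∀ b, v b ∈ M := by
      intro b
      refine Fin.cases ?_ (fun i => ?_) b
      · rw [hv0]; exact one_mem _
      · exact subset_adjoin _ _ (Or.inl ⟨i, rfl⟩)
    have huM : ∀ i, u i ∈ M := by
      rintro (b | s)
      · rw [hu]
        exact add_mem (hvM b) (sum_mem fun s _ => mul_mem (M.algebraMap_mem _) (hζM s))
      · exact hζM s
    have h1 : functionField I ≤ lift M := by
      unfold functionField quotientsField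
      rw [adjoin_le_iff]
      rintro _ ⟨i, j, rfl⟩
      have h2 : coordinate I i / coordinate I j =
          ((u (e.symm i) / u (e.symm j) : functionField I) :
            FractionRing (MvPolynomial σ ℂ ⧸ I)) := by
        rw [IntermediateField.coe_div]
        simp only [u, Equiv.apply_symm_apply]
        rw [div_div_div_cancel_right₀ hy0]
      rw [h2]
      exact (mem_lift _).2 (div_mem (huM _) (huM _))
    rw [eq_top_iff]
    rintro x -
    exact (mem_lift _).1 (h1 x.2)
  have hu' : Sum.elim (fun b => aeval t (ttR n b) +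
      ∑ s, algebraMap ℂ (functionField I) (l b s) * ζ s) ζ = u := by
    funext i
    rcases i with b | s
    · rw [Sum.elim_inl, httR, hu]
    · rfl
  have hg : ∀ c, eval₂ (aeval t : MvPolynomial (Fin n) ℂ →ₐ[ℂ] functionField I).toRingHom ζ
      (gHom l (f c)) = 0 := by
    intro c
    rw [eval₂_gHom, hu']
    apply Subtype.ext
    rw [coe_aeval]
    have h1 := aeval_div (hf c) (fun i => coordinate I (e i)) hy0
    have h2 : aeval (fun i => coordinate I (e i)) (f c) = 0 := by
      have h3 : pi e I (f c) = 0 := by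
        rw [pi_eq_zero, hI]
        exact Ideal.subset_span ⟨c, rfl⟩
      exact h3
    rw [h2] at h1
    exact (mul_eq_zero.1 h1).resolve_left (pow_ne_zero _ hy0)
  have hJ : fibreIdeal l f = Ideal.span (Set.range fun c =>
      map (algebraMap (MvPolynomial (Fin n) ℂ) (KK n)) (gHom l (f c))) := by
    unfold fibreIdeal
    congr 2
    funext c
    rw [gHom_eq, ← deh_map]
    rfl
  obtain ⟨h1, h2⟩ := field_bound ht hgen hg hJ
  exact ⟨t, ht, h1, h2⟩

end Pool.Agent.Lib_MP_c7e57a
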