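import Pool.Agent.Lib_MP_c7e57a.Fat2
import Pool.Agent.Lib_MP_c7e57a.FunField

/-!
# Good projections
-/

namespace Pool.Agent.Lib_MP_c7e57a

open MvPolynomial

variable {n q : ℕ}

/-- There is a linear projection with the required base points. -/
def Good {i : ℕ} (hi : 1 ≤ i) (hiq : i ≤ q) {α : Type*} (j : α → ℕ) (m : ℕ)
    (d : Fin (q + 1) → ℕ) (f : Fin (q + 1) → MvPolynomial (Vars n q) ℂ) : Prop :=
  ∃ (l : Fin (n + 1) → Fin (q + 1) → ℂ) (γ : α → Fin (q + 1) → MvPolynomial (Fin i) ℂ)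
    (p : α → Fin i → ℂ) (z : Fin (q + 1) → ℂ),
    (∀ a, γ a (Fin.last q) = 1) ∧ (∀ a s, γ a (emb hiq s) = C (p a s) + X s) ∧
    (∀ a a', p a ⟨0, hi⟩ = p a' ⟨0, hi⟩ → a = a') ∧
    (∀ a c, aeval (ptA l (γ a)) (f c) ∈ (idealOfVars (Fin i) ℂ) ^ (j a)) ∧
    (∀ c, eval z (deh (fib l (tt0 n) (f c))) = 0) ∧
    (Matrix.of fun c s => eval z (pderiv s (deh (fib l (tt0 n) (f c))))).det ≠ 0 ∧
    (mat d (fun c => fib l (tt0 n) (f c)) m).det ≠ 0

theorem good_bound {i : ℕ} {hi : 1 ≤ i} {hiq : i ≤ q} {α : Type*} [Fintype α] {j : α → ℕ}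
    (hj : ∀ a, 1 ≤ j a) {m : ℕ} {d : Fin (q + 1) → ℕ}
    (hm : ∏ c, d c + ∑ a, j a ^ i ≤ m)
    {f : Fin (q + 1) → MvPolynomial (Vars n q) ℂ} (hf : ∀ c, (f c).IsHomogeneous (d c))
    (h : Good hi hiq j m d f) {σ : Type} (e : Vars n q ≃ σ)
    (I : Ideal (MvPolynomial σ ℂ)) [I.IsPrime]
    (hI : I = Ideal.span (Set.range fun c => rename e (f c))) :
    0 < irr n I ∧ irr n I + ∑ a, j a ^ i ≤ ∏ c, d c := by
  obtain ⟨l, γ, p, z, hlast, hγ, hp, hz, hzq, hJ, hdet⟩ := h
  have hne := fibreIdeal_ne_top hzq hJ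
  obtain ⟨hfin, hle⟩ := fibre_fat hf hm hdet hne hi hiq j hj
    (fun a => Finset.single_le_sum (f := fun a => j a ^ i) (fun _ _ => Nat.zero_le _)
      (Finset.mem_univ a)) γ p hlast hγ hp hz
  obtain ⟨t, ht, hfin2, hle2⟩ := exists_extension e hf I hI hne hfin
  have hpos : 0 < Module.finrank (IntermediateField.adjoin ℂ (Set.range t)) (functionField I) :=
    Module.finrank_pos
  have h1 : irr n I ≤
      Module.finrank (IntermediateField.adjoin ℂ (Set.range t)) (functionField I) :=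
    Nat.sInf_le ⟨hpos, t, ht, rfl⟩
  have h2 : 0 < irr n I := (Nat.sInf_mem (s := {δ | 0 < δ ∧ ∃ t : Fin n → functionField I,
    AlgebraicIndependent ℂ t ∧ Module.finrank (IntermediateField.adjoin ℂ (Set.range t))
      (functionField I) = δ}) ⟨_, hpos, t, ht, rfl⟩).1
  exact ⟨h2, by omega⟩

section map

variable (σ : ℂ ≃+* ℂ)

theorem map_aeval' {ι τ : Type*} (x : ι → MvPolynomial τ ℂ) (f : MvPolynomial ι ℂ) :
    aeval (fun i => map σ.toRingHom (x i)) (map σ.toRingHom f) =
      map σ.toRingHom (aeval x f) := by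
  induction f using MvPolynomial.induction_on with
  | C a => rw [map_C, algHom_C, algHom_C, MvPolynomial.algebraMap_eq, map_C]
  | add p q hp hq => simp only [map_add, hp, hq]
  | mul_X p s hp => rw [map_mul, map_mul, hp, map_X, aeval_X, map_mul, map_mul, aeval_X]

theorem eval_map' {ι : Type*} (x : ι → ℂ) (f : MvPolynomial ι ℂ) :
    eval (fun i => σ (x i)) (map σ.toRingHom f) = σ (eval x f) := by
  induction f using MvPolynomial.induction_on with
  | C a =>
    rw [map_C, eval_C, eval_C]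
    rfl
  | add p q hp hq => simp only [map_add, hp, hq]
  | mul_X p s hp => rw [map_mul, map_mul, hp, map_X, eval_X, map_mul, map_mul, eval_X]

theorem fib_map' (l : Fin (n + 1) → Fin (q + 1) → ℂ) (f : MvPolynomial (Vars n q) ℂ) :
    fib (fun b s => σ (l b s)) (tt0 n) (map σ.toRingHom f) =
      map σ.toRingHom (fib l (tt0 n) f) := by
  rw [fib_map]
  have h1 : (fun b => σ.toRingHom (tt0 n b)) = tt0 n := by
    funext b
    refine Fin.cases ?_ (fun i => ?_) b
    · show σ.toRingHom 1 = 1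
      exact map_one _
    · show σ.toRingHom 0 = 0
      exact map_zero _
  rw [h1]
  rfl

theorem good_map {i : ℕ} {hi : 1 ≤ i} {hiq : i ≤ q} {α : Type*} {j : α → ℕ} {m : ℕ}
    {d : Fin (q + 1) → ℕ} {f : Fin (q + 1) → MvPolynomial (Vars n q) ℂ}
    (h : Good hi hiq j m d f) : Good hi hiq j m d (fun c => map σ.toRingHom (f c)) := by
  obtain ⟨l, γ, p, z, hlast, hγ, hp, hz, hzq, hJ, hdet⟩ := h
  refine ⟨fun b s => σ (l b s), fun a s => map σ.toRingHom (γ a s), fun a s => σ (p a s),
    fun s => σ (z s), ?_, ?_, ?_, ?_, ?_, ?_, ?_⟩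
  · intro a
    show map σ.toRingHom (γ a (Fin.last q)) = 1
    rw [hlast, map_one]
  · intro a s
    show map σ.toRingHom (γ a (emb hiq s)) = C (σ (p a s)) + X s
    rw [hγ, map_add, map_C, map_X]
    rfl
  · intro a a' h
    exact hp a a' (σ.injective h)
  · intro a c
    have h1 : (ptA (fun b s => σ (l b s)) (fun s => map σ.toRingHom (γ a s)) :
        Vars n q → MvPolynomial (Fin i) ℂ) = fun i => map σ.toRingHom (ptA l (γ a) i) := by
      funext x
      rcases x with b | s
      · simp only [ptA, Sum.elim_inl]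
        rw [map_sum]
        refine Finset.sum_congr rfl fun s _ => ?_
        rw [smul_eq_C_mul, smul_eq_C_mul, map_mul, map_C]
        rfl
      · rfl
    rw [h1, map_aeval']
    have h2 := hz a c
    rw [mem_pow_idealOfVars_iff'] at h2 ⊢
    intro x hx
    rw [coeff_map, h2 x hx, map_zero]
  · intro c
    rw [fib_map', deh_map, eval_map', hzq, map_zero]
  · have h1 : (Matrix.of fun c s => eval (fun s => σ (z s))
        (pderiv s (deh (fib (fun b s => σ (l b s)) (tt0 n) (map σ.toRingHom (f c)))))) =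
        (Matrix.of fun c s => eval z (pderiv s (deh (fib l (tt0 n) (f c))))).map σ := by
      ext c s
      simp only [Matrix.of_apply, Matrix.map_apply]
      rw [fib_map', deh_map, pderiv_map, eval_map']
    rw [h1]
    have h2 := RingHom.map_det σ.toRingHom
      (Matrix.of fun c s => eval z (pderiv s (deh (fib l (tt0 n) (f c)))))
    have h3 : σ.toRingHom (Matrix.of fun c s =>
        eval z (pderiv s (deh (fib l (tt0 n) (f c))))).det ≠ 0 := by
      intro h
      exact hJ (σ.injective (h.trans (map_zero σ).symm))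
    rw [h2] at h3
    exact h3
  · have h1 : (fun c => fib (fun b s => σ (l b s)) (tt0 n) (map σ.toRingHom (f c))) =
        fun c => map σ.toRingHom (fib l (tt0 n) (f c)) := by
      funext c
      rw [fib_map']
    rw [h1, det_map]
    intro h
    exact hdet (σ.injective (h.trans (map_zero σ).symm))

end map

end Pool.Agent.Lib_MP_c7e57a
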