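import Pool.Agent.Lib_MP_c7e57a.HilbB

/-!
# Piece CI-HC: reduced forms in the ideal vanish

By induction on `p ≤ r`, for all `m`:
`finrank (Wsub F p m) + |Red p m| ≤ finrank (homogeneousSubmodule σ K m)`
(`p = 0`: `Wsub F 0 m = 0` and `Red 0 m` = all exponents of degree `m`, the monomials are a basis
of the forms of degree `m`, so `|Red 0 m| = finrank (homogeneousSubmodule σ K m)`; step:
`card_red_succ`, `finrank_Wsub_succ` or their primed versions and the induction hypothesis).
For `p = r`: let `R` be the space of the reduced forms of degree `m`, spanned by the monomials with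
exponents in `Red r m` (linearly independent, `finrank R = |Red r m|`). By the hypothesis `h`
`Wsub F r m ⊔ R = homogeneousSubmodule σ K m`, so by
`Submodule.finrank_sup_add_finrank_inf_eq` the intersection `Wsub F r m ⊓ R` has dimension `0`.
-/

namespace Pool.Agent.Lib_MP_c7e57a

open MvPolynomial

private theorem Hilb_finrank {K : Type*} [Field K] {σ : Type*} (s : Set (σ →₀ ℕ)) :
    Module.finrank K (restrictSupport K s) = Nat.card s :=
  Module.finrank_eq_nat_card_basis (basisRestrictSupport K s)

private theorem Hilb_hom (K : Type*) [Field K] (σ : Type*) (m : ℕ) :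
    homogeneousSubmodule σ K m = restrictSupport K {d : σ →₀ ℕ | d.degree = m} :=
  homogeneousSubmodule_eq_finsupp_supported σ K m

private theorem Hilb_step {K : Type*} [Field K] {σ : Type*} [Finite σ] {r : ℕ} {lead : Fin r → σ}
    (hlead : Function.Injective lead) {d : Fin r → ℕ} {F : Fin r → MvPolynomial σ K}
    (hF : ∀ c, (F c).IsHomogeneous (d c))
    (h : ∀ p m : ℕ, ∀ u : MvPolynomial σ K, u.IsHomogeneous m →
      ∃ v ∈ Ideal.span (F '' {c | c.val < p}), ∃ w : MvPolynomial σ K, u = v + w ∧
        w.IsHomogeneous m ∧ ∀ e ∈ w.support, ∀ c : Fin r, c.val < p → e (lead c) < d c)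
    (m : ℕ) : ∀ p : ℕ, p ≤ r → Module.finrank K (Wsub F p m) + Nat.card (Red lead d p m) ≤
      Module.finrank K (homogeneousSubmodule σ K m) := by
  intro p
  induction p with
  | zero =>
    intro _
    have h0 : Wsub F 0 m = ⊥ := by
      rw [eq_bot_iff]
      intro x hx
      have hx2 := (Submodule.mem_inf.1 hx).2
      have he : (F '' {c : Fin r | c.val < 0}) = ∅ := by
        simp
      rw [Submodule.restrictScalars_mem, he, Ideal.span_empty] at hx2
      exact hx2
    rw [h0, finrank_bot, zero_add, Hilb_hom, Hilb_finrank]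
    apply le_of_eq
    apply Nat.card_congr
    exact Equiv.subtypeEquivRight (fun w => by simp)
  | succ p ih =>
    intro hp
    have ih' := ih (by omega)
    rcases le_or_gt (d ⟨p, hp⟩) m with hm | hm
    · have h1 := card_red_succ hlead d ⟨p, hp⟩ m hm
      have h2 := finrank_Wsub_succ (lead := lead) hF ⟨p, hp⟩ m hm (h p (m - d ⟨p, hp⟩))
      simp only at h1 h2
      omega
    · have h1 := card_red_succ' hlead d ⟨p, hp⟩ m hm
      have h2 := finrank_Wsub_succ' hF ⟨p, hp⟩ m hm
      simp only at h1 h2
      omega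

theorem indep_of_span {K : Type*} [Field K] {σ : Type*} [Finite σ] {r : ℕ} {lead : Fin r → σ}
    (hlead : Function.Injective lead) {d : Fin r → ℕ} {F : Fin r → MvPolynomial σ K}
    (hF : ∀ c, (F c).IsHomogeneous (d c))
    (h : ∀ p m : ℕ, ∀ u : MvPolynomial σ K, u.IsHomogeneous m →
      ∃ v ∈ Ideal.span (F '' {c | c.val < p}), ∃ w : MvPolynomial σ K, u = v + w ∧
        w.IsHomogeneous m ∧ ∀ e ∈ w.support, ∀ c : Fin r, c.val < p → e (lead c) < d c)
    {m : ℕ} {w : MvPolynomial σ K} (hw : w.IsHomogeneous m)
    (hred : ∀ e ∈ w.support, ∀ c, e (lead c) < d c) (hmem : w ∈ Ideal.span (Set.range F)) :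
    w = 0 := by
  have hstep := Hilb_step hlead hF h m r le_rfl
  set R : Submodule K (MvPolynomial σ K) :=
    restrictSupport K {e : σ →₀ ℕ | e.degree = m ∧ ∀ c : Fin r, c.val < r → e (lead c) < d c}
    with hR
  have hRle : R ≤ homogeneousSubmodule σ K m := by
    rw [Hilb_hom, hR]
    exact restrictSupport_mono K (fun e he => he.1)
  have hWle : Wsub F r m ≤ homogeneousSubmodule σ K m := inf_le_left
  have hfinR : Module.finrank K R = Nat.card (Red lead d r m) := by
    rw [hR, Hilb_finrank]
    rfl
  have hdeg : ∀ {x : MvPolynomial σ K} {n : ℕ}, x.IsHomogeneous n →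
      ∀ e ∈ x.support, e.degree = n := by
    intro x n hx e he
    have := (Hilb_hom K σ n) ▸ ((mem_homogeneousSubmodule n x).2 hx)
    exact this he
  have hsup : homogeneousSubmodule σ K m ≤ Wsub F r m ⊔ R := by
    intro u hu
    obtain ⟨v, hv, w', rfl, hw', hred'⟩ := h r m u hu
    refine Submodule.add_mem_sup ?_ ?_
    · refine Submodule.mem_inf.2 ⟨?_, hv⟩
      have := Submodule.sub_mem _ hu ((mem_homogeneousSubmodule m w').2 hw')
      rwa [add_sub_cancel_right] at this
    · exact fun e he => ⟨hdeg hw' e he, fun c hc => hred' e he c hc⟩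
  have : FiniteDimensional K (Wsub F r m) := Submodule.finiteDimensional_of_le hWle
  have : FiniteDimensional K R := Submodule.finiteDimensional_of_le hRle
  have h3 := Submodule.finrank_sup_add_finrank_inf_eq (Wsub F r m) R
  have h4 : Module.finrank K (homogeneousSubmodule σ K m) ≤
      Module.finrank K (Wsub F r m ⊔ R : Submodule K (MvPolynomial σ K)) :=
    Submodule.finrank_mono hsup
  have h5 : Module.finrank K (Wsub F r m ⊓ R : Submodule K (MvPolynomial σ K)) = 0 := by
    rw [← hfinR] at hstep
    omega
  have : FiniteDimensional K (Wsub F r m ⊓ R : Submodule K (MvPolynomial σ K)) :=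
    Submodule.finiteDimensional_of_le inf_le_left
  have h6 : (Wsub F r m ⊓ R : Submodule K (MvPolynomial σ K)) = ⊥ := Submodule.finrank_eq_zero.1 h5
  have h7 : w ∈ (Wsub F r m ⊓ R : Submodule K (MvPolynomial σ K)) := by
    refine Submodule.mem_inf.2 ⟨Submodule.mem_inf.2 ⟨hw, ?_⟩, ?_⟩
    · rw [Submodule.restrictScalars_mem]
      have he : (F '' {c : Fin r | c.val < r}) = Set.range F := by
        simp
      rw [he]
      exact hmem
    · exact fun e he => ⟨hdeg hw e he, fun c _ => hred e he c⟩
  rw [h6] at h7
  exact (Submodule.mem_bot K).1 h7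

end Pool.Agent.Lib_MP_c7e57a
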