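import Pool.Agent.Lib_MP_c7e57a.Rank2

/-!
# Piece CI-HA: counting reduced exponents

`Red p m` is the set of the exponents `w` of degree `m` with `w (lead c) < d c` for all `c < p`.
Then `|Red p m| = |Red (p + 1) m| + |Red p (m - d p)|` if `d p ≤ m`, and `|Red p m| = |Red (p+1) m|`
if `m < d p`: the exponents in `Red p m` with `w (lead p) < d p` are those of `Red (p + 1) m`, and
the exponents in `Red p m` with `d p ≤ w (lead p)` correspond to the exponents
`w - single (lead p) (d p)` in `Red p (m - d p)` (`sub_add_single` of Rank2; the entries at `lead c`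
for `c < p` do not change because `lead` is injective); they do not exist for `m < d p`.
Use `Nat.card_congr` and `Nat.card_sum`, or `Set.ncard`, the sets are finite because
`Mon σ m` is finite.
-/

namespace Pool.Agent.Lib_MP_c7e57a

open MvPolynomial

/-- The reduced exponents of degree `m` with respect to the first `p` variables `lead c`. -/
def Red {σ : Type*} {r : ℕ} (lead : Fin r → σ) (d : Fin r → ℕ) (p m : ℕ) : Type _ :=
  {w : σ →₀ ℕ // w.degree = m ∧ ∀ c : Fin r, c.val < p → w (lead c) < d c}

instance {σ : Type*} [Finite σ] {r : ℕ} (lead : Fin r → σ) (d : Fin r → ℕ) (p m : ℕ) :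
    Finite (Red lead d p m) := by
  have h1 : Finite (Mon σ m) := Finsupp.finite_of_degree_eq m
  have h2 : Function.Injective (fun w : Red lead d p m => (⟨w.1, w.2.1⟩ : Mon σ m)) := by
    intro a b hab
    have h3 : a.1 = b.1 := congrArg (fun z : Mon σ m => z.1) hab
    exact Subtype.ext h3
  exact Finite.of_injective _ h2

/-- Forgetting the condition at `lead p`. -/
def HilbA_low {σ : Type*} {r : ℕ} (lead : Fin r → σ) (d : Fin r → ℕ) (p : Fin r) (m : ℕ)
    (w : Red lead d (p + 1) m) : Red lead d p m :=
  ⟨w.1, w.2.1, fun c hc => w.2.2 c (by omega)⟩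

/-- Adding `d p` at `lead p`. -/
noncomputable def HilbA_high {σ : Type*} {r : ℕ} {lead : Fin r → σ}
    (hlead : Function.Injective lead) (d : Fin r → ℕ) (p : Fin r) (m : ℕ) (hm : d p ≤ m)
    (w : Red lead d p (m - d p)) : Red lead d p m :=
  ⟨w.1 + Finsupp.single (lead p) (d p), by
    rw [map_add, Finsupp.degree_single, w.2.1]
    omega, by
    classical
    intro c hc
    have h1 : lead c ≠ lead p := by
      intro h
      have h2 := hlead h
      rw [h2] at hc
      exact lt_irrefl _ hc
    have h3 := w.2.2 c hc
    rw [Finsupp.add_apply, Finsupp.single_apply, if_neg (Ne.symm h1), add_zero]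
    exact h3⟩

theorem card_red_succ {σ : Type*} [Finite σ] {r : ℕ} {lead : Fin r → σ}
    (hlead : Function.Injective lead) (d : Fin r → ℕ) (p : Fin r) (m : ℕ) (hm : d p ≤ m) :
    Nat.card (Red lead d p m) =
      Nat.card (Red lead d (p + 1) m) + Nat.card (Red lead d p (m - d p)) := by
  classical
  rw [← Nat.card_sum]
  symm
  refine Nat.card_congr (Equiv.ofBijective
    (Sum.elim (HilbA_low lead d p m) (HilbA_high hlead d p m hm)) ⟨?_, ?_⟩)
  · have key : ∀ (a : Red lead d (p + 1) m) (b : Red lead d p (m - d p)),
        HilbA_low lead d p m a ≠ HilbA_high hlead d p m hm b := by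
      intro a b hab
      have h1 : a.1 = b.1 + Finsupp.single (lead p) (d p) :=
        congrArg (fun z : Red lead d p m => z.1) hab
      have h2 := a.2.2 p (by omega)
      rw [h1, Finsupp.add_apply, Finsupp.single_eq_same] at h2
      omega
    rintro (a | a) (b | b) hab
    · have h1 : a.1 = b.1 := congrArg (fun z : Red lead d p m => z.1) hab
      exact congrArg Sum.inl (Subtype.ext h1)
    · exact absurd hab (key a b)
    · exact absurd hab.symm (key b a)
    · have h1 : a.1 + Finsupp.single (lead p) (d p) = b.1 + Finsupp.single (lead p) (d p) :=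
        congrArg (fun z : Red lead d p m => z.1) hab
      exact congrArg Sum.inr (Subtype.ext (add_right_cancel h1))
  · intro w
    by_cases h : w.1 (lead p) < d p
    · refine ⟨Sum.inl ⟨w.1, w.2.1, fun c hc => ?_⟩, rfl⟩
      by_cases hcp : c = p
      · rw [hcp]; exact h
      · refine w.2.2 c ?_
        have h1 : c.val ≠ p.val := fun h2 => hcp (Fin.ext h2)
        omega
    · have h' : d p ≤ w.1 (lead p) := not_lt.mp h
      have h0 := sub_add_single h'
      refine ⟨Sum.inr ⟨w.1 - Finsupp.single (lead p) (d p), ?_, fun c hc => ?_⟩,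
        Subtype.ext h0⟩
      · have h1 := w.2.1
        rw [← h0, map_add, Finsupp.degree_single] at h1
        omega
      · have h1 := w.2.2 c hc
        refine lt_of_le_of_lt ?_ h1
        rw [Finsupp.coe_tsub, Pi.sub_apply]
        exact Nat.sub_le _ _

theorem card_red_succ' {σ : Type*} [Finite σ] {r : ℕ} {lead : Fin r → σ}
    (hlead : Function.Injective lead) (d : Fin r → ℕ) (p : Fin r) (m : ℕ) (hm : m < d p) :
    Nat.card (Red lead d p m) = Nat.card (Red lead d (p + 1) m) := by
  classical
  symm
  refine Nat.card_congr (Equiv.ofBijective (HilbA_low lead d p m) ⟨?_, ?_⟩)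
  · intro a b hab
    have h1 : a.1 = b.1 := congrArg (fun z : Red lead d p m => z.1) hab
    exact Subtype.ext h1
  · intro w
    have h : w.1 (lead p) < d p := by
      exact lt_of_le_of_lt ((Finsupp.le_degree (lead p) w.1).trans_eq w.2.1) hm
    refine ⟨⟨w.1, w.2.1, fun c hc => ?_⟩, rfl⟩
    by_cases hcp : c = p
    · rw [hcp]; exact h
    · refine w.2.2 c ?_
      have h1 : c.val ≠ p.val := fun h2 => hcp (Fin.ext h2)
      omega

end Pool.Agent.Lib_MP_c7e57a
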