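import Pool.Agent.Lib_MP_c7e57a.HilbA

/-!
# Piece CI-HB: the forms in an ideal, one more generator

`Wsub F p m` is the space of the forms of degree `m` in the ideal generated by `F c`, `c < p`.

`Wsub_succ_le`: let `u` be a form of degree `m` in the ideal of `F c`, `c < p + 1`, i.e.
`u = ∑_{c ≤ p} A_c F_c` (`Submodule.mem_span_image_iff_exists_fun` or
`Ideal.mem_span_insert`: `u = A F_p + u'` with `u'` in the ideal of the `F c`, `c < p`). Taking
homogeneous components of degree `m` (the ideal of the `F c`, `c < p`, is homogeneous: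
`Ideal.homogeneous_span` for `homogeneousSubmodule`, so the component of `u'` is again in it; the
component of `A F_p` of degree `m` is `A' F_p`, where `A'` is the component of `A` of degree
`m - d p` if `d p ≤ m`, and `0` if `m < d p`), we get `u = A' F_p + u''`. By the hypothesis `h`
(for the degree `m - d p`) `A' = v + w` with `v` in the ideal of the `F c`, `c < p`, homogeneous
(`v = A' - w`) and `w` in the span of the monomials with exponents in `Red p (m - d p)`. So
`u = w F_p + (v F_p + u'')`, the second summand is in `Wsub F p m`. Hence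
`Wsub F (p + 1) m ≤ Wsub F p m ⊔ span {monomial e 1 * F_p | e ∈ Red p (m - d p)}` and the claim
follows (`Submodule.finrank_add_le_finrank_add_finrank`, `finrank_range_le_card`; all spaces are
finite-dimensional because they are contained in the space of the forms of degree `m`, which is
spanned by finitely many monomials).
-/

namespace Pool.Agent.Lib_MP_c7e57a

open MvPolynomial

/-- The forms of degree `m` in the ideal of the first `p` forms. -/
noncomputable def Wsub {K : Type*} [Field K] {σ : Type*} {r : ℕ} (F : Fin r → MvPolynomial σ K)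
    (p m : ℕ) : Submodule K (MvPolynomial σ K) :=
  homogeneousSubmodule σ K m ⊓
    (Ideal.span (F '' {c | c.val < p})).restrictScalars K

instance {K : Type*} [Field K] {σ : Type*} [Finite σ] (m : ℕ) :
    FiniteDimensional K (homogeneousSubmodule σ K m) := by
  have hfin : Finite {w : σ →₀ ℕ // w.degree = m} := Finsupp.finite_of_degree_eq m
  have h1 : (Set.range fun w : {w : σ →₀ ℕ // w.degree = m} => monomial (R := K) w.1 1).Finite :=
    Set.finite_range _
  have h2 : FiniteDimensional K (Submodule.span K
      (Set.range fun w : {w : σ →₀ ℕ // w.degree = m} => monomial (R := K) w.1 1)) :=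
    FiniteDimensional.span_of_finite K h1
  refine Submodule.finiteDimensional_of_le (S₂ := Submodule.span K
      (Set.range fun w : {w : σ →₀ ℕ // w.degree = m} => monomial (R := K) w.1 1)) ?_
  intro u hu
  rw [mem_homogeneousSubmodule] at hu
  rw [u.as_sum]
  refine Submodule.sum_mem _ fun e he => ?_
  have h3 : e.degree = m := by
    rw [Finsupp.degree_eq_weight_one]
    exact hu (mem_support_iff.1 he)
  have h4 : monomial e (coeff e u) = coeff e u • monomial (R := K) e 1 := by
    rw [smul_monomial, smul_eq_mul, mul_one]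
  rw [h4]
  exact Submodule.smul_mem _ _ (Submodule.subset_span ⟨⟨e, h3⟩, rfl⟩)

private theorem HilbB_fd {K : Type*} [Field K] {σ : Type*} [Finite σ] {r : ℕ}
    (F : Fin r → MvPolynomial σ K) (p m : ℕ) : FiniteDimensional K (Wsub F p m) :=
  Submodule.finiteDimensional_of_le (S₂ := homogeneousSubmodule σ K m) inf_le_left

attribute [local instance] MvPolynomial.gradedAlgebra

/-- an element of the ideal with one more generator -/
private theorem HilbB_split {K : Type*} [Field K] {σ : Type*} {r : ℕ}
    {d : Fin r → ℕ} {F : Fin r → MvPolynomial σ K} (hF : ∀ c, (F c).IsHomogeneous (d c))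
    (p : Fin r) (m : ℕ) {u : MvPolynomial σ K} (hu : u ∈ Wsub F (p + 1) m) :
    ∃ z ∈ Wsub F p m, (∃ a : MvPolynomial σ K, a.IsHomogeneous (m - d p) ∧ d p ≤ m ∧
      u = a * F p + z) ∨ (m < d p ∧ u = z) := by
  obtain ⟨hu1, hu2⟩ := hu
  have h1 : {c : Fin r | c.val < (p : ℕ) + 1} = insert p {c : Fin r | c.val < (p : ℕ)} := by
    ext c
    simp only [Set.mem_ofPred_eq, Set.mem_insert_iff, Fin.ext_iff]
    omega
  have hu3 : u ∈ Ideal.span (F '' {c : Fin r | c.val < (p : ℕ) + 1}) := hu2
  rw [h1, Set.image_insert_eq, Ideal.mem_span_insert] at hu3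
  obtain ⟨a, z, hz, huz⟩ := hu3
  have hI : (Ideal.span (F '' {c : Fin r | c.val < (p : ℕ)})).IsHomogeneous
      (homogeneousSubmodule σ K) := by
    refine Ideal.homogeneous_span _ _ ?_
    rintro _ ⟨c, -, rfl⟩
    exact ⟨d c, (mem_homogeneousSubmodule _ _).2 (hF c)⟩
  have hz' : (DirectSum.decompose (homogeneousSubmodule σ K) z m : MvPolynomial σ K) ∈
      Wsub F p m := by
    refine ⟨?_, ?_⟩
    · exact (DirectSum.decompose (homogeneousSubmodule σ K) z m).2
    · exact hI m hz
  have hFp : F p ∈ homogeneousSubmodule σ K (d p) := (mem_homogeneousSubmodule _ _).2 (hF p)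
  have h2 : (DirectSum.decompose (homogeneousSubmodule σ K) u m : MvPolynomial σ K) = u :=
    DirectSum.decompose_of_mem_same _ hu1
  have h3 : (DirectSum.decompose (homogeneousSubmodule σ K) u m : MvPolynomial σ K) =
      (DirectSum.decompose (homogeneousSubmodule σ K) (a * F p) m : MvPolynomial σ K) +
      (DirectSum.decompose (homogeneousSubmodule σ K) z m : MvPolynomial σ K) := by
    rw [huz, DirectSum.decompose_add, DirectSum.add_apply, Submodule.coe_add]
  refine ⟨_, hz', ?_⟩
  by_cases hm : d p ≤ m
  · left
    refine ⟨(DirectSum.decompose (homogeneousSubmodule σ K) a (m - d p) : MvPolynomial σ K),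
      ?_, hm, ?_⟩
    · exact (mem_homogeneousSubmodule _ _).1
        (DirectSum.decompose (homogeneousSubmodule σ K) a (m - d p)).2
    · rw [DirectSum.coe_decompose_mul_of_right_mem_of_le _ hFp hm] at h3
      rw [← h3, h2]
  · right
    refine ⟨not_le.1 hm, ?_⟩
    rw [DirectSum.coe_decompose_mul_of_right_mem_of_not_le _ hFp hm, zero_add] at h3
    rw [← h3, h2]

theorem finrank_Wsub_succ {K : Type*} [Field K] {σ : Type*} [Finite σ] {r : ℕ} {lead : Fin r → σ}
    {d : Fin r → ℕ} {F : Fin r → MvPolynomial σ K} (hF : ∀ c, (F c).IsHomogeneous (d c))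
    (p : Fin r) (m : ℕ) (hm : d p ≤ m)
    (h : ∀ u : MvPolynomial σ K, u.IsHomogeneous (m - d p) →
      ∃ v ∈ Ideal.span (F '' {c | c.val < p.val}), ∃ w : MvPolynomial σ K, u = v + w ∧
        w.IsHomogeneous (m - d p) ∧ ∀ e ∈ w.support, ∀ c : Fin r, c.val < p.val →
          e (lead c) < d c) :
    Module.finrank K (Wsub F (p + 1) m) ≤
      Module.finrank K (Wsub F p m) + Nat.card (Red lead d p (m - d p)) := by
  classical
  let g : Red lead d p (m - d p) → MvPolynomial σ K := fun e => monomial (R := K) e.1 1 * F p
  have hle : Wsub F (p + 1) m ≤ Wsub F p m ⊔ Submodule.span K (Set.range g) := by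
    intro u hu
    obtain ⟨z, hz, h1 | h1⟩ := HilbB_split hF p m hu
    · obtain ⟨a, ha, -, hua⟩ := h1
      obtain ⟨v, hv, w, haw, hw, hred⟩ := h a ha
      have hvw : v = a - w := by rw [haw]; ring
      have hvh : v.IsHomogeneous (m - d p) := by
        rw [hvw]
        exact ha.sub hw
      have h2 : u = (v * F p + z) + w * F p := by
        rw [hua, haw]
        ring
      rw [h2]
      refine Submodule.add_mem_sup (Submodule.add_mem _ ⟨?_, ?_⟩ hz) ?_
      · have h3 := hvh.mul (hF p)
        rw [Nat.sub_add_cancel hm] at h3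
        exact (mem_homogeneousSubmodule _ _).2 h3
      · exact Ideal.mul_mem_right _ _ hv
      · rw [w.as_sum, Finset.sum_mul]
        refine Submodule.sum_mem _ fun e he => ?_
        have h4 : monomial e (coeff e w) * F p = coeff e w • (monomial (R := K) e 1 * F p) := by
          rw [← smul_mul_assoc, smul_monomial, smul_eq_mul, mul_one]
        rw [h4]
        refine Submodule.smul_mem _ _ (Submodule.subset_span ⟨⟨e, ?_, ?_⟩, rfl⟩)
        · rw [Finsupp.degree_eq_weight_one]
          exact hw (mem_support_iff.1 he)
        · exact fun c hc => hred e he c hc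
    · rw [h1.2]
      exact Submodule.mem_sup_left hz
  have hfd1 := HilbB_fd F p m
  have hfin : Finite (Red lead d p (m - d p)) := inferInstance
  have hfd2 : FiniteDimensional K (Submodule.span K (Set.range g)) :=
    FiniteDimensional.span_of_finite K (Set.finite_range g)
  have h5 : Module.finrank K (Submodule.span K (Set.range g)) ≤
      Nat.card (Red lead d p (m - d p)) := by
    have : Fintype (Red lead d p (m - d p)) := Fintype.ofFinite _
    rw [Nat.card_eq_fintype_card]
    exact finrank_range_le_card g
  calc Module.finrank K (Wsub F (p + 1) m)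
      ≤ Module.finrank K (Wsub F p m ⊔ Submodule.span K (Set.range g) :
          Submodule K (MvPolynomial σ K)) := Submodule.finrank_mono hle
    _ ≤ Module.finrank K (Wsub F p m) + Module.finrank K (Submodule.span K (Set.range g)) :=
        Submodule.finrank_add_le_finrank_add_finrank _ _
    _ ≤ _ := Nat.add_le_add_left h5 _

theorem finrank_Wsub_succ' {K : Type*} [Field K] {σ : Type*} [Finite σ] {r : ℕ}
    {d : Fin r → ℕ} {F : Fin r → MvPolynomial σ K} (hF : ∀ c, (F c).IsHomogeneous (d c))
    (p : Fin r) (m : ℕ) (hm : m < d p) :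
    Module.finrank K (Wsub F (p + 1) m) ≤ Module.finrank K (Wsub F p m) := by
  have hfd := HilbB_fd F p m
  refine Submodule.finrank_mono fun u hu => ?_
  obtain ⟨z, hz, h1 | h1⟩ := HilbB_split hF p m hu
  · obtain ⟨a, -, h2, -⟩ := h1
    omega
  · rw [h1.2]
    exact hz

end Pool.Agent.Lib_MP_c7e57a
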