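import Pool.Agent.Lib_MP_c7e57a.Near

/-!
# Piece CI-H: homogenisation

`dehz` sets the last of the variables `z` equal to `1`. The proofs are analogous to `exists_homog`,
`deh_rename` in Core.lean: `exists_homogz` multiplies each monomial of `v` by the right power of
the last variable (`rename (Sum.map id Fin.castSucc)` embeds the smaller polynomial ring);
`aeval_dehz` and `pderiv_dehz` by induction on `u` (`MvPolynomial.induction_on`; for `pderiv_dehz`
use the Leibniz rule and `pderiv_X`; note that `pderiv` of the last variable in the directions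
`Sum.map id Fin.castSucc i` vanishes).
-/

namespace Pool.Agent.Lib_MP_c7e57a

open MvPolynomial

variable {n q : ℕ}

/-- Set the last variable equal to `1`. -/
noncomputable def dehz : MvPolynomial (Vars n q) ℂ →ₐ[ℂ] MvPolynomial (Fin (n + 1) ⊕ Fin q) ℂ :=
  aeval (Sum.elim (fun b => X (Sum.inl b))
    (fun s => Fin.lastCases (motive := fun _ => MvPolynomial (Fin (n + 1) ⊕ Fin q) ℂ) 1
      (fun s' => X (Sum.inr s')) s))

private theorem Homog_last :
    (dehz (X (Sum.inr (Fin.last q))) : MvPolynomial (Fin (n + 1) ⊕ Fin q) ℂ) = 1 := by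
  unfold dehz
  rw [aeval_X, Sum.elim_inr, Fin.lastCases_last]

private theorem Homog_emb (i : Fin (n + 1) ⊕ Fin q) :
    (dehz (X (Sum.map id Fin.castSucc i)) : MvPolynomial (Fin (n + 1) ⊕ Fin q) ℂ) = X i := by
  unfold dehz
  rw [aeval_X]
  rcases i with b | s
  · rfl
  · rw [Sum.map_inr, Sum.elim_inr, Fin.lastCases_castSucc]

/-- every variable is the last one or comes from the smaller polynomial ring -/
private theorem Homog_cases (s : Vars n q) :
    s = Sum.inr (Fin.last q) ∨ ∃ i : Fin (n + 1) ⊕ Fin q, s = Sum.map id Fin.castSucc i := by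
  rcases s with b | t
  · exact Or.inr ⟨Sum.inl b, rfl⟩
  · induction t using Fin.lastCases with
    | last => exact Or.inl rfl
    | cast t => exact Or.inr ⟨Sum.inr t, rfl⟩

private theorem Homog_inj :
    Function.Injective (Sum.map id Fin.castSucc : Fin (n + 1) ⊕ Fin q → Vars n q) :=
  Sum.map_injective.2 ⟨Function.injective_id, Fin.castSucc_injective q⟩

private theorem Homog_ne (i : Fin (n + 1) ⊕ Fin q) :
    (Sum.map id Fin.castSucc i : Vars n q) ≠ Sum.inr (Fin.last q) := by
  rcases i with b | s
  · exact Sum.inl_ne_inr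
  · intro h
    rw [Sum.map_inr] at h
    exact (Fin.castSucc_lt_last s).ne (Sum.inr_injective h)

private theorem Homog_rename (v : MvPolynomial (Fin (n + 1) ⊕ Fin q) ℂ) :
    dehz (rename (Sum.map id Fin.castSucc) v : MvPolynomial (Vars n q) ℂ) = v := by
  induction v using MvPolynomial.induction_on with
  | C a =>
    rw [rename_C, ← algebraMap_eq, AlgHom.commutes, algebraMap_eq]
  | add p q hp hq => rw [map_add, map_add, hp, hq]
  | mul_X p s hp => rw [map_mul, map_mul, hp, rename_X, Homog_emb]

theorem exists_homogz {k : ℕ} {v : MvPolynomial (Fin (n + 1) ⊕ Fin q) ℂ}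
    (hv : v.totalDegree ≤ k) :
    ∃ u : MvPolynomial (Vars n q) ℂ, u.IsHomogeneous k ∧ dehz u = v := by
  refine ⟨∑ s ∈ v.support, X (Sum.inr (Fin.last q)) ^ (k - s.degree) *
    rename (Sum.map id Fin.castSucc) (monomial s (coeff s v)), ?_, ?_⟩
  · apply IsHomogeneous.sum
    intro s hs
    have h0 : s.degree ≤ k := le_trans (le_totalDegree hs) hv
    have h1 : (X (Sum.inr (Fin.last q)) ^ (k - s.degree) :
        MvPolynomial (Vars n q) ℂ).IsHomogeneous (k - s.degree) := isHomogeneous_X_pow _ _
    have h2 : (rename (Sum.map id Fin.castSucc) (monomial s (coeff s v)) :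
        MvPolynomial (Vars n q) ℂ).IsHomogeneous s.degree :=
      (isHomogeneous_monomial _ rfl).rename_isHomogeneous
    have h3 := h1.mul h2
    rwa [Nat.sub_add_cancel h0] at h3
  · rw [map_sum]
    conv_rhs => rw [v.as_sum]
    refine Finset.sum_congr rfl fun s _ => ?_
    rw [map_mul, map_pow, Homog_last, one_pow, one_mul, Homog_rename]

theorem aeval_dehz {A : Type*} [CommRing A] [Algebra ℂ A] (x : Vars n q → A)
    (hx : x (Sum.inr (Fin.last q)) = 1) (u : MvPolynomial (Vars n q) ℂ) :
    aeval x u = aeval (fun i => x (Sum.map id Fin.castSucc i)) (dehz u) := by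
  induction u using MvPolynomial.induction_on with
  | C a => rw [← algebraMap_eq, AlgHom.commutes, AlgHom.commutes, AlgHom.commutes]
  | add p q hp hq => rw [map_add, map_add, map_add, hp, hq]
  | mul_X p s hp =>
    rw [map_mul, map_mul, map_mul, hp, aeval_X]
    congr 1
    rcases Homog_cases s with rfl | ⟨i, rfl⟩
    · rw [Homog_last, map_one, hx]
    · rw [Homog_emb, aeval_X]

theorem pderiv_dehz (i : Fin (n + 1) ⊕ Fin q) (u : MvPolynomial (Vars n q) ℂ) :
    dehz (pderiv (Sum.map id Fin.castSucc i) u) = pderiv i (dehz u) := by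
  classical
  induction u using MvPolynomial.induction_on with
  | C a =>
    rw [pderiv_C, map_zero, ← algebraMap_eq, AlgHom.commutes, algebraMap_eq, pderiv_C]
  | add p q hp hq => rw [map_add, map_add, map_add, map_add, hp, hq]
  | mul_X p s hp =>
    rw [pderiv_mul, map_add, map_mul, map_mul, map_mul, pderiv_mul, hp]
    congr 2
    rcases Homog_cases s with rfl | ⟨k, rfl⟩
    · rw [Homog_last, pderiv_one, pderiv_X_of_ne (Homog_ne i).symm, map_zero]
    · rw [Homog_emb]
      by_cases h : k = i
      · subst h
        rw [pderiv_X_self, pderiv_X_self, map_one]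
      · rw [pderiv_X_of_ne h, pderiv_X_of_ne (fun h2 => h (Homog_inj h2)), map_zero]

end Pool.Agent.Lib_MP_c7e57a
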