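import Pool.Agent.Lib_MP_c7e57a.Solve

/-!
# Values of one-variable polynomials at jets
-/

namespace Pool.Agent.Lib_MP_c7e57a

open MvPolynomial

variable {i : ℕ}

theorem jet_eval {x : MvPolynomial (Fin i) ℂ} {β : ℂ} (hx : x - C β ∈ idealOfVars (Fin i) ℂ)
    {P T : Polynomial ℂ} {M J : ℕ} (h : (Polynomial.X - Polynomial.C β) ^ M ∣ P - T)
    (hJ : J ≤ M) :
    Polynomial.aeval x P - Polynomial.aeval x T ∈ (idealOfVars (Fin i) ℂ) ^ J := by
  obtain ⟨Q, hQ⟩ := h
  rw [← map_sub, hQ, map_mul, map_pow, map_sub, Polynomial.aeval_X, Polynomial.aeval_C]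
  exact Ideal.pow_le_pow_right hJ (Ideal.mul_mem_right _ _ (Ideal.pow_mem_pow hx M))

theorem jet_eval_derivative {x : MvPolynomial (Fin i) ℂ} {β : ℂ}
    (hx : x - C β ∈ idealOfVars (Fin i) ℂ) {P T : Polynomial ℂ} {M J : ℕ}
    (h : (Polynomial.X - Polynomial.C β) ^ M ∣ P - T) (hJ : J ≤ M - 1) :
    Polynomial.aeval x (Polynomial.derivative P) - Polynomial.aeval x (Polynomial.derivative T) ∈
      (idealOfVars (Fin i) ℂ) ^ J := by
  have h1 := Polynomial.pow_sub_one_dvd_derivative_of_pow_dvd h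
  rw [Polynomial.derivative_sub] at h1
  exact jet_eval hx h1 hJ

theorem X_mem (s : Fin i) : (X s : MvPolynomial (Fin i) ℂ) ∈ idealOfVars (Fin i) ℂ :=
  Ideal.subset_span ⟨s, rfl⟩

theorem sub_const_mem (x : MvPolynomial (Fin i) ℂ) :
    x - C (constantCoeff x) ∈ idealOfVars (Fin i) ℂ := by
  have h1 : x - C (constantCoeff x) ∈ (idealOfVars (Fin i) ℂ) ^ 1 := by
    rw [const_of_mem, map_sub, constantCoeff_C, sub_self]
  rwa [pow_one] at h1

theorem eval_of_dvd {β : ℂ} {P T : Polynomial ℂ} {M : ℕ} (hM : 1 ≤ M)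
    (h : (Polynomial.X - Polynomial.C β) ^ M ∣ P - T) : P.eval β = T.eval β := by
  obtain ⟨Q, hQ⟩ := h
  have h1 : (P - T).eval β = 0 := by
    rw [hQ, Polynomial.eval_mul, Polynomial.eval_pow, Polynomial.eval_sub, Polynomial.eval_X,
      Polynomial.eval_C, sub_self, zero_pow (by omega), zero_mul]
  rw [Polynomial.eval_sub, sub_eq_zero] at h1
  exact h1

theorem eval_derivative_of_dvd {β : ℂ} {P T : Polynomial ℂ} {M : ℕ} (hM : 2 ≤ M)
    (h : (Polynomial.X - Polynomial.C β) ^ M ∣ P - T) :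
    (Polynomial.derivative P).eval β = (Polynomial.derivative T).eval β := by
  have h1 := Polynomial.pow_sub_one_dvd_derivative_of_pow_dvd h
  rw [Polynomial.derivative_sub] at h1
  exact eval_of_dvd (by omega) h1

end Pool.Agent.Lib_MP_c7e57a
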