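import Pool.Agent.Lib_MP_c7e57a.Crt
import Pool.Agent.Lib_MP_c7e57a.JetDim

/-!
# Piece CI-L: polynomials whose jets span

The points are `(t a, ..., t a) ∈ ℂ^i`, `a ∈ φ`, with distinct `t a`. The polynomial `V s` is
prescribed for `s < i` (the variable `X s`) and for the last index (`1`). We want that in each
group `{a | g a = g₀}` the jets of the `V s` (of order `< j a` at the point of `a`) span the sum of
the algebras of jets.

Proof. Fix `g₀`; let `A_g₀ = ∏_{g a = g₀} ℂ[X]/m^(j a)`, of dimension at most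
`∑ (i + j a - 1).choose i ≤ q + 1` (piece CI-J). If the group is not empty then, as `j a ≥ 2`, the
images of `1, X_1, ..., X_i` under `f ↦ (f(X + t a))_a` are linearly independent in `A_g₀`. Linear
algebra: in a vector space `A` of dimension at most `q + 1`, a linearly independent family
`(u_s)_{s < i or s = q}` can be extended to a family `(u_s)_{s ≤ q}` that spans `A`. Finally choose
for `i ≤ s < q` a polynomial `V s` with the prescribed jets at all points of all groups: if
`e a ∈ ℂ[T]` has `e a ≡ 1 mod (T - t a)^M` and `e a ≡ 0 mod (T - t a')^M` for `a' ≠ a` with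
`M ≥ j a` for all `a` (piece CI-C), take `∑_a (e a)(X_1) u_a(X - t a)`.
-/

namespace Pool.Agent.Lib_MP_c7e57a

open MvPolynomial

/-- A linearly independent family indexed by a part of a finite type extends to a spanning family
if the dimension is at most the number of indices. -/
theorem Lifts_extend {A : Type*} [AddCommGroup A] [Module ℂ A] [Module.Finite ℂ A] {ι : Type*}
    [Fintype ι] (hA : Module.finrank ℂ A ≤ Fintype.card ι) (P : ι → Prop) [DecidablePred P]
    (v : {s // P s} → A) (hv : LinearIndependent ℂ v) :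
    ∃ u : ι → A, (∀ s, u s.1 = v s) ∧ Submodule.span ℂ (Set.range u) = ⊤ := by
  classical
  obtain ⟨W, hW⟩ := Submodule.exists_isCompl (Submodule.span ℂ (Set.range v))
  have h1 := Submodule.finrank_add_eq_of_isCompl hW
  have h2 := finrank_span_eq_card hv
  have h3 := Fintype.card_subtype_compl P
  have h3' := Fintype.card_subtype_le P
  let b := Module.finBasis ℂ W
  have h4 : Fintype.card (Fin (Module.finrank ℂ W)) ≤ Fintype.card {s // ¬ P s} := by
    rw [Fintype.card_fin]; omega
  obtain ⟨e⟩ := Function.Embedding.nonempty_of_card_le h4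
  refine ⟨fun s => if h : P s then v ⟨s, h⟩ else
    Function.extend e (fun k => (b k : A)) 0 ⟨s, h⟩, ?_, ?_⟩
  · rintro ⟨s, hs⟩
    simp [hs]
  · rw [eq_top_iff, ← hW.sup_eq_top]
    refine sup_le ?_ ?_
    · rw [Submodule.span_le]
      rintro _ ⟨s, rfl⟩
      refine Submodule.subset_span ⟨s.1, ?_⟩
      simp [s.2]
    · have : W = Submodule.span ℂ (Set.range fun k => (b k : A)) := by
        have h5 := b.span_eq
        have h6 := congrArg (Submodule.map W.subtype) h5
        rw [Submodule.map_span, ← Set.range_comp, Submodule.map_top, Submodule.range_subtype] at h6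
        exact h6.symm
      refine this.le.trans ?_
      rw [Submodule.span_le]
      rintro _ ⟨k, rfl⟩
      refine Submodule.subset_span ⟨(e k).1, ?_⟩
      have := (e k).2
      simp only [dif_neg this, Subtype.coe_eta]
      exact e.injective.extend_apply _ _ _

/-- the translation by `(c, ..., c)` -/
theorem Lifts_shift {i : ℕ} (c : ℂ) (f : MvPolynomial (Fin i) ℂ) :
    aeval (fun x => X x + C c : Fin i → MvPolynomial (Fin i) ℂ)
      (aeval (fun x => X x - C c : Fin i → MvPolynomial (Fin i) ℂ) f) = f := by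
  rw [← AlgHom.comp_apply]
  have : ((aeval (fun x => X x + C c : Fin i → MvPolynomial (Fin i) ℂ)).comp
      (aeval (fun x => X x - C c : Fin i → MvPolynomial (Fin i) ℂ))) = AlgHom.id ℂ _ := by
    ext x : 1
    simp [algHom_C]
  rw [this, AlgHom.id_apply]

/-- the jets of `1` and of the variables are linearly independent -/
theorem Lifts_indep {i n : ℕ} (hn : 2 ≤ n) (c : ℂ) (d : Fin i → ℂ) (d₀ : ℂ)
    (h : ∑ s, C (d s) * (X s + C c) + C d₀ ∈ (idealOfVars (Fin i) ℂ) ^ n) :
    (∀ s, d s = 0) ∧ d₀ = 0 := by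
  classical
  rw [mem_pow_idealOfVars_iff'] at h
  have h1 : ∀ s, d s = 0 := by
    intro s
    have := h (Finsupp.single s 1) (by simp; omega)
    simp only [coeff_add, coeff_sum, coeff_C_mul, coeff_X, coeff_C] at this
    have h0 : (0 : Fin i →₀ ℕ) ≠ Finsupp.single s 1 := by
      intro h0
      have := DFunLike.congr_fun h0 s
      simp at this
    simp only [h0, if_false, add_zero, mul_ite, mul_one, mul_zero] at this
    rw [Finset.sum_eq_single s] at this
    · simpa using this
    · intro b _ hb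
      rw [if_neg]
      intro hh
      exact hb (Finsupp.single_left_injective one_ne_zero hh)
    · simp
  refine ⟨h1, ?_⟩
  have := h 0 (by simp; omega)
  simpa [h1] using this

/-- polynomials with prescribed jets at the points `(t a, ..., t a)` -/
theorem Lifts_interpolate {i : ℕ} (hi : 1 ≤ i) {φ : Type*} [Fintype φ] [DecidableEq φ]
    (j : φ → ℕ) {t : φ → ℂ} (ht : Function.Injective t) (U : φ → MvPolynomial (Fin i) ℂ) :
    ∃ V : MvPolynomial (Fin i) ℂ, ∀ a, aeval (fun x => X x + C (t a) :
      Fin i → MvPolynomial (Fin i) ℂ) V - U a ∈ (idealOfVars (Fin i) ℂ) ^ (j a) := by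
  classical
  have hex : ∀ a : φ, ∃ P : Polynomial ℂ, ∀ b : φ,
      (Polynomial.X - Polynomial.C (t b)) ^ (∑ a, j a) ∣ P - if b = a then 1 else 0 := by
    intro a
    obtain ⟨P, -, hP⟩ := exists_jets (Finset.univ.image t) (∑ a, j a)
      (fun β => if β = t a then 1 else 0)
    refine ⟨P, fun b => ?_⟩
    have := hP (t b) (by simp)
    simpa only [ht.eq_iff] using this
  choose e he using hex
  let x₀ : Fin i := ⟨0, hi⟩
  refine ⟨∑ a, Polynomial.aeval (X x₀ : MvPolynomial (Fin i) ℂ) (e a) *
    aeval (fun x => X x - C (t a) : Fin i → MvPolynomial (Fin i) ℂ) (U a), fun a => ?_⟩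
  have key : ∀ a', aeval (fun x => X x + C (t a) : Fin i → MvPolynomial (Fin i) ℂ)
      (Polynomial.aeval (X x₀ : MvPolynomial (Fin i) ℂ) (e a')) - (if a = a' then 1 else 0) ∈
      (idealOfVars (Fin i) ℂ) ^ (j a) := by
    intro a'
    obtain ⟨w, hw⟩ := he a' a
    have h1 := congrArg (fun p => Polynomial.aeval (X x₀ + C (t a) : MvPolynomial (Fin i) ℂ) p) hw
    simp only [map_sub, map_mul, map_pow, Polynomial.aeval_X, Polynomial.aeval_C] at h1
    have h2 : aeval (fun x => X x + C (t a) : Fin i → MvPolynomial (Fin i) ℂ)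
        (Polynomial.aeval (X x₀ : MvPolynomial (Fin i) ℂ) (e a')) =
        Polynomial.aeval (X x₀ + C (t a) : MvPolynomial (Fin i) ℂ) (e a') := by
      rw [← Polynomial.aeval_algHom_apply, aeval_X]
    have h3 : (Polynomial.aeval (X x₀ + C (t a) : MvPolynomial (Fin i) ℂ))
        (if a = a' then (1 : Polynomial ℂ) else 0) = if a = a' then 1 else 0 := by
      split_ifs <;> simp
    rw [h3] at h1
    rw [h2, h1]
    have h4 : (X x₀ + C (t a) - (algebraMap ℂ (MvPolynomial (Fin i) ℂ)) (t a)) = X x₀ := by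
      rw [algebraMap_eq]; ring
    rw [h4]
    refine Ideal.mul_mem_right _ _ ?_
    have h5 : j a ≤ ∑ a, j a := Finset.single_le_sum (fun _ _ => Nat.zero_le _) (Finset.mem_univ a)
    refine Ideal.pow_le_pow_right h5 ?_
    exact Ideal.pow_mem_pow (Ideal.subset_span (Set.mem_range_self x₀)) _
  rw [map_sum]
  have h6 : U a = ∑ a', (if a = a' then 1 else 0) *
      aeval (fun x => X x + C (t a) : Fin i → MvPolynomial (Fin i) ℂ)
        (aeval (fun x => X x - C (t a') : Fin i → MvPolynomial (Fin i) ℂ) (U a')) := by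
    rw [Finset.sum_eq_single a]
    · rw [if_pos rfl, one_mul, Lifts_shift]
    · intro b _ hb
      rw [if_neg (Ne.symm hb), zero_mul]
    · simp
  rw [h6]
  rw [← Finset.sum_sub_distrib]
  refine Ideal.sum_mem _ fun a' _ => ?_
  rw [map_mul, ← sub_mul]
  exact Ideal.mul_mem_right _ _ (key a')

/-- the same for a family indexed along an injective map -/
theorem Lifts_extend' {A : Type*} [AddCommGroup A] [Module ℂ A] [Module.Finite ℂ A] {ι κ : Type*}
    [Fintype ι] (hA : Module.finrank ℂ A ≤ Fintype.card ι) {r : κ → ι}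
    (hr : Function.Injective r) (v : κ → A) (hv : LinearIndependent ℂ v) :
    ∃ u : ι → A, (∀ k, u (r k) = v k) ∧ Submodule.span ℂ (Set.range u) = ⊤ := by
  classical
  obtain ⟨u, hu, hs⟩ := Lifts_extend hA (· ∈ Set.range r)
    (v ∘ (Equiv.ofInjective r hr).symm) (hv.comp _ (Equiv.injective _))
  refine ⟨u, fun k => ?_, hs⟩
  have := hu ⟨r k, k, rfl⟩
  rw [this, Function.comp_apply]
  congr 1
  rw [Equiv.symm_apply_eq]
  rfl

theorem Lifts_smul {i : ℕ} (I : Ideal (MvPolynomial (Fin i) ℂ)) (c : ℂ)
    (x : MvPolynomial (Fin i) ℂ) :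
    c • (Ideal.Quotient.mk I x) = Ideal.Quotient.mk I (C c * x) := by
  rw [← smul_eq_C_mul]
  rfl

theorem exists_lifts {i q G : ℕ} (hi : 1 ≤ i) (hiq : i ≤ q) {φ : Type*} [Fintype φ]
    [DecidableEq φ] (g : φ → Fin G) (j : φ → ℕ) (hj : ∀ a, 2 ≤ j a)
    (hC : ∀ g₀, ∑ a with g a = g₀, (i + j a - 1).choose i ≤ q + 1) {t : φ → ℂ}
    (ht : Function.Injective t) :
    ∃ V : Fin (q + 1) → MvPolynomial (Fin i) ℂ, V (Fin.last q) = 1 ∧
      (∀ (s : Fin (q + 1)) (hs : s.val < i), V s = X ⟨s.val, hs⟩) ∧
      ∀ (g₀ : Fin G) (h : φ → MvPolynomial (Fin i) ℂ), ∃ δ : Fin (q + 1) → ℂ,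
        ∀ a, g a = g₀ → ∑ s, C (δ s) * aeval (fun x => X x + C (t a) :
          Fin i → MvPolynomial (Fin i) ℂ) (V s) - h a ∈ (idealOfVars (Fin i) ℂ) ^ (j a) := by
  classical
  -- the algebra of jets
  let Q : φ → Type := fun a => MvPolynomial (Fin i) ℂ ⧸ (idealOfVars (Fin i) ℂ) ^ (j a)
  let T : φ → MvPolynomial (Fin i) ℂ → MvPolynomial (Fin i) ℂ := fun a =>
    aeval (fun x => X x + C (t a) : Fin i → MvPolynomial (Fin i) ℂ)
  have hfin : ∀ a, Module.Finite ℂ (Q a) := fun a => finite_quot (S := j a) le_rfl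
  let r : Option (Fin i) → Fin (q + 1) := fun o => o.elim (Fin.last q)
    (fun x => ⟨x.val, by have := x.2; omega⟩)
  have hr : Function.Injective r := by
    intro o o' h
    rcases o with _ | x <;> rcases o' with _ | y
    · rfl
    · exfalso
      have := congrArg Fin.val h
      simp only [r, Option.elim, Fin.val_last] at this
      have := y.2; omega
    · exfalso
      have := congrArg Fin.val h
      simp only [r, Option.elim, Fin.val_last] at this
      have := x.2; omega
    · have := congrArg Fin.val h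
      simp only [r, Option.elim] at this
      rw [Fin.ext this]
  let V₀ : Option (Fin i) → MvPolynomial (Fin i) ℂ := fun o => o.elim 1 X
  -- the spanning family of every group
  have hex : ∀ g₀ : Fin G, ∃ u : Fin (q + 1) → (∀ a : {a // g a = g₀}, Q a.1),
      (∀ o, ∀ a : {a // g a = g₀}, u (r o) a =
        Ideal.Quotient.mk ((idealOfVars (Fin i) ℂ) ^ (j a.1)) (T a.1 (V₀ o))) ∧
      ∀ z : (∀ a : {a // g a = g₀}, Q a.1), z ∈ Submodule.span ℂ (Set.range u) := by
    intro g₀
    by_cases hne : Nonempty {a // g a = g₀}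
    · have hdim : Module.finrank ℂ (∀ a : {a // g a = g₀}, Q a.1) ≤
          Fintype.card (Fin (q + 1)) := by
        rw [Module.finrank_pi_fintype, Fintype.card_fin]
        refine le_trans ?_ (hC g₀)
        rw [Finset.sum_subtype (Finset.univ.filter fun a => g a = g₀)
          (fun x => by simp : ∀ x, x ∈ Finset.univ.filter (fun a => g a = g₀) ↔ g x = g₀)]
        exact Finset.sum_le_sum fun a _ => finrank_jet i (j a)
      obtain ⟨a₀⟩ := hne
      have hli : LinearIndependent ℂ (fun (o : Option (Fin i)) (a : {a // g a = g₀}) =>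
          (Ideal.Quotient.mk ((idealOfVars (Fin i) ℂ) ^ (j a.1)) (T a.1 (V₀ o)) : Q a.1)) := by
        rw [Fintype.linearIndependent_iff]
        intro c hc
        have h1 := congrFun hc a₀
        rw [Finset.sum_apply] at h1
        simp only [Pi.smul_apply, Pi.zero_apply] at h1
        have h2 : ∀ o, c o • (Ideal.Quotient.mk ((idealOfVars (Fin i) ℂ) ^ (j a₀.1))
            (T a₀.1 (V₀ o)) : Q a₀.1) = (Ideal.Quotient.mk ((idealOfVars (Fin i) ℂ) ^ (j a₀.1))
            (C (c o) * T a₀.1 (V₀ o)) : Q a₀.1) := fun o => Lifts_smul _ _ _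
        simp only [h2] at h1
        have h3 : Ideal.Quotient.mk ((idealOfVars (Fin i) ℂ) ^ (j a₀.1))
            (∑ o, C (c o) * T a₀.1 (V₀ o)) = 0 := by
          rw [map_sum]; exact h1
        rw [Ideal.Quotient.eq_zero_iff_mem, Fintype.sum_option] at h3
        have h4 : C (c none) * T a₀.1 (V₀ none) + ∑ x, C (c (some x)) * T a₀.1 (V₀ (some x)) =
            ∑ s, C (c (some s)) * (X s + C (t a₀.1)) + C (c none) := by
          simp only [T, V₀, Option.elim, map_one, mul_one, aeval_X]
          ring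
        rw [h4] at h3
        obtain ⟨h5, h6⟩ := Lifts_indep (hj a₀.1) _ _ _ h3
        intro o
        rcases o with _ | x
        · exact h6
        · exact h5 x
      obtain ⟨u, hu, hs⟩ := Lifts_extend' hdim hr _ hli
      refine ⟨u, fun o a => congrFun (hu o) a, fun z => ?_⟩
      rw [hs]; trivial
    · have hem : IsEmpty {a // g a = g₀} := not_nonempty_iff.1 hne
      refine ⟨0, fun o a => (hem.false a).elim, fun z => ?_⟩
      rw [Subsingleton.elim z 0]
      exact Submodule.zero_mem _
  choose u hu hspan using hex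
  have hU : ∀ (s : Fin (q + 1)) (a : φ), ∃ U : MvPolynomial (Fin i) ℂ,
      (Ideal.Quotient.mk ((idealOfVars (Fin i) ℂ) ^ (j a)) U : Q a) = u (g a) s ⟨a, rfl⟩ :=
    fun s a => Ideal.Quotient.mk_surjective _
  choose U hU using hU
  have hV₁ : ∀ s : Fin (q + 1), _ := fun s => Lifts_interpolate hi j ht (U s)
  choose V₁ hV₁ using hV₁
  have hlast : ¬ (Fin.last q).val < i := by rw [Fin.val_last]; omega
  let V : Fin (q + 1) → MvPolynomial (Fin i) ℂ := fun s =>
    if hs : s.val < i then X ⟨s.val, hs⟩ else if s = Fin.last q then 1 else V₁ s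
  have hVX : ∀ (s : Fin (q + 1)) (hs : s.val < i), V s = X ⟨s.val, hs⟩ := by
    intro s hs
    simp only [V, dif_pos hs]
  have hV1 : V (Fin.last q) = 1 := by
    simp only [V, dif_neg hlast, if_true]
  refine ⟨V, hV1, hVX, ?_⟩
  have key : ∀ (s : Fin (q + 1)) (a : φ),
      (Ideal.Quotient.mk ((idealOfVars (Fin i) ℂ) ^ (j a)) (T a (V s)) : Q a) =
        u (g a) s ⟨a, rfl⟩ := by
    intro s a
    by_cases hs : s.val < i
    · have h1 : s = r (some ⟨s.val, hs⟩) := by apply Fin.ext; rfl
      have h2 := hu (g a) (some ⟨s.val, hs⟩) ⟨a, rfl⟩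
      rw [← h1] at h2
      rw [h2, hVX s hs]
      rfl
    · by_cases hs' : s = Fin.last q
      · have h1 : s = r none := hs'
        have h2 := hu (g a) none ⟨a, rfl⟩
        rw [← h1] at h2
        rw [h2, hs', hV1]
        rfl
      · have h1 : V s = V₁ s := by simp only [V, dif_neg hs, if_neg hs']
        rw [h1, ← hU s a]
        exact Ideal.Quotient.eq.2 (hV₁ s a)
  intro g₀ h
  have hz := hspan g₀ (fun a => Ideal.Quotient.mk _ (h a.1))
  rw [Submodule.mem_span_range_iff_exists_fun] at hz
  obtain ⟨δ, hδ⟩ := hz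
  refine ⟨δ, fun a ha => ?_⟩
  subst ha
  have h1 := congrFun hδ ⟨a, rfl⟩
  rw [Finset.sum_apply] at h1
  simp only [Pi.smul_apply, ← key] at h1
  rw [← Ideal.Quotient.eq, map_sum]
  rw [← h1]
  refine Finset.sum_congr rfl fun s _ => ?_
  exact (Lifts_smul _ _ _).symm

end Pool.Agent.Lib_MP_c7e57a
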