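import Mathlib

/-!
# Piece CI-MA: generators modulo the powers of the maximal ideal

Write `m` for the ideal of the variables, `R = K[X]` and `δ = dim R / ((G) + m^S) < S`. Let
`b_1, ..., b_δ` be lifts of a basis of `B = R / ((G) + m^S)` (this is finite-dimensional because it
is a quotient of `R / m^S`). The subspaces `m^k B` decrease with `k`; as `dim B = δ` there is
`k ≤ δ` with `m^k B = m^(k+1) B`, so `m^k B = m^(k + l) B` for all `l`, which is zero for
`k + l = S`. Hence `m^k ⊆ (G) + m^S ⊆ (G) + m^(k+1)` (as `k + 1 ≤ δ + 1 ≤ S`), and then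
`m^(k+l) ⊆ (G) + m^(k+l+1)` for all `l`, so `m^k ⊆ (G) + m^M` for all `M`, so also
`(G) + m^S ⊆ (G) + m^M` for all `M`. So every `f` is `∑ c_k b_k` plus an element of `(G) + m^M`.
-/

namespace Pool.Agent.Lib_MP_c7e57a

open MvPolynomial

/-- The quotient by an ideal containing `m^S` is finite-dimensional. -/
theorem MultA_finite {K : Type*} [Field K] {ρ : Type*} [Fintype ρ]
    (I : Ideal (MvPolynomial ρ K)) (S : ℕ) (hI : (idealOfVars ρ K) ^ S ≤ I) :
    Module.Finite K (MvPolynomial ρ K ⧸ I) := by
  let φ : restrictTotalDegree ρ K S →ₗ[K] (MvPolynomial ρ K ⧸ I) :=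
    (Ideal.Quotient.mkₐ K I).toLinearMap ∘ₗ (restrictTotalDegree ρ K S).subtype
  have hφ : Function.Surjective φ := by
    intro y
    obtain ⟨f, rfl⟩ := Ideal.Quotient.mk_surjective y
    induction f using MvPolynomial.induction_on' with
    | monomial u a =>
      by_cases h : S ≤ Finsupp.degree u
      · refine ⟨0, ?_⟩
        rw [map_zero]
        symm
        rw [Ideal.Quotient.eq_zero_iff_mem]
        apply hI
        rw [mem_pow_idealOfVars_iff]
        intro x hx
        by_cases hxu : x = u
        · rw [hxu]; exact h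
        · exfalso
          have : MvPolynomial.coeff x (MvPolynomial.monomial u a) = 0 := by
            classical
            rw [MvPolynomial.coeff_monomial, if_neg (fun e => hxu e.symm)]
          exact (MvPolynomial.mem_support_iff.1 hx) this
      · refine ⟨⟨MvPolynomial.monomial u a, ?_⟩, rfl⟩
        rw [mem_restrictTotalDegree]
        refine (MvPolynomial.totalDegree_monomial_le _ _).trans ?_
        have h' : Finsupp.degree u ≤ S := by omega
        exact h'
    | add p q hp hq =>
      obtain ⟨x, hx⟩ := hp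
      obtain ⟨y, hy⟩ := hq
      exact ⟨x + y, by rw [map_add, hx, hy, map_add]⟩
  exact Module.Finite.of_surjective φ hφ

/-- A decreasing chain of subspaces of a `δ`-dimensional space is stationary somewhere in the
first `δ + 1` steps. -/
theorem MultA_stationary {K : Type*} [Field K] {V : Type*} [AddCommGroup V] [Module K V]
    [Module.Finite K V] (N : ℕ → Submodule K V) (hN : ∀ k, N (k + 1) ≤ N k) {δ : ℕ}
    (hδ : Module.finrank K V = δ) : ∃ k ≤ δ, N (k + 1) = N k := by
  by_contra hcon
  push Not at hcon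
  have key : ∀ k, k ≤ δ + 1 → Module.finrank K (N k) + k ≤ δ := by
    intro k
    induction k with
    | zero =>
      intro _
      have := Submodule.finrank_le (N 0)
      omega
    | succ k ih =>
      intro hk
      have h1 := ih (by omega)
      have h2 : N (k + 1) < N k := lt_of_le_of_ne (hN k) (hcon k (by omega))
      have h3 := Submodule.finrank_lt_finrank_of_lt h2
      omega
  have := key (δ + 1) le_rfl
  omega

/-- The powers of the ideal of the variables below `k` are absorbed by the generators. -/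
theorem MultA_absorb {R : Type*} [CommRing R] (m J : Ideal R) (k : ℕ)
    (h : m ^ k ≤ m ^ (k + 1) ⊔ J) (l : ℕ) : m ^ k ≤ m ^ (k + l) ⊔ J := by
  induction l with
  | zero => exact le_sup_left
  | succ l ih =>
    refine ih.trans (sup_le ?_ le_sup_right)
    have h1 : m ^ (k + l) ≤ m ^ l * (m ^ (k + 1) ⊔ J) := by
      rw [Nat.add_comm k l, pow_add]
      exact Ideal.mul_mono_right h
    refine h1.trans ?_
    rw [Ideal.mul_sup]
    have h2 : m ^ l * J ≤ J := Ideal.mul_le_right
    refine sup_le ?_ (h2.trans le_sup_right)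
    rw [← pow_add]
    have : l + (k + 1) = k + (l + 1) := by omega
    rw [this]
    exact le_sup_left

theorem exists_generators {K : Type*} [Field K] {ρ : Type*} [Fintype ρ] {ι : Type*} [Fintype ι]
    (G : ι → MvPolynomial ρ K) {S δ : ℕ}
    (hδ : Module.finrank K
      (MvPolynomial ρ K ⧸ (Ideal.span (Set.range G) ⊔ (idealOfVars ρ K) ^ S)) = δ)
    (hS : δ < S) :
    ∃ b : Fin δ → MvPolynomial ρ K, ∀ (M : ℕ) (f : MvPolynomial ρ K),
      ∃ (a : Fin δ → K) (h : ι → MvPolynomial ρ K),
        f - ∑ k, C (a k) * b k - ∑ c, G c * h c ∈ (idealOfVars ρ K) ^ M := by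
  set I : Ideal (MvPolynomial ρ K) := Ideal.span (Set.range G) ⊔ (idealOfVars ρ K) ^ S with hIdef
  have hfin : Module.Finite K (MvPolynomial ρ K ⧸ I) := MultA_finite I S le_sup_right
  -- the chain
  let N : ℕ → Submodule K (MvPolynomial ρ K ⧸ I) := fun k =>
    (((idealOfVars ρ K) ^ k).restrictScalars K).map (Ideal.Quotient.mkₐ K I).toLinearMap
  have hN : ∀ k, N (k + 1) ≤ N k := fun k =>
    Submodule.map_mono (fun x hx => Ideal.pow_le_pow_right (Nat.le_succ k) hx)
  obtain ⟨k, hkδ, hk⟩ := MultA_stationary N hN hδ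
  have h1 : (idealOfVars ρ K) ^ k ≤ (idealOfVars ρ K) ^ (k + 1) ⊔ Ideal.span (Set.range G) := by
    intro x hx
    have hx1 : (Ideal.Quotient.mkₐ K I).toLinearMap x ∈ N k := ⟨x, hx, rfl⟩
    rw [← hk] at hx1
    obtain ⟨y, hy, hyx⟩ := hx1
    have h2 : x - y ∈ I := by
      rw [← Ideal.Quotient.eq]
      exact hyx.symm
    rw [hIdef] at h2
    obtain ⟨u, hu, v, hv, huv⟩ := Submodule.mem_sup.1 h2
    have hv' : v ∈ (idealOfVars ρ K) ^ (k + 1) := Ideal.pow_le_pow_right (by omega) hv
    have hy' : y ∈ (idealOfVars ρ K) ^ (k + 1) := hy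
    refine Submodule.mem_sup.2 ⟨y + v, Ideal.add_mem _ hy' hv', u, hu, ?_⟩
    linear_combination huv
  have h2 : ∀ M, I ≤ (idealOfVars ρ K) ^ M ⊔ Ideal.span (Set.range G) := by
    intro M
    rw [hIdef]
    refine sup_le le_sup_right ?_
    have h3 : (idealOfVars ρ K) ^ S ≤ (idealOfVars ρ K) ^ k := Ideal.pow_le_pow_right (by omega)
    refine h3.trans ?_
    refine (MultA_absorb _ _ k h1 M).trans (sup_le ?_ le_sup_right)
    exact (Ideal.pow_le_pow_right (by omega)).trans le_sup_left
  let bas := Module.finBasisOfFinrankEq K (MvPolynomial ρ K ⧸ I) hδ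
  choose b hb using fun i => Ideal.Quotient.mk_surjective (bas i)
  refine ⟨b, fun M f => ?_⟩
  let a : Fin δ → K := fun i => bas.repr (Ideal.Quotient.mk I f) i
  have h4 : f - ∑ k, C (a k) * b k ∈ I := by
    rw [← Ideal.Quotient.eq, map_sum]
    have h5 := bas.sum_repr (Ideal.Quotient.mk I f)
    rw [← h5]
    refine Finset.sum_congr rfl (fun i _ => ?_)
    rw [map_mul, hb, Algebra.smul_def]
    rfl
  obtain ⟨u, hu, v, hv, huv⟩ := Submodule.mem_sup.1 (h2 M h4)
  obtain ⟨c, hc⟩ := (Ideal.mem_span_range_iff_exists_fun).1 hv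
  refine ⟨a, c, ?_⟩
  have h6 : f - ∑ k, C (a k) * b k - ∑ i, G i * c i = u := by
    rw [← huv, ← hc]
    have : ∑ i, c i * G i = ∑ i, G i * c i := Finset.sum_congr rfl fun i _ => mul_comm _ _
    rw [this]
    ring
  rw [h6]
  exact hu

end Pool.Agent.Lib_MP_c7e57a
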