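import Mathlib

/-!
# Piece CI-MC: growth of the number of monomials

`hc ρ N` is the number of exponents `α : ρ → ℕ` of degree at most `N`.

`hc_growth`: if `μ * hc ρ N ≤ δ * hc ρ (N + i)` for all `N`, then `μ ≤ δ`. Otherwise
`(δ + 1) hc(N) ≤ δ hc(N + i)`, so by induction `(δ + 1)^k hc(0) ≤ δ^k hc(k i)`; with
`hc(0) = 1` and `hc(k i) ≤ (k i + 1)^#ρ` this gives `(1 + 1/δ)^k ≤ (k i + 1)^#ρ` for all `k`
(`δ = 0` is impossible), contradiction for large `k`.
-/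

namespace Pool.Agent.Lib_MP_c7e57a

/-- The number of exponents of degree at most `N`. -/
noncomputable def hc (ρ : Type*) [Fintype ρ] (N : ℕ) : ℕ := Nat.card {α : ρ → ℕ // ∑ x, α x ≤ N}

theorem MultC_finite (ρ : Type*) [Fintype ρ] (N : ℕ) : Finite {α : ρ → ℕ // ∑ x, α x ≤ N} := by
  classical
  refine Finite.of_injective
    (fun a : {α : ρ → ℕ // ∑ x, α x ≤ N} => fun x : ρ =>
      (⟨a.1 x, Nat.lt_succ_of_le
        ((Finset.single_le_sum (fun y _ => Nat.zero_le (a.1 y)) (Finset.mem_univ x)).trans a.2)⟩ :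
        Fin (N + 1))) ?_
  intro a b hab
  apply Subtype.ext
  funext x
  have := congrFun hab x
  simpa using congrArg Fin.val this

theorem MultC_le (ρ : Type*) [Fintype ρ] (N : ℕ) : hc ρ N ≤ (N + 1) ^ Fintype.card ρ := by
  classical
  have hinj : Function.Injective
    (fun a : {α : ρ → ℕ // ∑ x, α x ≤ N} => fun x : ρ =>
      (⟨a.1 x, Nat.lt_succ_of_le
        ((Finset.single_le_sum (fun y _ => Nat.zero_le (a.1 y)) (Finset.mem_univ x)).trans a.2)⟩ :
        Fin (N + 1))) := by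
    intro a b hab
    apply Subtype.ext
    funext x
    have := congrFun hab x
    simpa using congrArg Fin.val this
  have h := Nat.card_le_card_of_injective _ hinj
  unfold hc
  refine h.trans (le_of_eq ?_)
  rw [Nat.card_eq_fintype_card, Fintype.card_fun, Fintype.card_fin]

theorem MultC_pos (ρ : Type*) [Fintype ρ] (N : ℕ) : 1 ≤ hc ρ N := by
  haveI := MultC_finite ρ N
  haveI : Nonempty {α : ρ → ℕ // ∑ x, α x ≤ N} := ⟨⟨0, by simp⟩⟩
  exact Nat.succ_le_of_lt Nat.card_pos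

theorem hc_growth (ρ : Type*) [Fintype ρ] {μ δ i : ℕ}
    (h : ∀ N, μ * hc ρ N ≤ δ * hc ρ (N + i)) : μ ≤ δ := by
  by_contra hcon
  have hlt : δ + 1 ≤ μ := Nat.succ_le_of_lt (not_le.mp hcon)
  have h1 : ∀ N, (δ + 1) * hc ρ N ≤ δ * hc ρ (N + i) := fun N =>
    (Nat.mul_le_mul_right _ hlt).trans (h N)
  have h2 : ∀ k : ℕ, (δ + 1) ^ k ≤ δ ^ k * hc ρ (k * i) := by
    intro k
    induction k with
    | zero => simpa using MultC_pos ρ 0
    | succ k ih =>
      calc (δ + 1) ^ (k + 1) = (δ + 1) * (δ + 1) ^ k := by ring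
        _ ≤ (δ + 1) * (δ ^ k * hc ρ (k * i)) := Nat.mul_le_mul_left _ ih
        _ = δ ^ k * ((δ + 1) * hc ρ (k * i)) := by ring
        _ ≤ δ ^ k * (δ * hc ρ (k * i + i)) := Nat.mul_le_mul_left _ (h1 _)
        _ = δ ^ (k + 1) * hc ρ ((k + 1) * i) := by
          rw [show (k + 1) * i = k * i + i by ring]; ring
  rcases Nat.eq_zero_or_pos δ with h0 | hδ
  · have := h2 1
    rw [h0] at this
    simp at this
  set d := Fintype.card ρ with hd
  set r : ℝ := ((δ : ℝ) + 1) / δ with hr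
  have hδ' : (0 : ℝ) < δ := by exact_mod_cast hδ
  have hr1 : 1 < r := by
    rw [hr, lt_div_iff₀ hδ']; linarith
  have h3 : ∀ k : ℕ, 1 ≤ k → r ^ k ≤ ((i : ℝ) + 1) ^ d * (k : ℝ) ^ d := by
    intro k hk
    have e1 : ((δ : ℝ) + 1) ^ k ≤ (δ : ℝ) ^ k * (hc ρ (k * i) : ℝ) := by exact_mod_cast h2 k
    have e2 : (hc ρ (k * i) : ℝ) ≤ ((k : ℝ) * i + 1) ^ d := by
      have := MultC_le ρ (k * i)
      exact_mod_cast this
    have hk' : (1 : ℝ) ≤ k := by exact_mod_cast hk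
    have e3 : ((k : ℝ) * i + 1) ^ d ≤ (((i : ℝ) + 1) * k) ^ d := by
      apply pow_le_pow_left₀ (by positivity)
      nlinarith
    rw [hr, div_pow, div_le_iff₀ (pow_pos hδ' k)]
    calc ((δ : ℝ) + 1) ^ k ≤ (δ : ℝ) ^ k * (hc ρ (k * i) : ℝ) := e1
      _ ≤ (δ : ℝ) ^ k * ((((i : ℝ) + 1) * k) ^ d) :=
        mul_le_mul_of_nonneg_left (e2.trans e3) (pow_pos hδ' k).le
      _ = ((i : ℝ) + 1) ^ d * (k : ℝ) ^ d * (δ : ℝ) ^ k := by rw [mul_pow]; ring
  have ht := tendsto_pow_const_div_const_pow_of_one_lt d hr1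
  have hC : (0 : ℝ) < 1 / ((i : ℝ) + 1) ^ d := by positivity
  have hev := (ht.eventually (gt_mem_nhds hC)).and (Filter.eventually_ge_atTop 1)
  obtain ⟨k, hk1, hk2⟩ := hev.exists
  have hrk : (0 : ℝ) < r ^ k := pow_pos (by linarith) k
  have hA : (0 : ℝ) < ((i : ℝ) + 1) ^ d := by positivity
  rw [div_lt_div_iff₀ hrk hA] at hk1
  have := h3 k hk2
  nlinarith

end Pool.Agent.Lib_MP_c7e57a
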