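import Mathlib

/-!
# Polynomial maps on finite-dimensional commutative algebras
-/

namespace Pool.Agent.Lib_MP_c7e57a

open Topology MvPolynomial

section

variable {A : Type*} [NormedCommRing A] [NormedAlgebra ℂ A] {ι : Type*} [Fintype ι]

/-- The derivative of the evaluation of a polynomial at a point of an algebra. -/
noncomputable def dAeval (P : MvPolynomial ι ℂ) (x : ι → A) : (ι → A) →L[ℂ] A :=
  ∑ i, (ContinuousLinearMap.mul ℂ A (aeval x (pderiv i P))).comp
    (ContinuousLinearMap.proj (R := ℂ) (φ := fun _ : ι => A) i)

theorem dAeval_apply (P : MvPolynomial ι ℂ) (x y : ι → A) :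
    dAeval P x y = ∑ i, aeval x (pderiv i P) * y i := by
  unfold dAeval
  rw [sum_apply]
  rfl

theorem hasFDerivAt_aeval (P : MvPolynomial ι ℂ) (x : ι → A) :
    HasFDerivAt (fun x => aeval x P : (ι → A) → A) (dAeval P x) x := by
  induction P using MvPolynomial.induction_on with
  | C a =>
    have h1 : (fun x : ι → A => (aeval x (C a : MvPolynomial ι ℂ) : A)) =
        fun _ => algebraMap ℂ A a := by
      funext y; exact aeval_C y a
    rw [h1]
    refine (hasFDerivAt_const (algebraMap ℂ A a) x).congr_fderiv ?_
    ext y
    rw [dAeval_apply]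
    simp
  | add p q hp hq =>
    have h1 : (fun x : ι → A => (aeval x (p + q) : A)) =
        (fun x => aeval x p) + fun x => aeval x q := by
      funext y; simp
    rw [h1]
    refine (hp.add hq).congr_fderiv ?_
    ext y
    rw [add_apply, dAeval_apply, dAeval_apply, dAeval_apply, ← Finset.sum_add_distrib]
    refine Finset.sum_congr rfl fun i _ => ?_
    rw [map_add, map_add, add_mul]
  | mul_X p s hp =>
    classical
    have h0 : HasFDerivAt (fun y : ι → A => y s)
        (ContinuousLinearMap.proj (R := ℂ) (φ := fun _ : ι => A) s) x :=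
      (ContinuousLinearMap.proj (R := ℂ) (φ := fun _ : ι => A) s).hasFDerivAt
    have h2 : (fun x : ι → A => (aeval x (p * X s) : A)) =
        (fun x => aeval x p) * fun x => x s := by
      funext y
      simp
    rw [h2]
    refine (hp.mul h0).congr_fderiv ?_
    ext y
    rw [add_apply, smul_apply, smul_apply, dAeval_apply, dAeval_apply]
    simp only [ContinuousLinearMap.proj_apply, smul_eq_mul]
    have h3 : ∀ i, aeval x (pderiv i (p * X s)) * y i =
        aeval x p * (if i = s then y s else 0) + x s * (aeval x (pderiv i p) * y i) := by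
      intro i
      rw [Derivation.leibniz, pderiv_X]
      split_ifs with h
      · subst h
        simp only [smul_eq_mul, Pi.single_eq_same, mul_one, map_add, map_mul, aeval_X]
        ring
      · rw [Pi.single_eq_of_ne (Ne.symm h)]
        simp only [smul_eq_mul, mul_zero, map_add, map_mul, aeval_X, map_zero]
        ring
    rw [Finset.sum_congr rfl fun i _ => h3 i, Finset.sum_add_distrib, ← Finset.mul_sum,
      ← Finset.mul_sum, Finset.sum_ite_eq']
    simp

theorem contDiff_aeval (P : MvPolynomial ι ℂ) :
    ContDiff ℂ 1 (fun x => aeval x P : (ι → A) → A) := by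
  induction P using MvPolynomial.induction_on with
  | C a =>
    have h1 : (fun x : ι → A => (aeval x (C a : MvPolynomial ι ℂ) : A)) =
        fun _ => algebraMap ℂ A a := by
      funext y; exact aeval_C y a
    rw [h1]
    exact contDiff_const
  | add p q hp hq => simpa using hp.add hq
  | mul_X p s hp =>
    have h1 : ContDiff ℂ 1 (fun x : ι → A => x s) := contDiff_apply ℂ A s
    simpa using hp.mul h1

end

/-- A norm on a finite-dimensional commutative algebra. -/
noncomputable abbrev normA (A : Type*) [CommRing A] [Algebra ℂ A] [Module.Finite ℂ A] :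
    NormedCommRing A :=
  letI : NormedRing (Matrix (Fin (Module.finrank ℂ A)) (Fin (Module.finrank ℂ A)) ℂ) :=
    Matrix.linftyOpNormedRing
  NormedCommRing.induced A (Matrix (Fin (Module.finrank ℂ A)) (Fin (Module.finrank ℂ A)) ℂ)
    (Algebra.leftMulMatrix (Module.finBasis ℂ A)).toRingHom
    (Algebra.leftMulMatrix_injective (Module.finBasis ℂ A))

/-- The corresponding structure of a normed algebra. -/
noncomputable abbrev normAlgA (A : Type*) [CommRing A] [Algebra ℂ A] [Module.Finite ℂ A] :
    letI := normA A
    NormedAlgebra ℂ A :=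
  letI : NormedRing (Matrix (Fin (Module.finrank ℂ A)) (Fin (Module.finrank ℂ A)) ℂ) :=
    Matrix.linftyOpNormedRing
  letI : NormedAlgebra ℂ (Matrix (Fin (Module.finrank ℂ A)) (Fin (Module.finrank ℂ A)) ℂ) :=
    Matrix.linftyOpNormedAlgebra
  letI := normA A
  { ‹Algebra ℂ A› with
    norm_smul_le := fun r x => by
      show ‖Algebra.leftMulMatrix (Module.finBasis ℂ A) (r • x)‖ ≤
        ‖r‖ * ‖Algebra.leftMulMatrix (Module.finBasis ℂ A) x‖
      rw [map_smul]
      exact norm_smul_le r _ }

example (A : Type*) [iR : CommRing A] [Algebra ℂ A] [Module.Finite ℂ A] :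
    (normA A).toCommRing = iR := rfl

example (A : Type*) [iR : CommRing A] [iA : Algebra ℂ A] [Module.Finite ℂ A] :
    letI := normA A
    (normAlgA A).toAlgebra = iA := rfl

end Pool.Agent.Lib_MP_c7e57a
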