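import Pool.Agent.Lib_MP_c7e57a.Fam
import Pool.Agent.Lib_MP_c7e57a.NormAlg

/-!
# Complete intersections near a special one
-/

namespace Pool.Agent.Lib_MP_c7e57a

open Topology MvPolynomial

variable {n q : ℕ}

/-- The variables `y` and `z`. -/
abbrev Vars (n q : ℕ) := Fin (n + 1) ⊕ Fin (q + 1)

/-- The form of degree `d c` with given coefficients. -/
noncomputable def poly (d : Fin (q + 1) → ℕ) (φ : (Σ c, Mon (Vars n q) (d c)) → ℂ)
    (c : Fin (q + 1)) : MvPolynomial (Vars n q) ℂ :=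
  ∑ α : Mon (Vars n q) (d c), monomial α.1 (φ ⟨c, α⟩)

theorem poly_isHomogeneous (d : Fin (q + 1) → ℕ) (φ : (Σ c, Mon (Vars n q) (d c)) → ℂ)
    (c : Fin (q + 1)) : (poly d φ c).IsHomogeneous (d c) :=
  IsHomogeneous.sum _ _ _ fun α _ => isHomogeneous_monomial _ α.2

theorem poly_coeff {d : Fin (q + 1) → ℕ} {f : Fin (q + 1) → MvPolynomial (Vars n q) ℂ}
    (hf : ∀ c, (f c).IsHomogeneous (d c)) :
    poly d (fun x => coeff x.2.1 (f x.1)) = f := by
  funext c
  ext w
  unfold poly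
  rw [coeff_sum]
  simp only [coeff_monomial]
  by_cases hw : w.degree = d c
  · rw [Finset.sum_eq_single ⟨w, hw⟩]
    · rw [if_pos rfl]
    · intro b _ hb
      rw [if_neg (fun h => hb (Subtype.ext h))]
    · intro h; exact absurd (Finset.mem_univ _) h
  · rw [(hf c).coeff_eq_zero hw]
    apply Finset.sum_eq_zero
    intro b _
    rw [if_neg]
    rintro rfl
    exact hw b.2

section

variable {A : Type*} [CommRing A] [Algebra ℂ A]

/-- The point with coordinates `Γ` of the subspace `y = l z`. -/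
noncomputable def ptA (l : Fin (n + 1) → Fin (q + 1) → ℂ) (Γ : Fin (q + 1) → A) :
    Vars n q → A :=
  Sum.elim (fun b => ∑ s, l b s • Γ s) Γ

/-- The direction of the family of the points `ptA l Γ`, at `l = 0`. -/
noncomputable def dir (Γ : Fin (q + 1) → A) (l : Fin (n + 1) → Fin (q + 1) → ℂ)
    (δ : Fin (q + 1) → A) : Vars n q → A :=
  Sum.elim (fun b => ∑ s, l b s • Γ s) δ

end

/-- A point of the fibre over the origin. -/
noncomputable def pt0 (l : Fin (n + 1) → Fin (q + 1) → ℂ) (z : Fin (q + 1) → ℂ) :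
    Vars n q → ℂ :=
  Sum.elim (fun b => tt0 n b + ∑ s, l b s * z s) z

theorem eval_deh {τ : Type*} (z : τ → ℂ) (f : MvPolynomial (Option τ) ℂ) :
    eval z (deh f) = eval (fun o => o.elim 1 z) f := by
  unfold deh
  induction f using MvPolynomial.induction_on with
  | C a => simp
  | add p q hp hq => simp only [map_add, hp, hq]
  | mul_X p s hp =>
    rw [map_mul, map_mul, hp, map_mul, aeval_X, eval_X]
    rcases s with _ | s
    · simp
    · simp

theorem eval_deh_fib (l : Fin (n + 1) → Fin (q + 1) → ℂ) (z : Fin (q + 1) → ℂ)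
    (f : MvPolynomial (Vars n q) ℂ) : eval z (deh (fib l (tt0 n) f)) = eval (pt0 l z) f := by
  rw [eval_deh, eval_fib]
  unfold pt0
  simp only [Option.elim, mul_one]

section

variable {A : Type*} [NormedCommRing A] [NormedAlgebra ℂ A]

theorem contDiff_ptA : ContDiff ℂ 1 (fun x : (Fin (n + 1) → Fin (q + 1) → ℂ) ×
    (Fin (q + 1) → A) => (ptA x.1 x.2 : Vars n q → A)) := by
  rw [contDiff_pi]
  rintro (b | s)
  · show ContDiff ℂ 1 fun x : (Fin (n + 1) → Fin (q + 1) → ℂ) × (Fin (q + 1) → A) =>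
      ∑ s, x.1 b s • x.2 s
    apply ContDiff.sum
    intro s _
    have h1 : ContDiff ℂ 1 (fun x : (Fin (n + 1) → Fin (q + 1) → ℂ) × (Fin (q + 1) → A) =>
        x.1 b s) := by
      have h2 : ContDiff ℂ 1 (fun l : Fin (n + 1) → Fin (q + 1) → ℂ => l b s) :=
        (contDiff_apply ℂ ℂ s).comp (contDiff_apply ℂ (Fin (q + 1) → ℂ) b)
      exact h2.comp contDiff_fst
    have h3 : ContDiff ℂ 1 (fun x : (Fin (n + 1) → Fin (q + 1) → ℂ) × (Fin (q + 1) → A) =>
        x.2 s) := (contDiff_apply ℂ A s).comp contDiff_snd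
    exact h1.smul h3
  · show ContDiff ℂ 1 fun x : (Fin (n + 1) → Fin (q + 1) → ℂ) × (Fin (q + 1) → A) => x.2 s
    exact (contDiff_apply ℂ A s).comp contDiff_snd

/-- The coordinate `l b s`. -/
noncomputable def P1 (A : Type*) [NormedCommRing A] [NormedAlgebra ℂ A] (b : Fin (n + 1))
    (s : Fin (q + 1)) : ((Fin (n + 1) → Fin (q + 1) → ℂ) × (Fin (q + 1) → A)) →L[ℂ] ℂ :=
  (ContinuousLinearMap.proj (R := ℂ) (φ := fun _ : Fin (q + 1) => ℂ) s).comp
    ((ContinuousLinearMap.proj (R := ℂ) (φ := fun _ : Fin (n + 1) => Fin (q + 1) → ℂ) b).comp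
      (ContinuousLinearMap.fst ℂ _ _))

/-- The coordinate `Γ s`. -/
noncomputable def P2 (A : Type*) [NormedCommRing A] [NormedAlgebra ℂ A] (n : ℕ)
    (s : Fin (q + 1)) : ((Fin (n + 1) → Fin (q + 1) → ℂ) × (Fin (q + 1) → A)) →L[ℂ] A :=
  (ContinuousLinearMap.proj (R := ℂ) (φ := fun _ : Fin (q + 1) => A) s).comp
    (ContinuousLinearMap.snd ℂ _ _)

theorem hasFDerivAt_ptA (Γ : Fin (q + 1) → A) : ∃ D : ((Fin (n + 1) → Fin (q + 1) → ℂ) ×
    (Fin (q + 1) → A)) →L[ℂ] (Vars n q → A),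
    HasFDerivAt (fun x : (Fin (n + 1) → Fin (q + 1) → ℂ) × (Fin (q + 1) → A) =>
      (ptA x.1 x.2 : Vars n q → A)) D (0, Γ) ∧ ∀ l δ, D (l, δ) = dir Γ l δ := by
  refine ⟨ContinuousLinearMap.pi fun i => Sum.rec
      (fun b => ∑ s, (P1 A b s).smulRight (Γ s)) (fun s => P2 A n s) i, ?_, ?_⟩
  · rw [hasFDerivAt_pi']
    rintro (b | s)
    · show HasFDerivAt (fun x : (Fin (n + 1) → Fin (q + 1) → ℂ) × (Fin (q + 1) → A) =>
        ∑ s, x.1 b s • x.2 s) (∑ s, (P1 A b s).smulRight (Γ s)) _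
      refine HasFDerivAt.fun_sum fun s _ => ?_
      have h1 : HasFDerivAt (fun x : (Fin (n + 1) → Fin (q + 1) → ℂ) × (Fin (q + 1) → A) =>
          x.1 b s) (P1 A b s) (0, Γ) := (P1 A b s).hasFDerivAt
      have h2 : HasFDerivAt (fun x : (Fin (n + 1) → Fin (q + 1) → ℂ) × (Fin (q + 1) → A) =>
          x.2 s) (P2 A n s) (0, Γ) := (P2 A n s).hasFDerivAt
      refine (h1.smul h2).congr_fderiv ?_
      ext x
      · simp
      · simp
    · exact (P2 A n s).hasFDerivAt
  · intro l δ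
    funext i
    rcases i with b | s
    · show (∑ s, (P1 A b s).smulRight (Γ s)) (l, δ) = _
      rw [sum_apply]
      rfl
    · rfl

end

end Pool.Agent.Lib_MP_c7e57a
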