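import Pool.Agent.Lib_MP_c7e57a.Near

/-!
# Complete intersections near a special one, second part
-/

namespace Pool.Agent.Lib_MP_c7e57a

open Topology MvPolynomial

variable {n q : ℕ}

theorem contDiff_aeval_poly {A : Type*} [NormedCommRing A] [NormedAlgebra ℂ A]
    {d : Fin (q + 1) → ℕ} {Y : Type*} [NormedAddCommGroup Y] [NormedSpace ℂ Y]
    {g : Y → Vars n q → A} (hg : ContDiff ℂ 1 g) (c : Fin (q + 1)) :
    ContDiff ℂ 1 (fun p : ((Σ c, Mon (Vars n q) (d c)) → ℂ) × Y =>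
      (aeval (g p.2) (poly d p.1 c) : A)) := by
  have h1 : (fun p : ((Σ c, Mon (Vars n q) (d c)) → ℂ) × Y =>
      (aeval (g p.2) (poly d p.1 c) : A)) = fun p => ∑ α : Mon (Vars n q) (d c),
        p.1 ⟨c, α⟩ • (aeval (g p.2) (monomial α.1 (1 : ℂ)) : A) := by
    funext p
    unfold poly
    rw [map_sum]
    refine Finset.sum_congr rfl fun α _ => ?_
    rw [← map_smul, smul_monomial, smul_eq_mul, mul_one]
  rw [h1]
  apply ContDiff.sum
  intro α _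
  have h2 : ContDiff ℂ 1 (fun p : ((Σ c, Mon (Vars n q) (d c)) → ℂ) × Y => p.1 ⟨c, α⟩) := by
    have h3 : ContDiff ℂ 1 (fun x : (Σ c, Mon (Vars n q) (d c)) → ℂ => x ⟨c, α⟩) :=
      contDiff_apply ℂ ℂ _
    exact h3.comp contDiff_fst
  have h3 : ContDiff ℂ 1 (fun p : ((Σ c, Mon (Vars n q) (d c)) → ℂ) × Y =>
      (aeval (g p.2) (monomial α.1 (1 : ℂ)) : A)) :=
    (contDiff_aeval (A := A) (monomial α.1 (1 : ℂ))).comp (hg.comp contDiff_snd)
  exact h2.smul h3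

/-- The base point of the fibre over the origin. -/
noncomputable def base0 (n q : ℕ) : Vars n q → ℂ := Sum.elim (tt0 n) 0

theorem pt0_eq (l : Fin (n + 1) → Fin (q + 1) → ℂ) (z : Fin (q + 1) → ℂ) :
    pt0 l z = ptA l z + base0 n q := by
  funext i
  rcases i with b | s
  · simp only [pt0, ptA, base0, Sum.elim_inl, Pi.add_apply, smul_eq_mul]
    rw [add_comm]
  · simp [pt0, ptA, base0]

section

variable {A : Type*} [NormedCommRing A] [NormedAlgebra ℂ A] [FiniteDimensional ℂ A]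
  {V : Type*} [NormedAddCommGroup V] [NormedSpace ℂ V] [FiniteDimensional ℂ V]

theorem near_normed (J : V →L[ℂ] (Fin (q + 1) → A)) {d : Fin (q + 1) → ℕ}
    (φ₀ : (Σ c, Mon (Vars n q) (d c)) → ℂ) (Γ₀ : Fin (q + 1) → A) (z₀ : Fin (q + 1) → ℂ)
    (h0 : ∀ c, aeval (ptA (n := n) 0 Γ₀) (poly d φ₀ c) = 0)
    (hz : ∀ c, eval (pt0 (n := n) 0 z₀) (poly d φ₀ c) = 0)
    (hJ : (Matrix.of fun c s => eval (pt0 (n := n) 0 z₀)
      (pderiv (Sum.inr s) (poly d φ₀ c))).det ≠ 0)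
    (hs : ∀ h : Fin (q + 1) → A, ∃ (l : Fin (n + 1) → Fin (q + 1) → ℂ) (v : V), ∀ c,
      ∑ i, aeval (ptA (n := n) 0 Γ₀) (pderiv i (poly d φ₀ c)) * dir Γ₀ l (J v) i = h c)
    {O : Set (((Σ c, Mon (Vars n q) (d c)) → ℂ) ×
      ((Fin (n + 1) → Fin (q + 1) → ℂ) × V × (Fin (q + 1) → ℂ)))}
    (hO : O ∈ 𝓝 (φ₀, ((0 : Fin (n + 1) → Fin (q + 1) → ℂ), (0 : V), z₀))) :
    ∀ᶠ φ in 𝓝 φ₀, ∃ w : (Fin (n + 1) → Fin (q + 1) → ℂ) × V × (Fin (q + 1) → ℂ),
      (φ, w) ∈ O ∧ (∀ c, aeval (ptA w.1 (Γ₀ + J w.2.1)) (poly d φ c) = 0) ∧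
      ∀ c, eval (pt0 w.1 w.2.2) (poly d φ c) = 0 := by
  have hcA : CompleteSpace A := FiniteDimensional.complete ℂ A
  have hcV : CompleteSpace V := FiniteDimensional.complete ℂ V
  let Ψ : (((Σ c, Mon (Vars n q) (d c)) → ℂ) ×
      ((Fin (n + 1) → Fin (q + 1) → ℂ) × V × (Fin (q + 1) → ℂ))) →
      (Fin (q + 1) → A) × (Fin (q + 1) → ℂ) :=
    fun p => (fun c => aeval (ptA p.2.1 (Γ₀ + J p.2.2.1)) (poly d p.1 c),
      fun c => aeval (ptA p.2.1 p.2.2.2 + base0 n q) (poly d p.1 c))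
  have hΨ : ContDiff ℂ 1 Ψ := by
    refine ContDiff.prodMk (contDiff_pi.2 fun c => ?_) (contDiff_pi.2 fun c => ?_)
    · refine contDiff_aeval_poly (A := A)
        (g := fun w : (Fin (n + 1) → Fin (q + 1) → ℂ) × V × (Fin (q + 1) → ℂ) =>
          ptA w.1 (Γ₀ + J w.2.1)) ?_ c
      have h1 : ContDiff ℂ 1 (fun w : (Fin (n + 1) → Fin (q + 1) → ℂ) × V × (Fin (q + 1) → ℂ) =>
          (w.1, Γ₀ + J w.2.1)) :=
        contDiff_fst.prodMk (contDiff_const.add (J.contDiff.comp (contDiff_fst.comp contDiff_snd)))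
      exact (contDiff_ptA (A := A)).comp h1
    · refine contDiff_aeval_poly (A := ℂ)
        (g := fun w : (Fin (n + 1) → Fin (q + 1) → ℂ) × V × (Fin (q + 1) → ℂ) =>
          ptA w.1 w.2.2 + base0 n q) ?_ c
      have h1 : ContDiff ℂ 1 (fun w : (Fin (n + 1) → Fin (q + 1) → ℂ) × V × (Fin (q + 1) → ℂ) =>
          (w.1, w.2.2)) := contDiff_fst.prodMk (contDiff_snd.comp contDiff_snd)
      exact ((contDiff_ptA (A := ℂ)).comp h1).add contDiff_const
  have hΨ0 : Ψ (φ₀, (0, 0, z₀)) = 0 := by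
    refine Prod.ext (funext fun c => ?_) (funext fun c => ?_)
    · show aeval (ptA 0 (Γ₀ + J 0)) (poly d φ₀ c) = 0
      rw [map_zero, add_zero]
      exact h0 c
    · show aeval (ptA 0 z₀ + base0 n q) (poly d φ₀ c) = 0
      rw [← pt0_eq, aeval_eq_eval]
      exact hz c
  obtain ⟨D1, hD1, hD1'⟩ := hasFDerivAt_ptA (n := n) Γ₀
  obtain ⟨D2, hD2, hD2'⟩ := hasFDerivAt_ptA (n := n) (A := ℂ) z₀
  -- the derivative
  let π1 : ((Fin (n + 1) → Fin (q + 1) → ℂ) × V × (Fin (q + 1) → ℂ)) →L[ℂ]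
      ((Fin (n + 1) → Fin (q + 1) → ℂ) × (Fin (q + 1) → A)) :=
    (ContinuousLinearMap.fst ℂ _ _).prod
      (J.comp ((ContinuousLinearMap.fst ℂ _ _).comp (ContinuousLinearMap.snd ℂ _ _)))
  let π2 : ((Fin (n + 1) → Fin (q + 1) → ℂ) × V × (Fin (q + 1) → ℂ)) →L[ℂ]
      ((Fin (n + 1) → Fin (q + 1) → ℂ) × (Fin (q + 1) → ℂ)) :=
    (ContinuousLinearMap.fst ℂ _ _).prod
      ((ContinuousLinearMap.snd ℂ _ _).comp (ContinuousLinearMap.snd ℂ _ _))
  let T : ((Fin (n + 1) → Fin (q + 1) → ℂ) × V × (Fin (q + 1) → ℂ)) →L[ℂ]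
      (Fin (q + 1) → A) × (Fin (q + 1) → ℂ) :=
    (ContinuousLinearMap.pi fun c =>
      (dAeval (poly d φ₀ c) (ptA (n := n) 0 Γ₀)).comp (D1.comp π1)).prod
    (ContinuousLinearMap.pi fun c =>
      (dAeval (A := ℂ) (poly d φ₀ c) (pt0 (n := n) 0 z₀)).comp (D2.comp π2))
  have hT : HasFDerivAt (fun w => Ψ (φ₀, w)) T (0, 0, z₀) := by
    refine HasFDerivAt.prodMk (hasFDerivAt_pi.2 fun c => ?_) (hasFDerivAt_pi.2 fun c => ?_)
    · have h1 : HasFDerivAt (fun w : (Fin (n + 1) → Fin (q + 1) → ℂ) × V × (Fin (q + 1) → ℂ) =>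
          (w.1, Γ₀ + J w.2.1)) π1 (0, 0, z₀) := by
        have h2 : (fun w : (Fin (n + 1) → Fin (q + 1) → ℂ) × V × (Fin (q + 1) → ℂ) =>
            (w.1, Γ₀ + J w.2.1)) = fun w => ((0 : Fin (n + 1) → Fin (q + 1) → ℂ), Γ₀) + π1 w := by
          funext w
          refine Prod.ext ?_ rfl
          show w.1 = 0 + w.1
          rw [zero_add]
        rw [h2]
        exact π1.hasFDerivAt.const_add _
      have h2 : HasFDerivAt (fun x : (Fin (n + 1) → Fin (q + 1) → ℂ) × (Fin (q + 1) → A) =>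
          (ptA x.1 x.2 : Vars n q → A)) D1
          ((fun w : (Fin (n + 1) → Fin (q + 1) → ℂ) × V × (Fin (q + 1) → ℂ) =>
          (w.1, Γ₀ + J w.2.1)) (0, 0, z₀)) := by
        have h3 : (fun w : (Fin (n + 1) → Fin (q + 1) → ℂ) × V × (Fin (q + 1) → ℂ) =>
          (w.1, Γ₀ + J w.2.1)) (0, 0, z₀) = (0, Γ₀) := by
          simp
        rw [h3]
        exact hD1
      have h3 := HasFDerivAt.comp (0, 0, z₀)
        (f := fun w : (Fin (n + 1) → Fin (q + 1) → ℂ) × V × (Fin (q + 1) → ℂ) =>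
          (w.1, Γ₀ + J w.2.1)) h2 h1
      have h4 : HasFDerivAt (fun x : Vars n q → A => (aeval x (poly d φ₀ c) : A))
          (dAeval (poly d φ₀ c) (ptA (n := n) 0 Γ₀))
          (((fun x : (Fin (n + 1) → Fin (q + 1) → ℂ) × (Fin (q + 1) → A) =>
            (ptA x.1 x.2 : Vars n q → A)) ∘
            (fun w : (Fin (n + 1) → Fin (q + 1) → ℂ) × V × (Fin (q + 1) → ℂ) =>
              (w.1, Γ₀ + J w.2.1))) (0, 0, z₀)) := by
        have h5 : (((fun x : (Fin (n + 1) → Fin (q + 1) → ℂ) × (Fin (q + 1) → A) =>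
            (ptA x.1 x.2 : Vars n q → A)) ∘
            (fun w : (Fin (n + 1) → Fin (q + 1) → ℂ) × V × (Fin (q + 1) → ℂ) =>
              (w.1, Γ₀ + J w.2.1))) (0, 0, z₀)) = ptA 0 Γ₀ := by
          simp
        rw [h5]
        exact hasFDerivAt_aeval _ _
      exact h4.comp _ h3
    · have h2 : HasFDerivAt (fun x : (Fin (n + 1) → Fin (q + 1) → ℂ) × (Fin (q + 1) → ℂ) =>
          (ptA x.1 x.2 : Vars n q → ℂ)) D2 (π2 (0, 0, z₀)) := hD2
      have h3 := (h2.comp (0, 0, z₀) π2.hasFDerivAt).add_const (base0 n q)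
      have h4 : HasFDerivAt (fun x : Vars n q → ℂ => (aeval x (poly d φ₀ c) : ℂ))
          (dAeval (A := ℂ) (poly d φ₀ c) (pt0 (n := n) 0 z₀)) (ptA 0 z₀ + base0 n q) := by
        rw [← pt0_eq]
        exact hasFDerivAt_aeval _ _
      exact HasFDerivAt.comp (0, 0, z₀)
        (f := fun w : (Fin (n + 1) → Fin (q + 1) → ℂ) × V × (Fin (q + 1) → ℂ) =>
          ptA w.1 w.2.2 + base0 n q) h4 h3
  have hsurj : Function.Surjective T := by
    rintro ⟨h, k⟩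
    obtain ⟨l, v, hlv⟩ := hs h
    set N : Matrix (Fin (q + 1)) (Fin (q + 1)) ℂ := Matrix.of fun c s =>
      eval (pt0 (n := n) 0 z₀) (pderiv (Sum.inr s) (poly d φ₀ c)) with hN
    let k' : Fin (q + 1) → ℂ := fun c => k c - ∑ b, eval (pt0 (n := n) 0 z₀)
      (pderiv (Sum.inl b) (poly d φ₀ c)) * ∑ s, l b s * z₀ s
    refine ⟨(l, v, N⁻¹.mulVec k'), ?_⟩
    refine Prod.ext (funext fun c => ?_) (funext fun c => ?_)
    · show dAeval (poly d φ₀ c) (ptA (n := n) 0 Γ₀) (D1 (l, J v)) = h c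
      rw [dAeval_apply, hD1', hlv c]
    · show dAeval (A := ℂ) (poly d φ₀ c) (pt0 (n := n) 0 z₀) (D2 (l, N⁻¹.mulVec k')) = k c
      rw [dAeval_apply, hD2', Fintype.sum_sum_type]
      have h1 : N.mulVec (N⁻¹.mulVec k') = k' := by
        rw [Matrix.mulVec_mulVec, Matrix.mul_nonsing_inv N (isUnit_iff_ne_zero.2 hJ),
          Matrix.one_mulVec]
      have h2 := congrFun h1 c
      simp only [Matrix.mulVec, dotProduct] at h2
      simp only [aeval_eq_eval, dir, Sum.elim_inl, Sum.elim_inr, smul_eq_mul]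
      have h3 : ∑ s, eval (pt0 (n := n) 0 z₀) (pderiv (Sum.inr s) (poly d φ₀ c)) *
          (N⁻¹.mulVec k') s = k' c := h2
      rw [h3]
      simp only [k']
      ring
  have hnear := exists_near hΨ hΨ0 hT hsurj hO
  filter_upwards [hnear] with φ hφ
  obtain ⟨w, hwO, hw⟩ := hφ
  refine ⟨w, hwO, fun c => ?_, fun c => ?_⟩
  · exact congrFun (congrArg Prod.fst hw) c
  · have h1 : aeval (ptA w.1 w.2.2 + base0 n q) (poly d φ c) = (0 : ℂ) :=
      congrFun (congrArg Prod.snd hw) c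
    rw [← pt0_eq, aeval_eq_eval] at h1
    exact h1

end

end Pool.Agent.Lib_MP_c7e57a
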