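import Mathlib

/-!
# Solutions near a nondegenerate solution
-/

namespace Pool.Agent.Lib_MP_c7e57a

open Topology MvPolynomial

theorem exists_near {E F G : Type*} [NormedAddCommGroup E] [NormedSpace ℂ E] [CompleteSpace E]
    [NormedAddCommGroup F] [NormedSpace ℂ F] [CompleteSpace F]
    [NormedAddCommGroup G] [NormedSpace ℂ G] [CompleteSpace G]
    {Ψ : E × F → G} {f₀ : E} {w₀ : F} (hΨ : ContDiff ℂ 1 Ψ) (h0 : Ψ (f₀, w₀) = 0)
    {A : F →L[ℂ] G} (hA : HasFDerivAt (fun w => Ψ (f₀, w)) A w₀)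
    (hsurj : Function.Surjective A) {O : Set (E × F)} (hO : O ∈ 𝓝 (f₀, w₀)) :
    ∀ᶠ f in 𝓝 f₀, ∃ w, (f, w) ∈ O ∧ Ψ (f, w) = 0 := by
  have h1 : HasStrictFDerivAt Ψ (fderiv ℂ Ψ (f₀, w₀)) (f₀, w₀) :=
    hΨ.contDiffAt.hasStrictFDerivAt one_ne_zero
  have h2 : (fderiv ℂ Ψ (f₀, w₀)).comp (ContinuousLinearMap.inr ℂ E F) = A := by
    have h3 : HasFDerivAt (fun w => Ψ (f₀, w))
        ((fderiv ℂ Ψ (f₀, w₀)).comp (ContinuousLinearMap.inr ℂ E F)) w₀ :=
      HasFDerivAt.comp w₀ h1.hasFDerivAt (hasFDerivAt_prodMk_right f₀ w₀)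
    exact h3.unique hA
  let Θ : E × F → E × G := fun p => (p.1, Ψ p)
  have h3 : HasStrictFDerivAt Θ
      ((ContinuousLinearMap.fst ℂ E F).prod (fderiv ℂ Ψ (f₀, w₀))) (f₀, w₀) :=
    hasStrictFDerivAt_fst.prodMk h1
  have h4 : ((ContinuousLinearMap.fst ℂ E F).prod (fderiv ℂ Ψ (f₀, w₀))).range = ⊤ := by
    rw [LinearMap.range_eq_top]
    rintro ⟨φ, γ⟩
    obtain ⟨η, hη⟩ := hsurj (γ - fderiv ℂ Ψ (f₀, w₀) (φ, 0))
    refine ⟨(φ, η), ?_⟩
    refine Prod.ext rfl ?_
    show fderiv ℂ Ψ (f₀, w₀) (φ, η) = γ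
    have h5 : ((φ, η) : E × F) = (φ, 0) + (0, η) := by simp
    have h6 : fderiv ℂ Ψ (f₀, w₀) (0, η) = A η := by
      rw [← h2]; rfl
    rw [h5, map_add, h6, hη]
    abel
  have h5 := h3.map_nhds_eq_of_surj h4
  have h6 : Θ '' O ∈ 𝓝 (f₀, (0 : G)) := by
    have h7 : Θ (f₀, w₀) = (f₀, 0) := by simp only [Θ, h0]
    rw [← h7, ← h5]
    exact Filter.image_mem_map hO
  have h7 : Filter.Tendsto (fun f : E => (f, (0 : G))) (𝓝 f₀) (𝓝 (f₀, 0)) :=
    (Continuous.prodMk_left (0 : G)).continuousAt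
  filter_upwards [h7 h6] with f hf
  obtain ⟨⟨f', w⟩, hO', he⟩ := hf
  have h8 : f' = f := congrArg Prod.fst he
  subst h8
  exact ⟨w, hO', congrArg Prod.snd he⟩

/-- The derivative of the evaluation of a polynomial. -/
noncomputable def dEval {ι : Type*} [Fintype ι] (P : MvPolynomial ι ℂ) (x : ι → ℂ) :
    (ι → ℂ) →L[ℂ] ℂ :=
  ∑ i, eval x (pderiv i P) • (ContinuousLinearMap.proj (R := ℂ) (φ := fun _ : ι => ℂ) i)

theorem dEval_apply {ι : Type*} [Fintype ι] (P : MvPolynomial ι ℂ) (x y : ι → ℂ) :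
    dEval P x y = ∑ i, eval x (pderiv i P) * y i := by
  unfold dEval
  rw [sum_apply]
  rfl

theorem hasFDerivAt_eval {ι : Type*} [Fintype ι] (P : MvPolynomial ι ℂ) (x : ι → ℂ) :
    HasFDerivAt (fun x => eval x P) (dEval P x) x := by
  induction P using MvPolynomial.induction_on with
  | C a =>
    have h1 : (fun x : ι → ℂ => eval x (C a)) = fun _ => a := by funext y; simp
    rw [h1]
    refine (hasFDerivAt_const a x).congr_fderiv ?_
    ext y
    rw [dEval_apply]
    simp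
  | add p q hp hq =>
    have h1 : (fun x => eval x (p + q)) = (fun x => eval x p) + fun x => eval x q := by
      funext y; simp
    rw [h1]
    refine (hp.add hq).congr_fderiv ?_
    ext y
    rw [add_apply, dEval_apply, dEval_apply, dEval_apply, ← Finset.sum_add_distrib]
    refine Finset.sum_congr rfl fun i _ => ?_
    rw [map_add, map_add, add_mul]
  | mul_X p s hp =>
    classical
    have h0 : HasFDerivAt (fun y : ι → ℂ => y s)
        (ContinuousLinearMap.proj (R := ℂ) (φ := fun _ : ι => ℂ) s) x :=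
      (ContinuousLinearMap.proj (R := ℂ) (φ := fun _ : ι => ℂ) s).hasFDerivAt
    have h2 : (fun x => eval x (p * X s)) = (fun x => eval x p) * fun x => x s := by
      funext y
      simp
    rw [h2]
    refine (hp.mul h0).congr_fderiv ?_
    ext y
    rw [add_apply, smul_apply, smul_apply, dEval_apply, dEval_apply]
    simp only [ContinuousLinearMap.proj_apply, smul_eq_mul]
    have h3 : ∀ i, eval x (pderiv i (p * X s)) * y i =
        eval x p * (if i = s then y s else 0) + x s * (eval x (pderiv i p) * y i) := by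
      intro i
      rw [Derivation.leibniz, pderiv_X]
      split_ifs with h
      · subst h
        simp only [smul_eq_mul, Pi.single_eq_same, mul_one, map_add, map_mul, eval_X]
        ring
      · rw [Pi.single_eq_of_ne (Ne.symm h)]
        simp only [smul_eq_mul, mul_zero, map_add, map_mul, eval_X, map_zero]
        ring
    rw [Finset.sum_congr rfl fun i _ => h3 i, Finset.sum_add_distrib, ← Finset.mul_sum,
      ← Finset.mul_sum, Finset.sum_ite_eq']
    simp

end Pool.Agent.Lib_MP_c7e57a
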