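import Mathlib

/-!
# Piece CI-PL: a place of `ℂ` with prescribed values

Let `A` be the subring of `ℂ` generated by the elements `x i`, i.e. the range of the injective ring
homomorphism `φ : MvPolynomial ι ℤ → ℂ`, `φ = (aeval x)` (injective: `hx` says that
`aeval x : MvPolynomial ι ℚ → ℂ` is injective; compose with the injective map
`MvPolynomial.map (Int.castRingHom ℚ)`; or `hx.restrictScalars` to `ℤ`). The evaluation
`MvPolynomial ι ℤ → ℤ`, `X i ↦ c i`, followed by `ℤ → ZMod 2` or by `ℤ → ℚ` (the target must only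
be nontrivial; `ℤ` itself is fine) gives a ring homomorphism `A → ℤ` that maps `x i` to `c i`; let
`I` be its kernel, a proper ideal of `A`. By `Ideal.image_subset_nonunits_valuationSubring` there is
a valuation subring `B` of `ℂ` that contains `A` and such that the elements of `I` are nonunits of
`B`. The elements `x i - c i` lie in `I`, so they are in the maximal ideal of `B`
(`ValuationSubring.mem_nonunits_iff_exists_mem_maximalIdeal`), hence `x i` and `c i` have the same
residue.
-/

namespace Pool.Agent.Lib_MP_c7e57a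

theorem exists_place {ι : Type*} {x : ι → ℂ} (hx : AlgebraicIndependent ℚ x) (c : ι → ℤ) :
    ∃ (B : ValuationSubring ℂ) (y : ι → B), (∀ i, (y i : ℂ) = x i) ∧
      ∀ i, IsLocalRing.residue B (y i) = ((c i : ℤ) : IsLocalRing.ResidueField B) := by
  classical
  have hz : AlgebraicIndependent ℤ x :=
    hx.restrictScalars (R := ℤ) (K := ℚ) (RingHom.injective_int (algebraMap ℤ ℚ))
  let φ : MvPolynomial ι ℤ →+* ℂ := (MvPolynomial.aeval x : MvPolynomial ι ℤ →ₐ[ℤ] ℂ).toRingHom
  have hφ : Function.Injective φ := hz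
  have hφX : ∀ i, φ (MvPolynomial.X i) = x i := fun i => MvPolynomial.aeval_X x i
  let e : MvPolynomial ι ℤ ≃+* φ.range :=
    RingEquiv.ofBijective φ.rangeRestrict
      ⟨fun a b h => hφ (congrArg Subtype.val h), φ.rangeRestrict_surjective⟩
  let ev : MvPolynomial ι ℤ →+* ℤ := MvPolynomial.eval c
  let ψ : φ.range →+* ℤ := ev.comp e.symm.toRingHom
  obtain ⟨B, hAB, hIB⟩ := (RingHom.ker ψ).image_subset_nonunits_valuationSubring
    (RingHom.ker_ne_top ψ)
  have hxA : ∀ i, x i ∈ φ.range := fun i => ⟨MvPolynomial.X i, hφX i⟩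
  have hxB : ∀ i, x i ∈ B := fun i => hAB (hxA i)
  refine ⟨B, fun i => ⟨x i, hxB i⟩, fun i => rfl, fun i => ?_⟩
  have h1 : e (MvPolynomial.X i - MvPolynomial.C (c i)) ∈ RingHom.ker ψ := by
    rw [RingHom.mem_ker]
    change ev (e.symm (e (MvPolynomial.X i - MvPolynomial.C (c i)))) = 0
    rw [RingEquiv.symm_apply_apply]
    simp [ev]
  have h2 : ((e (MvPolynomial.X i - MvPolynomial.C (c i)) : φ.range) : ℂ) = x i - (c i : ℂ) := by
    change φ (MvPolynomial.X i - MvPolynomial.C (c i)) = _
    rw [map_sub, hφX]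
    congr 1
    exact MvPolynomial.aeval_C x (c i)
  have h3 : x i - (c i : ℂ) ∈ B.nonunits := hIB ⟨_, h1, h2⟩
  rw [ValuationSubring.mem_nonunits_iff_exists_mem_maximalIdeal] at h3
  obtain ⟨h4, h5⟩ := h3
  have h6 := (IsLocalRing.residue_eq_zero_iff _).2 h5
  have h7 : (⟨x i - (c i : ℂ), h4⟩ : B) = ⟨x i, hxB i⟩ - ((c i : ℤ) : B) := by
    apply Subtype.ext
    simp
  rw [h7, map_sub, sub_eq_zero, map_intCast] at h6
  exact h6

end Pool.Agent.Lib_MP_c7e57a
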