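import Mathlib

/-!
# Piece CI-P: points in general position

`exists_points`. Induction on `k`: given a subspace `V` of the space of linear forms in
`(z_1, ..., z_q, 1)` of dimension at least `k + 1`, choose a point `p` (with all coordinates outside
the finite set `B`) where not all elements of `V` vanish: a nonzero element of `V` times
`∏_s ∏_{β ∈ B} (X_s - β)` is a nonzero polynomial, so it does not vanish at some point
(`MvPolynomial.funext`). Apply the induction hypothesis to the kernel of the evaluation at `p`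
(dimension at least `k`) and `B ∪ {coordinates of p}`.

`exists_block`. The kernel `V` of `L` has dimension at least `k` and the projection of `V` to the
first factor is injective, so `exists_points` applies to `V`; correct a preimage of `w` under `L`
by an element of `V`.
-/

namespace Pool.Agent.Lib_MP_c7e57a

/-- Evaluation of an affine form at a point. -/
private def Points_ev {q : ℕ} (p : Fin q → ℂ) : (Fin (q + 1) → ℂ) →ₗ[ℂ] ℂ where
  toFun δ := ∑ s : Fin q, δ (Fin.castSucc s) * p s + δ (Fin.last q)
  map_add' δ δ' := by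
    simp only [Pi.add_apply, add_mul, Finset.sum_add_distrib]
    ring
  map_smul' c δ := by
    simp only [Pi.smul_apply, smul_eq_mul, RingHom.id_apply, mul_add, Finset.mul_sum, mul_assoc]

private lemma Points_ev_apply {q : ℕ} (p : Fin q → ℂ) (δ : Fin (q + 1) → ℂ) :
    Points_ev p δ = ∑ s : Fin q, δ (Fin.castSucc s) * p s + δ (Fin.last q) := rfl

/-- A nonzero affine form does not vanish at some point with all coordinates outside `B`. -/
private lemma Points_exists_point {q : ℕ} (δ : Fin (q + 1) → ℂ) (hδ : δ ≠ 0) (B : Finset ℂ) :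
    ∃ p : Fin q → ℂ, ∑ s : Fin q, δ (Fin.castSucc s) * p s + δ (Fin.last q) ≠ 0 ∧
      ∀ s, p s ∉ B := by
  classical
  let P : MvPolynomial (Fin q) ℂ :=
    ∑ s : Fin q, MvPolynomial.C (δ (Fin.castSucc s)) * MvPolynomial.X s +
      MvPolynomial.C (δ (Fin.last q))
  have hPev : ∀ p : Fin q → ℂ, MvPolynomial.eval p P =
      ∑ s : Fin q, δ (Fin.castSucc s) * p s + δ (Fin.last q) := by
    intro p
    simp [P]
  have hP : P ≠ 0 := by
    intro h0
    apply hδ
    have hlast : δ (Fin.last q) = 0 := by
      have := hPev 0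
      rw [h0] at this
      simpa using this.symm
    funext i
    refine Fin.lastCases ?_ ?_ i
    · exact hlast
    · intro s
      have := hPev (Pi.single s 1)
      rw [h0, hlast] at this
      simp only [map_zero, add_zero] at this
      rw [Finset.sum_eq_single s] at this
      · simpa using this.symm
      · intro t _ hts
        rw [Pi.single_eq_of_ne hts, mul_zero]
      · intro h
        exact absurd (Finset.mem_univ s) h
  let Q : MvPolynomial (Fin q) ℂ :=
    ∏ s : Fin q, ∏ β ∈ B, (MvPolynomial.X s - MvPolynomial.C β)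
  have hQ : Q ≠ 0 := by
    rw [Finset.prod_ne_zero_iff]
    intro s _
    rw [Finset.prod_ne_zero_iff]
    intro β _ h0
    have := congrArg (MvPolynomial.eval (fun _ => β + 1)) h0
    simp at this
  have hPQ : P * Q ≠ 0 := mul_ne_zero hP hQ
  obtain ⟨p, hp⟩ : ∃ p : Fin q → ℂ, MvPolynomial.eval p (P * Q) ≠ 0 := by
    by_contra hcon
    push Not at hcon
    apply hPQ
    apply MvPolynomial.funext
    intro x
    rw [hcon x, map_zero]
  rw [map_mul] at hp
  refine ⟨p, ?_, ?_⟩
  · rw [← hPev]
    exact left_ne_zero_of_mul hp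
  · intro s hs
    have h2 := right_ne_zero_of_mul hp
    apply h2
    rw [map_prod]
    apply Finset.prod_eq_zero (Finset.mem_univ s)
    rw [map_prod]
    apply Finset.prod_eq_zero hs
    simp

theorem exists_points {q : ℕ} {V : Type*} [AddCommGroup V] [Module ℂ V] [Module.Finite ℂ V]
    (Θ : V →ₗ[ℂ] (Fin (q + 1) → ℂ)) (hΘ : Function.Injective Θ) {k : ℕ}
    (hk : k ≤ Module.finrank ℂ V) (B : Finset ℂ) :
    ∃ p : Fin k → Fin q → ℂ, (∀ a s, p a s ∉ B) ∧ (∀ s, Function.Injective fun a => p a s) ∧
      ∀ h : Fin k → ℂ, ∃ v : V, ∀ a,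
        ∑ s : Fin q, Θ v (Fin.castSucc s) * p a s + Θ v (Fin.last q) = h a := by
  induction k generalizing V B with
  | zero =>
    exact ⟨fun a => a.elim0, fun a => a.elim0, fun s a => a.elim0, fun h => ⟨0, fun a => a.elim0⟩⟩
  | succ k ih =>
    have hpos : 0 < Module.finrank ℂ V := by omega
    obtain ⟨v0, hv0⟩ : ∃ v : V, v ≠ 0 := by
      have := Module.finrank_pos_iff.mp hpos
      exact exists_ne 0
    have hΘ0 : Θ v0 ≠ 0 := by
      intro h
      exact hv0 (hΘ (by rw [h, map_zero]))
    obtain ⟨p0, hp0, hp0B⟩ := Points_exists_point (Θ v0) hΘ0 B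
    let ev : V →ₗ[ℂ] ℂ := (Points_ev p0).comp Θ
    have hev : ∀ v, ev v = ∑ s : Fin q, Θ v (Fin.castSucc s) * p0 s + Θ v (Fin.last q) := by
      intro v
      simp only [ev, LinearMap.comp_apply, Points_ev_apply]
    have hev0 : ev v0 ≠ 0 := by
      rw [hev]; exact hp0
    have hsurj : Function.Surjective ev := by
      intro c
      refine ⟨(c / ev v0) • v0, ?_⟩
      rw [map_smul, smul_eq_mul, div_mul_cancel₀ _ hev0]
    have hrn := LinearMap.finrank_range_add_finrank_ker ev
    rw [LinearMap.range_eq_top.mpr hsurj, finrank_top, Module.finrank_self] at hrn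
    obtain ⟨p', h1, h2, h3⟩ := ih (V := LinearMap.ker ev) (Θ.comp (LinearMap.ker ev).subtype)
      (hΘ.comp (Submodule.injective_subtype _)) (by omega)
      (B ∪ Finset.univ.image p0)
    refine ⟨Fin.cons p0 p', ?_, ?_, ?_⟩
    · intro a s
      refine Fin.cases ?_ ?_ a
      · simpa using hp0B s
      · intro i
        have := h1 i s
        rw [Finset.mem_union, not_or] at this
        simpa using this.1
    · intro s a b hab
      have hne : ∀ i, p' i s ≠ p0 s := by
        intro i hi
        have := h1 i s
        rw [Finset.mem_union, not_or] at this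
        apply this.2
        rw [hi]
        exact Finset.mem_image_of_mem _ (Finset.mem_univ s)
      revert hab
      refine Fin.cases ?_ ?_ a
      · refine Fin.cases ?_ ?_ b
        · intro _; rfl
        · intro j hj
          simp only [Fin.cons_zero, Fin.cons_succ] at hj
          exact absurd hj.symm (hne j)
      · intro i
        refine Fin.cases ?_ ?_ b
        · intro hi
          simp only [Fin.cons_zero, Fin.cons_succ] at hi
          exact absurd hi (hne i)
        · intro j hij
          simp only [Fin.cons_succ] at hij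
          exact congrArg Fin.succ (h2 s hij)
    · intro h
      obtain ⟨v1, hv1⟩ := hsurj (h 0)
      obtain ⟨v2, hv2⟩ := h3 (fun a => h a.succ -
        (∑ s : Fin q, Θ v1 (Fin.castSucc s) * p' a s + Θ v1 (Fin.last q)))
      refine ⟨v1 + (v2 : V), ?_⟩
      intro a
      refine Fin.cases ?_ ?_ a
      · simp only [Fin.cons_zero]
        rw [← hev, map_add, hv1, LinearMap.mem_ker.mp v2.2, add_zero]
      · intro i
        have h4 := hv2 i
        simp only [LinearMap.comp_apply, Submodule.subtype_apply] at h4
        simp only [Fin.cons_succ, map_add, Pi.add_apply, add_mul, Finset.sum_add_distrib]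
        linear_combination h4

theorem exists_block {q : ℕ} {W H : Type*} [AddCommGroup W] [Module ℂ W] [Module.Finite ℂ W]
    [AddCommGroup H] [Module ℂ H] [Module.Finite ℂ H]
    (L : (Fin (q + 1) → ℂ) × H →ₗ[ℂ] W) (hL : Function.Surjective L)
    (hH : ∀ η : H, L (0, η) = 0 → η = 0) {k : ℕ}
    (hk : k + Module.finrank ℂ W ≤ q + 1 + Module.finrank ℂ H) (B : Finset ℂ) :
    ∃ p : Fin k → Fin q → ℂ, (∀ a s, p a s ∉ B) ∧ (∀ s, Function.Injective fun a => p a s) ∧
      ∀ (w : W) (h : Fin k → ℂ), ∃ δ η, L (δ, η) = w ∧ ∀ a,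
        ∑ s : Fin q, δ (Fin.castSucc s) * p a s + δ (Fin.last q) = h a := by
  have hrn := LinearMap.finrank_range_add_finrank_ker L
  rw [LinearMap.range_eq_top.mpr hL, finrank_top, Module.finrank_prod,
    Module.finrank_fin_fun] at hrn
  obtain ⟨p, h1, h2, h3⟩ := exists_points (V := LinearMap.ker L)
    ((LinearMap.fst ℂ (Fin (q + 1) → ℂ) H).comp (LinearMap.ker L).subtype)
    (by
      rw [← LinearMap.ker_eq_bot, LinearMap.ker_eq_bot']
      intro v hv
      have hv1 : (v : (Fin (q + 1) → ℂ) × H).1 = 0 := hv
      have hv2 : L v = 0 := LinearMap.mem_ker.mp v.2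
      have hv3 : (v : (Fin (q + 1) → ℂ) × H).2 = 0 := by
        apply hH
        rw [← hv2, ← hv1]
      exact Subtype.ext (Prod.ext hv1 hv3))
    (k := k) (by omega) B
  refine ⟨p, h1, h2, ?_⟩
  intro w h
  obtain ⟨x, hx⟩ := hL w
  obtain ⟨v, hv⟩ := h3 (fun a => h a -
    (∑ s : Fin q, x.1 (Fin.castSucc s) * p a s + x.1 (Fin.last q)))
  refine ⟨x.1 + (v : (Fin (q + 1) → ℂ) × H).1, x.2 + (v : (Fin (q + 1) → ℂ) × H).2, ?_, ?_⟩
  · have : (x.1 + (v : (Fin (q + 1) → ℂ) × H).1, x.2 + (v : (Fin (q + 1) → ℂ) × H).2)
        = x + (v : (Fin (q + 1) → ℂ) × H) := rfl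
    rw [this, map_add, hx, LinearMap.mem_ker.mp v.2, add_zero]
  · intro a
    have h4 := hv a
    simp only [LinearMap.comp_apply, Submodule.subtype_apply, LinearMap.fst_apply] at h4
    simp only [Pi.add_apply, add_mul, Finset.sum_add_distrib]
    linear_combination h4

end Pool.Agent.Lib_MP_c7e57a
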