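import Pool.Agent.Lib_MP_c7e57a.Rank

/-!
# Spanning the forms of degree `m` modulo given forms, general variables
-/

namespace Pool.Agent.Lib_MP_c7e57a

open MvPolynomial

section

variable {R : Type*} [CommRing R] {κ σ : Type*} (lead : κ → σ) (d : κ → ℕ)
  (F : κ → MvPolynomial σ R) (m : ℕ)

open Classical in
/-- The multiple of a form (or the monomial) assigned to an exponent. -/
noncomputable def col2 (w : σ →₀ ℕ) : MvPolynomial σ R :=
  if h : ∃ c, d c ≤ w (lead c) then
    monomial (w - Finsupp.single (lead h.choose) (d h.choose)) 1 * F h.choose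
  else monomial w 1

/-- The matrix of the map that sends the monomial with exponent `w` to `col2 w`. -/
noncomputable def mat2 : Matrix (Mon σ m) (Mon σ m) R :=
  fun w' w => coeff w'.1 (col2 lead d F w.1)

theorem mat2_map {R' : Type*} [CommRing R'] (φ : R →+* R') :
    mat2 lead d (fun c => map φ (F c)) m = (mat2 lead d F m).map φ := by
  ext w' w
  simp only [mat2, Matrix.map_apply]
  rw [← coeff_map]
  congr 1
  unfold col2
  split_ifs with h
  · rw [map_mul, map_monomial, φ.map_one]
  · rw [map_monomial, φ.map_one]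

theorem det_map2 [Finite σ] [DecidableEq σ] {R' : Type*} [CommRing R'] (φ : R →+* R') :
    (mat2 lead d (fun c => map φ (F c)) m).det = φ (mat2 lead d F m).det := by
  rw [mat2_map]
  exact (RingHom.map_det φ _).symm

variable {lead d F m}

theorem sub_add_single {w : σ →₀ ℕ} {x : σ} {k : ℕ} (h : k ≤ w x) :
    w - Finsupp.single x k + Finsupp.single x k = w := by
  classical
  ext o
  simp only [Finsupp.coe_add, Finsupp.coe_tsub, Pi.add_apply, Pi.sub_apply]
  by_cases ho : o = x
  · subst ho; simp only [Finsupp.single_eq_same]; omega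
  · simp [Ne.symm ho]

theorem col2_isHomogeneous (hF : ∀ c, (F c).IsHomogeneous (d c))
    {w : σ →₀ ℕ} (hw : w.degree = m) : (col2 lead d F w).IsHomogeneous m := by
  unfold col2
  split_ifs with h
  · set c := h.choose with hc
    have h1 : d c ≤ w (lead c) := h.choose_spec
    have h3 : (monomial (w - Finsupp.single (lead c) (d c)) (1 : R)).IsHomogeneous
        (w - Finsupp.single (lead c) (d c)).degree := isHomogeneous_monomial _ rfl
    have h4 := h3.mul (hF c)
    have h5 : (w - Finsupp.single (lead c) (d c)).degree + d c = m := by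
      rw [← hw]
      conv_rhs => rw [← sub_add_single h1]
      rw [map_add, Finsupp.degree_single]
    rwa [h5] at h4
  · exact isHomogeneous_monomial _ hw

/-- If the determinant is invertible, then all forms of degree `m` are congruent to linear
combinations of reduced monomials. -/
theorem span_of_unit_det [Finite σ] [DecidableEq σ] (hF : ∀ c, (F c).IsHomogeneous (d c))
    (hdet : IsUnit (mat2 lead d F m).det) {u : MvPolynomial σ R} (hu : u.IsHomogeneous m) :
    ∃ v ∈ Ideal.span (Set.range F), ∃ w : MvPolynomial σ R, u = v + w ∧ w.IsHomogeneous m ∧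
      ∀ e ∈ w.support, ∀ c, e (lead c) < d c := by
  classical
  set N := mat2 lead d F m with hN
  let uv : Mon σ m → R := fun w => coeff w.1 u
  let v := N⁻¹.mulVec uv
  have hv : N.mulVec v = uv := by
    simp only [v, Matrix.mulVec_mulVec, Matrix.mul_nonsing_inv N hdet, Matrix.one_mulVec]
  have hsum : u = ∑ w, v w • col2 lead d F w.1 := by
    have h1 : (∑ w : Mon σ m, v w • col2 lead d F w.1).IsHomogeneous m := by
      apply IsHomogeneous.sum
      intro w _
      rw [smul_eq_C_mul]
      exact (col2_isHomogeneous hF w.2).C_mul _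
    ext w
    by_cases hw : w.degree = m
    · have h2 := congrFun hv ⟨w, hw⟩
      simp only [Matrix.mulVec, dotProduct, uv] at h2
      rw [← h2, coeff_sum]
      refine Finset.sum_congr rfl fun w' _ => ?_
      rw [coeff_smul, smul_eq_mul, mul_comm]
      rfl
    · rw [hu.coeff_eq_zero hw, h1.coeff_eq_zero hw]
  let P : Mon σ m → Prop := fun w => ∃ c, d c ≤ w.1 (lead c)
  refine ⟨∑ w with P w, v w • col2 lead d F w.1, ?_,
    ∑ w with ¬ P w, v w • col2 lead d F w.1, ?_, ?_, ?_⟩
  · refine Ideal.sum_mem _ fun w hw => ?_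
    have h : ∃ c, d c ≤ w.1 (lead c) := (Finset.mem_filter.1 hw).2
    unfold col2
    rw [dif_pos h, smul_eq_C_mul]
    exact Ideal.mul_mem_left _ _ (Ideal.mul_mem_left _ _ (Ideal.subset_span ⟨_, rfl⟩))
  · rw [hsum]
    exact (Finset.sum_filter_add_sum_filter_not _ _ _).symm
  · apply IsHomogeneous.sum
    intro w _
    rw [smul_eq_C_mul]
    exact (col2_isHomogeneous hF w.2).C_mul _
  · intro e he c
    obtain ⟨w, hw, hwe⟩ := Finset.mem_biUnion.1 (support_sum he)
    have h : ¬ ∃ c, d c ≤ w.1 (lead c) := (Finset.mem_filter.1 hw).2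
    unfold col2 at hwe
    rw [dif_neg h, smul_monomial] at hwe
    have h1 := Finset.mem_singleton.1 (support_monomial_subset hwe)
    subst h1
    by_contra hcon
    exact h ⟨c, not_lt.1 hcon⟩

end

theorem det_ne_zero2 {K : Type*} [Field K] {κ σ : Type*} [Finite σ] [DecidableEq σ]
    {lead : κ → σ} {d : κ → ℕ} {F G : κ → MvPolynomial σ K} {m : ℕ} {o : σ}
    (ho : ∀ c, lead c ≠ o) (hF : ∀ c, F c = X (lead c) ^ d c + X o * G c) :
    (mat2 lead d F m).det ≠ 0 := by
  intro hdet
  obtain ⟨v, hv0, hv⟩ := Matrix.exists_mulVec_eq_zero_iff.2 hdet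
  -- an exponent with minimal entry at `o`
  have hex : ∃ w, v w ≠ 0 := by
    by_contra h
    push Not at h
    exact hv0 (funext h)
  obtain ⟨w, hw, hmin⟩ : ∃ w, v w ≠ 0 ∧ ∀ w', v w' ≠ 0 → w.1 o ≤ w'.1 o := by
    obtain ⟨w, hw, hmin⟩ := Set.exists_min_image {w | v w ≠ 0}
      (fun w => w.1 o) (Set.toFinite _) hex
    exact ⟨w, hw, hmin⟩
  have h1 := congrFun hv w
  simp only [Matrix.mulVec, dotProduct, Pi.zero_apply] at h1
  have key : ∀ w', v w' ≠ 0 → mat2 lead d F m w w' = if w = w' then 1 else 0 := by
    intro w' hw'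
    have hle := hmin w' hw'
    unfold mat2 col2
    by_cases h : ∃ c, d c ≤ w'.1 (lead c)
    · rw [dif_pos h]
      set c := h.choose with hc
      have hc1 : d c ≤ w'.1 (lead c) := h.choose_spec
      rw [hF c, mul_add, coeff_add, X_pow_eq_monomial, monomial_mul, one_mul,
        sub_add_single hc1]
      have h5 : coeff w.1 (monomial (w'.1 - Finsupp.single (lead c) (d c)) 1 *
          (X o * G c)) = 0 := by
        rw [← mul_assoc, X, monomial_mul, coeff_monomial_mul', if_neg]
        intro hle2
        have h4 := hle2 o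
        rw [Finsupp.add_apply, Finsupp.single_eq_same, Finsupp.tsub_apply,
          Finsupp.single_apply, if_neg (ho c)] at h4
        omega
      rw [h5, add_zero, coeff_monomial]
      by_cases h2 : w = w'
      · rw [if_pos h2, if_pos (by rw [h2])]
      · rw [if_neg h2, if_neg (fun h => h2 (Subtype.ext h.symm))]
    · rw [dif_neg h, coeff_monomial]
      by_cases h2 : w = w'
      · rw [if_pos h2, if_pos (by rw [h2])]
      · rw [if_neg h2, if_neg (fun h => h2 (Subtype.ext h.symm))]
  rw [Finset.sum_eq_single w] at h1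
  · rw [key w hw, if_pos rfl, one_mul] at h1
    exact hw h1
  · intro w' _ hne
    by_cases h2 : v w' = 0
    · rw [h2, mul_zero]
    · rw [key w' h2, if_neg hne.symm, zero_mul]
  · intro h; exact absurd (Finset.mem_univ w) h

end Pool.Agent.Lib_MP_c7e57a
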