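import Pool.Agent.Lib_MP_c7e57a.Radix
import Pool.Agent.Lib_MP_c7e57a.Rank2

/-!
# Piece CI-TO: a toric complete intersection

The equations `z_c ^ d_c - z_{c-1} * y_0 ^ (d_c - 1)`, where `z_{-1} = y_1`.

Let `D = ∏ d_c`, `E c = radE d c = ∏_{c' > c} d_{c'}`. The algebra homomorphism
`toricHom : y_0 ↦ X 0 ^ D, y_1 ↦ X 1 ^ D, y_b ↦ X b (b ≥ 2), z_c ↦ X 0 ^ (D - E c) * X 1 ^ (E c)`
kills the equations (`radix_zero`, `radix_step`: `E c * d c = E (c-1)` and
`(D - E c) d c = (D - E (c - 1)) + D (d c - 1)` as `E c ≤ D`), maps a monomial with exponent `w`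
to the monomial with exponent `θ w`, where `θ w 0 = D * w (inl 0) + ∑ (D - E c) * w (inr c)`,
`θ w 1 = D * w (inl 1) + ∑ E c * w (inr c)` and `θ w b = w (inl b)` for `b ≥ 2`, and `θ` is injective
on the exponents with `w (inr c) < d c` for all `c` (`radix_unique` applied to the entries at `1`,
then the entry at `0` gives `w (inl 0)`, since `D > 0`). So a polynomial `u` with reduced exponents
and `toricHom u = 0` is zero (`toric_reduced`: `u = ∑ monomial e (coeff e u)`, the coefficient of
`toricHom u` at `θ e` is `coeff e u`).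

`toric_prime`: the ideal is the kernel of `toricHom`, which is prime (`RingHom.ker_isPrime`).
Indeed for `u` in the kernel write each homogeneous component as `v + w` by `span_of_unit_det`
(piece Rank2; `lead = Sum.inr`, `F = toric k n r d`, the determinant is not zero by
`det_ne_zero2` with `o = Sum.inl 0` and `toric_eq`, hence a unit in the field `k`) and sum up
(`MvPolynomial.sum_homogeneousComponent`): `u = v + w` with `v` in the ideal and `w` with reduced
exponents, `toricHom w = 0`, so `w = 0`.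
-/

namespace Pool.Agent.Lib_MP_c7e57a

open MvPolynomial

/-- The variable before `z_c`. -/
def prevVar (n r : ℕ) (c : Fin r) : Fin (n + 2) ⊕ Fin r :=
  if c.val = 0 then Sum.inl 1 else Sum.inr ⟨c.val - 1, by omega⟩

/-- The equations `z_c ^ d_c - z_{c-1} * y_0 ^ (d_c - 1)`. -/
noncomputable def toric (k : Type*) [CommRing k] (n r : ℕ) (d : Fin r → ℕ) (c : Fin r) :
    MvPolynomial (Fin (n + 2) ⊕ Fin r) k :=
  X (Sum.inr c) ^ d c - X (prevVar n r c) * X (Sum.inl 0) ^ (d c - 1)

theorem toric_homogeneous (k : Type*) [CommRing k] (n r : ℕ) (d : Fin r → ℕ)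
    (hd : ∀ c, 2 ≤ d c) (c : Fin r) : (toric k n r d c).IsHomogeneous (d c) := by
  have h2 := hd c
  have h3 : (X (Sum.inr c) ^ d c : MvPolynomial (Fin (n + 2) ⊕ Fin r) k).IsHomogeneous (d c) :=
    isHomogeneous_X_pow _ _
  have h4 : (X (prevVar n r c) * X (Sum.inl 0) ^ (d c - 1) :
      MvPolynomial (Fin (n + 2) ⊕ Fin r) k).IsHomogeneous (1 + (d c - 1)) :=
    (isHomogeneous_X _ _).mul (isHomogeneous_X_pow _ _)
  rw [show 1 + (d c - 1) = d c by omega] at h4
  exact h3.sub h4

theorem toric_eq (k : Type*) [CommRing k] (n r : ℕ) (d : Fin r → ℕ)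
    (hd : ∀ c, 2 ≤ d c) (c : Fin r) : toric k n r d c = X (Sum.inr c) ^ d c +
      X (Sum.inl 0) * (-(X (prevVar n r c) * X (Sum.inl 0) ^ (d c - 2))) := by
  have h2 := hd c
  have h3 : d c - 1 = (d c - 2) + 1 := by omega
  unfold toric
  rw [h3, pow_succ]
  ring

/-- The monomial parametrisation. -/
noncomputable def toricHom (k : Type*) [CommRing k] (n r : ℕ) (d : Fin r → ℕ) :
    MvPolynomial (Fin (n + 2) ⊕ Fin r) k →ₐ[k] MvPolynomial (Fin (n + 2)) k :=
  aeval (Sum.elim (fun b => if b.val ≤ 1 then X b ^ (∏ c, d c) else X b)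
    (fun c => X 0 ^ (∏ c, d c - radE d c) * X 1 ^ (radE d c)))

theorem toricHom_toric (k : Type*) [CommRing k] (n r : ℕ) (d : Fin r → ℕ)
    (hd : ∀ c, 2 ≤ d c) (c : Fin r) : toricHom k n r d (toric k n r d c) = 0 := by
  have h2 := hd c
  set D := ∏ c, d c with hD
  have hE : ∀ c, radE d c ≤ D := radix_le d (fun c => le_trans (by norm_num) (hd c))
  have e0 : toricHom k n r d (X (Sum.inl 0)) = X 0 ^ D := by
    unfold toricHom
    rw [aeval_X]
    simp [hD]
  have e1 : toricHom k n r d (X (Sum.inl 1)) = X 1 ^ D := by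
    unfold toricHom
    rw [aeval_X]
    simp [hD]
  have ec : ∀ c, toricHom k n r d (X (Sum.inr c)) = X 0 ^ (D - radE d c) * X 1 ^ (radE d c) := by
    intro c
    unfold toricHom
    rw [aeval_X]
    simp [hD]
  have hDd : D * (d c - 1) = D * d c - D := by rw [Nat.mul_sub, mul_one]
  have hDle : D ≤ D * d c := Nat.le_mul_of_pos_right _ (by omega)
  unfold toric prevVar
  rw [map_sub, map_mul, map_pow, map_pow, ec, e0, sub_eq_zero, mul_pow, ← pow_mul, ← pow_mul,
    ← pow_mul]
  by_cases hc : c.val = 0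
  · rw [if_pos hc, e1, radix_zero d c hc, ← hD, Nat.sub_mul, radix_zero d c hc, ← hD, hDd]
    ring
  · rw [if_neg hc, ec]
    have h3 := radix_step d c hc
    have h4 : radE d ⟨c.val - 1, by omega⟩ ≤ D := hE _
    rw [Nat.sub_mul, h3, hDd]
    set E' := radE d ⟨c.val - 1, by omega⟩ with hE'
    have h5 : D * d c - E' = (D - E') + (D * d c - D) := by omega
    rw [h5, pow_add]
    ring

/-- The exponents of the images of the variables. -/
noncomputable def Toric_v (n r : ℕ) (d : Fin r → ℕ) (x : Fin (n + 2) ⊕ Fin r) :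
    Fin (n + 2) →₀ ℕ :=
  Sum.elim (fun b => if b.val ≤ 1 then Finsupp.single b (∏ c, d c) else Finsupp.single b 1)
    (fun c => Finsupp.single 0 (∏ c, d c - radE d c) + Finsupp.single 1 (radE d c)) x

/-- The map on exponents. -/
noncomputable def Toric_theta (n r : ℕ) (d : Fin r → ℕ) (e : Fin (n + 2) ⊕ Fin r →₀ ℕ) :
    Fin (n + 2) →₀ ℕ :=
  ∑ x, e x • Toric_v n r d x

theorem Toric_X (k : Type*) [CommRing k] (n r : ℕ) (d : Fin r → ℕ) (x : Fin (n + 2) ⊕ Fin r) :
    toricHom k n r d (X x) = monomial (Toric_v n r d x) 1 := by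
  unfold toricHom Toric_v
  rw [aeval_X]
  rcases x with b | c
  · simp only [Sum.elim_inl]
    split_ifs with h
    · rw [X_pow_eq_monomial]
    · rfl
  · simp only [Sum.elim_inr]
    rw [X_pow_eq_monomial, X_pow_eq_monomial, monomial_mul, one_mul]

theorem Toric_monomial (k : Type*) [CommRing k] (n r : ℕ) (d : Fin r → ℕ)
    (e : Fin (n + 2) ⊕ Fin r →₀ ℕ) (a : k) :
    toricHom k n r d (monomial e a) = monomial (Toric_theta n r d e) a := by
  have h1 : (monomial e a : MvPolynomial (Fin (n + 2) ⊕ Fin r) k) =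
      C a * ∏ x, X x ^ e x := by
    rw [monomial_eq, Finsupp.prod_fintype _ _ (fun _ => pow_zero _)]
  rw [h1, map_mul, map_prod]
  have h2 : ∀ x, toricHom k n r d (X x ^ e x) = monomial (e x • Toric_v n r d x) 1 := by
    intro x
    rw [map_pow, Toric_X, monomial_pow, one_pow]
  rw [Finset.prod_congr rfl fun x _ => h2 x]
  have h3 : ∀ s : Finset (Fin (n + 2) ⊕ Fin r),
      (∏ x ∈ s, monomial (e x • Toric_v n r d x) (1 : k)) =
        monomial (∑ x ∈ s, e x • Toric_v n r d x) 1 := by
    intro s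
    induction s using Finset.cons_induction with
    | empty => rw [Finset.prod_empty, Finset.sum_empty]; rfl
    | cons x s hx ih => rw [Finset.prod_cons, Finset.sum_cons, ih, monomial_mul, one_mul]
  rw [h3]
  have h4 : toricHom k n r d (C a) = C a := by
    unfold toricHom
    rw [aeval_C]
    rfl
  rw [h4, C_mul_monomial, mul_one]
  rfl

theorem Toric_theta_apply (n r : ℕ) (d : Fin r → ℕ) (e : Fin (n + 2) ⊕ Fin r →₀ ℕ)
    (b : Fin (n + 2)) : Toric_theta n r d e b =
      (∑ b' : Fin (n + 2), e (Sum.inl b') * Toric_v n r d (Sum.inl b') b) +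
        ∑ c : Fin r, e (Sum.inr c) * Toric_v n r d (Sum.inr c) b := by
  unfold Toric_theta
  rw [Finsupp.finsetSum_apply, Fintype.sum_sum_type]
  rfl

theorem Toric_inl (n r : ℕ) (d : Fin r → ℕ) (e : Fin (n + 2) ⊕ Fin r →₀ ℕ) (b : Fin (n + 2)) :
    (∑ b' : Fin (n + 2), e (Sum.inl b') * Toric_v n r d (Sum.inl b') b) =
      if b.val ≤ 1 then (∏ c, d c) * e (Sum.inl b) else e (Sum.inl b) := by
  classical
  rw [Finset.sum_eq_single b]
  · unfold Toric_v
    simp only [Sum.elim_inl]
    split_ifs with h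
    · rw [Finsupp.single_eq_same, mul_comm]
    · rw [Finsupp.single_eq_same, mul_one]
  · intro b' _ hb
    unfold Toric_v
    simp only [Sum.elim_inl]
    split_ifs with h
    · rw [Finsupp.single_apply, if_neg hb, mul_zero]
    · rw [Finsupp.single_apply, if_neg hb, mul_zero]
  · intro hb
    exact absurd (Finset.mem_univ b) hb

theorem Toric_theta_one (n r : ℕ) (d : Fin r → ℕ) (e : Fin (n + 2) ⊕ Fin r →₀ ℕ) :
    Toric_theta n r d e 1 = (∏ c, d c) * e (Sum.inl 1) + ∑ c, radE d c * e (Sum.inr c) := by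
  rw [Toric_theta_apply, Toric_inl, if_pos (by simp)]
  congr 1
  refine Finset.sum_congr rfl fun c _ => ?_
  unfold Toric_v
  simp [mul_comm]

theorem Toric_theta_zero (n r : ℕ) (d : Fin r → ℕ) (e : Fin (n + 2) ⊕ Fin r →₀ ℕ) :
    Toric_theta n r d e 0 = (∏ c, d c) * e (Sum.inl 0) +
      ∑ c, (∏ c, d c - radE d c) * e (Sum.inr c) := by
  rw [Toric_theta_apply, Toric_inl, if_pos (by simp)]
  congr 1
  refine Finset.sum_congr rfl fun c _ => ?_
  unfold Toric_v
  simp [mul_comm]

theorem Toric_theta_ge (n r : ℕ) (d : Fin r → ℕ) (e : Fin (n + 2) ⊕ Fin r →₀ ℕ)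
    (b : Fin (n + 2)) (hb : ¬ b.val ≤ 1) : Toric_theta n r d e b = e (Sum.inl b) := by
  rw [Toric_theta_apply, Toric_inl, if_neg hb]
  have h0 : (0 : Fin (n + 2)) ≠ b := by
    intro h
    apply hb
    rw [← h]
    simp
  have h1 : (1 : Fin (n + 2)) ≠ b := by
    intro h
    apply hb
    rw [← h]
    simp
  have h2 : ∑ c : Fin r, e (Sum.inr c) * Toric_v n r d (Sum.inr c) b = 0 := by
    refine Finset.sum_eq_zero fun c _ => ?_
    unfold Toric_v
    simp only [Sum.elim_inr, Finsupp.add_apply, Finsupp.single_apply]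
    rw [if_neg h0, if_neg h1, add_zero, mul_zero]
  rw [h2, add_zero]

theorem Toric_theta_inj {n r : ℕ} {d : Fin r → ℕ} (hd : ∀ c, 2 ≤ d c)
    {e e' : Fin (n + 2) ⊕ Fin r →₀ ℕ} (he : ∀ c, e (Sum.inr c) < d c)
    (he' : ∀ c, e' (Sum.inr c) < d c) (h : Toric_theta n r d e = Toric_theta n r d e') :
    e = e' := by
  have h1 := DFunLike.congr_fun h 1
  rw [Toric_theta_one, Toric_theta_one] at h1
  obtain ⟨h2, h3⟩ := radix_unique d (b := fun c => e (Sum.inr c)) (b' := fun c => e' (Sum.inr c))
    he he' h1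
  have h3' : ∀ c, e (Sum.inr c) = e' (Sum.inr c) := fun c => congrFun h3 c
  have h4 := DFunLike.congr_fun h 0
  rw [Toric_theta_zero, Toric_theta_zero] at h4
  have h5 : ∑ c, (∏ c, d c - radE d c) * e (Sum.inr c) =
      ∑ c, (∏ c, d c - radE d c) * e' (Sum.inr c) :=
    Finset.sum_congr rfl fun c _ => by rw [h3' c]
  rw [h5] at h4
  have hD : 0 < ∏ c, d c := Finset.prod_pos fun c _ => lt_of_lt_of_le (by norm_num) (hd c)
  have h6 : e (Sum.inl 0) = e' (Sum.inl 0) := Nat.eq_of_mul_eq_mul_left hD (Nat.add_right_cancel h4)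
  ext x
  rcases x with b | c
  · by_cases hb : b.val ≤ 1
    · have hb' : b.val = 0 ∨ b.val = 1 := by omega
      rcases hb' with hb' | hb'
      · have : b = 0 := Fin.ext (by rw [hb']; simp)
        rw [this]; exact h6
      · have : b = 1 := Fin.ext (by rw [hb']; simp)
        rw [this]; exact h2
    · have h7 := DFunLike.congr_fun h b
      rwa [Toric_theta_ge _ _ _ _ _ hb, Toric_theta_ge _ _ _ _ _ hb] at h7
  · exact h3' c

theorem toric_reduced {k : Type*} [CommRing k] {n r : ℕ} {d : Fin r → ℕ}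
    (hd : ∀ c, 2 ≤ d c) {u : MvPolynomial (Fin (n + 2) ⊕ Fin r) k}
    (hu : ∀ e ∈ u.support, ∀ c, e (Sum.inr c) < d c) (h : toricHom k n r d u = 0) : u = 0 := by
  classical
  by_contra hne
  obtain ⟨e, he⟩ : ∃ e, e ∈ u.support := by
    by_contra hcon
    push Not at hcon
    apply hne
    rw [← support_eq_empty]
    exact Finset.eq_empty_of_forall_notMem hcon
  have h1 : toricHom k n r d u = ∑ e' ∈ u.support, monomial (Toric_theta n r d e') (coeff e' u) := by
    conv_lhs => rw [u.as_sum, map_sum]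
    exact Finset.sum_congr rfl fun e' _ => Toric_monomial k n r d e' _
  have h2 : coeff (Toric_theta n r d e) (toricHom k n r d u) = coeff e u := by
    rw [h1, coeff_sum, Finset.sum_eq_single e]
    · rw [coeff_monomial, if_pos rfl]
    · intro e' he' hne'
      rw [coeff_monomial, if_neg]
      intro hth
      exact hne' (Toric_theta_inj hd (hu e' he') (hu e he) hth)
    · intro h'
      exact absurd he h'
  rw [h, coeff_zero] at h2
  exact (mem_support_iff.1 he) h2.symm

theorem toric_prime (k : Type*) [Field k] (n r : ℕ) (d : Fin r → ℕ) (hd : ∀ c, 2 ≤ d c) :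
    (Ideal.span (Set.range (toric k n r d))).IsPrime := by
  classical
  have hker : Ideal.span (Set.range (toric k n r d)) =
      RingHom.ker (toricHom k n r d).toRingHom := by
    apply le_antisymm
    · rw [Ideal.span_le]
      rintro _ ⟨c, rfl⟩
      exact toricHom_toric k n r d hd c
    · intro u hu
      have hu' : toricHom k n r d u = 0 := hu
      have hdet : ∀ m, IsUnit (mat2 Sum.inr d (toric k n r d) m).det := fun m =>
        isUnit_iff_ne_zero.2 (det_ne_zero2 (o := Sum.inl 0)
          (G := fun c => -(X (prevVar n r c) * X (Sum.inl 0) ^ (d c - 2)))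
          (fun c => by simp) (fun c => toric_eq k n r d hd c))
      have hcomp : ∀ m, ∃ v ∈ Ideal.span (Set.range (toric k n r d)),
          ∃ w : MvPolynomial (Fin (n + 2) ⊕ Fin r) k, homogeneousComponent m u = v + w ∧
            w.IsHomogeneous m ∧ ∀ e ∈ w.support, ∀ c, e (Sum.inr c) < d c := fun m =>
        span_of_unit_det (lead := Sum.inr) (fun c => toric_homogeneous k n r d hd c) (hdet m)
          (homogeneousComponent_isHomogeneous m u)
      choose v hv w hvw _ hw using hcomp
      set V := ∑ m ∈ Finset.range (u.totalDegree + 1), v m with hV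
      set W := ∑ m ∈ Finset.range (u.totalDegree + 1), w m with hW
      have hVmem : V ∈ Ideal.span (Set.range (toric k n r d)) :=
        Ideal.sum_mem _ fun m _ => hv m
      have huVW : u = V + W := by
        rw [hV, hW, ← Finset.sum_add_distrib]
        conv_lhs => rw [← sum_homogeneousComponent u]
        exact Finset.sum_congr rfl fun m _ => hvw m
      have hWred : ∀ e ∈ W.support, ∀ c, e (Sum.inr c) < d c := by
        intro e he c
        obtain ⟨m, _, hm⟩ := Finset.mem_biUnion.1 (support_sum he)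
        exact hw m e hm c
      have hV0 : toricHom k n r d V = 0 := by
        have hle : Ideal.span (Set.range (toric k n r d)) ≤
            RingHom.ker (toricHom k n r d).toRingHom := by
          rw [Ideal.span_le]
          rintro _ ⟨c, rfl⟩
          exact toricHom_toric k n r d hd c
        exact hle hVmem
      have hW0 : toricHom k n r d W = 0 := by
        have h := hu'
        rw [huVW, map_add, hV0, zero_add] at h
        exact h
      rw [huVW, toric_reduced hd hWred hW0, add_zero]
      exact hVmem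
  rw [hker]
  exact RingHom.ker_isPrime _

end Pool.Agent.Lib_MP_c7e57a
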