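import Pool.Agent.Lib_MP_c7e57a.Descent
import Pool.Agent.Lib_MP_c7e57a.Toric
import Pool.Agent.Lib_MP_c7e57a.Place

/-!
# Equations with algebraically independent coefficients generate a prime ideal
-/

namespace Pool.Agent.Lib_MP_c7e57a

open MvPolynomial IsLocalRing

theorem map_toric {k k' : Type*} [CommRing k] [CommRing k'] (φ : k →+* k') (n r : ℕ)
    (d : Fin r → ℕ) (c : Fin r) : map φ (toric k n r d c) = toric k' n r d c := by
  simp only [toric, map_sub, map_mul, map_pow, map_X]

theorem prime_of_independent {n r : ℕ} {d : Fin r → ℕ} (hd : ∀ c, 2 ≤ d c)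
    {f : Fin r → MvPolynomial (Fin (n + 2) ⊕ Fin r) ℂ} (hf : ∀ c, (f c).IsHomogeneous (d c))
    (hind : AlgebraicIndependent ℚ
      (fun x : Σ c, Mon (Fin (n + 2) ⊕ Fin r) (d c) => coeff x.2.1 (f x.1))) :
    (Ideal.span (Set.range f)).IsPrime := by
  classical
  obtain ⟨B, y, hy, hres⟩ := exists_place hind (fun x => coeff x.2.1 (toric ℤ n r d x.1))
  let F : Fin r → MvPolynomial (Fin (n + 2) ⊕ Fin r) B := fun c =>
    ∑ w : Mon (Fin (n + 2) ⊕ Fin r) (d c), monomial w.1 (y ⟨c, w⟩)
  have hFc : ∀ c (w : Mon (Fin (n + 2) ⊕ Fin r) (d c)), coeff w.1 (F c) = y ⟨c, w⟩ := by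
    intro c w
    show coeff w.1 (∑ w : Mon (Fin (n + 2) ⊕ Fin r) (d c), monomial w.1 (y ⟨c, w⟩)) = _
    rw [coeff_sum, Finset.sum_eq_single w]
    · rw [coeff_monomial, if_pos rfl]
    · intro w' _ hne
      rw [coeff_monomial, if_neg (fun h => hne (Subtype.ext h))]
    · intro h; exact absurd (Finset.mem_univ w) h
  have hFh : ∀ c, (F c).IsHomogeneous (d c) := by
    intro c
    apply IsHomogeneous.sum
    intro w _
    exact isHomogeneous_monomial _ w.2
  have hFK : ∀ c, map (algebraMap B ℂ) (F c) = f c := by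
    intro c
    ext w
    by_cases hw : w.degree = d c
    · rw [coeff_map, hFc c ⟨w, hw⟩]
      exact hy ⟨c, ⟨w, hw⟩⟩
    · rw [((hFh c).map (algebraMap B ℂ)).coeff_eq_zero hw, (hf c).coeff_eq_zero hw]
  have hFk : ∀ c, map (residue B) (F c) = toric (ResidueField B) n r d c := by
    intro c
    ext w
    by_cases hw : w.degree = d c
    · rw [coeff_map, hFc c ⟨w, hw⟩, hres ⟨c, ⟨w, hw⟩⟩,
        ← map_toric (Int.castRingHom (ResidueField B)), coeff_map]
      rfl
    · rw [((hFh c).map (residue B)).coeff_eq_zero hw,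
        (toric_homogeneous (ResidueField B) n r d hd c).coeff_eq_zero hw]
  have hmain := descent_prime (K := ℂ) (B := B) (lead := (Sum.inr : Fin r → Fin (n + 2) ⊕ Fin r))
    (d := d) (o := Sum.inl 0) (F := F)
    (G := fun c => -(X (prevVar n r c) * X (Sum.inl 0) ^ (d c - 2))) Sum.inr_injective
    (fun c => le_trans one_le_two (hd c)) (fun c => Sum.inr_ne_inl) hFh
    (fun c => by rw [hFk c, toric_eq _ n r d hd c])
    (by
      have h1 : (fun c => map (residue B) (F c)) = toric (ResidueField B) n r d := funext hFk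
      rw [h1]
      exact toric_prime (ResidueField B) n r d hd)
  have h1 : (fun c => map (algebraMap B ℂ) (F c)) = f := funext hFK
  rwa [h1] at hmain

end Pool.Agent.Lib_MP_c7e57a
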