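import Mathlib

/-!
# Piece CI-R: mixed radix representations

`D = ∏ d c`, `E c = ∏_{c' > c} d c'`. A number `D a + ∑ E c * b c` with digits `b c < d c`
determines `a` and `b`.

Proof by induction on `r` (generalizing everything): `Finset.Ioi (0 : Fin (r + 1))` is the image of
`univ` under `Fin.succ` (`Fin.Ioi_zero_eq_map`), `Finset.Ioi (Fin.succ c)` is the image of `Ioi c`
(`Fin.Ioi_succ` / `Fin.map_succEmb_Ioi`), so with `d' = d ∘ Fin.succ`, `D' = ∏ d'`, `E'` one has
`E 0 = D'`, `E (succ c) = E' c`, `D = d 0 * D'`. Hence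
`D a + ∑ E c * b c = D' (d 0 * a + b 0) + ∑ E' c * b (succ c)`; by induction
`d 0 * a + b 0 = d 0 * a' + b' 0` and the other digits agree; as `b 0, b' 0 < d 0`, also
`a = a'` and `b 0 = b' 0`.

The relation `E c * d c = E (c - 1)` (`radix_step`, `radix_zero`): the set `Ioi (c - 1)` is
`insert c (Ioi c)`.
-/

namespace Pool.Agent.Lib_MP_c7e57a

/-- The weight of the digit number `c`. -/
def radE {r : ℕ} (d : Fin r → ℕ) (c : Fin r) : ℕ := ∏ c' ∈ Finset.Ioi c, d c'

theorem Radix_E_zero {r : ℕ} (d : Fin (r + 1) → ℕ) : radE d 0 = ∏ c : Fin r, d c.succ := by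
  rw [radE, Fin.Ioi_zero_eq_map, Finset.prod_map]
  rfl

theorem Radix_E_succ {r : ℕ} (d : Fin (r + 1) → ℕ) (c : Fin r) :
    radE d c.succ = radE (fun c' => d c'.succ) c := by
  rw [radE, radE, Fin.Ioi_succ, Finset.prod_map]
  rfl

theorem radix_unique {r : ℕ} (d : Fin r → ℕ) {a a' : ℕ} {b b' : Fin r → ℕ}
    (hb : ∀ c, b c < d c) (hb' : ∀ c, b' c < d c)
    (h : (∏ c, d c) * a + ∑ c, radE d c * b c = (∏ c, d c) * a' + ∑ c, radE d c * b' c) :
    a = a' ∧ b = b' := by
  induction r generalizing a a' with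
  | zero =>
    simp only [Finset.univ_eq_empty, Finset.prod_empty, Finset.sum_empty, one_mul, add_zero] at h
    exact ⟨h, funext fun c => c.elim0⟩
  | succ r ih =>
    have key : ∀ (a : ℕ) (b : Fin (r + 1) → ℕ),
        (∏ c, d c) * a + ∑ c, radE d c * b c = (∏ c : Fin r, d c.succ) * (d 0 * a + b 0) +
          ∑ c : Fin r, radE (fun c' => d c'.succ) c * b c.succ := by
      intro a b
      rw [Fin.prod_univ_succ, Fin.sum_univ_succ, Radix_E_zero]
      simp only [Radix_E_succ]
      ring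
    rw [key, key] at h
    obtain ⟨h1, h2⟩ := ih (fun c' => d c'.succ) (fun c => hb c.succ) (fun c => hb' c.succ) h
    have h0 := hb 0
    have h0' := hb' 0
    have h3 : b 0 = b' 0 := by
      have h4 := congrArg (fun n => n % d 0) h1
      simp only [Nat.mul_add_mod] at h4
      rwa [Nat.mod_eq_of_lt h0, Nat.mod_eq_of_lt h0'] at h4
    refine ⟨?_, funext fun c => ?_⟩
    · rw [h3] at h1
      exact Nat.eq_of_mul_eq_mul_left (by omega) (Nat.add_right_cancel h1)
    · refine Fin.cases h3 (fun c => ?_) c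
      exact congrFun h2 c

theorem radix_zero {r : ℕ} (d : Fin r → ℕ) (c : Fin r) (hc : c.val = 0) :
    radE d c * d c = ∏ c, d c := by
  have h1 : (Finset.univ : Finset (Fin r)) = insert c (Finset.Ioi c) := by
    ext x
    simp only [Finset.mem_univ, Finset.mem_insert, Finset.mem_Ioi, true_iff, Fin.ext_iff,
      Fin.lt_def]
    omega
  rw [h1, Finset.prod_insert (by simp), mul_comm, radE]

theorem radix_step {r : ℕ} (d : Fin r → ℕ) (c : Fin r) (hc : c.val ≠ 0) :
    radE d c * d c = radE d ⟨c.val - 1, by omega⟩ := by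
  have h1 : Finset.Ioi (⟨c.val - 1, by omega⟩ : Fin r) = insert c (Finset.Ioi c) := by
    ext x
    simp only [Finset.mem_insert, Finset.mem_Ioi, Fin.ext_iff, Fin.lt_def]
    omega
  rw [radE, radE, h1, Finset.prod_insert (by simp), mul_comm]

theorem radix_le {r : ℕ} (d : Fin r → ℕ) (hd : ∀ c, 1 ≤ d c) (c : Fin r) :
    radE d c ≤ ∏ c, d c :=
  Finset.prod_le_prod_of_subset_of_one_le' (Finset.subset_univ _) fun c' _ _ => hd c'

end Pool.Agent.Lib_MP_c7e57a
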