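import Pool.Agent.Lib_MP_c7e57a.Points
import Pool.Agent.Lib_MP_c7e57a.Blocks
import Pool.Agent.Lib_MP_c7e57a.Count
import Pool.Agent.Lib_MP_c7e57a.JetDim

/-!
# Piece CI-S1: the simple points

Apply `exists_blocks` (piece CI-B) with `P b p` = the two statements about the block `b`.

For a block `b = blk x`, `x = (g₀, c)`, apply `exists_block` (piece CI-P) with
`W = ∏_{g a = g₀} ℂ[X]/m^(j a)`, `H = {a | g a = g₀} → ℂ` if `c < i` and `H = 0` (`PUnit` or
`Fin 0 → ℂ`) if `c = i`, and the linear map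
`L (δ, η) = (class of ∑_s δ_s V_s(X + t a) + η_a X_c ^ (j a - 1))_a`. It is surjective by
`hV`; `L (0, η) = 0` implies `η_a X_c ^ (j a - 1) ∈ m^(j a)`, so `η_a = 0`
(`MvPolynomial.mem_pow_idealOfVars_iff'`). The dimension condition: `dim W ≤ ∑_{g a = g₀} C a`
(piece CI-J), `kk b = q + 1 - ∑_{g a = g₀} C a + dim H` and the sum is at most `q + 1`.
(Only the values `η a` with `g a = g₀` matter; put `η a = 0` for the other `a`.)

For a block that is not of this form take `W = H = 0`, `kk b = q + 1`.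
-/

namespace Pool.Agent.Lib_MP_c7e57a

open MvPolynomial

/-- The general form of the argument for one block. -/
theorem Simple_general {q i : ℕ} {S : Type*} [Fintype S] (j : S → ℕ)
    (v : S → Fin (q + 1) → MvPolynomial (Fin i) ℂ)
    (hv : ∀ h : S → MvPolynomial (Fin i) ℂ, ∃ δ : Fin (q + 1) → ℂ,
      ∀ a, ∑ s, C (δ s) * v a s - h a ∈ (idealOfVars (Fin i) ℂ) ^ (j a))
    {H : Type*} [AddCommGroup H] [Module ℂ H] [Module.Finite ℂ H]
    (E : S → H →ₗ[ℂ] MvPolynomial (Fin i) ℂ)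
    (hE : ∀ η : H, (∀ a, E a η ∈ (idealOfVars (Fin i) ℂ) ^ (j a)) → η = 0) {k : ℕ}
    (hk : k + ∑ a, (i + j a - 1).choose i ≤ q + 1 + Module.finrank ℂ H) (B : Finset ℂ) :
    ∃ p : Fin k → Fin q → ℂ, (∀ a s, p a s ∉ B) ∧ (∀ s, Function.Injective fun a => p a s) ∧
      ∀ (h : S → MvPolynomial (Fin i) ℂ) (h' : Fin k → ℂ), ∃ (δ : Fin (q + 1) → ℂ) (η : H),
        (∀ a, ∑ s, C (δ s) * v a s + E a η - h a ∈ (idealOfVars (Fin i) ℂ) ^ (j a)) ∧
        ∀ y, ∑ s : Fin q, δ (Fin.castSucc s) * p y s + δ (Fin.last q) = h' y := by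
  classical
  have hfin : ∀ a, Module.Finite ℂ (MvPolynomial (Fin i) ℂ ⧸ (idealOfVars (Fin i) ℂ) ^ (j a)) :=
    fun a => finite_quot le_rfl
  let base : S → (Fin (q + 1) → ℂ) →ₗ[ℂ] MvPolynomial (Fin i) ℂ := fun a =>
    ∑ s, (LinearMap.proj s : (Fin (q + 1) → ℂ) →ₗ[ℂ] ℂ).smulRight (v a s)
  have hbase : ∀ a δ, base a δ = ∑ s, C (δ s) * v a s := by
    intro a δ
    simp only [base, LinearMap.sum_apply, LinearMap.smulRight_apply, LinearMap.proj_apply]
    exact Finset.sum_congr rfl fun s _ => C_mul'.symm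
  let L : (Fin (q + 1) → ℂ) × H →ₗ[ℂ]
      ((a : S) → (MvPolynomial (Fin i) ℂ ⧸ (idealOfVars (Fin i) ℂ) ^ (j a))) :=
    LinearMap.pi fun a => (Ideal.Quotient.mkₐ ℂ ((idealOfVars (Fin i) ℂ) ^ (j a))).toLinearMap ∘ₗ
      ((base a) ∘ₗ (LinearMap.fst ℂ _ _) + (E a) ∘ₗ (LinearMap.snd ℂ _ _))
  have hLa : ∀ δ η a, L (δ, η) a =
      Ideal.Quotient.mk ((idealOfVars (Fin i) ℂ) ^ (j a)) (∑ s, C (δ s) * v a s + E a η) := by
    intro δ η a
    rw [← hbase]
    rfl
  have hsurj : Function.Surjective L := by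
    intro w
    choose h hh using fun a => Ideal.Quotient.mk_surjective (w a)
    obtain ⟨δ, hδ⟩ := hv h
    refine ⟨(δ, 0), ?_⟩
    funext a
    rw [hLa, map_zero, add_zero, ← hh a, Ideal.Quotient.eq]
    exact hδ a
  have hinj : ∀ η : H, L (0, η) = 0 → η = 0 := by
    intro η h0
    apply hE
    intro a
    have h1 : L (0, η) a = 0 := by rw [h0]; rfl
    rw [hLa, Ideal.Quotient.eq_zero_iff_mem] at h1
    simpa using h1
  have hrank : Module.finrank ℂ
      ((a : S) → (MvPolynomial (Fin i) ℂ ⧸ (idealOfVars (Fin i) ℂ) ^ (j a))) ≤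
      ∑ a, (i + j a - 1).choose i := by
    rw [Module.finrank_pi_fintype]
    exact Finset.sum_le_sum fun a _ => finrank_jet i (j a)
  obtain ⟨p, h1, h2, h3⟩ := exists_block L hsurj hinj (k := k) (by omega) B
  refine ⟨p, h1, h2, ?_⟩
  intro h h'
  obtain ⟨δ, η, h4, h5⟩ := h3 (fun a => Ideal.Quotient.mk _ (h a)) h'
  refine ⟨δ, η, ?_, h5⟩
  intro a
  have h6 : L (δ, η) a = Ideal.Quotient.mk _ (h a) := by rw [h4]
  rw [hLa, Ideal.Quotient.eq] at h6
  exact h6

theorem exists_simple {n q i G : ℕ} {φ : Type*} [Fintype φ] [DecidableEq φ]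
    {blk : Fin G × Fin (i + 1) → Fin (n + 1)} (hblk : Function.Injective blk) (g : φ → Fin G)
    (j : φ → ℕ) (hj : ∀ a, 2 ≤ j a)
    (hC : ∀ g₀, ∑ a with g a = g₀, (i + j a - 1).choose i ≤ q + 1) (t : φ → ℂ)
    (V : Fin (q + 1) → MvPolynomial (Fin i) ℂ)
    (hV : ∀ (g₀ : Fin G) (h : φ → MvPolynomial (Fin i) ℂ), ∃ δ : Fin (q + 1) → ℂ,
        ∀ a, g a = g₀ → ∑ s, C (δ s) * aeval (fun x => X x + C (t a) :
          Fin i → MvPolynomial (Fin i) ℂ) (V s) - h a ∈ (idealOfVars (Fin i) ℂ) ^ (j a))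
    (B : Finset ℂ) :
    ∃ p : (Σ b, Fin (kk q blk g (fun a => (i + j a - 1).choose i) b)) → Fin q → ℂ,
      (∀ a s, p a s ∉ B) ∧ (∀ s, Function.Injective fun a => p a s) ∧
      (∀ (x : Fin G × Fin (i + 1)) (h : φ → MvPolynomial (Fin i) ℂ)
        (h' : Fin (kk q blk g (fun a => (i + j a - 1).choose i) (blk x)) → ℂ),
        ∃ (δ : Fin (q + 1) → ℂ) (η : φ → ℂ),
          (∀ a, g a = x.1 → ∑ s, C (δ s) * aeval (fun x => X x + C (t a) :
            Fin i → MvPolynomial (Fin i) ℂ) (V s) +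
            C (η a) * (if hx : x.2.val < i then X ⟨x.2.val, hx⟩ ^ (j a - 1) else 0) - h a ∈
              (idealOfVars (Fin i) ℂ) ^ (j a)) ∧
          ∀ y, ∑ s : Fin q, δ (Fin.castSucc s) * p ⟨blk x, y⟩ s + δ (Fin.last q) = h' y) ∧
      ∀ b, (∀ x, blk x ≠ b) →
        ∀ h' : Fin (kk q blk g (fun a => (i + j a - 1).choose i) b) → ℂ,
          ∃ δ : Fin (q + 1) → ℂ,
            ∀ y, ∑ s : Fin q, δ (Fin.castSucc s) * p ⟨b, y⟩ s + δ (Fin.last q) = h' y := by
  classical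
  let P : ∀ b, (Fin (kk q blk g (fun a => (i + j a - 1).choose i) b) → Fin q → ℂ) → Prop :=
    fun b p =>
      (∀ x, blk x = b → ∀ (h : φ → MvPolynomial (Fin i) ℂ) (h' : Fin (kk q blk g
        (fun a => (i + j a - 1).choose i) b) → ℂ),
        ∃ (δ : Fin (q + 1) → ℂ) (η : φ → ℂ),
          (∀ a, g a = x.1 → ∑ s, C (δ s) * aeval (fun x => X x + C (t a) :
            Fin i → MvPolynomial (Fin i) ℂ) (V s) +
            C (η a) * (if hx : x.2.val < i then X ⟨x.2.val, hx⟩ ^ (j a - 1) else 0) - h a ∈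
              (idealOfVars (Fin i) ℂ) ^ (j a)) ∧
          ∀ y, ∑ s : Fin q, δ (Fin.castSucc s) * p y s + δ (Fin.last q) = h' y) ∧
      ((∀ x, blk x ≠ b) → ∀ h' : Fin (kk q blk g (fun a => (i + j a - 1).choose i) b) → ℂ,
          ∃ δ : Fin (q + 1) → ℂ,
            ∀ y, ∑ s : Fin q, δ (Fin.castSucc s) * p y s + δ (Fin.last q) = h' y)
  suffices hP : ∀ b (B : Finset ℂ), ∃ p : Fin (kk q blk g (fun a => (i + j a - 1).choose i) b) →
      Fin q → ℂ, (∀ a s, p a s ∉ B) ∧ (∀ s, Function.Injective fun a => p a s) ∧ P b p by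
    obtain ⟨p, hp1, hp2, hp3⟩ := exists_blocks P hP B
    exact ⟨p, hp1, hp2, fun x => (hp3 (blk x)).1 x rfl, fun b => (hp3 b).2⟩
  intro b B
  by_cases hb : ∃ x, blk x = b
  · obtain ⟨x, rfl⟩ := hb
    have hvS : ∀ h : {a : φ // g a = x.1} → MvPolynomial (Fin i) ℂ, ∃ δ : Fin (q + 1) → ℂ,
        ∀ a : {a : φ // g a = x.1}, ∑ s, C (δ s) * aeval (fun x => X x + C (t a) :
          Fin i → MvPolynomial (Fin i) ℂ) (V s) - h a ∈ (idealOfVars (Fin i) ℂ) ^ (j a) := by
      intro h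
      obtain ⟨δ, hδ⟩ := hV x.1 (fun a => if ha : g a = x.1 then h ⟨a, ha⟩ else 0)
      refine ⟨δ, fun a => ?_⟩
      have h1 := hδ a.1 a.2
      rw [dif_pos a.2] at h1
      exact h1
    have hsum : ∑ a : {a : φ // g a = x.1}, (i + j a.1 - 1).choose i =
        ∑ a with g a = x.1, (i + j a - 1).choose i :=
      (Finset.sum_subtype (Finset.univ.filter fun a => g a = x.1) (by simp)
        (fun a => (i + j a - 1).choose i)).symm
    by_cases hx : x.2.val < i
    · let E : {a : φ // g a = x.1} → ({a : φ // g a = x.1} → ℂ) →ₗ[ℂ] MvPolynomial (Fin i) ℂ :=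
        fun a => (LinearMap.proj a : ({a : φ // g a = x.1} → ℂ) →ₗ[ℂ] ℂ).smulRight
          (X ⟨x.2.val, hx⟩ ^ (j a.1 - 1))
      have hEa : ∀ a η, E a η = C (η a) * X ⟨x.2.val, hx⟩ ^ (j a.1 - 1) := by
        intro a η
        simp only [E, LinearMap.smulRight_apply, LinearMap.proj_apply]
        exact C_mul'.symm
      obtain ⟨p, h1, h2, h3⟩ := Simple_general (q := q) (fun a : {a : φ // g a = x.1} => j a.1)
        (fun a s => aeval (fun x => X x + C (t a) : Fin i → MvPolynomial (Fin i) ℂ) (V s)) hvS E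
        (by
          intro η hη
          funext a
          have h4 := hη a
          rw [hEa, mem_pow_idealOfVars_iff'] at h4
          have h5 := h4 (Finsupp.single ⟨x.2.val, hx⟩ (j a.1 - 1)) (by
            rw [Finsupp.degree_single]
            have := hj a.1
            omega)
          rw [coeff_C_mul, coeff_X_pow, if_pos rfl, mul_one] at h5
          exact h5)
        (k := kk q blk g (fun a => (i + j a - 1).choose i) (blk x)) (by
          rw [kk_blk q hblk, if_pos hx, Module.finrank_fintype_fun_eq_card, hsum,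
            Fintype.card_subtype]
          have := hC x.1
          omega) B
      refine ⟨p, h1, h2, ?_, fun hn => absurd rfl (hn x)⟩
      intro x' hx' h h'
      have hxx : x' = x := hblk hx'
      subst hxx
      obtain ⟨δ, η, h4, h5⟩ := h3 (fun a => h a.1) h'
      refine ⟨δ, fun a => if ha : g a = x'.1 then η ⟨a, ha⟩ else 0, ?_, h5⟩
      intro a ha
      beta_reduce
      rw [dif_pos ha, dif_pos hx]
      have h6 := h4 ⟨a, ha⟩
      rw [hEa] at h6
      exact h6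
    · obtain ⟨p, h1, h2, h3⟩ := Simple_general (q := q) (fun a : {a : φ // g a = x.1} => j a.1)
        (fun a s => aeval (fun x => X x + C (t a) : Fin i → MvPolynomial (Fin i) ℂ) (V s)) hvS
        (fun _ => (0 : (Fin 0 → ℂ) →ₗ[ℂ] MvPolynomial (Fin i) ℂ))
        (fun η _ => Subsingleton.elim _ _)
        (k := kk q blk g (fun a => (i + j a - 1).choose i) (blk x)) (by
          rw [kk_blk q hblk, if_neg hx, hsum]
          have := hC x.1
          omega) B
      refine ⟨p, h1, h2, ?_, fun hn => absurd rfl (hn x)⟩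
      intro x' hx' h h'
      have hxx : x' = x := hblk hx'
      subst hxx
      obtain ⟨δ, η, h4, h5⟩ := h3 (fun a => h a.1) h'
      refine ⟨δ, 0, ?_, h5⟩
      intro a ha
      rw [dif_neg hx, mul_zero, add_zero]
      have h6 := h4 ⟨a, ha⟩
      rw [LinearMap.zero_apply, add_zero] at h6
      exact h6
  · obtain ⟨p, h1, h2, h3⟩ := Simple_general (q := q) (i := i) (fun a : Fin 0 => a.elim0)
      (fun a => a.elim0) (fun h => ⟨0, fun a => a.elim0⟩)
      (fun _ => (0 : (Fin 0 → ℂ) →ₗ[ℂ] MvPolynomial (Fin i) ℂ))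
      (fun η _ => Subsingleton.elim _ _)
      (k := kk q blk g (fun a => (i + j a - 1).choose i) b) (by
        rw [kk_not q g _ (fun x hx => hb ⟨x, hx⟩)]
        simp) B
    refine ⟨p, h1, h2, fun x hx => absurd ⟨x, hx⟩ hb, ?_⟩
    intro _ h'
    obtain ⟨δ, η, -, h5⟩ := h3 (fun a => a.elim0) h'
    exact ⟨δ, h5⟩

end Pool.Agent.Lib_MP_c7e57a
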