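import Pool.Agent.Lib_MP_c7e57a.DerAff
import Pool.Agent.Lib_MP_c7e57a.GoodNear

/-!
# The linear system at the special complete intersection
-/

namespace Pool.Agent.Lib_MP_c7e57a

open MvPolynomial

variable {n q i G : ℕ}

/-- Translation. -/
noncomputable def tr (i : ℕ) (r : ℂ) : MvPolynomial (Fin i) ℂ →ₐ[ℂ] MvPolynomial (Fin i) ℂ :=
  aeval (fun x => X x + C r)

/-- The coordinates of a simple point. -/
noncomputable def spt (i : ℕ) (P : Fin q → ℂ) (s : Fin (q + 1)) : MvPolynomial (Fin i) ℂ :=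
  Fin.lastCases (motive := fun _ => MvPolynomial (Fin i) ℂ) 1
    (fun s' => C (P s') + if h : s'.val < i then X ⟨s'.val, h⟩ else 0) s

theorem spt_last (P : Fin q → ℂ) : spt i P (Fin.last q) = 1 := by
  unfold spt
  rw [Fin.lastCases_last]

theorem spt_castSucc (P : Fin q → ℂ) (s : Fin q) : spt i P (Fin.castSucc s) =
    C (P s) + if h : s.val < i then X ⟨s.val, h⟩ else 0 := by
  unfold spt
  rw [Fin.lastCases_castSucc]

theorem castSucc_emq (hiq : i ≤ q) (s : Fin i) : Fin.castSucc (emq hiq s) = emb hiq s := rfl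

/-- The equation that belongs to the index `c` of a block. -/
def cc (hiq : i ≤ q) (c : Fin (i + 1)) : Fin (q + 1) :=
  if h : c.val < i then Fin.castSucc (emq hiq ⟨c.val, h⟩) else Fin.last q

theorem cc_castSucc (hiq : i ≤ q) (s : Fin i) :
    cc hiq (Fin.castSucc s) = Fin.castSucc (emq hiq s) := by
  unfold cc
  rw [dif_pos (by simp)]
  rfl

theorem cc_last (hiq : i ≤ q) : cc hiq (Fin.last i) = Fin.last q := by
  unfold cc
  rw [dif_neg (by simp)]

section

variable {φ : Type} {k : Fin (n + 1) → ℕ}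

/-- The special points. -/
noncomputable def gam (t : φ → ℂ) (V : Fin (q + 1) → MvPolynomial (Fin i) ℂ)
    (p : (Σ b, Fin (k b)) → Fin q → ℂ) :
    φ ⊕ (Σ b, Fin (k b)) → Fin (q + 1) → MvPolynomial (Fin i) ℂ :=
  Sum.elim (fun a s => tr i (t a) (V s)) (fun x => spt i (p x))

/-- The values of the polynomials `χ c b` at the special points. -/
noncomputable def eps (hiq : i ≤ q) (blk : Fin G × Fin (i + 1) → Fin (n + 1)) (g : φ → Fin G)
    (c : Fin (q + 1)) (b : Fin (n + 1)) (a : φ ⊕ (Σ b, Fin (k b))) : ℂ := by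
  classical
  exact Sum.elim (fun a => if ∃ c', cc hiq c' = c ∧ blk (g a, c') = b then 1 else 0)
    (fun x => if c = Fin.last q ∧ x.1 = b then 1 else 0) a

theorem const_of_mem {P : MvPolynomial (Fin i) ℂ} :
    P ∈ (idealOfVars (Fin i) ℂ) ^ 1 ↔ constantCoeff P = 0 := by
  rw [mem_pow_idealOfVars_iff']
  constructor
  · intro h
    exact h 0 (by simp)
  · intro h x hx
    have h1 : x = 0 := (Finsupp.degree_eq_zero_iff x).1 (by omega)
    rw [h1]
    exact h

/-- The solutions for the blocks. -/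
theorem block_solution (hiq : i ≤ q) {blk : Fin G × Fin (i + 1) → Fin (n + 1)}
    (hblk : Function.Injective blk) (g : φ → Fin G) (j : φ → ℕ) (t : φ → ℂ)
    (V : Fin (q + 1) → MvPolynomial (Fin i) ℂ) (p : (Σ b, Fin (k b)) → Fin q → ℂ)
    (h1 : ∀ (x : Fin G × Fin (i + 1)) (h : φ → MvPolynomial (Fin i) ℂ)
        (h' : Fin (k (blk x)) → ℂ), ∃ (δ : Fin (q + 1) → ℂ) (η : φ → ℂ),
          (∀ a, g a = x.1 → ∑ s, C (δ s) * tr i (t a) (V s) +
            C (η a) * (if hx : x.2.val < i then X ⟨x.2.val, hx⟩ ^ (j a - 1) else 0) - h a ∈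
              (idealOfVars (Fin i) ℂ) ^ (j a)) ∧
          ∀ y, ∑ s : Fin q, δ (Fin.castSucc s) * p ⟨blk x, y⟩ s + δ (Fin.last q) = h' y)
    (h2 : ∀ b, (∀ x, blk x ≠ b) → ∀ h' : Fin (k b) → ℂ, ∃ δ : Fin (q + 1) → ℂ,
            ∀ y, ∑ s : Fin q, δ (Fin.castSucc s) * p ⟨b, y⟩ s + δ (Fin.last q) = h' y)
    (h : Fin (q + 1) → φ ⊕ (Σ b, Fin (k b)) → MvPolynomial (Fin i) ℂ) (b : Fin (n + 1)) :
    ∃ (δ : Fin (q + 1) → ℂ) (η : φ → ℂ),
      (∀ x, blk x = b → ∀ a, g a = x.1 → ∑ s, C (δ s) * tr i (t a) (V s) +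
            C (η a) * (if hx : x.2.val < i then X ⟨x.2.val, hx⟩ ^ (j a - 1) else 0) -
              h (cc hiq x.2) (Sum.inl a) ∈ (idealOfVars (Fin i) ℂ) ^ (j a)) ∧
      ∀ y, ∑ s : Fin q, δ (Fin.castSucc s) * p ⟨b, y⟩ s + δ (Fin.last q) =
        constantCoeff (h (Fin.last q) (Sum.inr ⟨b, y⟩)) := by
  by_cases hb : ∃ x, blk x = b
  · obtain ⟨x, rfl⟩ := hb
    obtain ⟨δ, η, hδ, hδ'⟩ := h1 x (fun a => h (cc hiq x.2) (Sum.inl a))
      (fun y => constantCoeff (h (Fin.last q) (Sum.inr ⟨blk x, y⟩)))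
    refine ⟨δ, η, ?_, hδ'⟩
    intro x' hx' a ha
    obtain rfl := hblk hx'
    exact hδ a ha
  · push Not at hb
    obtain ⟨δ, hδ⟩ := h2 b hb (fun y => constantCoeff (h (Fin.last q) (Sum.inr ⟨b, y⟩)))
    exact ⟨δ, 0, fun x hx => absurd hx (hb x), hδ⟩

theorem solve (hi : 1 ≤ i) (hiq : i ≤ q) {blk : Fin G × Fin (i + 1) → Fin (n + 1)}
    (hblk : Function.Injective blk) (g : φ → Fin G) {j : φ → ℕ} (hj : ∀ a, 2 ≤ j a)
    (t : φ → ℂ)
    (V : Fin (q + 1) → MvPolynomial (Fin i) ℂ) (p : (Σ b, Fin (k b)) → Fin q → ℂ)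
    (h1 : ∀ (x : Fin G × Fin (i + 1)) (h : φ → MvPolynomial (Fin i) ℂ)
        (h' : Fin (k (blk x)) → ℂ), ∃ (δ : Fin (q + 1) → ℂ) (η : φ → ℂ),
          (∀ a, g a = x.1 → ∑ s, C (δ s) * tr i (t a) (V s) +
            C (η a) * (if hx : x.2.val < i then X ⟨x.2.val, hx⟩ ^ (j a - 1) else 0) - h a ∈
              (idealOfVars (Fin i) ℂ) ^ (j a)) ∧
          ∀ y, ∑ s : Fin q, δ (Fin.castSucc s) * p ⟨blk x, y⟩ s + δ (Fin.last q) = h' y)
    (h2 : ∀ b, (∀ x, blk x ≠ b) → ∀ h' : Fin (k b) → ℂ, ∃ δ : Fin (q + 1) → ℂ,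
            ∀ y, ∑ s : Fin q, δ (Fin.castSucc s) * p ⟨b, y⟩ s + δ (Fin.last q) = h' y)
    {τ : Fin q → Polynomial ℂ} {V' : Fin q → MvPolynomial (Fin i) ℂ}
    {χ : Fin (q + 1) → Fin (n + 1) → Polynomial ℂ} (hV' : ∀ s, V' (emq hiq s) = 0)
    (hχ : ∀ c b a, Polynomial.aeval (gam t V p a (Fin.castSucc (z0 hi hiq))) (χ c b) -
      C (eps hiq blk g c b a) ∈ (idealOfVars (Fin i) ℂ) ^ (Sum.elim j (fun _ => 1) a : ℕ))
    (hτ1 : ∀ s a, Polynomial.aeval (gam t V p (Sum.inl a) (Fin.castSucc (emq hiq s)))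
      (Polynomial.derivative (τ (emq hiq s))) - C (j a : ℂ) * X s ^ (j a - 1) ∈
        (idealOfVars (Fin i) ℂ) ^ (j a))
    (hτ2 : ∀ s x, Polynomial.aeval (gam t V p (Sum.inr x) (Fin.castSucc (emq hiq s)))
      (Polynomial.derivative (τ (emq hiq s))) - 1 ∈ (idealOfVars (Fin i) ℂ) ^ 1)
    (hτ3 : ∀ c' : Fin q, i ≤ c'.val → ∀ a,
      Polynomial.aeval (gam t V p a (Fin.castSucc c')) (Polynomial.derivative (τ c')) - 1 ∈
        (idealOfVars (Fin i) ℂ) ^ (Sum.elim j (fun _ => 1) a : ℕ))
    (h : Fin (q + 1) → φ ⊕ (Σ b, Fin (k b)) → MvPolynomial (Fin i) ℂ) :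
    ∃ (l : Fin (n + 1) → Fin (q + 1) → ℂ) (v1 : Fin i → φ ⊕ (Σ b, Fin (k b)) → ℂ)
      (v2 : Fin (q + 1) → φ ⊕ (Σ b, Fin (k b)) → MvPolynomial (Fin i) ℂ), ∀ c a,
      ∑ b, Polynomial.aeval (gam t V p a (Fin.castSucc (z0 hi hiq))) (χ c b) *
        (∑ s, l b s • gam t V p a s) +
      Fin.lastCases (motive := fun _ => MvPolynomial (Fin i) ℂ) 0
        (fun c' => Polynomial.aeval (gam t V p a (Fin.castSucc c'))
            (Polynomial.derivative (τ c')) * dlt v1 v2 a (Fin.castSucc c') -
          ∑ s : Fin i, aeval (fun x => gam t V p a (Fin.castSucc (emq hiq x)))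
            (pderiv s (V' c')) * dlt v1 v2 a (Fin.castSucc (emq hiq s))) c -
        h c a ∈ (idealOfVars (Fin i) ℂ) ^ (Sum.elim j (fun _ => 1) a : ℕ) := by
  classical
  choose l η hl1 hl2 using block_solution hiq hblk g j t V p h1 h2 h
  let v1 : Fin i → φ ⊕ (Σ b, Fin (k b)) → ℂ := fun s => Sum.elim
    (fun a => η (blk (g a, Fin.castSucc s)) a / (j a : ℂ))
    (fun x => constantCoeff (h (Fin.castSucc (emq hiq s)) (Sum.inr x)))
  let v2 : Fin (q + 1) → φ ⊕ (Σ b, Fin (k b)) → MvPolynomial (Fin i) ℂ := fun c a =>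
    h c a + Fin.lastCases (motive := fun _ => MvPolynomial (Fin i) ℂ) 0
      (fun c' => ∑ s : Fin i, aeval (fun x => gam t V p a (Fin.castSucc (emq hiq x)))
            (pderiv s (V' c')) * C (v1 s a)) c
  have hd1 : ∀ a s, dlt (q := q) v1 v2 a (Fin.castSucc (emq hiq s)) = C (v1 s a) := by
    intro a s
    unfold dlt
    rw [dif_pos (by simp [emq])]
    rfl
  refine ⟨l, v1, v2, ?_⟩
  -- the sum over `b` modulo the ideal
  have hsum : ∀ c a (b₀ : Fin (n + 1)), (∀ b, eps hiq blk g c b a = if b = b₀ then 1 else 0) →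
      ∑ b, Polynomial.aeval (gam t V p a (Fin.castSucc (z0 hi hiq))) (χ c b) *
        (∑ s, l b s • gam t V p a s) - ∑ s, C (l b₀ s) * gam t V p a s ∈
        (idealOfVars (Fin i) ℂ) ^ (Sum.elim j (fun _ => 1) a : ℕ) := by
    intro c a b₀ hb₀
    have e1 : ∑ s, C (l b₀ s) * gam t V p a s =
        ∑ b, C (eps hiq blk g c b a) * (∑ s, l b s • gam t V p a s) := by
      rw [Finset.sum_eq_single b₀]
      · rw [hb₀, if_pos rfl, C_1, one_mul]
        refine Finset.sum_congr rfl fun s _ => ?_
        rw [smul_eq_C_mul]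
      · intro b _ hb
        rw [hb₀, if_neg hb, C_0, zero_mul]
      · intro hnot; exact absurd (Finset.mem_univ _) hnot
    rw [e1, ← Finset.sum_sub_distrib]
    refine Ideal.sum_mem _ fun b _ => ?_
    rw [← sub_mul]
    exact Ideal.mul_mem_right _ _ (hχ c b a)
  have hsum0 : ∀ c a, (∀ b, eps hiq blk g c b a = 0) →
      ∑ b, Polynomial.aeval (gam t V p a (Fin.castSucc (z0 hi hiq))) (χ c b) *
        (∑ s, l b s • gam t V p a s) ∈
        (idealOfVars (Fin i) ℂ) ^ (Sum.elim j (fun _ => 1) a : ℕ) := by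
    intro c a h0
    refine Ideal.sum_mem _ fun b _ => ?_
    have h3 := hχ c b a
    rw [h0 b, C_0, sub_zero] at h3
    exact Ideal.mul_mem_right _ _ h3
  have hcclow : ∀ c' : Fin (i + 1), ∀ s : Fin i, cc hiq c' = Fin.castSucc (emq hiq s) →
      c' = Fin.castSucc s := by
    intro c' s hc
    unfold cc at hc
    split_ifs at hc with hlt
    · apply Fin.ext
      have := congrArg (fun x : Fin (q + 1) => x.val) hc
      simpa [emq] using this
    · exact absurd hc (Fin.castSucc_lt_last _).ne'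
  have hcclast : ∀ c' : Fin (i + 1), cc hiq c' = Fin.last q → c' = Fin.last i := by
    intro c' hc
    unfold cc at hc
    split_ifs at hc with hlt
    · exact absurd hc (Fin.castSucc_lt_last _).ne
    · apply Fin.ext
      have := c'.2
      simp only [Fin.val_last]
      omega
  intro c a
  refine Fin.lastCases ?_ (fun c' => ?_) c
  · -- the last equation
    rw [Fin.lastCases_last, add_zero]
    rcases a with a | ⟨b, y⟩
    · have h3 := hsum (Fin.last q) (Sum.inl a) (blk (g a, Fin.last i)) (by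
        intro b
        show (if ∃ c', cc hiq c' = Fin.last q ∧ blk (g a, c') = b then (1 : ℂ) else 0) = _
        congr 1
        apply propext
        constructor
        · rintro ⟨c', hc', rfl⟩
          rw [hcclast c' hc']
        · rintro rfl
          exact ⟨Fin.last i, cc_last hiq, rfl⟩)
      have h4 := hl1 (blk (g a, Fin.last i)) (g a, Fin.last i) rfl a rfl
      rw [dif_neg (by simp), mul_zero, add_zero, cc_last] at h4
      have h5 := Ideal.add_mem _ h3 h4
      have h6 : (∑ b, Polynomial.aeval (gam t V p (Sum.inl a) (Fin.castSucc (z0 hi hiq)))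
          (χ (Fin.last q) b) * (∑ s, l b s • gam t V p (Sum.inl a) s) -
          ∑ s, C (l (blk (g a, Fin.last i)) s) * gam t V p (Sum.inl a) s) +
          (∑ s, C (l (blk (g a, Fin.last i)) s) * tr i (t a) (V s) -
            h (Fin.last q) (Sum.inl a)) =
          ∑ b, Polynomial.aeval (gam t V p (Sum.inl a) (Fin.castSucc (z0 hi hiq)))
          (χ (Fin.last q) b) * (∑ s, l b s • gam t V p (Sum.inl a) s) -
            h (Fin.last q) (Sum.inl a) := by
        show (_ - ∑ s, C (l (blk (g a, Fin.last i)) s) * tr i (t a) (V s)) + _ = _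
        ring
      rw [h6] at h5
      exact h5
    · have h3 := hsum (Fin.last q) (Sum.inr ⟨b, y⟩) b (by
        intro b'
        show (if Fin.last q = Fin.last q ∧ b = b' then (1 : ℂ) else 0) = _
        congr 1
        apply propext
        constructor
        · rintro ⟨-, rfl⟩; rfl
        · rintro rfl; exact ⟨rfl, rfl⟩)
      have h4 : ∑ s, C (l b s) * gam t V p (Sum.inr ⟨b, y⟩) s - h (Fin.last q) (Sum.inr ⟨b, y⟩) ∈
          (idealOfVars (Fin i) ℂ) ^ (Sum.elim j (fun _ => 1) (Sum.inr ⟨b, y⟩ :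
            φ ⊕ (Σ b, Fin (k b))) : ℕ) := by
        show _ ∈ (idealOfVars (Fin i) ℂ) ^ 1
        rw [const_of_mem, map_sub, map_sum, ← hl2 b y, Fin.sum_univ_castSucc]
        have e1 : ∀ s : Fin q, constantCoeff (C (l b (Fin.castSucc s)) *
            gam t V p (Sum.inr ⟨b, y⟩) (Fin.castSucc s)) =
            l b (Fin.castSucc s) * p ⟨b, y⟩ s := by
          intro s
          show constantCoeff (C (l b (Fin.castSucc s)) * spt i (p ⟨b, y⟩) (Fin.castSucc s)) = _
          rw [spt_castSucc, map_mul, map_add, constantCoeff_C, constantCoeff_C]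
          split_ifs <;> simp
        have e2 : constantCoeff (C (l b (Fin.last q)) *
            gam t V p (Sum.inr ⟨b, y⟩) (Fin.last q)) = l b (Fin.last q) := by
          show constantCoeff (C (l b (Fin.last q)) * spt i (p ⟨b, y⟩) (Fin.last q)) = _
          rw [spt_last, mul_one, constantCoeff_C]
        rw [Finset.sum_congr rfl fun s _ => e1 s, e2, sub_self]
      have h5 := Ideal.add_mem _ h3 h4
      rw [sub_add_sub_cancel] at h5
      exact h5
  · rw [Fin.lastCases_castSucc]
    by_cases hlow : c'.val < i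
    · -- the low equations
      obtain ⟨s, rfl⟩ : ∃ s : Fin i, c' = emq hiq s := ⟨⟨c'.val, hlow⟩, rfl⟩
      have hz : ∑ s' : Fin i, aeval (fun x => gam t V p a (Fin.castSucc (emq hiq x)))
            (pderiv s' (V' (emq hiq s))) * dlt v1 v2 a (Fin.castSucc (emq hiq s')) = 0 := by
        apply Finset.sum_eq_zero
        intro s' _
        rw [hV', map_zero, map_zero, zero_mul]
      rw [hz, sub_zero, hd1]
      rcases a with a | x
      · have h3 := hsum (Fin.castSucc (emq hiq s)) (Sum.inl a) (blk (g a, Fin.castSucc s)) (by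
          intro b
          show (if ∃ c', cc hiq c' = Fin.castSucc (emq hiq s) ∧ blk (g a, c') = b
            then (1 : ℂ) else 0) = _
          congr 1
          apply propext
          constructor
          · rintro ⟨c', hc', rfl⟩
            rw [hcclow c' s hc']
          · rintro rfl
            exact ⟨Fin.castSucc s, cc_castSucc hiq s, rfl⟩)
        have h4 := hl1 (blk (g a, Fin.castSucc s)) (g a, Fin.castSucc s) rfl a rfl
        rw [dif_pos (by simp), cc_castSucc] at h4
        have h5 := Ideal.mul_mem_right (C (v1 s (Sum.inl a))) _ (hτ1 s a)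
        have h6 := Ideal.add_mem _ (Ideal.add_mem _ h3 h4) h5
        have hj0 : (j a : ℂ) ≠ 0 := by
          have := hj a
          exact_mod_cast (by omega : j a ≠ 0)
        have h7 : (C (η (blk (g a, Fin.castSucc s)) a) : MvPolynomial (Fin i) ℂ) =
            C (j a : ℂ) * C (v1 s (Sum.inl a)) := by
          rw [← C_mul]
          congr 1
          show _ = (j a : ℂ) * (η (blk (g a, Fin.castSucc s)) a / (j a : ℂ))
          field_simp
        have h8 : (∑ b, Polynomial.aeval (gam t V p (Sum.inl a) (Fin.castSucc (z0 hi hiq)))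
            (χ (Fin.castSucc (emq hiq s)) b) * (∑ s, l b s • gam t V p (Sum.inl a) s) -
            ∑ s', C (l (blk (g a, Fin.castSucc s)) s') * gam t V p (Sum.inl a) s') +
            (∑ s', C (l (blk (g a, Fin.castSucc s)) s') * tr i (t a) (V s') +
              C (η (blk (g a, Fin.castSucc s)) a) *
                X ⟨(Fin.castSucc s).val, by simp⟩ ^ (j a - 1) -
              h (Fin.castSucc (emq hiq s)) (Sum.inl a)) +
            (Polynomial.aeval (gam t V p (Sum.inl a) (Fin.castSucc (emq hiq s)))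
              (Polynomial.derivative (τ (emq hiq s))) - C (j a : ℂ) * X s ^ (j a - 1)) *
                C (v1 s (Sum.inl a)) =
            ∑ b, Polynomial.aeval (gam t V p (Sum.inl a) (Fin.castSucc (z0 hi hiq)))
            (χ (Fin.castSucc (emq hiq s)) b) * (∑ s, l b s • gam t V p (Sum.inl a) s) +
            Polynomial.aeval (gam t V p (Sum.inl a) (Fin.castSucc (emq hiq s)))
              (Polynomial.derivative (τ (emq hiq s))) * C (v1 s (Sum.inl a)) -
            h (Fin.castSucc (emq hiq s)) (Sum.inl a) := by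
          rw [h7]
          show (_ - ∑ s', C (l (blk (g a, Fin.castSucc s)) s') * tr i (t a) (V s')) +
            (_ + C (j a : ℂ) * C (v1 s (Sum.inl a)) * X s ^ (j a - 1) - _) + _ = _
          ring
        rw [h8] at h6
        exact h6
      · have h3 := hsum0 (Fin.castSucc (emq hiq s)) (Sum.inr x) (by
          intro b
          show (if Fin.castSucc (emq hiq s) = Fin.last q ∧ x.1 = b then (1 : ℂ) else 0) = 0
          rw [if_neg]
          rintro ⟨h, -⟩
          exact absurd h (Fin.castSucc_lt_last _).ne)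
        have h4 : (Polynomial.aeval (gam t V p (Sum.inr x) (Fin.castSucc (emq hiq s)))
            (Polynomial.derivative (τ (emq hiq s))) - 1) * C (v1 s (Sum.inr x)) ∈
            (idealOfVars (Fin i) ℂ) ^ 1 := Ideal.mul_mem_right _ _ (hτ2 s x)
        have h5 : C (v1 s (Sum.inr x)) - h (Fin.castSucc (emq hiq s)) (Sum.inr x) ∈
            (idealOfVars (Fin i) ℂ) ^ 1 := by
          rw [const_of_mem, map_sub, constantCoeff_C]
          exact sub_self _
        have h3' : ∑ b, Polynomial.aeval (gam t V p (Sum.inr x) (Fin.castSucc (z0 hi hiq)))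
            (χ (Fin.castSucc (emq hiq s)) b) * (∑ s, l b s • gam t V p (Sum.inr x) s) ∈
            (idealOfVars (Fin i) ℂ) ^ 1 := h3
        have h6 := Ideal.add_mem _ (Ideal.add_mem _ h3' h4) h5
        have h7 : ∑ b, Polynomial.aeval (gam t V p (Sum.inr x) (Fin.castSucc (z0 hi hiq)))
            (χ (Fin.castSucc (emq hiq s)) b) * (∑ s, l b s • gam t V p (Sum.inr x) s) +
            (Polynomial.aeval (gam t V p (Sum.inr x) (Fin.castSucc (emq hiq s)))
            (Polynomial.derivative (τ (emq hiq s))) - 1) * C (v1 s (Sum.inr x)) +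
            (C (v1 s (Sum.inr x)) - h (Fin.castSucc (emq hiq s)) (Sum.inr x)) =
            ∑ b, Polynomial.aeval (gam t V p (Sum.inr x) (Fin.castSucc (z0 hi hiq)))
            (χ (Fin.castSucc (emq hiq s)) b) * (∑ s, l b s • gam t V p (Sum.inr x) s) +
            Polynomial.aeval (gam t V p (Sum.inr x) (Fin.castSucc (emq hiq s)))
            (Polynomial.derivative (τ (emq hiq s))) * C (v1 s (Sum.inr x)) -
            h (Fin.castSucc (emq hiq s)) (Sum.inr x) := by ring
        rw [h7] at h6
        exact h6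
    · -- the high equations
      have hc0 : ∀ b, eps hiq blk g (Fin.castSucc c') b a = 0 := by
        intro b
        rcases a with a | x
        · show (if ∃ c'', cc hiq c'' = Fin.castSucc c' ∧ blk (g a, c'') = b
            then (1 : ℂ) else 0) = 0
          rw [if_neg]
          rintro ⟨c'', hc'', -⟩
          unfold cc at hc''
          split_ifs at hc'' with hlt
          · apply hlow
            have := congrArg (fun x : Fin (q + 1) => x.val) hc''
            simp only [Fin.val_castSucc, emq] at this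
            omega
          · exact absurd hc'' (Fin.castSucc_lt_last _).ne'
        · show (if Fin.castSucc c' = Fin.last q ∧ x.1 = b then (1 : ℂ) else 0) = 0
          rw [if_neg]
          rintro ⟨h, -⟩
          exact absurd h (Fin.castSucc_lt_last _).ne
      have h3 := hsum0 (Fin.castSucc c') a hc0
      have h4 := Ideal.mul_mem_right (dlt v1 v2 a (Fin.castSucc c')) _
        (hτ3 c' (by omega) a)
      have h5 : dlt v1 v2 a (Fin.castSucc c') = h (Fin.castSucc c') a +
          ∑ s : Fin i, aeval (fun x => gam t V p a (Fin.castSucc (emq hiq x)))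
            (pderiv s (V' c')) * dlt v1 v2 a (Fin.castSucc (emq hiq s)) := by
        have e1 : dlt v1 v2 a (Fin.castSucc c') = v2 (Fin.castSucc c') a := by
          unfold dlt
          rw [dif_neg (show ¬ (Fin.castSucc c').val < i from hlow),
            if_neg (Fin.castSucc_lt_last _).ne]
        rw [e1]
        simp only [v2, Fin.lastCases_castSucc]
        congr 1
        refine Finset.sum_congr rfl fun s _ => ?_
        rw [hd1]
      have h6 := Ideal.add_mem _ h3 h4
      have h7 : ∑ b, Polynomial.aeval (gam t V p a (Fin.castSucc (z0 hi hiq)))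
          (χ (Fin.castSucc c') b) * (∑ s, l b s • gam t V p a s) +
          (Polynomial.aeval (gam t V p a (Fin.castSucc c')) (Polynomial.derivative (τ c')) - 1) *
            dlt v1 v2 a (Fin.castSucc c') =
          ∑ b, Polynomial.aeval (gam t V p a (Fin.castSucc (z0 hi hiq)))
          (χ (Fin.castSucc c') b) * (∑ s, l b s • gam t V p a s) +
          (Polynomial.aeval (gam t V p a (Fin.castSucc c')) (Polynomial.derivative (τ c')) *
            dlt v1 v2 a (Fin.castSucc c') -
          ∑ s : Fin i, aeval (fun x => gam t V p a (Fin.castSucc (emq hiq x)))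
            (pderiv s (V' c')) * dlt v1 v2 a (Fin.castSucc (emq hiq s))) -
          h (Fin.castSucc c') a := by
        rw [sub_mul, one_mul]
        conv_lhs => rw [h5]
        conv_rhs => rw [h5]
        ring
      rw [h7] at h6
      exact h6

end

end Pool.Agent.Lib_MP_c7e57a
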