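import Pool.Agent.Lib_MP_c7e57a.Solve

/-!
# The linear system at the second special complete intersection
-/

namespace Pool.Agent.Lib_MP_c7e57a

open MvPolynomial

variable {n q i β : ℕ}

theorem cc_injective (hiq : i ≤ q) : Function.Injective (cc hiq) := by
  intro c c' h
  unfold cc at h
  split_ifs at h with h1 h2 h2
  · apply Fin.ext
    have := congrArg (fun x : Fin (q + 1) => x.val) h
    simpa [emq] using this
  · exact absurd h (Fin.castSucc_lt_last _).ne
  · exact absurd h (Fin.castSucc_lt_last _).ne'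
  · apply Fin.ext
    have := c.2
    have := c'.2
    omega

/-- The main part of the coefficient of `y_b` in the equation `c`. -/
noncomputable def mainPart (hiq : i ≤ q) (blk : Fin β × Fin (i + 1) → Fin (n + 1))
    (P : Fin β → (Fin i →₀ ℕ)) (c : Fin (q + 1)) (b : Fin (n + 1)) :
    MvPolynomial (Fin i) ℂ :=
  ∑ x : Fin β × Fin (i + 1), if cc hiq x.2 = c ∧ blk x = b then monomial (P x.1) 1 else 0

theorem mainPart_high (hiq : i ≤ q) (blk : Fin β × Fin (i + 1) → Fin (n + 1))
    (P : Fin β → (Fin i →₀ ℕ)) {c' : Fin q} (hc' : i ≤ c'.val) (b : Fin (n + 1)) :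
    mainPart hiq blk P (Fin.castSucc c') b = 0 := by
  unfold mainPart
  refine Finset.sum_eq_zero fun x _ => ?_
  rw [if_neg]
  rintro ⟨h, -⟩
  unfold cc at h
  split_ifs at h with hlt
  · have := congrArg (fun x : Fin (q + 1) => x.val) h
    simp only [Fin.val_castSucc, emq] at this
    omega
  · exact absurd h (Fin.castSucc_lt_last _).ne'

theorem sum_mainPart (hiq : i ≤ q) (blk : Fin β × Fin (i + 1) → Fin (n + 1))
    (P : Fin β → (Fin i →₀ ℕ)) (c₁ : Fin (i + 1))
    (w : Fin (n + 1) → MvPolynomial (Fin i) ℂ) :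
    ∑ b, mainPart hiq blk P (cc hiq c₁) b * w b =
      ∑ b', monomial (P b') 1 * w (blk (b', c₁)) := by
  classical
  unfold mainPart
  simp only [Finset.sum_mul, ite_mul, zero_mul]
  rw [Finset.sum_comm]
  have h1 : ∀ x : Fin β × Fin (i + 1),
      (∑ b, if cc hiq x.2 = cc hiq c₁ ∧ blk x = b then monomial (P x.1) 1 * w b else 0) =
        if x.2 = c₁ then monomial (P x.1) 1 * w (blk x) else 0 := by
    intro x
    by_cases hx : x.2 = c₁
    · rw [if_pos hx, Finset.sum_eq_single (blk x)]
      · rw [if_pos ⟨by rw [hx], rfl⟩]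
      · intro b _ hb
        rw [if_neg]
        rintro ⟨-, h⟩
        exact hb h.symm
      · intro h; exact absurd (Finset.mem_univ _) h
    · rw [if_neg hx]
      refine Finset.sum_eq_zero fun b _ => ?_
      rw [if_neg]
      rintro ⟨h, -⟩
      exact hx (cc_injective hiq h)
  rw [Finset.sum_congr rfl fun x _ => h1 x, Fintype.sum_prod_type]
  refine Finset.sum_congr rfl fun b' _ => ?_
  rw [Finset.sum_eq_single c₁]
  · rw [if_pos rfl]
  · intro c _ hc
    rw [if_neg hc]
  · intro h; exact absurd (Finset.mem_univ _) h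

/-- All jets are sums of products. -/
theorem cover_solution {P : Fin β → (Fin i →₀ ℕ)} {T : Fin (q + 1) → (Fin i →₀ ℕ)} {j : ℕ}
    (hcov : ∀ w : Fin i →₀ ℕ, w.degree < j → ∃ b s, w = P b + T s)
    (h : MvPolynomial (Fin i) ℂ) :
    ∃ δ : Fin β → Fin (q + 1) → ℂ,
      ∑ b, monomial (P b) 1 * ∑ s, C (δ b s) * monomial (T s) 1 - h ∈
        (idealOfVars (Fin i) ℂ) ^ j := by
  classical
  induction h using MvPolynomial.induction_on' with
  | monomial w a =>
    by_cases hw : w.degree < j
    · obtain ⟨b₀, s₀, hbs⟩ := hcov w hw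
      refine ⟨fun b s => if b = b₀ ∧ s = s₀ then a else 0, ?_⟩
      have h1 : ∑ b, monomial (P b) (1 : ℂ) *
          ∑ s, C (if b = b₀ ∧ s = s₀ then a else 0) * monomial (T s) 1 = monomial w a := by
        rw [Finset.sum_eq_single b₀]
        · rw [Finset.sum_eq_single s₀]
          · rw [if_pos ⟨rfl, rfl⟩, C_mul_monomial, monomial_mul, one_mul, mul_one, hbs]
          · intro s _ hs
            rw [if_neg (fun h => hs h.2), C_0, zero_mul]
          · intro h; exact absurd (Finset.mem_univ _) h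
        · intro b _ hb
          rw [Finset.sum_eq_zero, mul_zero]
          intro s _
          rw [if_neg (fun h => hb h.1), C_0, zero_mul]
        · intro h; exact absurd (Finset.mem_univ _) h
      rw [h1, sub_self]
      exact zero_mem _
    · refine ⟨fun _ _ => 0, ?_⟩
      have h1 : ∑ b, monomial (P b) (1 : ℂ) * ∑ s : Fin (q + 1), C (0 : ℂ) *
          monomial (T s) 1 = 0 := by
        refine Finset.sum_eq_zero fun b _ => ?_
        rw [Finset.sum_eq_zero, mul_zero]
        intro s _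
        rw [C_0, zero_mul]
      rw [h1, zero_sub]
      apply neg_mem
      rw [mem_pow_idealOfVars_iff']
      intro x hx
      rw [coeff_monomial, if_neg]
      rintro rfl
      exact hw hx
  | add p p' hp hp' =>
    obtain ⟨δ, hδ⟩ := hp
    obtain ⟨δ', hδ'⟩ := hp'
    refine ⟨fun b s => δ b s + δ' b s, ?_⟩
    have h1 := Ideal.add_mem _ hδ hδ'
    have h2 : (∑ b, monomial (P b) (1 : ℂ) * ∑ s, C (δ b s + δ' b s) * monomial (T s) 1) -
        (p + p') = (∑ b, monomial (P b) 1 * ∑ s, C (δ b s) * monomial (T s) 1 - p) +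
          (∑ b, monomial (P b) 1 * ∑ s, C (δ' b s) * monomial (T s) 1 - p') := by
      have h3 : ∑ b, monomial (P b) (1 : ℂ) * ∑ s, C (δ b s + δ' b s) * monomial (T s) 1 =
          ∑ b, monomial (P b) 1 * ∑ s, C (δ b s) * monomial (T s) 1 +
          ∑ b, monomial (P b) 1 * ∑ s, C (δ' b s) * monomial (T s) 1 := by
        rw [← Finset.sum_add_distrib]
        refine Finset.sum_congr rfl fun b _ => ?_
        rw [← mul_add, ← Finset.sum_add_distrib]
        congr 1
        refine Finset.sum_congr rfl fun s _ => ?_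
        rw [C_add, add_mul]
      rw [h3]
      ring
    rw [h2]
    exact h1

theorem solve2 (hiq : i ≤ q) {blk : Fin β × Fin (i + 1) → Fin (n + 1)}
    (hblk : Function.Injective blk) {P : Fin β → (Fin i →₀ ℕ)}
    {T : Fin (q + 1) → (Fin i →₀ ℕ)} {j : ℕ}
    (hcov : ∀ w : Fin i →₀ ℕ, w.degree < j → ∃ b s, w = P b + T s)
    {γ : Fin (q + 1) → MvPolynomial (Fin i) ℂ} (hγ : ∀ s, γ s = monomial (T s) 1)
    {τ : Fin q → Polynomial ℂ} {V' : Fin q → MvPolynomial (Fin i) ℂ}
    {χ : Fin (q + 1) → Fin (n + 1) → MvPolynomial (Fin i) ℂ}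
    (hχ : ∀ c b, aeval (fun x => γ (Fin.castSucc (emq hiq x))) (χ c b) -
      mainPart hiq blk P c b ∈ (idealOfVars (Fin i) ℂ) ^ j)
    (hτ3 : ∀ c' : Fin q, i ≤ c'.val →
      Polynomial.aeval (γ (Fin.castSucc c')) (Polynomial.derivative (τ c')) - 1 ∈
        (idealOfVars (Fin i) ℂ) ^ j)
    (h : Fin (q + 1) → MvPolynomial (Fin i) ℂ) :
    ∃ (l : Fin (n + 1) → Fin (q + 1) → ℂ) (v2 : Fin (q + 1) → MvPolynomial (Fin i) ℂ),
      ∀ c (u : Unit), ∑ b, aeval (fun x => γ (Fin.castSucc (emq hiq x))) (χ c b) *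
        (∑ s, l b s • γ s) +
      Fin.lastCases (motive := fun _ => MvPolynomial (Fin i) ℂ) 0
        (fun c' => Polynomial.aeval (γ (Fin.castSucc c')) (Polynomial.derivative (τ c')) *
            dlt (α := Unit) (fun _ _ => 0) (fun c _ => v2 c) u (Fin.castSucc c') -
          ∑ s : Fin i, aeval (fun x => γ (Fin.castSucc (emq hiq x))) (pderiv s (V' c')) *
            dlt (α := Unit) (fun _ _ => 0) (fun c _ => v2 c) u (Fin.castSucc (emq hiq s))) c -
        h c ∈ (idealOfVars (Fin i) ℂ) ^ j := by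
  classical
  choose δ hδ using fun c₁ : Fin (i + 1) => cover_solution hcov (h (cc hiq c₁))
  let l : Fin (n + 1) → Fin (q + 1) → ℂ := fun b s =>
    if hb : ∃ x, blk x = b then δ hb.choose.2 hb.choose.1 s else 0
  have hl : ∀ x s, l (blk x) s = δ x.2 x.1 s := by
    intro x s
    have hb : ∃ x', blk x' = blk x := ⟨x, rfl⟩
    have h1 : l (blk x) s = δ hb.choose.2 hb.choose.1 s := dif_pos hb
    rw [h1, hblk hb.choose_spec]
  have hd1 : ∀ (v2 : Fin (q + 1) → MvPolynomial (Fin i) ℂ) (u : Unit) s,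
      dlt (q := q) (α := Unit) (fun _ _ => 0) (fun c _ => v2 c) u
        (Fin.castSucc (emq hiq s)) = 0 := by
    intro v2 u s
    unfold dlt
    rw [dif_pos (by simp [emq]), C_0]
  -- the equations of the blocks
  have hblock : ∀ c₁ : Fin (i + 1), ∑ b, aeval (fun x => γ (Fin.castSucc (emq hiq x)))
      (χ (cc hiq c₁) b) * (∑ s, l b s • γ s) - h (cc hiq c₁) ∈
        (idealOfVars (Fin i) ℂ) ^ j := by
    intro c₁
    have h1 : ∑ b, aeval (fun x => γ (Fin.castSucc (emq hiq x))) (χ (cc hiq c₁) b) *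
        (∑ s, l b s • γ s) - ∑ b, mainPart hiq blk P (cc hiq c₁) b * (∑ s, l b s • γ s) ∈
        (idealOfVars (Fin i) ℂ) ^ j := by
      rw [← Finset.sum_sub_distrib]
      refine Ideal.sum_mem _ fun b _ => ?_
      rw [← sub_mul]
      exact Ideal.mul_mem_right _ _ (hχ _ b)
    have h2 : ∑ b, mainPart hiq blk P (cc hiq c₁) b * (∑ s, l b s • γ s) =
        ∑ b, monomial (P b) 1 * ∑ s, C (δ c₁ b s) * monomial (T s) 1 := by
      rw [sum_mainPart]
      refine Finset.sum_congr rfl fun b _ => ?_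
      congr 1
      refine Finset.sum_congr rfl fun s _ => ?_
      rw [hl, hγ, smul_eq_C_mul]
    rw [h2] at h1
    have h3 := Ideal.add_mem _ h1 (hδ c₁)
    rwa [sub_add_sub_cancel] at h3
  refine ⟨l, h, fun c u => ?_⟩
  refine Fin.lastCases ?_ (fun c' => ?_) c
  · rw [Fin.lastCases_last, add_zero]
    have h1 := hblock (Fin.last i)
    rwa [cc_last] at h1
  · rw [Fin.lastCases_castSucc]
    have hz : ∑ s : Fin i, aeval (fun x => γ (Fin.castSucc (emq hiq x))) (pderiv s (V' c')) *
        dlt (α := Unit) (fun _ _ => 0) (fun c _ => h c) u (Fin.castSucc (emq hiq s)) = 0 := by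
      apply Finset.sum_eq_zero
      intro s _
      rw [hd1, mul_zero]
    rw [hz, sub_zero]
    by_cases hlow : c'.val < i
    · obtain ⟨s, rfl⟩ : ∃ s : Fin i, c' = emq hiq s := ⟨⟨c'.val, hlow⟩, rfl⟩
      rw [hd1, mul_zero, add_zero]
      have h1 := hblock (Fin.castSucc s)
      rwa [cc_castSucc] at h1
    · have e1 : dlt (α := Unit) (fun (_ : Fin i) _ => 0) (fun c _ => h c) u (Fin.castSucc c') =
          h (Fin.castSucc c') := by
        unfold dlt
        rw [dif_neg (show ¬ (Fin.castSucc c').val < i from hlow),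
          if_neg (Fin.castSucc_lt_last _).ne]
      rw [e1]
      have h1 : ∑ b, aeval (fun x => γ (Fin.castSucc (emq hiq x))) (χ (Fin.castSucc c') b) *
          (∑ s, l b s • γ s) ∈ (idealOfVars (Fin i) ℂ) ^ j := by
        refine Ideal.sum_mem _ fun b _ => ?_
        have h2 := hχ (Fin.castSucc c') b
        rw [mainPart_high hiq blk P (by omega), sub_zero] at h2
        exact Ideal.mul_mem_right _ _ h2
      have h2 := Ideal.mul_mem_right (h (Fin.castSucc c')) _ (hτ3 c' (by omega))
      have h3 := Ideal.add_mem _ h1 h2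
      rw [sub_mul, one_mul, ← add_sub_assoc] at h3
      exact h3

end Pool.Agent.Lib_MP_c7e57a
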