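import Pool.Agent.Lib_MP_c7e57a.Crt

/-!
# Piece CI-T: polynomials in one variable with prescribed jets, applications

All three statements follow from `exists_jets` and `exists_monic_jets` (piece CI-C), applied to the
finset `B` of all nodes, a large `M` and a target function `T : ℂ → ℂ[X]` that is defined by cases
(for instance `T β = if h : ∃ x, p x = β then ... h.choose ... else ...`); divisibility by
`(X - C β) ^ M` implies divisibility by lower powers.
-/

namespace Pool.Agent.Lib_MP_c7e57a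

open Polynomial

theorem exists_tau_low {φ ψ : Type*} [Finite φ] [Finite ψ] {t : φ → ℂ}
    (ht : Function.Injective t) (j : φ → ℕ) {p : ψ → ℂ} (hp : ∀ x a, p x ≠ t a) :
    ∃ D : ℕ, ∀ d ≥ D, ∃ τ : ℂ[X], τ.Monic ∧ τ.natDegree = d ∧
      (∀ a, (X - C (t a)) ^ (j a + 1) ∣ τ - (X - C (t a)) ^ (j a)) ∧
      ∀ x, (X - C (p x)) ^ 2 ∣ τ - (X - C (p x)) := by
  classical
  cases nonempty_fintype φ
  cases nonempty_fintype ψ
  let B : Finset ℂ := Finset.univ.image t ∪ Finset.univ.image p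
  let M : ℕ := Finset.univ.sup j + 2
  let T : ℂ → ℂ[X] := fun β => if h : ∃ a, t a = β then (X - C β) ^ (j h.choose) else X - C β
  have hT1 : ∀ a, T (t a) = (X - C (t a)) ^ (j a) := by
    intro a
    have h : ∃ a', t a' = t a := ⟨a, rfl⟩
    have h1 : T (t a) = (X - C (t a)) ^ (j h.choose) := dif_pos h
    rw [h1, ht h.choose_spec]
  have hT2 : ∀ x, T (p x) = X - C (p x) := by
    intro x
    exact dif_neg (by
      rintro ⟨a, ha⟩
      exact hp x a ha.symm)
  refine ⟨B.card * M + 1, fun d hd => ?_⟩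
  obtain ⟨τ, h1, h2, h3⟩ := exists_monic_jets B M T (d := d) (by omega)
  refine ⟨τ, h1, h2, fun a => ?_, fun x => ?_⟩
  · have h4 := h3 (t a) (Finset.mem_union_left _ (Finset.mem_image_of_mem _ (Finset.mem_univ a)))
    rw [hT1] at h4
    refine (pow_dvd_pow _ ?_).trans h4
    have h5 : j a ≤ Finset.univ.sup j := Finset.le_sup (f := j) (Finset.mem_univ a)
    show j a + 1 ≤ Finset.univ.sup j + 2
    omega
  · have h4 := h3 (p x) (Finset.mem_union_right _ (Finset.mem_image_of_mem _ (Finset.mem_univ x)))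
    rw [hT2] at h4
    refine (pow_dvd_pow _ ?_).trans h4
    show 2 ≤ Finset.univ.sup j + 2
    omega

theorem exists_tau_high {φ ψ : Type*} [Finite φ] [Finite ψ] (β : φ → ℂ) (M : ℕ) {p : ψ → ℂ}
    (hp : Function.Injective p) (hpβ : ∀ x a, p x ≠ β a) (v : ψ → ℂ) :
    ∃ D : ℕ, ∀ d ≥ D, ∃ τ : ℂ[X], τ.Monic ∧ τ.natDegree = d ∧
      (∀ a, (X - C (β a)) ^ M ∣ τ - X) ∧
      ∀ x, (X - C (p x)) ^ 2 ∣ τ - (C (v x) + (X - C (p x))) := by
  classical
  cases nonempty_fintype φ
  cases nonempty_fintype ψ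
  let B : Finset ℂ := Finset.univ.image β ∪ Finset.univ.image p
  let T : ℂ → ℂ[X] := fun b =>
    if h : ∃ x, p x = b then C (v h.choose) + (X - C b) else X
  have hT1 : ∀ a, T (β a) = X := by
    intro a
    exact dif_neg (by
      rintro ⟨x, hx⟩
      exact hpβ x a hx)
  have hT2 : ∀ x, T (p x) = C (v x) + (X - C (p x)) := by
    intro x
    have h : ∃ x', p x' = p x := ⟨x, rfl⟩
    have h1 : T (p x) = C (v h.choose) + (X - C (p x)) := dif_pos h
    rw [h1, hp h.choose_spec]
  refine ⟨B.card * (M + 2) + 1, fun d hd => ?_⟩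
  obtain ⟨τ, h1, h2, h3⟩ := exists_monic_jets B (M + 2) T (d := d) (by omega)
  refine ⟨τ, h1, h2, fun a => ?_, fun x => ?_⟩
  · have h4 := h3 (β a) (Finset.mem_union_left _ (Finset.mem_image_of_mem _ (Finset.mem_univ a)))
    rw [hT1] at h4
    exact (pow_dvd_pow _ (by omega)).trans h4
  · have h4 := h3 (p x) (Finset.mem_union_right _ (Finset.mem_image_of_mem _ (Finset.mem_univ x)))
    rw [hT2] at h4
    exact (pow_dvd_pow _ (by omega)).trans h4

theorem exists_chi {φ ψ : Type*} [Finite φ] [Finite ψ] {t : φ → ℂ}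
    (ht : Function.Injective t) (M : ℕ) {p : ψ → ℂ} (hp : Function.Injective p)
    (hpt : ∀ x a, p x ≠ t a) (e : φ → ℂ) (e' : ψ → ℂ) :
    ∃ χ : ℂ[X], (∀ a, (X - C (t a)) ^ M ∣ χ - C (e a)) ∧
      ∀ x, (X - C (p x)) ^ M ∣ χ - C (e' x) := by
  classical
  cases nonempty_fintype φ
  cases nonempty_fintype ψ
  let B : Finset ℂ := Finset.univ.image t ∪ Finset.univ.image p
  let T : ℂ → ℂ[X] := fun b =>
    if h : ∃ a, t a = b then C (e h.choose) else
      if h' : ∃ x, p x = b then C (e' h'.choose) else 0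
  have hT1 : ∀ a, T (t a) = C (e a) := by
    intro a
    have h : ∃ a', t a' = t a := ⟨a, rfl⟩
    have h1 : T (t a) = C (e h.choose) := dif_pos h
    rw [h1, ht h.choose_spec]
  have hT2 : ∀ x, T (p x) = C (e' x) := by
    intro x
    have h0 : ¬ ∃ a, t a = p x := by
      rintro ⟨a, ha⟩
      exact hpt x a ha.symm
    have h : ∃ x', p x' = p x := ⟨x, rfl⟩
    have h1 : T (p x) = C (e' h.choose) := (dif_neg h0).trans (dif_pos h)
    rw [h1, hp h.choose_spec]
  obtain ⟨χ, -, h3⟩ := exists_jets B M T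
  refine ⟨χ, fun a => ?_, fun x => ?_⟩
  · have h4 := h3 (t a) (Finset.mem_union_left _ (Finset.mem_image_of_mem _ (Finset.mem_univ a)))
    rwa [hT1] at h4
  · have h4 := h3 (p x) (Finset.mem_union_right _ (Finset.mem_image_of_mem _ (Finset.mem_univ x)))
    rwa [hT2] at h4

end Pool.Agent.Lib_MP_c7e57a
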