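import Pool.Agent.Lib_MP_c7e57a.Forms
import Pool.Agent.Lib_MP_c7e57a.JetEval
import Pool.Agent.Lib_MP_c7e57a.Lifts
import Pool.Agent.Lib_MP_c7e57a.Simple
import Pool.Agent.Lib_MP_c7e57a.Uni
import Pool.Agent.Lib_MP_c7e57a.ZeroQ

/-!
# The special complete intersection
-/

namespace Pool.Agent.Lib_MP_c7e57a

open MvPolynomial Topology

variable {n q i G : ℕ}

section

variable {φ : Type} {k : Fin (n + 1) → ℕ}

/-- The special complete intersection is good, given the choices. -/
theorem special_good (hi : 1 ≤ i) (hiq : i ≤ q) {blk : Fin G × Fin (i + 1) → Fin (n + 1)}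
    (hblk : Function.Injective blk) [Finite φ] (g : φ → Fin G) {j : φ → ℕ} (hj : ∀ a, 2 ≤ j a)
    {t : φ → ℂ} (ht : Function.Injective t)
    (V : Fin (q + 1) → MvPolynomial (Fin i) ℂ) (hV1 : V (Fin.last q) = 1)
    (hV2 : ∀ s : Fin i, V (emb hiq s) = X s)
    (p : (Σ b, Fin (k b)) → Fin q → ℂ) (w : ℂ)
    (hpt : ∀ x a, p x (z0 hi hiq) ≠ t a)
    (hp : Function.Injective fun x => p x (z0 hi hiq))
    (h1 : ∀ (x : Fin G × Fin (i + 1)) (h : φ → MvPolynomial (Fin i) ℂ)
        (h' : Fin (k (blk x)) → ℂ), ∃ (δ : Fin (q + 1) → ℂ) (η : φ → ℂ),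
          (∀ a, g a = x.1 → ∑ s, C (δ s) * tr i (t a) (V s) +
            C (η a) * (if hx : x.2.val < i then X ⟨x.2.val, hx⟩ ^ (j a - 1) else 0) - h a ∈
              (idealOfVars (Fin i) ℂ) ^ (j a)) ∧
          ∀ y, ∑ s : Fin q, δ (Fin.castSucc s) * p ⟨blk x, y⟩ s + δ (Fin.last q) = h' y)
    (h2 : ∀ b, (∀ x, blk x ≠ b) → ∀ h' : Fin (k b) → ℂ, ∃ δ : Fin (q + 1) → ℂ,
            ∀ y, ∑ s : Fin q, δ (Fin.castSucc s) * p ⟨b, y⟩ s + δ (Fin.last q) = h' y)
    {τ : Fin q → Polynomial ℂ} {V' : Fin q → MvPolynomial (Fin i) ℂ}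
    {χ : Fin (q + 1) → Fin (n + 1) → Polynomial ℂ} (hV' : ∀ s, V' (emq hiq s) = 0)
    (hV'' : ∀ c' : Fin q, i ≤ c'.val → V' c' = V (Fin.castSucc c'))
    -- the low polynomials
    (hτ1 : ∀ s a, (Polynomial.X - Polynomial.C (t a)) ^ (j a + 1) ∣
      τ (emq hiq s) - (Polynomial.X - Polynomial.C (t a)) ^ (j a))
    (hτ2 : ∀ s x, (Polynomial.X - Polynomial.C (p x (emq hiq s))) ^ 2 ∣
      τ (emq hiq s) - (Polynomial.X - Polynomial.C (p x (emq hiq s))))
    (hτ2' : ∀ s, (Polynomial.X - Polynomial.C w) ^ 2 ∣
      τ (emq hiq s) - (Polynomial.X - Polynomial.C w))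
    -- the high polynomials
    {M : ℕ} (hM : ∀ a, j a + 1 ≤ M)
    (hτ3 : ∀ c' : Fin q, i ≤ c'.val → ∀ a,
      (Polynomial.X - Polynomial.C (constantCoeff (tr i (t a) (V (Fin.castSucc c'))))) ^ M ∣
        τ c' - Polynomial.X)
    (hτ4 : ∀ c' : Fin q, i ≤ c'.val → ∀ x, (Polynomial.X - Polynomial.C (p x c')) ^ 2 ∣
      τ c' - (Polynomial.C (eval (fun s => p x (emq hiq s)) (V (Fin.castSucc c'))) +
        (Polynomial.X - Polynomial.C (p x c'))))
    (hτ4' : ∀ c' : Fin q, i ≤ c'.val → (Polynomial.X - Polynomial.C w) ^ 2 ∣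
      τ c' - (Polynomial.C (eval (fun _ => w) (V (Fin.castSucc c'))) +
        (Polynomial.X - Polynomial.C w)))
    -- the polynomials `χ`
    {M' : ℕ} (hM' : ∀ a, j a ≤ M') (hM'2 : 2 ≤ M')
    (hχ1 : ∀ c b a, (Polynomial.X - Polynomial.C (t a)) ^ M' ∣
      χ c b - Polynomial.C (eps (k := k) hiq blk g c b (Sum.inl a)))
    (hχ2 : ∀ c b x, (Polynomial.X - Polynomial.C (p x (z0 hi hiq))) ^ M' ∣
      χ c b - Polynomial.C (eps (k := k) hiq blk g c b (Sum.inr x)))
    (hχ3 : ∀ c' : Fin q, (Polynomial.X - Polynomial.C w) ^ M' ∣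
      χ (Fin.castSucc c') 0 - Polynomial.C 0)
    (hχ4 : (Polynomial.X - Polynomial.C w) ^ M' ∣ χ (Fin.last q) 0 - Polynomial.C 1)
    -- the forms
    {d : Fin (q + 1) → ℕ} (hd : ∀ c, 2 ≤ d c)
    {f : Fin (q + 1) → MvPolynomial (Vars n q) ℂ} (hf : ∀ c, (f c).IsHomogeneous (d c))
    (hfa : ∀ c, dehz (f c) = aff hi hiq d τ V' χ c)
    (hfG : ∀ c, ∃ G, fib 0 (tt0 n) (f c) = X (var c) ^ d c + X (some (Fin.last q)) * G)
    (m : ℕ) :
    ∀ᶠ φ' in 𝓝 (fun x : Σ c, Mon (Vars n q) (d c) => coeff x.2.1 (f x.1)),
      Good hi hiq (Sum.elim j (fun _ => 1) : φ ⊕ (Σ b, Fin (k b)) → ℕ) m d (poly d φ') := by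
  have hlast : ∀ a, gam t V p a (Fin.last q) = 1 := by
    rintro (a | x)
    · show tr i (t a) (V (Fin.last q)) = 1
      rw [hV1, map_one]
    · exact spt_last _
  have htrX : ∀ (r : ℂ) (s : Fin i), tr i r (X s) = X s + C r := by
    intro r s
    unfold tr
    rw [aeval_X]
  have hgam1 : ∀ a s, gam t V p (Sum.inl a) (Fin.castSucc (emq hiq s)) = X s + C (t a) := by
    intro a s
    show tr i (t a) (V (emb hiq s)) = _
    rw [hV2, htrX]
  have hgam2 : ∀ x s, gam t V p (Sum.inr x) (Fin.castSucc (emq hiq s)) =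
      C (p x (emq hiq s)) + X s := by
    intro x s
    show spt i (p x) (Fin.castSucc (emq hiq s)) = _
    rw [spt_castSucc, dif_pos (by simp [emq])]
    rfl
  have hgam3 : ∀ x (c' : Fin q), i ≤ c'.val →
      gam t V p (Sum.inr x) (Fin.castSucc c') = C (p x c') := by
    intro x c' hc'
    show spt i (p x) (Fin.castSucc c') = _
    rw [spt_castSucc, dif_neg (by omega), add_zero]
  have hz0 : z0 hi hiq = emq hiq ⟨0, hi⟩ := rfl
  obtain ⟨z, hz, hJ⟩ := exists_zq hd hf hfa (fun _ => w) (by
      intro c'
      by_cases hc : c'.val < i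
      · obtain ⟨s, rfl⟩ : ∃ s : Fin i, c' = emq hiq s := ⟨⟨c'.val, hc⟩, rfl⟩
        rw [eval_of_dvd (by omega) (hτ2' s), hV', map_zero, Polynomial.eval_sub,
          Polynomial.eval_X, Polynomial.eval_C, sub_self]
      · rw [eval_of_dvd (by omega) (hτ4' c' (by omega)), hV'' c' (by omega)]
        simp) (by
      intro c'
      by_cases hc : c'.val < i
      · obtain ⟨s, rfl⟩ : ∃ s : Fin i, c' = emq hiq s := ⟨⟨c'.val, hc⟩, rfl⟩
        rw [eval_derivative_of_dvd le_rfl (hτ2' s)]
        simp
      · rw [eval_derivative_of_dvd le_rfl (hτ4' c' (by omega))]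
        simp) hV' (by
      intro c'
      rw [eval_of_dvd (by omega) (hχ3 c'), Polynomial.eval_C]) (by
      intro c'
      rw [eval_derivative_of_dvd hM'2 (hχ3 c')]
      simp) (by
      rw [eval_of_dvd (by omega) hχ4, Polynomial.eval_C])
  refine good_near hi hiq (Sum.elim j (fun _ => 1) : φ ⊕ (Σ b, Fin (k b)) → ℕ) (gam t V p)
    (Sum.elim (fun a _ => t a) (fun x s => p x (emq hiq s))) hlast ?_ ?_ hf ?_ hz hJ ?_ ?_
  · rintro (a | x) s
    · show gam t V p (Sum.inl a) (Fin.castSucc (emq hiq s)) = C (t a) + X s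
      rw [hgam1, add_comm]
    · exact hgam2 x s
  · rintro (a | x) (a' | x') h
    · exact congrArg Sum.inl (ht h)
    · exact absurd h.symm (hpt x' a)
    · exact absurd h (hpt x a')
    · exact congrArg Sum.inr (hp h)
  · -- the points lie on the complete intersection
    intro a c
    rw [value_aff (hd _) (hfa c) (hlast a)]
    refine Fin.lastCases ?_ (fun c' => ?_) c
    · rw [Fin.lastCases_last]
      exact zero_mem _
    · rw [Fin.lastCases_castSucc]
      by_cases hc : c'.val < i
      · obtain ⟨s, rfl⟩ : ∃ s : Fin i, c' = emq hiq s := ⟨⟨c'.val, hc⟩, rfl⟩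
        rw [hV', map_zero, sub_zero]
        rcases a with a | x
        · show _ ∈ (idealOfVars (Fin i) ℂ) ^ (j a)
          rw [hgam1]
          have e1 := jet_eval (x := X s + C (t a)) (β := t a)
            (by rw [add_sub_cancel_right]; exact X_mem s) (hτ1 s a) (J := j a) (by omega)
          have e2 : Polynomial.aeval (X s + C (t a) : MvPolynomial (Fin i) ℂ)
              ((Polynomial.X - Polynomial.C (t a)) ^ (j a)) = X s ^ (j a) := by
            rw [map_pow, map_sub, Polynomial.aeval_X, Polynomial.aeval_C,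
              MvPolynomial.algebraMap_eq, add_sub_cancel_right]
          rw [e2] at e1
          have e3 := Ideal.add_mem _ e1 (Ideal.pow_mem_pow (X_mem s) (j a))
          rwa [sub_add_cancel] at e3
        · show _ ∈ (idealOfVars (Fin i) ℂ) ^ 1
          rw [hgam2]
          have e1 := jet_eval (x := C (p x (emq hiq s)) + X s) (β := p x (emq hiq s))
            (by rw [add_sub_cancel_left]; exact X_mem s) (hτ2 s x) (J := 1) (by omega)
          have e2 : Polynomial.aeval (C (p x (emq hiq s)) + X s : MvPolynomial (Fin i) ℂ)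
              (Polynomial.X - Polynomial.C (p x (emq hiq s))) = X s := by
            rw [map_sub, Polynomial.aeval_X, Polynomial.aeval_C,
              MvPolynomial.algebraMap_eq, add_sub_cancel_left]
          rw [e2] at e1
          have e3 := Ideal.add_mem _ e1 (by rw [pow_one]; exact X_mem s)
          rwa [sub_add_cancel] at e3
      · rw [hV'' c' (by omega)]
        rcases a with a | x
        · show _ ∈ (idealOfVars (Fin i) ℂ) ^ (j a)
          have e0 : aeval (fun x => gam t V p (Sum.inl a) (Fin.castSucc (emq hiq x)))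
              (V (Fin.castSucc c')) = gam t V p (Sum.inl a) (Fin.castSucc c') := by
            have e1 : (fun x => gam t V p (Sum.inl a) (Fin.castSucc (emq hiq x))) =
                fun x => X x + C (t a) := by
              funext x
              exact hgam1 a x
            rw [e1]
            rfl
          rw [e0]
          have e1 := jet_eval (sub_const_mem (gam t V p (Sum.inl a) (Fin.castSucc c')))
            (hτ3 c' (by omega) a) (J := j a) (by have := hM a; omega)
          rwa [Polynomial.aeval_X] at e1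
        · show _ ∈ (idealOfVars (Fin i) ℂ) ^ 1
          rw [hgam3 x c' (by omega)]
          have e1 := jet_eval (i := i) (x := C (p x c')) (β := p x c')
            (by rw [sub_self]; exact zero_mem _) (hτ4 c' (by omega) x) (J := 1) (by omega)
          rw [const_of_mem] at e1 ⊢
          rw [map_sub] at e1 ⊢
          rw [sub_eq_zero] at e1
          rw [e1, map_add, Polynomial.aeval_C, map_sub, Polynomial.aeval_X, Polynomial.aeval_C,
            MvPolynomial.algebraMap_eq, sub_self, add_zero, constantCoeff_C]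
          have e2 : ∀ P : MvPolynomial (Fin i) ℂ,
              constantCoeff (aeval (fun x' => gam t V p (Sum.inr x)
                (Fin.castSucc (emq hiq x'))) P) = eval (fun s => p x (emq hiq s)) P := by
            intro P
            induction P using MvPolynomial.induction_on with
            | C r => rw [aeval_C, MvPolynomial.algebraMap_eq, constantCoeff_C, eval_C]
            | add P Q hP hQ => rw [map_add, map_add, hP, hQ, map_add]
            | mul_X P s hP =>
              rw [map_mul, map_mul, hP, map_mul, aeval_X, eval_X, hgam2, map_add,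
                constantCoeff_C, constantCoeff_X, add_zero]
          rw [e2, sub_self]
  · -- the linear system
    intro h
    obtain ⟨l, v1, v2, hv⟩ := solve hi hiq hblk g hj t V p h1 h2 (τ := τ) (V' := V') (χ := χ)
      hV' (by
        intro c b a
        rcases a with a | x
        · show _ ∈ (idealOfVars (Fin i) ℂ) ^ (j a)
          rw [hz0, hgam1]
          have e1 := jet_eval (x := X ⟨0, hi⟩ + C (t a)) (β := t a)
            (by rw [add_sub_cancel_right]; exact X_mem _) (hχ1 c b a) (J := j a) (hM' a)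
          rwa [Polynomial.aeval_C] at e1
        · show _ ∈ (idealOfVars (Fin i) ℂ) ^ 1
          rw [hz0, hgam2]
          have e1 := jet_eval (x := C (p x (emq hiq ⟨0, hi⟩)) + X ⟨0, hi⟩)
            (β := p x (emq hiq ⟨0, hi⟩))
            (by rw [add_sub_cancel_left]; exact X_mem _) (hχ2 c b x) (J := 1) (by omega)
          rwa [Polynomial.aeval_C] at e1) (by
        intro s a
        rw [hgam1]
        have e1 := jet_eval_derivative (x := X s + C (t a)) (β := t a)
            (by rw [add_sub_cancel_right]; exact X_mem _) (hτ1 s a) (J := j a) (by omega)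
        have e2 : Polynomial.aeval (X s + C (t a) : MvPolynomial (Fin i) ℂ)
              (Polynomial.derivative ((Polynomial.X - Polynomial.C (t a)) ^ (j a))) =
              C (j a : ℂ) * X s ^ (j a - 1) := by
            rw [Polynomial.derivative_X_sub_C_pow]
            simp only [map_mul, map_pow, map_sub, Polynomial.aeval_X, Polynomial.aeval_C,
              MvPolynomial.algebraMap_eq, add_sub_cancel_right]
        rwa [e2] at e1) (by
        intro s x
        rw [hgam2]
        have e1 := jet_eval_derivative (x := C (p x (emq hiq s)) + X s)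
            (β := p x (emq hiq s))
            (by rw [add_sub_cancel_left]; exact X_mem s) (hτ2 s x) (J := 1) (by omega)
        rwa [Polynomial.derivative_X_sub_C, map_one] at e1) (by
        intro c' hc' a
        rcases a with a | x
        · show _ ∈ (idealOfVars (Fin i) ℂ) ^ (j a)
          have e1 := jet_eval_derivative
            (sub_const_mem (gam t V p (Sum.inl a) (Fin.castSucc c')))
            (hτ3 c' hc' a) (J := j a) (by have := hM a; omega)
          rwa [Polynomial.derivative_X, map_one] at e1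
        · show _ ∈ (idealOfVars (Fin i) ℂ) ^ 1
          rw [hgam3 x c' hc']
          have e1 := jet_eval_derivative (i := i) (x := C (p x c')) (β := p x c')
            (by rw [sub_self]; exact zero_mem _) (hτ4 c' hc' x) (J := 1) (by omega)
          rwa [Polynomial.derivative_add, Polynomial.derivative_C, zero_add,
            Polynomial.derivative_X_sub_C, map_one] at e1) h
    refine ⟨l, v1, v2, fun c a => ?_⟩
    rw [deriv_aff (hd _) (hfa c) (hlast a) l (by
      unfold dlt
      rw [dif_neg (by simp only [Fin.val_last]; omega), if_pos rfl])]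
    exact hv c a
  · choose Gc hG using hfG
    exact det_ne_zero hG

end

end Pool.Agent.Lib_MP_c7e57a
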