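import Pool.Agent.Lib_MP_c7e57a.Aff2
import Pool.Agent.Lib_MP_c7e57a.ZeroQ

/-!
# Piece CI-Y3: a nondegenerate point of the fibre over the origin, second version

Same proof as `exists_zq` in ZeroQ.lean (copy the private lemmas with new names `ZeroQ2_...`, since
private lemmas are not visible here). The only change: the coefficient of `X (Sum.inl b)` in the
affine equation is `rename (fun s => Sum.inr (emq hiq s)) (χ c b)`. Its value at the point is
`eval (fun s => P (emq hiq s)) (χ c b)` (`eval_rename`), its partial derivative with respect to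
`Sum.inl 0` is zero, and its partial derivative with respect to `Sum.inr s` is
the renamed partial derivative of `χ c b` for `s = emq hiq s'` (`pderiv_rename`, `emq` is injective)
and zero for the other `s`; by `hχ1` all these values vanish for `c = castSucc c'`, `b = 0`.
-/

namespace Pool.Agent.Lib_MP_c7e57a

open MvPolynomial

variable {n q i : ℕ}

/-- a homogeneous polynomial at a multiple of a point -/
private theorem ZeroQ2_smul {σ : Type*} {F : MvPolynomial σ ℂ} {k : ℕ} (hF : F.IsHomogeneous k)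
    (c : ℂ) (x : σ → ℂ) : eval (fun v => c * x v) F = c ^ k * eval x F := by
  rw [eval_eq, eval_eq, Finset.mul_sum]
  refine Finset.sum_congr rfl fun s hs => ?_
  have h1 : ∏ v ∈ s.support, (c * x v) ^ s v = c ^ k * ∏ v ∈ s.support, x v ^ s v := by
    have h2 : ∑ v ∈ s.support, s v = k := by
      have h3 : Finsupp.weight 1 s = k := hF (mem_support_iff.1 hs)
      have h4 : s.degree = k := by
        rw [Finsupp.degree_eq_weight_one]
        exact h3
      exact h4
    rw [Finset.prod_congr rfl fun v _ => mul_pow c (x v) (s v), Finset.prod_mul_distrib,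
      Finset.prod_pow_eq_pow_sum, h2]
  rw [h1]
  ring

/-- Euler's identity at a point -/
private theorem ZeroQ2_euler {σ : Type*} [Fintype σ] {F : MvPolynomial σ ℂ} {k : ℕ}
    (hF : F.IsHomogeneous k) (x : σ → ℂ) :
    ∑ v, x v * eval x (pderiv v F) = k * eval x F := by
  have h := congrArg (eval x) hF.sum_X_mul_pderiv
  rw [map_sum, map_nsmul, nsmul_eq_mul] at h
  rw [← h]
  refine Finset.sum_congr rfl fun v _ => ?_
  rw [map_mul, eval_X]

private theorem ZeroQ2_ae {σ : Type*} (x : σ → ℂ) (u : MvPolynomial σ ℂ) :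
    MvPolynomial.aeval x u = eval x u := rfl

private theorem ZeroQ2_ev {σ : Type*} (y : σ → ℂ) (m : σ) (p : Polynomial ℂ) :
    eval y (Polynomial.aeval (X m : MvPolynomial σ ℂ) p) = p.eval (y m) := by
  have h := Polynomial.aeval_algHom_apply (MvPolynomial.aeval y : MvPolynomial σ ℂ →ₐ[ℂ] ℂ)
    (X m) p
  rw [aeval_X, ZeroQ2_ae, Polynomial.coe_aeval_eq_eval] at h
  exact h.symm

private theorem ZeroQ2_pd_self {σ : Type*} (y : σ → ℂ) (m : σ) (p : Polynomial ℂ) :
    eval y (pderiv m (Polynomial.aeval (X m : MvPolynomial σ ℂ) p)) =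
      (Polynomial.derivative p).eval (y m) := by
  rw [(pderiv m).map_aeval, smul_eq_mul, pderiv_X_self, mul_one, ZeroQ2_ev]

private theorem ZeroQ2_pd_ne {σ : Type*} {j m : σ} (h : m ≠ j) (p : Polynomial ℂ) :
    pderiv j (Polynomial.aeval (X m : MvPolynomial σ ℂ) p) = 0 := by
  rw [(pderiv j).map_aeval, smul_eq_mul, pderiv_X_of_ne h, mul_zero]

private theorem ZeroQ2_rename {σ τ : Type*} (g : σ → τ) (W : MvPolynomial σ ℂ) {j : τ}
    (h : ∀ s, g s ≠ j) : pderiv j (rename g W) = 0 := by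
  classical
  refine pderiv_eq_zero_of_notMem_vars fun h1 => ?_
  obtain ⟨s, _, hs⟩ := Finset.mem_image.1 (vars_rename g W h1)
  exact h s hs

private theorem ZeroQ2_sum (ω : ℂ) (g : Fin (n + 1) → ℂ) :
    ∑ b, ω * tt0 n b * g b = ω * g 0 := by
  rw [Fin.sum_univ_succ]
  have h : ∑ b : Fin n, ω * tt0 n b.succ * g b.succ = 0 := by
    refine Finset.sum_eq_zero fun b _ => ?_
    have h1 : tt0 n b.succ = 0 := rfl
    rw [h1, mul_zero, zero_mul]
  have h0 : tt0 n 0 = 1 := rfl
  rw [h, h0, mul_one, add_zero]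

/-- the point in the chart -/
private noncomputable def ZeroQ2_y (n : ℕ) (ω : ℂ) (P : Fin q → ℂ) : Fin (n + 1) ⊕ Fin q → ℂ :=
  Sum.elim (fun b => ω * tt0 n b) P

/-- the point -/
private noncomputable def ZeroQ2_x (n : ℕ) (ω : ℂ) (P : Fin q → ℂ) : Vars n q → ℂ :=
  Sum.elim (fun b => ω * tt0 n b) (Fin.snoc (α := fun _ => ℂ) P 1)

private theorem ZeroQ2_tr (ω : ℂ) (P : Fin q → ℂ) (u : MvPolynomial (Vars n q) ℂ) :
    eval (ZeroQ2_x n ω P) u = eval (ZeroQ2_y n ω P) (dehz u) := by
  have h1 : ZeroQ2_x n ω P (Sum.inr (Fin.last q)) = 1 := by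
    unfold ZeroQ2_x
    rw [Sum.elim_inr, Fin.snoc_last]
  have h2 : (fun i => ZeroQ2_x n ω P (Sum.map id Fin.castSucc i)) = ZeroQ2_y n ω P := by
    funext i
    rcases i with b | s
    · rfl
    · unfold ZeroQ2_x ZeroQ2_y
      rw [Sum.map_inr, Sum.elim_inr, Sum.elim_inr, Fin.snoc_castSucc]
  have h := aeval_dehz (ZeroQ2_x n ω P) h1 u
  rw [h2, ZeroQ2_ae, ZeroQ2_ae] at h
  exact h

private theorem ZeroQ2_chi (hiq : i ≤ q) (ω : ℂ) (P : Fin q → ℂ)
    (χ : Fin (n + 1) → MvPolynomial (Fin i) ℂ) :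
    eval (ZeroQ2_y n ω P) (∑ b, X (Sum.inl b) *
      rename (fun s => Sum.inr (emq hiq s)) (χ b)) =
      ω * eval (fun s => P (emq hiq s)) (χ 0) := by
  rw [map_sum]
  rw [← ZeroQ2_sum ω fun b => eval (fun s => P (emq hiq s)) (χ b)]
  refine Finset.sum_congr rfl fun b _ => ?_
  rw [map_mul, eval_X, eval_rename]
  rfl

private theorem ZeroQ2_inj (hiq : i ≤ q) :
    Function.Injective (fun s => Sum.inr (emq hiq s) : Fin i → Fin (n + 1) ⊕ Fin q) := by
  intro s s' h
  have h1 : emq hiq s = emq hiq s' := Sum.inr_injective h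
  have h2 := congrArg Fin.val h1
  exact Fin.ext h2

private theorem ZeroQ2_chi_inr (hiq : i ≤ q) (ω : ℂ) (P : Fin q → ℂ) (s : Fin q)
    (χ : Fin (n + 1) → MvPolynomial (Fin i) ℂ)
    (h1 : ∀ s' : Fin i, eval (fun s => P (emq hiq s)) (pderiv s' (χ 0)) = 0) :
    eval (ZeroQ2_y n ω P) (pderiv (Sum.inr s) (∑ b, X (Sum.inl b) *
      rename (fun s => Sum.inr (emq hiq s)) (χ b))) = 0 := by
  rw [map_sum, map_sum]
  have h2 : ∀ b, eval (ZeroQ2_y n ω P) (pderiv (Sum.inr s) (X (Sum.inl b) *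
      rename (fun s => Sum.inr (emq hiq s)) (χ b))) = ω * tt0 n b *
      eval (ZeroQ2_y n ω P) (pderiv (Sum.inr s)
        (rename (fun s => Sum.inr (emq hiq s)) (χ b))) := by
    intro b
    rw [pderiv_mul, pderiv_X_of_ne Sum.inl_ne_inr, zero_mul, zero_add, map_mul, eval_X]
    rfl
  rw [Finset.sum_congr rfl fun b _ => h2 b, ZeroQ2_sum ω fun b =>
    eval (ZeroQ2_y n ω P) (pderiv (Sum.inr s) (rename (fun s => Sum.inr (emq hiq s)) (χ b)))]
  by_cases h : ∃ s', emq hiq s' = s
  · obtain ⟨s', rfl⟩ := h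
    have h3 : pderiv (Sum.inr (emq hiq s') : Fin (n + 1) ⊕ Fin q)
        (rename (fun s => Sum.inr (emq hiq s)) (χ 0)) =
        rename (fun s => Sum.inr (emq hiq s)) (pderiv s' (χ 0)) :=
      pderiv_rename (ZeroQ2_inj hiq) s' (χ 0)
    rw [h3, eval_rename]
    have h4 : (ZeroQ2_y n ω P ∘ fun s => Sum.inr (emq hiq s)) = fun s => P (emq hiq s) := rfl
    rw [h4, h1, mul_zero]
  · rw [ZeroQ2_rename _ _ (fun s' h3 => h ⟨s', Sum.inr_injective h3⟩), map_zero, mul_zero]

private theorem ZeroQ2_chi_inl (hiq : i ≤ q) (ω : ℂ) (P : Fin q → ℂ)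
    (χ : Fin (n + 1) → MvPolynomial (Fin i) ℂ) :
    eval (ZeroQ2_y n ω P) (pderiv (Sum.inl 0) (∑ b, X (Sum.inl b) *
      rename (fun s => Sum.inr (emq hiq s)) (χ b))) =
      eval (fun s => P (emq hiq s)) (χ 0) := by
  rw [map_sum, map_sum, Fin.sum_univ_succ]
  have h2 : ∑ b : Fin n, eval (ZeroQ2_y n ω P) (pderiv (Sum.inl 0) (X (Sum.inl b.succ) *
      rename (fun s => Sum.inr (emq hiq s)) (χ b.succ))) = 0 := by
    refine Finset.sum_eq_zero fun b _ => ?_
    rw [pderiv_mul, pderiv_X_of_ne (fun h => Fin.succ_ne_zero b (Sum.inl_injective h)), zero_mul,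
      ZeroQ2_rename _ _ (fun s => Sum.inr_ne_inl), mul_zero, add_zero, map_zero]
  rw [h2, add_zero, pderiv_mul, pderiv_X_self, ZeroQ2_rename _ _ (fun s => Sum.inr_ne_inl),
    mul_zero, add_zero, one_mul, eval_rename]
  rfl

theorem exists_zq2 {hiq : i ≤ q} {d : Fin (q + 1) → ℕ} (hd : ∀ c, 2 ≤ d c)
    {τ : Fin q → Polynomial ℂ} {V : Fin q → MvPolynomial (Fin i) ℂ}
    {χ : Fin (q + 1) → Fin (n + 1) → MvPolynomial (Fin i) ℂ}
    {f : Fin (q + 1) → MvPolynomial (Vars n q) ℂ} (hf : ∀ c, (f c).IsHomogeneous (d c))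
    (hfa : ∀ c, dehz (f c) = aff2 hiq d τ V χ c) (P : Fin q → ℂ)
    (hτ0 : ∀ c', (τ c').eval (P c') = eval (fun s => P (emq hiq s)) (V c'))
    (hτ1 : ∀ c', (Polynomial.derivative (τ c')).eval (P c') ≠ 0)
    (hV : ∀ s, V (emq hiq s) = 0)
    (hχ0 : ∀ c' : Fin q, eval (fun s => P (emq hiq s)) (χ (Fin.castSucc c') 0) = 0)
    (hχ1 : ∀ (c' : Fin q) (s : Fin i),
      eval (fun s => P (emq hiq s)) (pderiv s (χ (Fin.castSucc c') 0)) = 0)
    (hχl : eval (fun s => P (emq hiq s)) (χ (Fin.last q) 0) = 1) :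
    ∃ z : Fin (q + 1) → ℂ, (∀ c, eval (pt0 (n := n) 0 z) (f c) = 0) ∧
      (Matrix.of fun c s => eval (pt0 (n := n) 0 z) (pderiv (Sum.inr s) (f c))).det ≠ 0 := by
  classical
  have hD : 2 ≤ d (Fin.last q) := hd _
  obtain ⟨ω, hω⟩ := IsAlgClosed.exists_pow_nat_eq (-1 : ℂ) (n := d (Fin.last q) - 1) (by omega)
  have hω0 : ω ≠ 0 := by
    intro h
    rw [h, zero_pow (by omega)] at hω
    norm_num at hω
  have hωD : ω ^ d (Fin.last q) = -ω := by
    have h1 : d (Fin.last q) = (d (Fin.last q) - 1) + 1 := by omega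
    rw [h1, pow_succ, hω]
    ring
  set P' : Fin (q + 1) → ℂ := Fin.snoc (α := fun _ => ℂ) P 1 with hP'
  have hPl : P' (Fin.last q) = 1 := by rw [hP', Fin.snoc_last]
  have hPc : ∀ s, P' (Fin.castSucc s) = P s := fun s => by rw [hP', Fin.snoc_castSucc]
  -- values
  have hval : ∀ c, eval (ZeroQ2_x n ω P) (f c) = 0 := by
    intro c
    rw [ZeroQ2_tr, hfa]
    induction c using Fin.lastCases with
    | last =>
      rw [aff2_last, map_add, ZeroQ2_chi, hχl, map_pow, eval_X]
      have h1 : ZeroQ2_y n ω P (Sum.inl 0) = ω := mul_one ω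
      rw [h1, hωD]
      ring
    | cast c =>
      rw [aff2_castSucc, map_add, ZeroQ2_chi, hχ0, map_sub, ZeroQ2_ev, eval_rename]
      have h1 : (ZeroQ2_y n ω P ∘ fun s => Sum.inr (emq hiq s)) = fun s => P (emq hiq s) := rfl
      have h2 : ZeroQ2_y n ω P (Sum.inr c) = P c := rfl
      rw [h1, h2, hτ0]
      ring
  set J : Fin (q + 1) → Fin (q + 1) → ℂ := fun c s =>
    eval (ZeroQ2_x n ω P) (pderiv (Sum.inr s) (f c)) with hJ
  -- Euler
  have heul : ∀ c, ω * eval (ZeroQ2_x n ω P) (pderiv (Sum.inl 0) (f c)) + ∑ s, P' s * J c s = 0 := by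
    intro c
    have h1 := ZeroQ2_euler (hf c) (ZeroQ2_x n ω P)
    rw [hval, mul_zero, Fintype.sum_sum_type] at h1
    rw [← h1]
    congr 1
    exact (ZeroQ2_sum ω fun b => eval (ZeroQ2_x n ω P) (pderiv (Sum.inl b) (f c))).symm
  have hinl : ∀ c, eval (ZeroQ2_x n ω P) (pderiv (Sum.inl 0) (f c)) =
      eval (ZeroQ2_y n ω P) (pderiv (Sum.inl 0) (aff2 hiq d τ V χ c)) := by
    intro c
    rw [ZeroQ2_tr, ← hfa, ← pderiv_dehz]
    rfl
  have hrow : ∀ c' : Fin q, ∑ s, P' s * J (Fin.castSucc c') s = 0 := by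
    intro c'
    have h1 := heul (Fin.castSucc c')
    rw [hinl, aff2_castSucc, map_add, map_add, ZeroQ2_chi_inl, hχ0, map_sub,
      ZeroQ2_pd_ne Sum.inr_ne_inl, ZeroQ2_rename _ _ (fun s => Sum.inr_ne_inl), sub_zero, map_zero,
      add_zero, mul_zero, zero_add] at h1
    exact h1
  have hrowl : ∑ s, P' s * J (Fin.last q) s = ω * ((d (Fin.last q) : ℂ) - 1) := by
    have h1 := heul (Fin.last q)
    have h2 : ZeroQ2_y n ω P (Sum.inl 0) = ω := mul_one ω
    rw [hinl, aff2_last, map_add, map_add, ZeroQ2_chi_inl, hχl, pderiv_pow, pderiv_X_self, mul_one,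
      map_mul, map_pow, eval_X, h2, hω, map_natCast] at h1
    linear_combination h1
  -- the matrix in the small variables
  have hJc : ∀ c' s' : Fin q, J (Fin.castSucc c') (Fin.castSucc s') =
      eval (ZeroQ2_y n ω P) (pderiv (Sum.inr s') (Polynomial.aeval (X (Sum.inr c')) (τ c'))) -
      eval (ZeroQ2_y n ω P) (pderiv (Sum.inr s')
        (rename (fun s => Sum.inr (emq hiq s)) (V c'))) := by
    intro c' s'
    have h1 : J (Fin.castSucc c') (Fin.castSucc s') = eval (ZeroQ2_y n ω P)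
        (pderiv (Sum.inr s') (aff2 hiq d τ V χ (Fin.castSucc c'))) := by
      rw [hJ, ← hfa, ← pderiv_dehz]
      exact ZeroQ2_tr ω P _
    rw [h1, aff2_castSucc, map_add, map_add, ZeroQ2_chi_inr hiq ω P _ _ (hχ1 c'), add_zero, map_sub,
      map_sub]
  have hJself : ∀ c' : Fin q, J (Fin.castSucc c') (Fin.castSucc c') =
      (Polynomial.derivative (τ c')).eval (P c') -
      eval (ZeroQ2_y n ω P) (pderiv (Sum.inr c')
        (rename (fun s => Sum.inr (emq hiq s)) (V c'))) := by
    intro c'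
    rw [hJc, ZeroQ2_pd_self]
    rfl
  have hJne : ∀ c' s' : Fin q, c' ≠ s' → J (Fin.castSucc c') (Fin.castSucc s') =
      - eval (ZeroQ2_y n ω P) (pderiv (Sum.inr s')
        (rename (fun s => Sum.inr (emq hiq s)) (V c'))) := by
    intro c' s' hne
    rw [hJc, ZeroQ2_pd_ne (fun h => hne (Sum.inr_injective h)), map_zero, zero_sub]
  have hWV : ∀ c' s' : Fin q, (c'.val < i ∨ i ≤ s'.val) →
      eval (ZeroQ2_y n ω P) (pderiv (Sum.inr s')
        (rename (fun s => Sum.inr (emq hiq s)) (V c'))) = 0 := by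
    rintro c' s' (h | h)
    · have h1 : V c' = 0 := hV ⟨c'.val, h⟩
      rw [h1, map_zero, map_zero, map_zero]
    · rw [ZeroQ2_rename, map_zero]
      intro s hs
      have h1 : emq hiq s = s' := Sum.inr_injective hs
      have h2 := congrArg Fin.val h1
      have h3 : (emq hiq s).val = s.val := rfl
      have h4 := s.isLt
      omega
  -- the point
  refine ⟨fun s => ω⁻¹ * P' s, ?_, ?_⟩
  all_goals
    have hpt : pt0 (n := n) 0 (fun s => ω⁻¹ * P' s) = fun v => ω⁻¹ * ZeroQ2_x n ω P v := by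
      funext v
      rcases v with b | s
      · change tt0 n b + ∑ s, (0 : Fin (n + 1) → Fin (q + 1) → ℂ) b s * (ω⁻¹ * P' s) =
          ω⁻¹ * (ω * tt0 n b)
        rw [← mul_assoc, inv_mul_cancel₀ hω0, one_mul]
        simp
      · rfl
  · intro c
    rw [hpt, ZeroQ2_smul (hf c), hval, mul_zero]
  · rw [hpt]
    intro hdet
    obtain ⟨u, hu0, hu⟩ := Matrix.exists_mulVec_eq_zero_iff.2 hdet
    have hJu : ∀ c, ∑ s, J c s * u s = 0 := by
      intro c
      have h1 : ∑ s, eval (fun v => ω⁻¹ * ZeroQ2_x n ω P v) (pderiv (Sum.inr s) (f c)) * u s = 0 :=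
        congrFun hu c
      have h2 : ∀ s, eval (fun v => ω⁻¹ * ZeroQ2_x n ω P v) (pderiv (Sum.inr s) (f c)) * u s =
          ω⁻¹ ^ (d c - 1) * (J c s * u s) := by
        intro s
        rw [ZeroQ2_smul (hf c).pderiv, mul_assoc]
      rw [Finset.sum_congr rfl fun s _ => h2 s, ← Finset.mul_sum] at h1
      exact (mul_eq_zero.1 h1).resolve_left (pow_ne_zero _ (inv_ne_zero hω0))
    set u' : Fin (q + 1) → ℂ := fun s => u s - u (Fin.last q) * P' s with hu'
    have hu'l : u' (Fin.last q) = 0 := by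
      rw [hu']
      simp only [hPl, mul_one, sub_self]
    have hJu' : ∀ c' : Fin q, ∑ s' : Fin q, J (Fin.castSucc c') (Fin.castSucc s') *
        u' (Fin.castSucc s') = 0 := by
      intro c'
      have h1 : ∑ s, J (Fin.castSucc c') s * u' s = 0 := by
        have h2 : ∀ s, J (Fin.castSucc c') s * u' s = J (Fin.castSucc c') s * u s -
            u (Fin.last q) * (P' s * J (Fin.castSucc c') s) := by
          intro s
          rw [hu']
          ring
        rw [Finset.sum_congr rfl fun s _ => h2 s, Finset.sum_sub_distrib, hJu, ← Finset.mul_sum,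
          hrow, mul_zero, sub_zero]
      rw [Fin.sum_univ_castSucc, hu'l, mul_zero, add_zero] at h1
      exact h1
    have hsmall : ∀ c' : Fin q, c'.val < i → u' (Fin.castSucc c') = 0 := by
      intro c' hc
      have h1 := hJu' c'
      rw [Finset.sum_eq_single c' (fun s' _ hs => by
        rw [hJne c' s' (Ne.symm hs), hWV c' s' (Or.inl hc), neg_zero, zero_mul])
        (fun h => absurd (Finset.mem_univ _) h), hJself, hWV c' c' (Or.inl hc), sub_zero] at h1
      exact (mul_eq_zero.1 h1).resolve_left (hτ1 c')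
    have hall : ∀ c' : Fin q, u' (Fin.castSucc c') = 0 := by
      intro c'
      by_cases hc : c'.val < i
      · exact hsmall c' hc
      · have h1 := hJu' c'
        rw [Finset.sum_eq_single c' (fun s' _ hs => by
          by_cases hs' : s'.val < i
          · rw [hsmall s' hs', mul_zero]
          · rw [hJne c' s' (Ne.symm hs), hWV c' s' (Or.inr (not_lt.1 hs')), neg_zero, zero_mul])
          (fun h => absurd (Finset.mem_univ _) h), hJself, hWV c' c' (Or.inr (not_lt.1 hc)),
          sub_zero] at h1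
        exact (mul_eq_zero.1 h1).resolve_left (hτ1 c')
    have huP : ∀ s, u s = u (Fin.last q) * P' s := by
      intro s
      have h1 : u' s = 0 := by
        induction s using Fin.lastCases with
        | last => exact hu'l
        | cast s => exact hall s
      exact sub_eq_zero.1 h1
    have hlast := hJu (Fin.last q)
    have h2 : ∀ s, J (Fin.last q) s * u s = u (Fin.last q) * (P' s * J (Fin.last q) s) := by
      intro s
      rw [huP s]
      ring
    rw [Finset.sum_congr rfl fun s _ => h2 s, ← Finset.mul_sum, hrowl] at hlast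
    have hD1 : (d (Fin.last q) : ℂ) - 1 ≠ 0 := by
      rw [sub_ne_zero]
      have : d (Fin.last q) ≠ 1 := by omega
      exact_mod_cast this
    have hul : u (Fin.last q) = 0 :=
      (mul_eq_zero.1 hlast).resolve_right (mul_ne_zero hω0 hD1)
    apply hu0
    funext s
    rw [huP s, hul, zero_mul]
    rfl

end Pool.Agent.Lib_MP_c7e57a
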