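import Pool.Agent.Lib_MP_c7e57a.Forms2
import Pool.Agent.Lib_MP_c7e57a.DerAff2
import Pool.Agent.Lib_MP_c7e57a.ZeroQ2
import Pool.Agent.Lib_MP_c7e57a.JetEval
import Pool.Agent.Lib_MP_c7e57a.Solve2
import Pool.Agent.Lib_MP_c7e57a.Uni

/-!
# The second special complete intersection
-/

namespace Pool.Agent.Lib_MP_c7e57a

open MvPolynomial Topology

variable {n q i β : ℕ}

theorem eval_aeval_poly {σ : Type*} (y : σ → ℂ) (m : σ) (p : Polynomial ℂ) :
    eval y (Polynomial.aeval (X m : MvPolynomial σ ℂ) p) = p.eval (y m) := by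
  have h := Polynomial.aeval_algHom_apply (MvPolynomial.aeval y : MvPolynomial σ ℂ →ₐ[ℂ] ℂ)
    (X m) p
  rw [aeval_X, Polynomial.coe_aeval_eq_eval] at h
  exact h.symm

theorem exists_special2 (hi : 1 ≤ i) (hiq : i ≤ q) {blk : Fin β × Fin (i + 1) → Fin (n + 1)}
    (hblk : Function.Injective blk) {P : Fin β → (Fin i →₀ ℕ)}
    {T : Fin (q + 1) → (Fin i →₀ ℕ)} (hTl : T (Fin.last q) = 0)
    (hTe : ∀ s, T (emb hiq s) = Finsupp.single s 1) {j : ℕ} (hj : 1 ≤ j)
    (hcov : ∀ w : Fin i →₀ ℕ, w.degree < j → ∃ b s, w = P b + T s) :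
    ∃ d₀ : ℕ, ∀ d : Fin (q + 1) → ℕ, (∀ c, d₀ ≤ d c) → ∀ m : ℕ,
      ∃ φ₀ : (Σ c, Mon (Vars n q) (d c)) → ℂ, ∀ᶠ φ' in 𝓝 φ₀,
        Good hi hiq (fun _ : Unit => j) m d (poly d φ') := by
  classical
  let γ : Fin (q + 1) → MvPolynomial (Fin i) ℂ := fun s => monomial (T s) 1
  have hγ1 : γ (Fin.last q) = 1 := by
    show monomial (T (Fin.last q)) (1 : ℂ) = 1
    rw [hTl]
    rfl
  have hγ2 : ∀ s, γ (Fin.castSucc (emq hiq s)) = X s := by
    intro s
    show monomial (T (emb hiq s)) (1 : ℂ) = X s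
    rw [hTe]
    rfl
  have hγX : (fun x => γ (Fin.castSucc (emq hiq x))) = X := funext hγ2
  have hγid : ∀ p : MvPolynomial (Fin i) ℂ,
      aeval (fun x => γ (Fin.castSucc (emq hiq x))) p = p := by
    intro p
    rw [hγX]
    exact aeval_X_left_apply p
  have hγc : ∀ s, constantCoeff (γ s) ≠ 2 := by
    intro s
    show constantCoeff (monomial (T s) (1 : ℂ)) ≠ 2
    rw [constantCoeff_monomial]
    split_ifs <;> norm_num
  -- the polynomials `τ`
  have hτ : ∀ c' : Fin q, ∃ D : ℕ, ∀ d ≥ D, ∃ τ : Polynomial ℂ, τ.Monic ∧ τ.natDegree = d ∧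
      (c'.val < i → (Polynomial.X - Polynomial.C 0) ^ (j + 1) ∣
        τ - (Polynomial.X - Polynomial.C 0) ^ j ∧
        (Polynomial.X - Polynomial.C 2) ^ 2 ∣ τ - (Polynomial.X - Polynomial.C 2)) ∧
      (i ≤ c'.val →
        (Polynomial.X - Polynomial.C (constantCoeff (γ (Fin.castSucc c')))) ^ (j + 1) ∣
          τ - Polynomial.X ∧
        (Polynomial.X - Polynomial.C 2) ^ 2 ∣
          τ - (Polynomial.C (eval (fun _ => 2) (γ (Fin.castSucc c'))) +
            (Polynomial.X - Polynomial.C 2))) := by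
    intro c'
    by_cases hc : c'.val < i
    · obtain ⟨D, hD⟩ := exists_tau_low (φ := Unit) (ψ := Unit) (t := fun _ => 0)
        (fun _ _ _ => rfl) (fun _ => j) (p := fun _ => 2) (fun _ _ => two_ne_zero)
      refine ⟨D, fun d hd => ?_⟩
      obtain ⟨τ, h3, h4, h5, h6⟩ := hD d hd
      exact ⟨τ, h3, h4, fun _ => ⟨h5 (), h6 ()⟩, fun h => absurd h (by omega)⟩
    · obtain ⟨D, hD⟩ := exists_tau_high (φ := Unit) (ψ := Unit)
        (fun _ => constantCoeff (γ (Fin.castSucc c'))) (j + 1) (p := fun _ => 2)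
        (fun _ _ _ => rfl) (fun _ _ => (hγc _).symm)
        (fun _ => eval (fun _ => 2) (γ (Fin.castSucc c')))
      refine ⟨D, fun d hd => ?_⟩
      obtain ⟨τ, h3, h4, h5, h6⟩ := hD d hd
      exact ⟨τ, h3, h4, fun h => absurd h hc, fun _ => ⟨h5 (), h6 ()⟩⟩
  choose D hD using hτ
  -- the cut-off polynomials
  obtain ⟨e₀, he1, he2⟩ := exists_chi (φ := Unit) (ψ := Unit) (t := fun _ => 0)
    (fun _ _ _ => rfl) (j + 2) (p := fun _ => 2) (fun _ _ _ => rfl)
    (fun _ _ => two_ne_zero) (fun _ => 1) (fun _ => 0)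
  obtain ⟨e₁, he3, he4⟩ := exists_chi (φ := Unit) (ψ := Unit) (t := fun _ => 0)
    (fun _ _ _ => rfl) (j + 2) (p := fun _ => 2) (fun _ _ _ => rfl)
    (fun _ _ => two_ne_zero) (fun _ => 0) (fun _ => 1)
  let E₀ : MvPolynomial (Fin i) ℂ := Polynomial.aeval (X ⟨0, hi⟩) e₀
  let E₁ : MvPolynomial (Fin i) ℂ := Polynomial.aeval (X ⟨0, hi⟩) e₁
  have hX0 : (X ⟨0, hi⟩ : MvPolynomial (Fin i) ℂ) - C 0 ∈ idealOfVars (Fin i) ℂ := by
    rw [C_0, sub_zero]
    exact X_mem _
  have hE₀ : E₀ - 1 ∈ (idealOfVars (Fin i) ℂ) ^ j := by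
    have h1 := jet_eval hX0 (he1 ()) (J := j) (by omega)
    rwa [Polynomial.aeval_C, map_one] at h1
  have hE₁ : E₁ ∈ (idealOfVars (Fin i) ℂ) ^ j := by
    have h1 := jet_eval hX0 (he3 ()) (J := j) (by omega)
    rwa [Polynomial.aeval_C, map_zero, sub_zero] at h1
  let χ : Fin (q + 1) → Fin (n + 1) → MvPolynomial (Fin i) ℂ := fun c b =>
    E₀ * mainPart hiq blk P c b + if c = Fin.last q then E₁ else 0
  let V' : Fin q → MvPolynomial (Fin i) ℂ := fun c' =>
    if c'.val < i then 0 else γ (Fin.castSucc c')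
  have hV' : ∀ s, V' (emq hiq s) = 0 := fun s => if_pos s.2
  have hV'' : ∀ c' : Fin q, i ≤ c'.val → V' c' = γ (Fin.castSucc c') := fun c' hc' =>
    if_neg (by omega)
  refine ⟨2 + ∑ c', (D c' + (V' c').totalDegree + 1) + ∑ c, ∑ b, ((χ c b).totalDegree + 2),
    fun d hd m => ?_⟩
  have hsum1 : ∀ c', D c' + (V' c').totalDegree + 1 ≤
      ∑ c', (D c' + (V' c').totalDegree + 1) := fun c' =>
    Finset.single_le_sum (f := fun c' => D c' + (V' c').totalDegree + 1)
      (fun _ _ => Nat.zero_le _) (Finset.mem_univ c')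
  have hsum2 : ∀ c b, (χ c b).totalDegree + 2 ≤ ∑ c, ∑ b, ((χ c b).totalDegree + 2) :=
    fun c b =>
    (Finset.single_le_sum (f := fun b => (χ c b).totalDegree + 2)
      (fun _ _ => Nat.zero_le _) (Finset.mem_univ b)).trans
    (Finset.single_le_sum (f := fun c => ∑ b, ((χ c b).totalDegree + 2))
      (fun _ _ => Nat.zero_le _) (Finset.mem_univ c))
  have hτ : ∀ c' : Fin q, ∃ τ : Polynomial ℂ, τ.Monic ∧ τ.natDegree = d (Fin.castSucc c') ∧
      (c'.val < i → (Polynomial.X - Polynomial.C 0) ^ (j + 1) ∣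
        τ - (Polynomial.X - Polynomial.C 0) ^ j ∧
        (Polynomial.X - Polynomial.C 2) ^ 2 ∣ τ - (Polynomial.X - Polynomial.C 2)) ∧
      (i ≤ c'.val →
        (Polynomial.X - Polynomial.C (constantCoeff (γ (Fin.castSucc c')))) ^ (j + 1) ∣
          τ - Polynomial.X ∧
        (Polynomial.X - Polynomial.C 2) ^ 2 ∣
          τ - (Polynomial.C (eval (fun _ => 2) (γ (Fin.castSucc c'))) +
            (Polynomial.X - Polynomial.C 2))) := by
    intro c'
    refine hD c' (d (Fin.castSucc c')) ?_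
    have h3 := hsum1 c'
    have h4 := hd (Fin.castSucc c')
    omega
  choose τ hτm hτd hτl hτh using hτ
  obtain ⟨f, hf, hfa, hfG⟩ := exists_forms2 (n := n) hiq (d := d) (τ := τ) (V := V') (χ := χ)
    (fun c => by have := hd c; omega) (fun c' => ⟨hτm c', hτd c'⟩)
    (fun c' => by
      have h3 := hsum1 c'
      have h4 := hd (Fin.castSucc c')
      omega)
    (fun c b => by
      have h3 := hsum2 c b
      have h4 := hd c
      omega)
  have hd2 : ∀ c, 2 ≤ d c := fun c => by have := hd c; omega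
  have hlow : ∀ s : Fin i, (emq hiq s).val < i := fun s => s.2
  have hev0 : eval (fun _ => (2 : ℂ)) E₀ = 0 := by
    rw [eval_aeval_poly, eval_of_dvd (by omega) (he2 ()), Polynomial.eval_C]
  have hev1 : eval (fun _ => (2 : ℂ)) E₁ = 1 := by
    rw [eval_aeval_poly, eval_of_dvd (by omega) (he4 ()), Polynomial.eval_C]
  have hevd : ∀ s, eval (fun _ => (2 : ℂ)) (pderiv s E₀) = 0 := by
    intro s
    show eval _ (pderiv s (Polynomial.aeval (X ⟨0, hi⟩) e₀)) = 0
    rw [(pderiv s).map_aeval, smul_eq_mul, map_mul, eval_aeval_poly,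
      eval_derivative_of_dvd (by omega) (he2 ()), Polynomial.derivative_C, Polynomial.eval_zero,
      zero_mul]
  -- the nondegenerate point of the fibre
  obtain ⟨z, hz, hJ⟩ := exists_zq2 hd2 hf hfa (fun _ => 2) (by
      intro c'
      by_cases hc : c'.val < i
      · obtain ⟨s, rfl⟩ : ∃ s : Fin i, c' = emq hiq s := ⟨⟨c'.val, hc⟩, rfl⟩
        rw [eval_of_dvd (by omega) (hτl _ hc).2, hV', map_zero, Polynomial.eval_sub,
          Polynomial.eval_X, Polynomial.eval_C, sub_self]
      · rw [eval_of_dvd (by omega) (hτh c' (by omega)).2, hV'' c' (by omega)]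
        simp) (by
      intro c'
      by_cases hc : c'.val < i
      · rw [eval_derivative_of_dvd le_rfl (hτl c' hc).2]
        simp
      · rw [eval_derivative_of_dvd le_rfl (hτh c' (by omega)).2]
        simp) hV' (by
      intro c'
      show eval (fun _ => (2 : ℂ)) (E₀ * mainPart hiq blk P (Fin.castSucc c') 0 +
        if Fin.castSucc c' = Fin.last q then E₁ else 0) = 0
      rw [if_neg (Fin.castSucc_lt_last c').ne, add_zero, map_mul, hev0, zero_mul]) (by
      intro c' s
      show eval (fun _ => (2 : ℂ)) (pderiv s (E₀ * mainPart hiq blk P (Fin.castSucc c') 0 +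
        if Fin.castSucc c' = Fin.last q then E₁ else 0)) = 0
      rw [if_neg (Fin.castSucc_lt_last c').ne, add_zero, pderiv_mul, map_add, map_mul, map_mul,
        hevd, hev0, zero_mul, zero_mul, add_zero]) (by
      show eval (fun _ => (2 : ℂ)) (E₀ * mainPart hiq blk P (Fin.last q) 0 +
        if Fin.last q = Fin.last q then E₁ else 0) = 1
      rw [if_pos rfl, map_add, map_mul, hev0, hev1, zero_mul, zero_add])
  refine ⟨_, good_near hi hiq (fun _ : Unit => j) (fun _ => γ) (fun _ _ => 0)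
    (fun _ => hγ1) ?_ (fun _ _ _ => rfl) hf ?_ hz hJ ?_ ?_⟩
  · intro a s
    show γ (Fin.castSucc (emq hiq s)) = C 0 + X s
    rw [hγ2, C_0, zero_add]
  · -- the point lies on the complete intersection
    intro a c
    rw [value_aff2 (hd2 _) (hfa c) hγ1]
    refine Fin.lastCases ?_ (fun c' => ?_) c
    · rw [Fin.lastCases_last]
      exact zero_mem _
    · rw [Fin.lastCases_castSucc]
      by_cases hc : c'.val < i
      · obtain ⟨s, rfl⟩ : ∃ s : Fin i, c' = emq hiq s := ⟨⟨c'.val, hc⟩, rfl⟩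
        rw [hV', map_zero, sub_zero, hγ2]
        have e1 := jet_eval (x := X s) (β := 0) (by rw [C_0, sub_zero]; exact X_mem s)
          (hτl (emq hiq s) hc).1 (J := j) (by omega)
        have e2 : Polynomial.aeval (X s : MvPolynomial (Fin i) ℂ)
            ((Polynomial.X - Polynomial.C (0 : ℂ)) ^ j) = X s ^ j := by
          rw [map_pow, map_sub, Polynomial.aeval_X, Polynomial.aeval_C, map_zero, sub_zero]
        rw [e2] at e1
        have e3 := Ideal.add_mem ((idealOfVars (Fin i) ℂ) ^ j) e1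
          (Ideal.pow_mem_pow (X_mem s) j)
        rwa [sub_add_cancel] at e3
      · rw [hV'' c' (by omega), hγid]
        have e1 := jet_eval (sub_const_mem (γ (Fin.castSucc c')))
          (hτh c' (by omega)).1 (J := j) (by omega)
        rwa [Polynomial.aeval_X] at e1
  · -- the linear system
    intro h
    obtain ⟨l, v2, hv⟩ := solve2 hiq hblk hcov (γ := γ) (fun s => rfl) (τ := τ) (V' := V')
      (χ := χ) (by
        intro c b
        rw [hγid]
        show E₀ * mainPart hiq blk P c b + (if c = Fin.last q then E₁ else 0) -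
          mainPart hiq blk P c b ∈ (idealOfVars (Fin i) ℂ) ^ j
        have e1 : E₀ * mainPart hiq blk P c b + (if c = Fin.last q then E₁ else 0) -
            mainPart hiq blk P c b = (E₀ - 1) * mainPart hiq blk P c b +
              if c = Fin.last q then E₁ else 0 := by ring
        rw [e1]
        refine Ideal.add_mem _ (Ideal.mul_mem_right _ _ hE₀) ?_
        split_ifs
        · exact hE₁
        · exact zero_mem _) (by
        intro c' hc'
        have e1 := jet_eval_derivative (sub_const_mem (γ (Fin.castSucc c')))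
          (hτh c' hc').1 (J := j) (by omega)
        rwa [Polynomial.derivative_X, map_one] at e1) (fun c => h c ())
    refine ⟨l, fun _ _ => 0, fun c _ => v2 c, fun c a => ?_⟩
    rw [deriv_aff2 (hd2 _) (hfa c) hγ1 l (by
      unfold dlt
      rw [dif_neg (by simp only [Fin.val_last]; omega), if_pos rfl])]
    exact hv c a
  · choose Gc hG using hfG
    exact det_ne_zero hG

end Pool.Agent.Lib_MP_c7e57a
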